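import Mathlib
set_option autoImplicit false

/-! Sparse integer vectors, packed comparisons, lookup tables. -/

namespace Pool.Agent.Helper805.Mod.Sparse

/-- sparse integer vectors: `p k a t` has the entry `a` at `k`, `n k a t` the entry `-a` -/
inductive SV
  | nil : SV
  | p : ℕ → ℕ → SV → SV
  | n : ℕ → ℕ → SV → SV

namespace SV

/-- the coefficient of the basis vector `l` -/
def cf (l : ℕ) : SV → ℤ
  | nil => 0
  | p k a t => (if k = l then (a : ℤ) else 0) + cf l t
  | n k a t => (if k = l then -(a : ℤ) else 0) + cf l t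

/-- all keys are below `N` -/
def Ok (N : ℕ) : SV → Prop
  | nil => True
  | p k _ t => k < N ∧ Ok N t
  | n k _ t => k < N ∧ Ok N t

/-- positive part of a linear combination along a sparse vector of numbers `f m - g m` -/
noncomputable def lin (f g : ℕ → ℕ) (v : SV) : ℕ :=
  SV.rec (motive := fun _ => ℕ) 0 (fun k a _ ih => Nat.add (Nat.mul a (f k)) ih)
    (fun k a _ ih => Nat.add (Nat.mul a (g k)) ih) v

theorem lin_p (f g : ℕ → ℕ) (k a : ℕ) (t : SV) : lin f g (p k a t) = a * f k + lin f g t := rfl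
theorem lin_n (f g : ℕ → ℕ) (k a : ℕ) (t : SV) : lin f g (n k a t) = a * g k + lin f g t := rfl

theorem lin_eq {N : ℕ} (f g : ℕ → ℕ) {v : SV} (hv : v.Ok N) :
    (lin f g v : ℤ) - (lin g f v : ℤ) = ∑ m : Fin N, cf m v * ((f m : ℤ) - (g m : ℤ)) := by
  induction v with
  | nil => simp [cf, lin]
  | p k a t ih =>
    rw [lin_p, lin_p]
    simp only [cf, add_mul, Finset.sum_add_distrib]
    rw [← ih hv.2, Finset.sum_eq_single (⟨k, hv.1⟩ : Fin N)]
    · simp only [if_true]; push_cast; ring
    · intro b _ hb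
      rw [if_neg, zero_mul]
      intro h
      exact hb (Fin.ext h.symm)
    · intro h; exact absurd (Finset.mem_univ _) h
  | n k a t ih =>
    rw [lin_n, lin_n]
    simp only [cf, add_mul, Finset.sum_add_distrib]
    rw [← ih hv.2, Finset.sum_eq_single (⟨k, hv.1⟩ : Fin N)]
    · simp only [if_true]; push_cast; ring
    · intro b _ hb
      rw [if_neg, zero_mul]
      intro h
      exact hb (Fin.ext h.symm)
    · intro h; exact absurd (Finset.mem_univ _) h

/-- the sum of the absolute values of the entries -/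
noncomputable def abs1 (v : SV) : ℕ :=
  SV.rec (motive := fun _ => ℕ) 0 (fun _ a _ ih => Nat.add a ih) (fun _ a _ ih => Nat.add a ih) v

theorem abs1_p (k a : ℕ) (t : SV) : abs1 (p k a t) = a + abs1 t := rfl
theorem abs1_n (k a : ℕ) (t : SV) : abs1 (n k a t) = a + abs1 t := rfl

theorem abs_cf_le (l : ℕ) (v : SV) : |cf l v| ≤ (abs1 v : ℤ) := by
  induction v with
  | nil => simp [cf, abs1]
  | p k a t ih =>
    rw [abs1_p, cf]
    push_cast
    split_ifs with h
    · calc |(a : ℤ) + cf l t| ≤ |(a : ℤ)| + |cf l t| := abs_add_le _ _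
        _ ≤ _ := by rw [Nat.abs_cast]; linarith
    · rw [zero_add]; have : (0 : ℤ) ≤ a := Int.natCast_nonneg a; linarith
  | n k a t ih =>
    rw [abs1_n, cf]
    push_cast
    split_ifs with h
    · calc |-(a : ℤ) + cf l t| ≤ |-(a : ℤ)| + |cf l t| := abs_add_le _ _
        _ ≤ _ := by rw [abs_neg, Nat.abs_cast]; linarith
    · rw [zero_add]; have : (0 : ℤ) ≤ a := Int.natCast_nonneg a; linarith

theorem sum_single_abs {N k : ℕ} (hk : k < N) (c : ℤ) : ∑ m : Fin N, |if k = (m : ℕ) then c else 0| = |c| := by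
  rw [Finset.sum_eq_single (⟨k, hk⟩ : Fin N)]
  · simp
  · intro b _ hb
    rw [if_neg, abs_zero]
    intro h
    exact hb (Fin.ext h.symm)
  · intro h; exact absurd (Finset.mem_univ _) h

theorem sum_abs_cf_le {N : ℕ} {v : SV} (hv : v.Ok N) : ∑ m : Fin N, |cf m v| ≤ (abs1 v : ℤ) := by
  induction v with
  | nil => simp [cf, abs1]
  | p k a t ih =>
    rw [abs1_p]
    push_cast
    have h1 : ∑ m : Fin N, |cf m (p k a t)| ≤ ∑ m : Fin N, (|if k = (m : ℕ) then (a : ℤ) else 0| + |cf m t|) :=
      Finset.sum_le_sum (fun m _ => abs_add_le _ _)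
    rw [Finset.sum_add_distrib, sum_single_abs hv.1, Nat.abs_cast] at h1
    have := ih hv.2
    linarith
  | n k a t ih =>
    rw [abs1_n]
    push_cast
    have h1 : ∑ m : Fin N, |cf m (n k a t)| ≤ ∑ m : Fin N, (|if k = (m : ℕ) then -(a : ℤ) else 0| + |cf m t|) :=
      Finset.sum_le_sum (fun m _ => abs_add_le _ _)
    rw [Finset.sum_add_distrib, sum_single_abs hv.1, abs_neg, Nat.abs_cast] at h1
    have := ih hv.2
    linarith

end SV

/-- uniqueness of balanced digits -/
theorem digits_zero (B : ℤ) (hB : 0 < B) : ∀ (N : ℕ) (a : ℕ → ℤ), (∀ l < N, |a l| < B) →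
    ∑ l ∈ Finset.range N, a l * B ^ l = 0 → ∀ l < N, a l = 0 := by
  intro N
  induction N with
  | zero => intro a _ _ l hl; omega
  | succ N ih =>
    intro a ha hs
    rw [Finset.sum_range_succ'] at hs
    simp only [pow_succ, pow_zero, mul_one] at hs
    have h1 : ∑ k ∈ Finset.range N, a (k + 1) * (B ^ k * B) = B * ∑ k ∈ Finset.range N, a (k + 1) * B ^ k := by
      rw [Finset.mul_sum]
      refine Finset.sum_congr rfl fun k _ => ?_
      ring
    rw [h1] at hs
    have h2 : a 0 = 0 := by
      apply Int.eq_zero_of_abs_lt_dvd (m := B) _ (ha 0 (Nat.succ_pos N))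
      exact ⟨- ∑ k ∈ Finset.range N, a (k + 1) * B ^ k, by linarith⟩
    rw [h2, add_zero] at hs
    have h3 := (mul_eq_zero.mp hs).resolve_left hB.ne'
    intro l hl
    cases l with
    | zero => exact h2
    | succ l => exact ih (fun k => a (k + 1)) (fun k hk => ha (k + 1) (by omega)) h3 l (by omega)

/-- binary lookup tables -/
inductive Tb (α : Type) : Type
  | e : Tb α
  | l : α → Tb α
  | n : Tb α → Tb α → Tb α

noncomputable def Tb.get {α : Type} (d : α) (t : Tb α) : ℕ → α :=
  Tb.rec (motive := fun _ => ℕ → α) (fun _ => d) (fun a _ => a)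
    (fun _ _ f g k => cond (Nat.beq (Nat.mod k 2) 0) (f (Nat.div k 2)) (g (Nat.div k 2))) t

end Pool.Agent.Helper805.Mod.Sparse
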