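import Pool.Agent.Helper805.Mod.Data
set_option autoImplicit false

/-! The checks: grading, size of the structure constants, super-alternativity. -/

namespace Pool.Agent.Helper805.Mod.Chk
open Pool.Agent.Helper805.Mod.Sparse Pool.Agent.Helper805.Mod.Data

/-- weight of an index in packed vectors, base `2 ^ 32` -/
noncomputable def pw (k : ℕ) : ℕ := Nat.pow 4294967296 (pos k)

/-- packed product of basis vectors, positive part -/
noncomputable def VP (i j : ℕ) : ℕ := SV.lin pw (fun _ => 0) (T i j)
/-- packed product of basis vectors, negative part -/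
noncomputable def VN (i j : ℕ) : ℕ := SV.lin (fun _ => 0) pw (T i j)

/-- packed associator of basis vectors, positive part -/
noncomputable def PP (i j k : ℕ) : ℕ :=
  Nat.add (SV.lin (fun m => VP m k) (fun m => VN m k) (T i j)) (SV.lin (fun m => VN i m) (fun m => VP i m) (T j k))
/-- packed associator of basis vectors, negative part -/
noncomputable def PN (i j k : ℕ) : ℕ :=
  Nat.add (SV.lin (fun m => VN m k) (fun m => VP m k) (T i j)) (SV.lin (fun m => VP i m) (fun m => VN i m) (T j k))

/-- are both numbers odd? -/
def odd2 (a b : ℕ) : Bool := Nat.beq (Nat.mul (Nat.mod a 2) (Nat.mod b 2)) 1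

/-- equality of two associators up to the sign -/
noncomputable def eqA (s : Bool) (i j k i' j' k' : ℕ) : Bool :=
  cond s (Nat.beq (Nat.add (PP i j k) (PN i' j' k')) (Nat.add (PN i j k) (PP i' j' k')))
    (Nat.beq (Nat.add (PP i j k) (PP i' j' k')) (Nat.add (PN i j k) (PN i' j' k')))

/-- all entries have keys below `144` of the right degrees -/
noncomputable def gr (u w : ℕ) (v : SV) : Bool :=
  SV.rec (motive := fun _ => Bool) true
    (fun k _ _ ih => and (Nat.ble (Nat.succ k) 144) (and (Nat.beq (wx k) u) (and (Nat.beq (wa k) w) ih)))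
    (fun k _ _ ih => and (Nat.ble (Nat.succ k) 144) (and (Nat.beq (wx k) u) (and (Nat.beq (wa k) w) ih))) v

/-- lists of indices -/
noncomputable def allN (f : ℕ → Bool) (L : List ℕ) : Bool :=
  List.rec (motive := fun _ => Bool) true (fun i _ ih => and (f i) ih) L

noncomputable def allC (f : ℕ → ℕ → List ℕ → Bool) (L : List (ℕ × ℕ × List ℕ)) : Bool :=
  List.rec (motive := fun _ => Bool) true
    (fun c _ ih => Prod.rec (motive := fun _ => Bool) (fun u d => Prod.rec (motive := fun _ => Bool)
      (fun w l => and (f u w l) ih) d) c) L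

noncomputable def chkGrade : Bool :=
  allC (fun u w l => allC (fun u' w' l' => allN (fun i => allN (fun j =>
    and (gr (Nat.add u u') (Nat.add w w') (T i j)) (Nat.ble (SV.abs1 (T i j)) 8192)) l') l) comps) comps

/-- left super-alternativity for the first two arguments in given components -/
noncomputable def fL (u w : ℕ) (l : List ℕ) (u' w' : ℕ) (l' : List ℕ) : Bool :=
  cond (and (Nat.ble (Nat.add u u') 8) (Nat.ble (Nat.add w w') 2))
    (allC (fun u'' w'' l'' => cond (and (Nat.ble (Nat.add (Nat.add u u') u'') 8) (Nat.ble (Nat.add (Nat.add w w') w'') 2))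
      (allN (fun i => allN (fun j => cond (Nat.ble i j)
        (allN (fun k => eqA (odd2 u u') i j k j i k) l'') true) l') l) true) comps) true

/-- right super-alternativity -/
noncomputable def fR (u w : ℕ) (l : List ℕ) (u' w' : ℕ) (l' : List ℕ) : Bool :=
  cond (and (Nat.ble (Nat.add u u') 8) (Nat.ble (Nat.add w w') 2))
    (allC (fun u'' w'' l'' => cond (and (Nat.ble (Nat.add (Nat.add u u') u'') 8) (Nat.ble (Nat.add (Nat.add w w') w'') 2))
      (allN (fun i => allN (fun j => allN (fun k => cond (Nat.ble j k)
        (eqA (odd2 u' u'') i j k i k j) true) l'') l') l) true) comps) true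

end Pool.Agent.Helper805.Mod.Chk
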