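import Pool.Agent.Helper805.Mod.Sparse
set_option autoImplicit false

/-! Structure constants of an alternative superring of rank 144 over the integers, generated by an odd
element (index 0) and an even element (index 1); found by computer. -/

namespace Pool.Agent.Helper805.Mod.Data
open Pool.Agent.Helper805.Mod.Sparse Tb
open SV renaming n → m, nil → o, p → q

def r0 : Tb SV := (n (n (n (n (n (n (n (n (l (q 2 1 o)) e) (n (l (q 101 13 (m 102 9 (q 103 21 (q 104 50 (q 105 3 (m 106 3 (q 107 6 (m 108 20 (m 109 10 (m 110 1 (q 111 3 (q 112 10 (m 113 2 (q 114 4 (m 115 20 (m 116 15 (m 117 1 (q 118 1 o))))))))))))))))))) e)) (n (n (l (q 61 1 (m 62 22 (m 63 8 (m 65 2 (q 66 7 (m 67 2 (m 68 4 (q 69 13 (m 70 9 (q 71 6 (m 72 2 (q 73 3 (m 74 11 (q 75 6 (m 76 1 (m 77 7 (q 79 1 (q 80 12 o))))))))))))))))))) e) (n (l (q 127 1 o)) e))) (n (n (n (l (q 31 5 (m 32 6 (m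 33 6 (q 34 5 (m 35 3 (q 36 2 (q 37 2 (q 38 1 (m 39 1 (m 41 1 o))))))))))) e) (n (l (q 101 4 (m 102 7 (q 103 20 (q 104 35 (q 105 8 (m 106 2 (q 107 3 (m 108 12 (m 109 5 (q 110 1 (q 111 5 (q 112 6 (m 113 2 (q 114 6 (m 115 15 (m 116 14 (q 117 2 o)))))))))))))))))) e)) (n (n (l (q 81 1 (m 82 6 (m 83 3 (m 85 6 (m 86 1 (q 87 2 (q 88 3 (q 89 1 (q 90 2 (m 91 1 (q 92 1 (q 93 1 o))))))))))))) e) e))) (n (n (n (n (l (m 15 6 (q 16 14 (m 17 9 (m 18 5 (m 19 4 (q 20 39 (q 21 1 (m 22 4 o))))))))) (l (q 142 1 o))) (n (l (m 101 33 (q 102 35 (m 103 69 (m 104 66 (m 105 18 (m 106 17 (q 107 6 (q 108 38 (m 109 2 (q 110 1 (m 112 18 (q 113 6 (m 114 10 (q 115 42 (q 116 22 (m 117 2 (m 118 1 o)))))))))))))))))) e)) (n (n (l (q 61 1 (m 62 2 (q 63 1 (q 64 1 (q 65 1 (m 66 2 (q 69 1 (q 70 1 (q 72 1 (m 73 1 (m 76 1 (q 78 1 o))))))))))))) e) (n (l (q 129 1 o)) e))) (n (n (n (l (q 45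 6 (q 46 10 (m 47 5 (m 48 1 (q 49 4 (q 50 6 (q 51 3 (q 52 3 (q 53 7 (m 54 3 (q 55 1 o)))))))))))) e) e) (n (n (l (m 95 6 (q 96 1 (m 97 2 (m 98 2 (q 99 2 (m 100 1 o))))))) e) (n (l (q 137 1 o)) e))))) (n (n (n (n (n (l (m 7 3 (q 8 1 (q 9 1 (q 10 2 o))))) e) (n (l (m 101 19 (q 102 7 (m 103 3 (m 104 10 (m 105 25 (q 106 5 (m 107 18 (q 108 26 (q 109 18 (m 110 7 (m 111 3 (m 112 1 (m 113 2 (m 114 7 (q 115 13 (q 116 15 (q 117 2 o)))))))))))))))))) e)) (n (n (l (q 61 3 (q 62 6 (q 63 6 (q 64 3 (m 65 5 (m 66 1 (q 67 4 (q 69 2 (q 70 2 (q 71 1 (q 72 3 (q 76 4 (q 77 1 (q 78 1 (m 80 3 o)))))))))))))))) e) (n (l (q 127 1 o)) e))) (n (n (n (l (q 38 1 (q 39 1 (q 40 1 o)))) e) (n (l (m 120 1 (m 121 1 (q 125 1 o)))) e)) (n (n (l (m 81 17 (q 82 2 (q 83 5 (q 84 2 (q 85 11 (q 86 5 (m 87 5 (q 89 4 (m 90 2 (q 91 4 (q 92 5 (q 94 5 o))))))))))))) e) e))) (n (n (n (n (l (m 27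 5 (m 28 3 (q 29 4 o)))) e) (n (l (q 101 2 (q 103 4 (m 104 2 (q 106 4 (m 107 6 (q 108 7 (q 109 6 (m 110 5 (m 111 4 (m 112 1 (m 113 3 (q 114 2 (m 115 2 (q 116 6 (q 117 5 (q 118 3 o))))))))))))))))) e)) (n (n (l (q 61 7 (m 62 34 (m 63 8 (q 64 7 (m 65 5 (q 66 10 (q 67 2 (m 68 3 (q 69 22 (m 70 11 (q 71 10 (q 72 3 (q 73 5 (m 74 17 (q 75 10 (q 76 3 (m 77 10 (q 78 3 (q 79 1 (q 80 14 o))))))))))))))))))))) e) (n (l (q 134 1 o)) e))) (n (n (n (l (m 56 2 (q 58 2 (q 59 3 (q 60 1 o))))) e) (n (l (m 120 1 (q 121 1 (q 122 1 o)))) e)) (n (n (l (m 95 1 (q 97 2 (m 98 1 (q 100 1 o))))) e) e))))) (n (n (n (n (n (n (l (q 6 1 o)) (l (q 140 1 o))) (n (l (m 101 9 (q 102 3 (m 103 5 (m 104 15 (q 105 5 (q 106 1 (q 107 1 (q 108 4 (q 109 1 (q 110 2 (q 111 2 (m 112 3 (q 113 2 (q 114 1 (q 115 3 (m 116 2 o))))))))))))))))) e)) (n (n (l (q 61 3 (q 62 4 (q 63 1 (q 64 6 (q 65 2 (m 66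 1 (q 67 6 (q 68 6 (m 69 4 (q 70 3 (q 71 1 (q 72 7 (m 73 1 (q 74 4 (m 75 2 (q 76 1 (q 77 2 (q 78 2 (q 79 1 (m 80 5 o))))))))))))))))))))) e) (n (l (m 127 1 o)) e))) (n (n (n (l (q 31 10 (m 32 10 (m 33 11 (q 34 12 (m 35 9 (q 36 7 (q 37 1 (q 38 1 (m 39 5 (m 40 5 (m 41 2 (m 42 2 (m 44 2 o)))))))))))))) e) (n (l (m 121 1 (q 123 1 o))) e)) (n (n (l (m 81 2 (q 82 3 (q 83 4 (q 84 2 (q 85 12 (q 86 4 (m 87 4 (q 88 1 (q 89 2 (m 90 2 (q 91 4 (m 92 1 (m 93 1 (q 94 3 o))))))))))))))) e) e))) (n (n (n (n (l (q 15 1 (m 16 6 (q 17 5 (q 18 1 (q 19 3 (m 20 19 (m 21 2 (q 22 3 o))))))))) e) (n (l (q 101 54 (m 102 29 (q 103 95 (q 104 107 (q 105 29 (q 106 40 (m 107 36 (q 108 5 (q 109 33 (m 110 1 (q 111 5 (q 112 6 (m 113 19 (q 114 1 (m 115 51 (m 116 12 (q 117 2 o)))))))))))))))))) e)) (n (n (l (q 61 8 (m 62 9 (q 63 2 (q 64 9 (m 65 4 (q 66 5 (q 67 4 (q 69 10 (m 70 2 (q 71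 5 (q 72 6 (q 73 1 (m 74 6 (q 75 3 (q 76 5 (m 77 4 (q 78 3 (q 79 1 (q 80 2 o)))))))))))))))))))) e) (n (l (q 128 1 o)) e))) (n (n (n (l (q 45 5 (q 46 9 (m 47 6 (m 48 2 (q 49 6 (q 50 8 (q 51 5 (q 52 4 (q 53 7 (m 54 2 (q 55 2 o)))))))))))) e) (n (l (q 120 1 (q 121 1 (q 126 1 o)))) e)) (n (n (l (q 95 2 (q 98 1 (m 100 1 o)))) e) (n (l (q 135 1 o)) e))))) (n (n (n (n (n (l (q 12 4 (q 13 5 (q 14 1 o)))) e) (n (l (m 101 23 (q 102 5 (q 103 11 (q 104 20 (m 105 28 (m 106 2 (m 107 7 (q 108 10 (q 109 1 (q 111 10 (q 112 10 (q 113 3 (q 114 3 (m 115 4 (m 116 11 (q 117 1 o))))))))))))))))) e)) (n (n (l (m 62 28 (m 63 12 (q 64 1 (m 65 1 (q 66 8 (m 67 1 (m 68 2 (q 69 14 (m 70 10 (q 71 7 (q 73 4 (m 74 12 (q 75 7 (m 76 1 (m 77 8 (q 78 1 (q 79 1 (q 80 14 o))))))))))))))))))) e) e)) (n (n (n (l (m 31 24 (q 32 17 (q 33 16 (m 34 28 (q 35 25 (m 36 16 (q 37 2 (q 38 1 (q 39 18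 (q 40 21 (q 41 5 (q 42 4 (q 43 1 (q 44 8 o))))))))))))))) e) (n (l (m 120 1 (m 121 1 o))) e)) (n (n (l (m 81 3 (m 82 1 (m 83 10 (q 84 2 (q 85 9 (q 86 5 (q 87 5 (q 88 1 (m 89 2 (q 90 7 (q 91 6 (m 92 1 (m 93 2 (m 94 3 o))))))))))))))) e) e))) (n (n (n (n (l (q 27 6 (q 28 3 (m 29 5 (m 30 1 o))))) (l (q 143 1 o))) (n (l (q 101 38 (m 102 26 (q 103 27 (q 104 15 (q 105 40 (q 106 10 (q 107 10 (m 108 41 (m 109 7 (q 110 6 (m 111 5 (q 112 2 (m 113 3 (q 114 8 (m 115 21 (m 116 11 (m 117 1 (m 118 1 o))))))))))))))))))) e)) (n (n (l (m 81 15 (m 83 7 (q 84 1 (q 85 12 (q 86 5 (q 88 1 (q 89 1 (q 90 4 (q 91 2 (q 92 3 o))))))))))) e) (n (l (q 131 1 o)) e))) (n (n (n (l (q 56 5 (m 57 1 (m 58 4 (m 59 6 (m 60 1 o)))))) e) (n (l (q 121 1 (q 122 1 o))) e)) (n (n (l (m 101 4 (m 103 2 (q 104 1 (m 105 6 (m 106 2 (m 108 2 (q 110 1 (q 111 2 (q 112 2 (q 113 3 (m 114 1 (q 115 4 (m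 117 1 (m 118 3 o))))))))))))))) e) e)))))) (n (n (n (n (n (n (n (l (m 3 2 (m 4 1 o))) e) (n (l (m 101 10 (q 102 3 (m 103 6 (m 104 15 (m 105 3 (q 106 2 (m 107 2 (q 108 7 (q 109 4 (m 110 1 (m 112 4 (q 113 3 (q 114 2 (q 115 5 (q 116 3 (q 117 1 (m 118 2 o)))))))))))))))))) e)) (n (n (l (q 62 21 (q 63 8 (q 65 2 (m 66 7 (q 67 2 (q 68 4 (m 69 13 (q 70 9 (m 71 6 (q 72 2 (m 73 3 (q 74 11 (m 75 6 (q 77 7 (m 79 1 (m 80 12 o))))))))))))))))) e) (n (l (m 127 2 o)) e))) (n (n (n (l (q 31 32 (m 32 28 (m 33 28 (q 34 38 (m 35 31 (q 36 22 (q 38 1 (m 39 21 (m 40 22 (m 41 7 (m 42 6 (m 43 1 (m 44 9 o)))))))))))))) e) (n (l (q 119 1 o)) e)) (n (n (l (m 82 3 (q 83 8 (m 84 1 (m 85 9 (m 86 2 (m 87 3 (m 88 1 (q 89 2 (m 90 6 (m 91 1 (q 92 1 (q 94 3 o))))))))))))) e) e))) (n (n (n (n (l (m 15 8 (q 16 17 (m 17 12 (m 18 5 (m 19 5 (q 20 49 (q 21 1 (m 22 5 o))))))))) (l (q 141 1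 o))) (n (l (m 101 6 (q 102 3 (m 103 10 (q 104 5 (m 105 5 (m 106 5 (q 107 5 (m 108 5 (m 109 6 (q 110 1 (q 111 4 (q 112 1 (q 113 5 (q 114 2 (q 115 2 (m 116 5 (m 117 2 (m 118 1 o))))))))))))))))))) e)) (n (n (l (q 61 6 (m 62 21 (m 63 6 (q 64 9 (m 65 3 (q 66 7 (q 67 6 (q 68 2 (q 69 13 (m 70 6 (q 71 8 (q 72 7 (q 73 3 (m 74 9 (q 75 6 (q 76 3 (m 77 5 (q 78 3 (q 79 2 (q 80 6 o))))))))))))))))))))) e) (n (l (q 130 1 o)) e))) (n (n (n (l (m 49 2 (q 52 1 (m 53 1 o)))) e) (n (l (q 120 2 (m 122 1 (q 126 1 o)))) e)) (n (n (l (m 95 2 (q 96 2 (m 98 1 o)))) e) (n (l (q 138 1 o)) e))))) (n (n (n (n (n (l (q 12 1 (q 13 1 o))) (l (m 139 1 o))) (n (l (m 101 12 (m 102 1 (m 103 1 (m 104 24 (m 105 3 (q 106 6 (m 107 11 (q 108 12 (q 109 15 (m 112 7 (q 113 4 (m 114 4 (q 115 14 (q 116 9 (q 117 1 (m 118 4 o))))))))))))))))) e)) (n (n (l (m 61 10 (q 62 23 (q 63 1 (m 64 12 (q 65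 5 (m 66 8 (m 67 6 (m 69 19 (q 70 5 (m 71 9 (m 72 9 (m 73 2 (q 74 12 (m 75 8 (m 76 5 (q 77 6 (m 78 5 (m 79 3 (m 80 7 o)))))))))))))))))))) e) e)) (n (n (n (l (m 31 14 (q 32 9 (q 33 6 (m 34 16 (q 35 15 (m 36 11 (q 37 3 (q 39 12 (q 40 14 (q 41 4 (q 42 4 (q 43 1 (q 44 5 o)))))))))))))) e) (n (l (q 120 1 (q 121 2 o))) e)) (n (n (l (m 81 16 (q 82 4 (m 83 8 (q 84 3 (q 85 22 (q 86 8 (m 88 1 (m 89 2 (q 90 3 (q 91 4 (m 92 1 (m 93 3 (m 94 1 o)))))))))))))) e) e))) (n (n (n (n (l (q 27 3 (q 28 2 (m 29 3 o)))) e) (n (l (m 101 47 (q 102 31 (m 103 95 (m 104 93 (m 105 17 (m 106 43 (q 107 31 (q 108 7 (m 109 26 (q 110 1 (m 111 4 (m 112 19 (q 113 13 (m 114 5 (q 115 56 (q 116 18 (q 117 1 o)))))))))))))))))) e)) (n (n (l (q 81 15 (m 82 4 (q 83 9 (m 84 2 (m 85 22 (m 86 8 (q 88 2 (q 89 1 (m 90 4 (m 91 4 (q 93 2 (q 94 1 o))))))))))))) e) (n (l (m 128 1 (m 133 1 o))) e)))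 (n (n (n (l (m 56 1 (q 59 2 (m 60 1 o)))) e) (n (l (m 120 2 (m 121 2 (m 126 1 o)))) e)) (n (n (l (m 101 2 (m 102 1 (q 103 4 (q 104 1 (m 105 1 (m 107 2 (q 108 1 (q 109 2 (q 110 2 (q 111 1 (q 115 3 (q 118 1 o))))))))))))) e) e))))) (n (n (n (n (n (n (l (q 7 2 (m 9 1 (m 10 1 o)))) e) (n (l (q 101 32 (m 102 32 (q 103 60 (q 104 37 (q 105 37 (q 106 22 (m 107 8 (m 108 33 (q 109 5 (q 110 2 (q 112 14 (m 113 2 (q 114 12 (m 115 41 (m 116 20 (q 117 1 o))))))))))))))))) e)) (n (n (l (q 61 5 (m 62 10 (m 63 1 (q 64 9 (m 65 4 (q 66 5 (q 67 6 (q 68 2 (q 69 10 (m 70 2 (q 71 6 (q 72 8 (q 73 1 (m 74 6 (q 75 4 (q 76 5 (m 77 3 (q 78 4 (q 79 2 (q 80 3 o))))))))))))))))))))) e) (n (l (q 127 1 o)) e))) (n (n (n (l (m 31 38 (q 32 28 (q 33 23 (m 34 44 (q 35 39 (m 36 26 (q 37 4 (q 38 1 (q 39 30 (q 40 32 (q 41 9 (q 42 8 (q 43 3 (q 44 13 o))))))))))))))) e) (n (l (q 120 2 (q 121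 2 (q 124 1 o)))) e)) (n (n (l (q 81 7 (m 82 5 (m 83 5 (m 84 6 (m 85 17 (m 86 12 (m 89 2 (q 90 3 (m 91 12 (m 92 2 (q 93 5 (m 94 3 o))))))))))))) e) e))) (n (n (n (n (l (m 24 1 (q 26 1 o))) e) (n (l (q 101 36 (m 102 16 (q 103 81 (q 104 116 (q 105 4 (q 106 33 (m 107 34 (q 108 15 (q 109 27 (m 110 1 (q 111 13 (q 112 12 (m 113 16 (m 115 49 (m 116 18 (m 118 2 o))))))))))))))))) e)) (n (n (l (m 61 3 (q 62 26 (q 63 8 (m 64 4 (q 65 5 (m 66 8 (q 68 5 (m 69 19 (q 70 11 (m 71 8 (m 73 4 (q 74 16 (m 75 9 (m 76 4 (q 77 9 (m 78 1 (m 79 1 (m 80 13 o))))))))))))))))))) e) (n (l (m 128 1 (q 134 1 o))) e))) (n (n (n (l (q 56 1 (m 58 1 (m 60 1 o)))) e) (n (l (m 120 2 (m 121 2 (q 122 1 o)))) e)) (n (n (l (m 95 5 (m 98 1 (q 99 1 o)))) e) e)))) (n (n (n (n (n (l (m 15 3 (q 16 5 (m 17 3 (m 18 2 (m 19 1 (q 20 13 (m 22 1 o)))))))) e) (n (l (m 101 33 (q 102 29 (m 103 47 (m 104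 19 (m 105 42 (m 106 21 (q 107 10 (q 108 28 (m 109 10 (m 110 1 (q 111 6 (m 112 9 (q 113 4 (m 114 10 (q 115 29 (q 116 7 o))))))))))))))))) e)) (n (n (l (m 61 3 (q 62 29 (q 63 10 (m 64 3 (q 65 1 (m 66 8 (q 67 1 (q 68 2 (m 69 15 (q 70 9 (m 71 7 (m 72 1 (m 73 3 (q 74 12 (m 75 7 (q 76 1 (q 77 8 (m 78 2 (m 79 1 (m 80 13 o))))))))))))))))))))) e) e)) (n (n (n (l (q 45 2 (q 46 3 (m 47 1 (q 49 1 (q 50 1 (q 53 2 (m 54 1 o)))))))) e) (n (l (q 120 2 (q 121 2 o))) e)) (n (n (l (m 81 10 (m 82 2 (m 83 3 (q 84 8 (q 85 15 (q 86 20 (q 87 9 (q 88 6 (m 89 2 (m 90 4 (q 91 19 (q 92 2 (m 93 11 (q 94 1 o))))))))))))))) e) (n (l (q 136 1 o)) e)))) (n (n (n (n (l (m 31 18 (q 32 14 (q 33 13 (m 34 21 (q 35 18 (m 36 12 (q 37 1 (q 39 13 (q 40 14 (q 41 4 (q 42 3 (q 43 1 (q 44 6 o)))))))))))))) e) (n (l (q 101 34 (m 102 25 (q 103 44 (q 104 28 (q 105 9 (q 106 13 (m 107 12 (m 108 25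 (q 109 7 (m 110 2 (m 111 6 (q 112 18 (m 113 4 (q 114 7 (m 115 21 (m 116 2 (q 117 1 (q 118 1 o))))))))))))))))))) e)) (n (n (l (m 81 20 (q 82 4 (q 83 2 (q 84 6 (q 85 22 (q 86 8 (m 87 4 (q 88 2 (q 89 1 (q 91 7 (q 92 2 (m 93 3 (q 94 5 o)))))))))))))) e) (n (l (q 132 1 o)) e))) (n (n (n (l (q 61 4 (m 62 16 (m 63 2 (q 64 4 (m 65 5 (q 66 6 (m 68 4 (q 69 14 (m 70 5 (q 71 5 (q 72 1 (q 73 2 (m 74 10 (q 75 6 (q 76 3 (m 77 5 (q 78 2 (q 79 1 (q 80 7 o)))))))))))))))))))) e) (n (l (m 127 1 o)) e)) (n (n (l (q 101 4 (q 102 1 (m 103 4 (m 104 2 (q 105 4 (q 107 4 (m 108 2 (m 109 4 (m 111 4 (m 112 1 (m 113 2 (q 114 1 (m 115 2 (q 116 1 (q 117 1 (q 118 1 o))))))))))))))))) e) e)))))))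
def r1 : Tb SV := (n (n (n (n (n (n (n (n (l (m 3 1 o)) (l (m 141 1 o))) (n (l (q 119 27 (q 120 1 (q 121 6 (m 122 4 (q 123 7 (q 124 15 (q 125 3 (m 126 18 o))))))))) e)) (n (n (l (m 81 34 (m 82 12 (m 83 51 (m 84 54 (m 85 24 (m 86 71 (m 87 59 (q 88 62 (m 89 57 (m 91 59 (m 92 52 (m 93 23 (m 94 8 o)))))))))))))) e) (n (l (m 128 2 (m 130 6 (m 131 1 (q 132 2 (q 133 1 o)))))) e))) (n (n (n (l (m 45 4 (m 46 1 (q 47 1 (q 49 5 (q 51 1 (m 52 3 (m 53 1 (m 54 1 (q 55 1 o)))))))))) e) (n (l (q 119 20 (q 120 3 (q 121 7 (m 122 1 (q 123 11 (q 124 9 (m 125 1 (m 126 9 o))))))))) e)) (n e (n (l (q 137 1 (q 138 1 o))) e)))) (n (n (n (n (l (q 23 11 (m 24 4 (q 25 10 (q 26 2 o))))) e) (n (l (m 119 27 (q 120 6 (m 121 10 (q 122 2 (m 123 2 (m 124 13 (m 125 4 (q 126 15 o))))))))) e)) (n (n (l (q 81 9 (m 82 2 (q 83 1 (q 84 1 (m 85 6 (m 86 3 (m 87 3 (m 88 7 (m 89 10 (m 90 10 (q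 91 1 (m 92 10 (m 93 14 o)))))))))))))) e) e)) (n e (n (n (l (m 102 1 (m 104 2 (m 105 15 (q 106 1 (m 107 6 (q 108 3 (q 109 5 (m 110 10 (q 111 1 (m 112 1 (q 114 1 (m 115 7 (q 116 4 (q 117 2 (q 118 3 o)))))))))))))))) e) e)))) (n (n (n (n (n (l (q 11 1 o)) e) (n (l (m 119 9 (q 120 2 (q 121 3 (q 122 2 (m 124 4 (q 125 2 (q 126 10 o)))))))) e)) (n (n (l (q 81 6 (q 82 6 (q 83 13 (q 84 14 (q 85 11 (q 86 25 (q 87 21 (m 88 14 (q 89 21 (q 90 4 (q 91 19 (q 92 21 (q 93 13 (q 94 4 o))))))))))))))) e) (n (l (m 128 1 (q 130 16 (m 131 1 (m 132 1 (m 134 5 o)))))) e))) (n (n (n (l (q 45 1 (q 53 1 o))) e) e) (n e (n (l (m 135 1 (q 137 1 o))) e)))) (n (n (n (n (l (q 31 1 (m 32 5 (m 33 5 (m 34 1 (q 35 3 (q 36 2 (q 37 2 (m 38 1 (m 39 3 (q 40 1 (q 43 2 o)))))))))))) (l (q 143 1 o))) (n (l (m 119 2 (m 120 3 (m 121 1 (q 123 1 (m 124 2 (m 125 4 (m 126 1 o)))))))) e)) (n (n (l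 (m 81 44 (m 82 31 (m 83 84 (m 84 88 (m 85 58 (m 86 110 (m 87 89 (q 88 70 (m 89 85 (m 90 18 (m 91 101 (m 92 79 (m 93 43 (m 94 13 o))))))))))))))) e) (n (l (m 135 1 (m 138 1 o))) e))) (n (n (n (l (q 61 3 (m 62 1 (q 63 1 (m 64 1 (q 65 1 (q 66 2 (m 67 1 (m 68 1 (m 69 1 (m 71 1 (m 72 1 (q 75 1 (m 76 3 (q 77 1 (m 78 1 (q 79 1 (m 80 1 o)))))))))))))))))) e) e) (n (n (l (q 102 1 (q 103 2 (q 105 12 (q 106 1 (m 107 4 (q 108 7 (q 109 5 (q 110 2 (q 112 1 (m 113 2 (q 114 1 (q 115 4 (q 116 3 (q 117 3 (m 118 7 o)))))))))))))))) e) e))))) (n (n (n (n (n (n (l (q 7 2 (m 8 2 (q 9 1 o)))) e) (n (l (m 119 6 (q 120 1 (m 121 2 (q 122 1 (m 124 5 (m 125 3 (q 126 2 o)))))))) e)) (n (n (l (m 82 9 (q 83 2 (m 85 12 (q 86 6 (q 87 8 (m 88 17 (q 89 11 (m 90 16 (m 91 10 (q 92 7 (q 93 4 (q 94 1 o))))))))))))) e) (n (l (m 128 1 (m 130 2 (m 131 2 (q 132 3 (m 133 1 (m 134 1 o)))))))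 e))) (n (n (n (l (m 45 9 (q 47 5 (q 48 1 (q 49 10 (m 50 3 (m 51 1 (m 52 9 (m 53 5 (m 54 1 o)))))))))) e) e) e)) (n (n (n (n (l (m 23 1 (m 25 3 o))) e) (n (l (q 119 52 (m 120 6 (q 121 12 (q 122 6 (q 123 11 (q 124 20 (q 125 9 (m 126 7 o))))))))) e)) (n (n (l (m 81 19 (m 82 12 (m 83 28 (m 84 30 (m 85 20 (m 86 32 (m 87 25 (q 88 22 (m 89 21 (m 90 9 (m 91 37 (m 92 20 (m 93 8 (m 94 3 o))))))))))))))) e) (n (l (q 137 2 (q 138 1 o))) e))) (n e (n (n (l (m 102 1 (m 103 6 (q 104 1 (m 105 12 (m 106 5 (q 107 9 (m 108 12 (m 109 10 (q 110 2 (q 111 1 (m 112 1 (q 113 3 (m 114 2 (m 115 1 (m 116 5 (m 117 4 (q 118 3 o)))))))))))))))))) e) e)))) (n (n (n (n (n (l (m 15 1 (q 16 1 (m 18 2 (q 19 1 (q 20 5 (m 21 1 (m 22 1 o)))))))) e) (n (l (q 119 2 (m 120 2 (q 121 6 (m 122 1 (m 123 1 (q 124 10 (q 125 3 (m 126 12 o))))))))) e)) (n (n (l (m 81 42 (m 82 24 (m 83 70 (m 84 75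 (m 85 45 (m 86 97 (m 87 79 (q 88 64 (m 89 72 (m 90 10 (m 91 88 (m 92 68 (m 93 32 (m 94 12 o))))))))))))))) e) (n (l (q 135 1 (q 138 1 o))) e))) (n (n (n (l (q 45 22 (m 46 1 (m 47 11 (m 48 2 (m 49 19 (q 50 7 (q 51 3 (q 52 18 (q 53 16 (q 55 1 o))))))))))) e) e) e)) (n (n (n (n (l (m 31 4 (q 32 8 (q 33 7 (m 34 2 (m 35 1 (m 36 4 (m 37 2 (q 39 5 (q 41 1 (q 42 1 (m 43 2 (q 44 1 o))))))))))))) e) (n (l (q 119 10 (m 120 3 (m 121 2 (q 122 1 (m 123 5 (q 125 3 o))))))) e)) (n e (n (l (m 137 1 (m 138 1 o))) e))) (n (n (n (l (m 61 1 (q 64 2 (m 65 1 (m 66 3 (q 69 2 (m 74 1 (q 76 4 (m 77 1 (q 78 1 (m 79 2 (m 80 1 o)))))))))))) e) e) (n (n (l (q 119 1 (q 120 3 (q 121 2 (q 123 1 (q 124 1 (q 125 2 (q 126 2 o)))))))) e) e)))))) (n (n (n (n (n (n (n e (l (q 142 1 o))) (n (l (m 119 7 (q 120 1 (m 121 1 (q 122 2 (q 123 1 (m 124 4 (m 125 3 (q 126 1 o))))))))) e)) (n (n (l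 (q 81 33 (q 82 11 (q 83 51 (q 84 54 (q 85 23 (q 86 70 (q 87 58 (m 88 61 (q 89 54 (m 90 2 (q 91 59 (q 92 49 (q 93 20 (q 94 8 o))))))))))))))) e) (n (l (m 130 2 (q 132 2 o))) e))) (n (n (n (l (m 45 29 (q 46 1 (q 47 16 (q 48 3 (q 49 29 (m 50 10 (m 51 4 (m 52 27 (m 53 19 (m 54 1 (m 55 1 o)))))))))))) e) e) (n e (n (l (m 135 1 (m 137 1 (m 138 1 o)))) e)))) (n (n (n (n (l (q 23 12 (m 24 4 (q 25 12 (q 26 2 o))))) e) (n (l (q 119 4 (q 120 4 (q 121 2 (m 122 5 (q 123 3 (q 124 3 (m 125 2 (m 126 8 o))))))))) e)) (n (n (l (m 81 36 (m 82 25 (m 83 55 (m 84 60 (m 85 44 (m 86 72 (m 87 57 (q 88 33 (m 89 47 (m 90 20 (m 91 78 (m 92 46 (m 93 22 (m 94 8 o))))))))))))))) e) e)) (n e (n (n (l (m 102 3 (m 103 7 (m 104 5 (m 105 21 (m 106 2 (q 107 1 (m 108 5 (m 110 15 (q 111 7 (m 112 5 (q 113 9 (q 114 1 (m 115 8 (m 116 3 (q 117 5 (q 118 1 o))))))))))))))))) e) e)))) (n (n (n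 (n (n (l (m 15 1 (q 16 1 (q 17 1 (m 18 3 (q 19 1 (q 20 3 (m 21 1 o)))))))) (l (m 141 1 o))) (n (l (m 119 12 (q 120 5 (q 121 2 (q 122 3 (q 123 3 (m 124 10 (m 125 2 (q 126 17 o))))))))) e)) (n (n (l (q 81 46 (q 82 28 (q 83 61 (q 84 65 (q 85 45 (q 86 79 (q 87 66 (m 88 56 (q 89 58 (q 90 25 (q 91 84 (q 92 55 (q 93 31 (q 94 7 o))))))))))))))) e) (n (l (q 136 1 o)) e))) (n (n (n (l (q 45 14 (m 46 2 (m 47 7 (m 49 11 (q 50 4 (q 51 1 (q 52 11 (q 53 11 (q 55 1 o)))))))))) e) e) (n e (n (l (q 135 1 o)) e)))) (n (n (n (n (l (m 31 1 (q 32 3 (q 33 3 (m 35 1 (m 36 1 (m 37 1 (q 38 1 (q 39 2 (m 43 1 o)))))))))) e) (n (l (m 119 35 (q 120 13 (m 121 10 (m 122 7 (q 123 8 (m 124 22 (m 125 16 (q 126 9 o))))))))) e)) (n e (n (l (m 137 2 o)) e))) (n (n (n (l (m 61 1 (m 62 1 (m 64 1 (m 66 1 (m 76 1 (q 80 1 o))))))) e) e) (n (n (l (q 120 1 (q 121 2 (q 122 2 (q 123 2 (q 125 1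 (q 126 6 o))))))) e) e))))) (n (n (n (n (n (n e (l (q 141 1 o))) (n (l (q 119 17 (m 120 7 (q 121 4 (m 123 3 (q 124 6 (q 125 1 (m 126 6 o)))))))) e)) (n (n (l (m 81 31 (m 82 17 (m 83 34 (m 84 35 (m 85 24 (m 86 38 (m 87 29 (q 88 35 (m 89 21 (m 90 10 (m 91 49 (m 92 20 (m 93 5 (m 94 4 o))))))))))))))) e) (n (l (q 128 2 (q 130 3 (m 131 2 (q 132 4 (m 133 4 (m 134 4 o))))))) e))) (n (n (n (l (q 45 33 (m 46 3 (m 47 18 (m 48 2 (m 49 31 (q 50 11 (q 51 4 (q 52 29 (q 53 24 (m 54 1 (q 55 2 o)))))))))))) e) e) (n e (n (l (q 137 1 (q 138 1 o))) e)))) (n (n (n e (n (l (q 119 53 (m 120 4 (q 121 15 (q 122 5 (q 123 9 (q 124 29 (q 125 14 (m 126 20 o))))))))) e)) (n (n (l (q 81 36 (q 82 17 (q 83 63 (q 84 63 (q 85 33 (q 86 77 (q 87 60 (m 88 71 (q 89 58 (m 90 2 (q 91 70 (q 92 51 (q 93 20 (q 94 10 o))))))))))))))) e) (n (l (m 135 1 o)) e))) (n (n (n (l (m 61 3 (m 62 2 (m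 63 2 (m 64 1 (m 66 3 (q 67 1 (q 68 1 (m 70 1 (q 71 1 (q 73 1 (m 75 1 (m 77 1 (m 79 1 (q 80 2 o))))))))))))))) e) e) (n (n (l (q 103 2 (m 104 2 (m 105 2 (q 106 2 (m 107 5 (q 108 5 (q 109 5 (m 110 3 (m 111 3 (m 113 2 (q 114 2 (q 115 1 (q 116 6 (q 117 4 (q 118 1 o)))))))))))))))) e) e)))) (n (n (n (n (n (l (q 23 5 (m 24 2 (q 25 4 (q 26 1 o))))) e) (n (l (m 119 13 (q 120 4 (m 121 1 (q 123 2 (q 124 1 (q 125 1 (m 126 7 o)))))))) e)) (n (n (l (q 81 37 (q 82 26 (q 83 68 (q 84 73 (q 85 49 (q 86 98 (q 87 80 (m 88 63 (q 89 80 (q 90 17 (q 91 86 (q 92 76 (q 93 42 (q 94 12 o))))))))))))))) e) e)) e) (n (n (n (n (l (q 45 16 (m 46 1 (m 47 9 (m 48 2 (m 49 16 (q 50 6 (q 51 3 (q 52 15 (q 53 11 (q 55 1 o))))))))))) e) (n (l (q 119 10 (m 120 9 (q 121 3 (m 122 3 (m 123 7 (q 124 7 (q 125 4 (m 126 6 o))))))))) e)) (n e (n (l (q 137 2 (q 138 1 o))) e))) (n (n (n (l (m 81 28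 (m 82 9 (m 83 37 (m 84 36 (m 85 15 (m 86 47 (m 87 40 (q 88 47 (m 89 37 (q 90 1 (m 91 40 (m 92 32 (m 93 16 (m 94 5 o))))))))))))))) e) (n (l (q 128 1 (m 130 1 (m 131 1 (m 133 2 (m 134 1 o)))))) e)) (n (n (l (m 119 1 (m 120 1 (m 121 1 (m 122 2 (m 124 1 (m 125 3 (m 126 5 o)))))))) e) (n (l (q 139 1 o)) e))))))))
def r2 : Tb SV := (n (n (n (n (n (n (n (n (l (q 5 1 o)) e) (n (l (m 128 3 (q 129 57 (m 130 16 (m 131 1 (q 132 5 (m 133 6 (m 134 10 o)))))))) e)) (n (n (l (m 101 86 (m 102 6 (q 103 76 (q 104 27 (q 105 12 (q 106 32 (m 107 37 (q 108 46 (q 109 37 (q 110 54 (q 111 37 (m 112 35 (q 113 2 (q 114 2 (q 115 22 (m 116 55 (m 118 12 o)))))))))))))))))) e) e)) (n (n (n (l (m 61 2 (q 62 1 (q 63 2 (q 64 2 (m 65 4 (q 66 2 (q 67 4 (q 69 4 (q 71 5 (q 72 2 (q 73 1 (m 75 1 (q 76 3 (m 77 1 (q 78 2 (q 80 1 o))))))))))))))))) e) (n (l (m 128 3 (q 129 39 (m 130 10 (q 131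 5 (q 132 6 (m 133 6 (m 134 6 o)))))))) e)) (n (n (l (q 119 3 (m 120 3 (m 121 4 (m 122 1 (m 123 4 (m 124 5 (m 125 1 (q 126 6 o))))))))) e) e))) (n (n (n (n (l (q 31 37 (m 32 14 (q 34 37 (m 35 40 (q 36 12 (m 37 2 (q 38 24 (m 39 1 (m 40 10 (m 41 8 (q 42 3 (m 43 5 (m 44 11 o)))))))))))))) (l (q 143 1 o))) (n (l (m 128 15 (m 129 82 (q 130 25 (m 131 4 (m 132 2 (q 133 23 (q 134 34 o)))))))) e)) (n (n (l (q 101 3 (m 102 2 (q 103 5 (q 104 4 (m 105 1 (q 106 1 (q 107 1 (q 108 1 (m 109 1 (q 110 3 (m 111 1 (m 112 6 (m 113 1 (q 115 1 (m 116 1 (m 117 3 (q 118 1 o)))))))))))))))))) e) e)) (n (n (n (l (m 81 64 (q 82 7 (q 83 4 (m 84 9 (q 85 44 (q 86 3 (m 87 39 (m 88 22 (q 89 12 (m 90 33 (m 91 15 (q 92 7 (m 93 9 (q 94 9 o))))))))))))))) e) e) (n (n (l (q 127 7 o)) e) (n (l (q 141 1 o)) e))))) (n (n (n (n (n (l (q 15 2 (q 16 3 (q 17 5 (m 18 10 (q 19 2 (q 20 11 (m 21 2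 (m 22 1 o))))))))) e) (n (l (q 128 4 (m 129 11 (m 130 9 (m 131 7 (m 132 5 (m 133 4 (q 134 4 o)))))))) e)) (n (n (l (q 101 14 (q 102 2 (m 103 28 (m 104 12 (m 105 2 (m 106 19 (q 107 24 (m 108 30 (m 109 26 (m 110 19 (m 111 4 (q 112 19 (q 113 11 (q 114 1 (m 115 14 (q 116 1 (q 117 6 (q 118 2 o))))))))))))))))))) e) e)) (n (n (n (l (m 62 1 (q 65 1 (m 66 1 (m 76 1 o))))) e) (n (l (m 137 1 (m 138 2 o))) e)) (n (n (l (m 119 9 (q 120 2 (q 121 11 (q 122 6 (q 123 3 (q 124 4 (q 125 3 (q 126 2 o))))))))) e) (n (l (m 139 1 o)) e)))) (n (n (n (n (l (m 56 2 (m 58 1 (m 60 1 o)))) e) (n (l (q 128 1 (m 129 2 (m 130 1 (m 131 1 (m 133 2 (q 134 1 o))))))) e)) (n (n (l (m 101 154 (q 102 1 (q 103 121 (q 104 57 (q 105 6 (q 106 58 (m 107 79 (q 108 97 (q 109 73 (q 110 57 (q 111 59 (m 112 45 (q 113 6 (q 114 2 (q 115 14 (m 116 80 (q 117 14 (m 118 11 o))))))))))))))))))) e) e))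 (n (n (n (l (m 95 2 (m 96 1 (q 97 3 o)))) e) (n (l (q 135 1 (m 137 1 (q 138 1 o)))) e)) (n (n (l (m 127 3 o)) e) (n (l (m 141 1 o)) e)))))) (n (n (n (n (n (n (l (q 12 3 (q 13 3 (q 14 1 o)))) e) (n (l (q 128 2 (m 129 18 (q 130 7 (q 131 2 (q 134 4 o)))))) e)) (n (n (l (q 101 2 (q 102 11 (m 103 7 (q 104 8 (m 105 24 (q 106 5 (m 107 26 (q 108 25 (q 109 19 (m 110 37 (m 111 1 (q 112 20 (q 113 3 (m 114 8 (m 115 20 (q 116 20 (q 118 9 o)))))))))))))))))) e) e)) (n (n (n (l (m 61 7 (q 62 4 (m 63 5 (q 64 1 (m 65 6 (q 66 6 (q 67 12 (q 68 5 (m 70 3 (q 71 11 (q 72 5 (q 73 4 (q 74 2 (m 75 3 (q 76 5 (m 77 1 (q 78 2 (q 79 1 (q 80 3 o)))))))))))))))))))) e) (n (l (m 136 1 (m 138 1 o))) e)) (n (n (l (q 119 5 (m 120 1 (q 121 1 (m 122 2 (m 123 1 (m 124 3 o))))))) e) e))) (n (n (n (n (l (m 31 19 (q 32 8 (m 34 19 (q 35 22 (m 36 6 (q 37 2 (m 38 11 (q 39 2 (q 40 6 (q 41 3 (m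 42 1 (q 43 4 (q 44 7 o)))))))))))))) (l (q 143 1 o))) (n (l (q 128 23 (q 129 113 (m 130 23 (q 131 4 (q 132 5 (m 133 45 (m 134 29 o)))))))) e)) (n (n (l (m 101 57 (q 102 4 (q 103 34 (q 104 20 (m 105 6 (q 106 14 (m 107 25 (q 108 28 (q 109 20 (q 110 5 (q 111 21 (m 112 3 (q 113 8 (m 115 5 (m 116 27 (q 117 8 (q 118 1 o)))))))))))))))))) e) e)) (n (n (n (l (m 81 57 (q 82 5 (q 83 4 (m 84 9 (q 85 46 (q 86 8 (m 87 38 (m 88 24 (q 89 13 (m 90 36 (m 91 9 (q 92 7 (m 93 12 (q 94 8 o))))))))))))))) e) (n (l (q 137 1 (q 138 1 o))) e)) (n (n (l (m 127 2 o)) e) (n (l (q 141 1 o)) e))))) (n (n (n (n (n (l (m 27 1 o)) e) (n (l (q 128 5 (q 129 31 (m 130 34 (q 131 1 (q 132 7 (m 133 10 (q 134 3 o)))))))) e)) (n (n (l (m 101 121 (q 103 105 (q 104 47 (q 105 9 (q 106 54 (m 107 75 (q 108 91 (q 109 72 (q 110 55 (q 111 49 (m 112 43 (m 113 2 (m 114 1 (q 115 20 (m 116 60 (q 117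 4 (m 118 11 o)))))))))))))))))) e) e)) (n (n (n (l (q 61 12 (m 62 13 (q 63 20 (q 64 5 (q 65 11 (m 66 19 (m 67 19 (m 68 11 (q 69 13 (q 70 9 (m 71 14 (m 72 4 (m 73 10 (m 74 6 (q 75 6 (m 76 9 (q 78 3 (m 79 2 (m 80 3 o)))))))))))))))))))) e) (n (l (m 138 1 o)) e)) (n (n (l (m 119 3 (m 120 2 (q 121 1 (q 122 2 (q 123 2 (m 124 7 (q 125 2 (q 126 9 o))))))))) e) e))) (n (n (n (n (l (q 57 1 (q 58 2 (q 59 2 (q 60 1 o))))) e) (n (l (q 128 8 (q 129 18 (q 130 17 (q 131 6 (m 132 6 (m 133 3 (m 134 23 o)))))))) e)) (n (n (l (m 119 8 (m 120 1 (q 121 5 (q 122 2 (q 123 1 (m 124 5 (q 125 1 (q 126 6 o))))))))) e) (n (l (m 140 1 o)) e))) (n (n (n (l (m 95 1 (q 96 1 (m 97 6 (m 98 2 (q 99 2 (m 100 1 o))))))) e) (n (l (q 135 1 (q 138 1 o))) e)) (n (n (l (q 128 1 (q 129 1 (m 130 1 (m 131 1 (m 133 2 (m 134 2 o))))))) e) e)))))) (n (n (n (n (n (n (n (l (q 7 3 (m 8 4 (q 9 2 (m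 10 1 o))))) e) (n (l (q 128 3 (m 129 18 (q 130 3 (q 131 1 (m 133 1 (q 134 4 o))))))) e)) (n (n (l (q 101 85 (q 102 5 (m 103 73 (m 104 25 (m 105 12 (m 106 33 (q 107 38 (m 108 47 (m 109 38 (m 110 51 (m 111 35 (q 112 34 (m 113 1 (m 114 3 (m 115 20 (q 116 52 (m 117 1 (q 118 12 o))))))))))))))))))) e) e)) (n (n (n (l (m 61 20 (q 62 16 (m 63 24 (m 64 4 (m 65 15 (q 66 21 (q 67 30 (q 68 16 (m 69 13 (m 70 11 (q 71 24 (q 72 9 (q 73 13 (q 74 8 (m 75 9 (q 76 13 (m 77 1 (q 79 2 (q 80 6 o)))))))))))))))))))) e) (n (l (q 136 1 o)) e)) (n (n (l (m 119 1 (m 120 1 (m 121 1 (q 122 2 (m 123 3 (q 124 6 (q 125 1 (m 126 3 o))))))))) e) e))) (n (n (n (n (l (q 31 46 (m 32 16 (q 33 1 (q 34 46 (m 35 50 (q 36 15 (m 37 3 (q 38 31 (m 40 12 (m 41 10 (q 42 4 (m 43 6 (m 44 14 o)))))))))))))) (l (m 143 1 o))) (n (l (m 128 2 (q 129 7 (m 130 3 (m 131 2 (q 132 1 (q 133 2 (q 134 1 o))))))))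 e)) (n (n (l (m 101 98 (q 102 10 (q 103 71 (q 104 34 (m 105 8 (q 106 42 (m 107 74 (q 108 86 (q 109 65 (q 110 12 (q 111 42 (m 112 17 (q 113 10 (m 114 5 (m 115 1 (m 116 39 (q 117 10 (q 118 1 o))))))))))))))))))) e) (n (l (q 140 1 o)) e))) (n (n (n (l (q 81 1 (q 82 5 (q 83 1 (q 84 1 (q 85 7 (q 86 1 (q 88 1 (q 89 1 (q 90 2 (q 91 3 (q 92 1 (q 93 1 (q 94 1 o)))))))))))))) e) (n (l (m 135 2 (q 137 2 o))) e)) (n (n (l (q 127 3 o)) e) (n (l (q 142 1 o)) e))))) (n (n (n (n (n (l (m 27 2 (q 29 2 (q 30 1 o)))) e) (n (l (q 128 6 (m 129 30 (q 130 12 (q 131 1 (m 132 4 (m 133 4 (m 134 1 o)))))))) e)) (n (n (l (q 101 112 (m 102 7 (m 103 82 (m 104 32 (q 105 10 (m 106 43 (q 107 73 (m 108 81 (m 109 61 (m 110 32 (m 111 43 (q 112 19 (m 113 10 (m 115 9 (q 116 48 (m 117 7 (q 118 4 o)))))))))))))))))) e) e)) (n (n (n (l (q 61 7 (m 62 12 (q 63 9 (q 64 5 (q 65 9 (m 66 10 (m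 67 12 (m 68 7 (q 69 9 (q 70 3 (m 71 7 (m 72 4 (m 73 6 (m 74 5 (q 75 4 (m 76 6 (m 77 1 (q 78 1 (m 79 1 (m 80 2 o))))))))))))))))))))) e) (n (l (q 136 1 (q 137 1 (q 138 2 o)))) e)) (n (n (l (m 119 6 (m 120 1 (q 121 5 (q 122 1 (q 123 1 (m 124 6 (q 125 3 (q 126 2 o))))))))) e) e))) (n (n (n (n (l (q 56 1 (q 58 1 (q 60 1 o)))) e) (n (l (m 128 35 (m 129 111 (q 130 37 (q 131 2 (m 132 1 (q 133 45 (q 134 35 o)))))))) e)) (n (n (l (q 119 6 (q 120 1 (m 121 5 (m 123 2 (q 124 8 (m 125 1 (m 126 4 o)))))))) e) (n (l (q 139 1 o)) e))) (n (n (n (l (m 95 2 (q 97 1 o))) e) (n (l (q 135 1 (m 137 2 (m 138 2 o)))) e)) (n (n (l (q 129 1 (m 130 1 (q 131 2 (q 132 1 (m 133 2 (m 134 1 o))))))) e) e))))) (n (n (n (n (n (n (l (m 16 1 (m 17 2 (q 18 4 (m 19 1 (m 20 4 (q 21 1 o))))))) e) (n (l (q 128 21 (q 129 50 (m 130 3 (q 131 3 (q 132 2 (m 133 23 (m 134 30 o)))))))) e)) (n (n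 (l (m 101 63 (q 102 9 (q 103 35 (q 104 18 (m 105 10 (q 106 21 (m 107 43 (q 108 45 (q 109 34 (q 110 3 (q 111 26 (q 112 1 (q 113 10 (m 114 3 (m 115 5 (m 116 24 (q 117 6 o)))))))))))))))))) e) e)) (n (n (n (l (q 61 19 (m 62 22 (q 63 31 (q 64 10 (q 65 16 (m 66 25 (m 67 29 (m 68 18 (q 69 24 (q 70 12 (m 71 19 (m 72 7 (m 73 15 (m 74 11 (q 75 10 (m 76 13 (m 77 1 (q 78 4 (m 79 2 (m 80 4 o))))))))))))))))))))) e) (n (l (q 137 1 (q 138 2 o))) e)) (n (n (l (q 119 3 (m 120 1 (m 121 7 (m 122 5 (m 123 5 (m 124 1 (m 125 3 (m 126 2 o))))))))) e) (n (l (q 140 1 o)) e)))) (n (n (n (n (l (q 45 2 (q 46 1 (m 47 2 (m 48 2 (m 49 1 (q 50 3 (q 51 3 (q 52 3 (q 53 1 (q 54 1 (q 55 1 o)))))))))))) e) (n (l (q 128 23 (q 129 127 (m 130 46 (q 131 2 (q 132 9 (m 133 45 (m 134 19 o)))))))) e)) (n (n (l (q 101 106 (q 102 2 (m 103 78 (m 104 31 (m 105 12 (m 106 35 (q 107 40 (m 108 49 (m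 109 37 (m 110 50 (m 111 44 (q 112 31 (m 113 9 (m 114 3 (m 115 13 (q 116 67 (m 117 6 (q 118 12 o))))))))))))))))))) e) e)) (n (n (n (l (m 95 1 (q 96 1 o))) e) (n (l (q 135 1 (m 137 2 (m 138 2 o)))) e)) (n (n (l (q 127 4 o)) e) (n (l (m 142 1 o)) e))))) (n (n (n (n (n (l (q 31 13 (m 32 5 (m 33 1 (q 34 13 (m 35 13 (q 36 4 (q 38 8 (m 40 3 (m 41 3 (q 42 1 (m 43 1 (m 44 3 o))))))))))))) e) (n (l (m 128 18 (m 129 26 (m 130 15 (m 131 1 (q 132 5 (q 133 18 (q 134 28 o)))))))) e)) (n (n (l (q 101 118 (q 102 2 (m 103 112 (m 104 50 (m 105 11 (m 106 55 (q 107 76 (m 108 93 (m 109 73 (m 110 58 (m 111 47 (q 112 47 (q 113 5 (q 114 1 (m 115 22 (q 116 59 (m 117 5 (q 118 9 o))))))))))))))))))) e) e)) (n (n (n (l (m 81 16 (q 82 1 (q 83 1 (m 84 2 (q 85 8 (m 87 9 (m 88 5 (q 89 3 (m 90 8 (m 91 5 (q 92 2 (m 93 2 (q 94 2 o)))))))))))))) e) (n (l (q 137 2 (q 138 3 o))) e)) (n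 (n (l (m 119 14 (m 120 2 (q 121 11 (q 122 12 (q 123 10 (m 124 3 (q 125 1 (q 126 9 o))))))))) e) (n (l (q 142 1 o)) e)))) (n (n (n (n (l (q 61 10 (m 62 10 (q 63 15 (q 64 3 (q 65 8 (m 66 13 (m 67 15 (m 68 9 (q 69 10 (q 70 6 (m 71 11 (m 72 4 (m 73 7 (m 74 5 (q 75 5 (m 76 7 (q 78 1 (m 79 1 (m 80 2 o)))))))))))))))))))) e) (n (l (q 128 11 (q 129 44 (m 130 14 (m 131 2 (m 132 4 (m 133 12 (m 134 28 o)))))))) e)) (n (n (l (m 119 5 (q 120 3 (q 121 14 (q 122 6 (q 123 4 (q 125 5 (q 126 3 o)))))))) e) (n (l (m 139 1 o)) e))) (n (n (n (l (m 101 65 (m 102 3 (q 103 46 (q 104 12 (q 105 12 (q 106 18 (m 107 18 (q 108 22 (q 109 16 (q 110 40 (q 111 28 (m 112 22 (q 113 8 (q 114 5 (q 115 14 (m 116 46 (q 117 3 (m 118 7 o))))))))))))))))))) e) e) (n (n (l (m 128 2 (m 129 2 (q 130 1 (m 132 1 (q 133 4 (q 134 2 o))))))) e) e)))))))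
def r3 : Tb SV := (n (n (n (n (n (n (n (n (l (m 7 6 (q 8 5 (m 9 2 (q 10 1 o))))) (l (q 143 1 o))) (n (l (m 135 3 (m 136 20 (m 137 5 (m 138 1 o))))) e)) (n (n (l (m 119 45 (m 120 63 (m 121 59 (m 122 33 (m 123 90 (m 124 15 (m 125 4 (m 126 5 o))))))))) e) (n (l (m 139 2 (q 140 1 o))) e))) (n (n (n (l (m 81 21 (m 82 10 (q 83 2 (q 84 5 (m 85 3 (m 87 1 (q 88 12 (m 89 1 (m 90 8 (m 91 8 (m 92 2 (m 93 2 o))))))))))))) e) (n (l (m 135 9 (m 136 13 (q 137 3 (q 138 7 o))))) e)) e)) (n (n (n (n (l (m 45 2 (m 46 5 (m 47 11 (q 48 1 (m 49 45 (q 50 2 (m 51 7 (q 52 27 (m 53 16 (m 54 4 (m 55 6 o)))))))))))) e) (n (l (q 135 23 (q 136 35 (q 138 2 o)))) e)) (n (n (l (m 119 4 (m 120 3 (m 121 5 (m 122 10 (m 123 3 (m 124 8 (m 125 10 (m 126 9 o))))))))) e) (n (l (m 142 1 o)) e))) (n e (n (n (l (q 128 2 (m 129 1 (q 130 2 (m 131 2 (m 133 2 (m 134 3 o))))))) e) e)))) (n (n (n (n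 (n (l (m 23 6 (q 24 2 (m 25 1 (m 26 1 o))))) e) (n (l (q 135 3 (q 136 19 (m 137 5 (m 138 13 o))))) e)) (n (n (l (q 119 25 (q 120 14 (q 121 10 (q 122 18 (q 123 24 (q 124 6 (q 125 8 (q 126 7 o))))))))) e) (n (l (m 139 2 (q 140 1 o))) e))) (n (n (n (l (m 81 2 (q 83 3 (q 84 3 (q 85 2 (q 86 4 (q 87 4 (q 88 8 (q 89 2 (q 90 3 (q 91 3 (q 92 2 (q 93 4 o))))))))))))) e) e) e)) (n (n (n (n (l (m 61 6 (m 62 5 (m 63 10 (m 64 7 (q 65 5 (m 66 6 (q 67 2 (q 68 4 (m 69 7 (m 70 5 (q 71 2 (m 72 3 (q 73 5 (q 74 2 (m 75 4 (m 76 5 (m 77 2 (m 78 3 (m 79 2 (q 80 6 o))))))))))))))))))))) e) (n (l (m 135 2 (m 136 3 (q 137 1 (q 138 2 o))))) e)) (n (n (l (m 119 80 (m 120 87 (m 121 85 (m 122 52 (m 123 124 (m 124 33 (m 125 11 (m 126 8 o))))))))) e) (n (l (m 141 1 (m 142 1 o))) e))) (n (n (n (l (m 101 2 (q 102 1 (q 103 5 (m 104 2 (m 105 20 (q 106 7 (m 107 17 (q 108 17 (q 109 15 (m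 110 12 (q 111 3 (m 112 4 (q 113 3 (m 114 2 (m 115 3 (q 116 6 (q 117 7 (q 118 3 o))))))))))))))))))) e) e) (n (n (l (q 129 1 (m 130 9 (m 132 1 (m 133 2 (q 134 1 o)))))) e) e))))) (n (n (n (n (n (n (l (q 15 1 (m 16 1 (q 18 2 (m 19 1 (m 20 6 (q 21 1 (q 22 1 o)))))))) (l (m 143 1 o))) (n (l (m 135 3 (q 136 9 (q 137 6 (q 138 6 o))))) e)) (n (n (l (m 119 8 (q 120 23 (q 121 20 (m 122 4 (q 123 38 (m 124 16 (m 125 21 (m 126 2 o))))))))) e) (n (l (m 139 1 (q 140 2 o))) e))) (n (n (n (l (q 81 7 (m 82 21 (q 83 8 (q 84 19 (m 85 24 (m 86 5 (m 87 6 (m 88 23 (m 89 21 (m 90 33 (m 92 22 (m 93 44 (m 94 4 o)))))))))))))) e) e) e)) (n (n (n (n (l (q 45 4 (q 46 1 (q 47 4 (m 48 1 (q 49 19 (q 51 4 (m 52 10 (q 53 10 (q 54 3 (q 55 3 o))))))))))) e) (n (l (m 135 21 (m 136 67 (m 137 2 (q 138 13 o))))) e)) (n (n (l (m 119 21 (m 120 21 (m 121 23 (m 122 14 (m 123 26 (m 124 16 (m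 125 7 (m 126 1 o))))))))) e) (n (l (q 141 1 (q 142 1 o))) e))) (n e (n (n (l (m 128 1 (m 129 1 (q 130 14 (q 131 1 (m 132 3 (q 133 4 o))))))) e) e)))) (n (n (n (n (n (l (m 31 1 (m 32 1 (q 33 1 (m 35 2 (m 37 2 (m 38 2 (m 39 3 (m 40 3 (m 42 1 (m 43 2 (m 44 1 o)))))))))))) e) (n (l (m 135 2 (q 136 23 (m 137 8 (m 138 8 o))))) e)) (n (n (l (m 119 76 (m 120 74 (m 121 67 (m 122 48 (m 123 106 (m 124 26 (m 125 13 (m 126 12 o))))))))) e) (n (l (q 141 1 (q 142 1 o))) e))) (n (n (n (l (m 81 70 (q 82 32 (q 83 11 (m 84 11 (q 85 67 (q 86 48 (q 87 44 (q 88 116 (q 89 70 (q 90 85 (q 91 14 (q 92 70 (q 93 131 (q 94 11 o))))))))))))))) e) e) e)) (n (n (n (n (l (q 61 6 (q 62 6 (q 63 12 (q 64 9 (m 65 9 (q 66 6 (m 67 3 (m 68 6 (q 69 11 (q 70 6 (m 71 3 (q 72 3 (m 73 6 (m 74 4 (q 75 6 (q 76 10 (q 77 2 (q 78 4 (q 79 1 (m 80 8 o))))))))))))))))))))) e) (n (l (m 135 16 (m 136 33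 (q 137 7 (q 138 4 o))))) e)) (n e (n (l (m 141 1 (m 142 1 o))) e))) (n (n (n (l (m 101 1 (m 102 3 (m 103 15 (m 104 1 (q 105 9 (m 106 13 (q 107 32 (m 108 33 (m 109 28 (q 110 15 (m 111 1 (q 113 9 (q 114 2 (q 115 12 (m 116 14 (m 117 5 (m 118 3 o)))))))))))))))))) e) e) (n (n (l (q 135 1 (q 136 3 (m 137 2 (m 138 4 o))))) e) e)))))) (n (n (n (n (n (n (n (l (q 11 1 o)) e) (n (l (q 135 2 (q 136 10 (q 137 6 (q 138 7 o))))) e)) (n (n (l (q 119 43 (q 120 61 (q 121 57 (q 122 30 (q 123 89 (q 124 13 (m 126 1 o)))))))) e) (n (l (q 139 2 o)) e))) (n (n (n (l (q 81 56 (m 82 50 (q 83 2 (q 84 32 (m 85 79 (m 86 46 (m 87 46 (m 88 114 (m 89 83 (m 90 107 (m 91 12 (m 92 84 (m 93 158 (m 94 13 o))))))))))))))) e) e) (n e (n (l (m 142 1 o)) e)))) (n (n (n (n (l (m 45 4 (m 46 7 (m 47 14 (q 48 1 (m 49 56 (q 50 3 (m 51 8 (q 52 34 (m 53 21 (m 54 5 (m 55 7 o)))))))))))) e) (n (l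 (q 135 5 (q 136 4 (m 137 4 (m 138 4 o))))) e)) (n (n (l (m 119 58 (m 120 48 (m 121 46 (m 122 34 (m 123 63 (m 124 33 (m 125 19 (m 126 5 o))))))))) e) e)) (n e (n (n (l (q 128 10 (m 129 5 (q 130 12 (q 131 5 (m 132 3 (m 133 4 (m 134 2 o)))))))) e) e)))) (n (n (n (n (n (l (m 31 4 (q 32 4 (q 33 5 (m 34 3 (m 36 2 (m 37 2 (m 38 1 (q 39 1 (m 40 1 (q 41 1 (m 43 2 o)))))))))))) (l (q 143 1 o))) (n (l (q 135 1 (q 136 9 (q 137 10 (q 138 6 o))))) e)) (n (n (l (q 119 53 (q 120 55 (q 121 59 (q 122 40 (q 123 72 (q 124 38 (q 125 22 (q 126 2 o))))))))) e) e)) (n (n (n (l (m 81 47 (q 82 13 (q 83 14 (q 84 5 (q 85 39 (q 86 42 (q 87 38 (q 88 70 (q 89 48 (q 90 45 (q 91 18 (q 92 48 (q 93 77 (q 94 8 o))))))))))))))) e) e) e)) (n (n (n (n (l (q 61 3 (q 62 3 (q 63 6 (q 64 4 (m 65 3 (q 66 3 (m 67 1 (m 68 2 (q 69 4 (q 70 3 (m 71 1 (q 72 2 (m 73 3 (m 74 1 (q 75 2 (q 76 3 (q 77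 1 (q 78 2 (q 79 1 (m 80 3 o))))))))))))))))))))) e) (n (l (q 135 26 (q 136 41 (q 137 15 (q 138 12 o))))) e)) (n e (n (l (m 141 2 o)) e))) (n (n (n (l (m 101 2 (q 104 2 (m 105 3 (m 110 2 (q 111 5 (q 113 4 (m 114 2 (m 115 3 (m 116 5 (m 117 3 (m 118 2 o)))))))))))) e) e) (n (n (l (m 135 2 (q 137 1 o))) e) e))))) (n (n (n (n (n (n (l (q 23 1 o)) e) (n (l (m 135 24 (m 136 31 (q 137 10 (q 138 11 o))))) e)) (n (n (l (m 119 29 (m 120 23 (m 121 23 (m 122 16 (m 123 24 (m 124 23 (m 125 15 (q 126 6 o))))))))) e) (n (l (m 139 3 (q 140 2 o))) e))) (n (n (n (l (m 81 93 (q 82 40 (q 83 22 (m 84 4 (q 85 92 (q 86 86 (q 87 83 (q 88 163 (q 89 109 (q 90 119 (q 91 33 (q 92 109 (q 93 190 (q 94 16 o))))))))))))))) e) e) (n e (n (l (q 142 1 o)) e)))) (n (n (n e (n (l (m 135 16 (m 136 43 (m 137 16 (m 138 1 o))))) e)) (n (n (l (q 119 46 (q 120 68 (q 121 66 (q 122 29 (q 123 97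 (q 124 18 (m 125 2 (m 126 10 o))))))))) e) (n (l (m 141 2 o)) e))) (n (n (n (l (m 101 1 (m 102 1 (m 103 2 (q 104 5 (q 105 14 (m 106 4 (q 107 14 (m 108 14 (m 109 12 (q 110 6 (q 111 3 (q 112 4 (q 113 3 (m 114 1 (m 115 3 (m 116 12 (m 117 10 (m 118 3 o))))))))))))))))))) e) e) (n (n (l (q 128 2 (m 130 6 (m 131 3 (q 132 1 (m 133 5 (m 134 2 o))))))) e) e)))) (n (n (n (n (n (l (m 46 2 (m 47 4 (m 49 16 (q 50 1 (m 51 2 (q 52 10 (m 53 5 (m 54 1 (m 55 2 o)))))))))) e) (n (l (q 135 20 (q 136 34 (m 137 12 (m 138 9 o))))) e)) (n (n (l (q 119 79 (q 120 76 (q 121 71 (q 122 56 (q 123 109 (q 124 31 (q 125 20 (q 126 22 o))))))))) e) e)) e) (n (n (n (n (l (m 81 45 (q 82 24 (q 83 5 (m 84 11 (q 85 47 (q 86 33 (q 87 31 (q 88 80 (q 89 50 (q 90 60 (q 91 9 (q 92 50 (q 93 93 (q 94 8 o))))))))))))))) e) (n (l (m 135 12 (m 136 29 (m 137 10 (m 138 19 o))))) e)) (n e (n (l (q 142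 1 o)) e))) (n (n (n (l (m 119 23 (m 120 46 (m 121 44 (m 122 17 (m 123 62 (m 124 11 (q 125 1 (q 126 5 o))))))))) e) (n (l (q 140 1 o)) e)) (n (n (l (q 135 1 (m 136 2 (q 138 2 o)))) e) e)))))))
def r4 : Tb SV := (n (n (n (n (n (n (n (n (l (q 7 18 (m 8 13 (q 9 4 (m 10 4 o))))) (l (m 143 3 o))) (n (l (m 135 8 (q 136 20 (q 137 16 (m 138 7 o))))) e)) (n (n (l (q 119 152 (q 120 164 (q 121 162 (q 122 121 (q 123 224 (q 124 87 (q 125 62 (q 126 49 o))))))))) e) (n (l (q 139 6 (q 140 3 o))) e))) (n (n (n (l (q 81 41 (q 82 31 (m 83 6 (m 84 9 (q 85 17 (m 86 5 (m 87 2 (m 88 23 (q 89 5 (q 90 29 (q 91 16 (q 92 8 (q 93 9 (m 94 1 o))))))))))))))) e) (n (l (q 135 8 (q 136 15 (m 137 6 (m 138 28 o))))) e)) (n e (n (l (m 141 1 o)) e)))) (n (n (n (n (l (q 45 11 (q 46 7 (q 47 28 (q 48 1 (q 49 104 (m 50 10 (q 51 13 (m 52 66 (q 53 44 (q 54 11 (q 55 12 o)))))))))))) e) (n (l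 (m 135 32 (m 136 45 (m 137 15 (q 138 7 o))))) e)) (n (n (l (q 119 3 (q 120 12 (q 121 20 (q 122 23 (q 123 12 (q 124 19 (q 125 23 (q 126 28 o))))))))) e) (n (l (q 142 2 o)) e))) (n e (n (n (l (m 128 7 (q 129 5 (q 130 11 (q 131 10 (m 132 2 (q 133 4 (q 134 7 o)))))))) e) e)))) (n (n (n (n (n (l (q 23 12 (m 24 3 (m 25 1 (q 26 1 o))))) e) (n (l (q 135 1 (m 136 29 (q 137 9 (q 138 32 o))))) e)) (n (n (l (m 119 64 (m 120 44 (m 121 41 (m 122 55 (m 123 68 (m 124 30 (m 125 31 (m 126 28 o))))))))) e) (n (l (q 139 5 (m 140 19 o))) e))) (n (n (n (l (q 81 3 (m 83 9 (m 84 9 (m 85 4 (m 86 10 (m 87 10 (m 88 19 (m 89 3 (m 90 5 (m 91 8 (m 92 3 (m 93 7 o))))))))))))) e) e) (n e (n (l (m 141 1 o)) e)))) (n (n (n (n (l (q 61 15 (q 62 2 (q 63 16 (q 64 9 (m 65 2 (q 66 11 (m 67 10 (m 68 12 (q 69 10 (q 70 4 (m 71 8 (m 72 4 (m 73 8 (m 74 6 (q 75 10 (q 76 1 (q 77 4 (m 78 2 (q 79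 4 (m 80 15 o))))))))))))))))))))) e) (n (l (q 135 5 (q 136 9 (q 137 1 (m 138 3 o))))) e)) (n (n (l (q 119 252 (q 120 226 (q 121 244 (q 122 206 (q 123 321 (q 124 157 (q 125 111 (q 126 88 o))))))))) e) (n (l (q 141 3 (q 142 3 o))) e))) (n (n (n (l (q 101 5 (m 102 5 (m 103 15 (q 104 12 (q 105 38 (m 106 13 (q 107 37 (m 108 39 (m 109 29 (m 110 1 (m 111 10 (q 112 7 (m 113 8 (q 114 2 (m 115 15 (m 116 8 (m 117 12 (m 118 5 o))))))))))))))))))) e) e) (n (n (l (q 128 1 (m 129 3 (m 131 4 (q 132 3 (q 133 8 (m 134 3 o))))))) e) e))))) (n (n (n (n (n (n (l (q 16 3 (m 18 5 (q 19 1 (q 20 16 (m 21 1 (m 22 3 o))))))) (l (q 143 2 o))) (n (l (q 135 10 (m 136 12 (m 137 17 (m 138 14 o))))) e)) (n (n (l (q 119 11 (m 120 66 (m 121 52 (q 122 22 (m 123 82 (q 124 29 (q 125 43 (q 126 8 o))))))))) e) (n (l (q 139 3 (m 140 4 o))) e))) (n (n (n (l (m 81 12 (q 82 68 (m 83 8 (m 84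 35 (q 85 82 (q 86 20 (q 87 14 (q 88 71 (q 89 58 (q 90 90 (q 91 14 (q 92 60 (q 93 110 (q 94 8 o))))))))))))))) e) e) e)) (n (n (n (n (l (m 45 14 (m 46 2 (m 47 10 (q 48 1 (m 49 43 (q 50 2 (m 51 7 (q 52 25 (m 53 27 (m 54 7 (m 55 6 o)))))))))))) e) (n (l (q 135 22 (q 136 95 (q 137 25 (m 138 37 o))))) e)) (n (n (l (q 119 74 (q 120 48 (q 121 59 (q 122 64 (q 123 69 (q 124 57 (q 125 43 (q 126 27 o))))))))) e) (n (l (m 141 4 (m 142 3 o))) e))) (n e (n (n (l (q 128 5 (q 129 2 (m 130 10 (m 131 2 (q 132 4 (m 133 17 (q 134 1 o)))))))) e) e)))) (n (n (n (n (n (l (q 31 5 (m 32 2 (m 33 9 (q 34 4 (q 35 4 (q 37 7 (q 38 1 (q 39 5 (q 40 7 (q 42 1 (q 43 5 (q 44 4 o))))))))))))) e) (n (l (m 135 4 (m 136 48 (q 137 20 (q 138 12 o))))) e)) (n (n (l (q 119 233 (q 120 193 (q 121 196 (q 122 183 (q 123 275 (q 124 130 (q 125 101 (q 126 81 o))))))))) e) (n (l (m 141 3 (m 142 3 o)))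 e))) (n (n (n (l (q 81 128 (m 82 110 (m 83 66 (m 84 3 (m 85 194 (m 86 139 (m 87 113 (m 88 317 (m 89 173 (m 90 208 (m 91 68 (m 92 172 (m 93 311 (m 94 22 o))))))))))))))) e) e) e)) (n (n (n (n (l (m 61 16 (m 62 4 (m 63 22 (m 64 14 (q 65 12 (m 66 12 (q 67 13 (q 68 18 (m 69 21 (m 70 5 (q 71 10 (q 72 5 (q 73 10 (q 74 12 (m 75 15 (m 76 13 (m 77 3 (q 78 1 (m 79 2 (q 80 19 o))))))))))))))))))))) e) (n (l (q 135 29 (q 136 51 (m 137 9 (m 138 8 o))))) e)) (n e (n (l (q 141 3 (q 142 3 o))) e))) (n (n (n (l (m 101 5 (q 102 10 (q 103 36 (m 104 13 (m 105 12 (q 106 19 (m 107 66 (q 108 67 (q 109 52 (q 110 2 (q 111 7 (q 112 9 (m 113 16 (q 115 3 (q 116 22 (q 117 10 (q 118 2 o)))))))))))))))))) e) e) (n (n (l (m 135 1 (m 136 6 (q 137 1 (q 138 6 o))))) e) e)))))) (n (n (n (n (n (n (n (l (m 11 2 o)) (l (m 143 1 o))) (n (l (m 135 1 (m 136 13 (m 137 17 (m 138 17 o))))) e))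 (n (n (l (m 119 146 (m 120 158 (m 121 156 (m 122 114 (m 123 220 (m 124 82 (m 125 53 (m 126 34 o))))))))) e) (n (l (m 139 4 (q 140 2 o))) e))) (n (n (n (l (m 81 103 (q 82 172 (q 83 39 (m 84 45 (q 85 252 (q 86 138 (q 87 112 (q 88 329 (q 89 217 (q 90 278 (q 91 71 (q 92 218 (q 93 389 (q 94 26 o))))))))))))))) e) e) (n e (n (l (q 141 1 (q 142 3 o))) e)))) (n (n (n (n (l (q 45 17 (q 46 10 (q 47 36 (q 48 2 (q 49 130 (m 50 14 (q 51 14 (m 52 84 (q 53 57 (q 54 14 (q 55 14 o)))))))))))) e) (n (l (m 135 11 (m 136 10 (q 137 6 (q 138 6 o))))) e)) (n (n (l (q 119 179 (q 120 114 (q 121 129 (q 122 148 (q 123 170 (q 124 127 (q 125 98 (q 126 56 o))))))))) e) e)) (n e (n (n (l (m 128 22 (q 129 20 (m 130 7 (m 131 2 (q 132 1 (q 133 5 (q 134 7 o)))))))) e) e)))) (n (n (n (n (n (l (q 31 11 (m 32 11 (m 33 16 (q 34 10 (m 35 1 (q 36 5 (q 37 6 (m 39 3 (q 40 2 (m 41 2 (m 42 1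 (q 43 5 (q 44 1 o)))))))))))))) (l (m 143 3 o))) (n (l (q 135 8 (m 136 3 (m 137 29 (m 138 16 o))))) e)) (n (n (l (m 119 184 (m 120 132 (m 121 154 (m 122 167 (m 123 190 (m 124 145 (m 125 115 (m 126 57 o))))))))) e) (n (l (m 142 1 o)) e))) (n (n (n (l (q 81 78 (m 82 48 (m 83 59 (m 84 30 (m 85 108 (m 86 117 (m 87 99 (m 88 194 (m 89 115 (m 90 106 (m 91 69 (m 92 113 (m 93 178 (m 94 16 o))))))))))))))) e) e) e)) (n (n (n (n (l (m 61 7 (m 62 2 (m 63 10 (m 64 5 (q 65 2 (m 66 5 (q 67 5 (q 68 6 (m 69 6 (m 70 3 (q 71 4 (q 72 1 (q 73 5 (q 74 3 (m 75 5 (m 76 1 (m 77 2 (m 79 2 (q 80 7 o)))))))))))))))))))) e) (n (l (m 135 34 (m 136 41 (m 137 57 (m 138 26 o))))) e)) (n e (n (l (q 141 6 o)) e))) (n (n (n (l (q 101 2 (m 104 4 (q 105 3 (m 107 4 (q 108 2 (q 109 4 (q 110 2 (m 111 9 (q 112 2 (m 113 8 (q 114 4 (q 115 7 (q 116 13 (q 117 7 (q 118 2 o)))))))))))))))) e) e)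 (n (n (l (q 135 4 (q 136 2 (m 137 3 (m 138 2 o))))) e) e))))) (n (n (n (n (n (n (l (m 23 2 (q 25 1 o))) e) (n (l (q 135 40 (q 136 44 (m 137 10 (m 138 33 o))))) e)) (n (n (l (q 119 101 (q 120 47 (q 121 54 (q 122 80 (q 123 67 (q 124 80 (q 125 65 (q 126 10 o))))))))) e) (n (l (q 139 4 (m 140 9 o))) e))) (n (n (n (l (q 81 163 (m 82 152 (m 83 110 (m 84 25 (m 85 276 (m 86 239 (m 87 206 (m 88 459 (m 89 276 (m 90 298 (m 91 127 (m 92 273 (m 93 463 (m 94 32 o))))))))))))))) e) e) (n e (n (l (m 141 1 (m 142 3 o))) e)))) (n (n (n e (n (l (q 135 6 (q 136 40 (q 137 52 (m 138 7 o))))) e)) (n (n (l (m 119 158 (m 120 173 (m 121 179 (m 122 121 (m 123 241 (m 124 100 (m 125 56 (m 126 20 o))))))))) e) (n (l (q 141 5 o)) e))) (n (n (n (l (q 101 1 (q 102 5 (q 103 9 (m 104 18 (m 105 29 (q 106 7 (m 107 37 (q 108 36 (q 109 29 (q 110 10 (m 111 5 (m 112 4 (m 113 7 (q 114 4 (q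 115 30 (q 116 29 (q 117 24 (q 118 2 o))))))))))))))))))) e) e) (n (n (l (m 128 6 (q 129 2 (q 130 10 (q 131 7 (m 132 1 (q 133 13 (q 134 4 o)))))))) e) e)))) (n (n (n (n (n (l (q 45 2 (q 46 3 (q 47 10 (q 48 1 (q 49 37 (m 50 4 (q 51 4 (m 52 24 (q 53 14 (q 54 3 (q 55 4 o)))))))))))) e) (n (l (m 135 40 (m 136 56 (q 137 18 (q 138 25 o))))) e)) (n (n (l (m 119 237 (m 120 202 (m 121 211 (m 122 200 (m 123 286 (m 124 141 (m 125 116 (m 126 109 o))))))))) e) e)) e) (n (n (n (n (l (q 81 83 (m 82 88 (m 83 38 (q 84 10 (m 85 146 (m 86 95 (m 87 76 (m 88 222 (m 89 128 (m 90 153 (m 91 45 (m 92 127 (m 93 228 (m 94 16 o))))))))))))))) e) (n (l (q 135 20 (q 136 43 (q 137 38 (q 138 44 o))))) e)) (n e (n (l (m 141 2 (m 142 3 o))) e))) (n (n (n (l (q 119 93 (q 120 116 (q 121 113 (q 122 71 (q 123 152 (q 124 62 (q 125 35 (q 126 13 o))))))))) e) (n (l (m 139 1 (m 140 2 o))) e))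 (n (n (l (m 135 2 (q 136 3 (q 137 1 (m 138 3 o))))) e) e)))))))
def r5 : Tb SV := (n (n (n (n (n (n (n (n (l (q 12 2 (q 13 1 (q 14 1 o)))) e) (n (l (q 139 6 (m 140 20 o))) e)) (n (n (l (m 128 1 (q 129 23 (m 130 6 (q 131 75 (q 132 21 (q 133 2 (q 134 11 o)))))))) e) e)) (n (n (n (l (m 101 12 (m 102 2 (m 103 7 (q 104 8 (q 105 13 (m 106 2 (q 107 23 (m 108 22 (m 109 18 (m 110 12 (q 111 8 (m 112 1 (q 113 7 (q 114 4 (m 115 29 (m 116 25 (m 117 1 (m 118 2 o))))))))))))))))))) e) (n (l (q 139 6 (m 140 10 o))) e)) (n (n (l (q 136 2 (m 137 2 (m 138 2 o)))) e) e))) (n (n (n (n (l (q 61 7 (m 62 7 (m 63 16 (m 64 14 (q 65 7 (q 66 8 (m 67 4 (m 68 6 (m 69 26 (m 70 3 (m 71 10 (m 72 14 (q 73 13 (q 74 11 (m 75 8 (m 76 21 (q 77 3 (m 78 15 (m 79 2 (m 80 17 o))))))))))))))))))))) e) (n (l (m 139 24 (q 140 25 o))) e)) (n (n (l (m 128 3 (q 129 4 (m 130 1 (q 131 7 (m 132 1 (q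 133 5 (q 134 2 o)))))))) e) e)) (n (n (n (l (m 119 50 (m 120 22 (q 121 10 (q 122 9 (m 123 32 (q 125 11 (q 126 3 o)))))))) e) e) e))) (n (n (n (n (n (l (q 31 3 (q 32 2 (q 33 5 (q 34 3 (m 35 4 (q 36 3 (m 37 1 (q 38 7 (q 39 1 (m 40 1 (m 41 3 (q 42 2 (m 44 2 o)))))))))))))) e) (n (l (q 139 7 (m 140 6 o))) e)) (n (n (l (m 128 2 (m 129 14 (q 130 14 (m 131 21 (m 132 1 (q 133 11 (m 134 9 o)))))))) e) e)) (n (n (n (l (m 103 2 (q 104 1 (m 105 3 (q 107 2 (m 108 1 (m 109 2 (q 111 1 (m 112 2 (q 113 2 (m 115 1 (m 116 2 (m 117 4 (m 118 1 o)))))))))))))) e) (n (l (m 141 1 (q 142 1 o))) e)) (n (n (l (q 135 8 (m 136 6 (q 138 9 o)))) e) e))) (n (n (n (n (l (q 95 3 (m 96 2 (m 97 3 o)))) e) (n (l (q 139 4 (q 140 3 o))) e)) (n (n (l (q 128 24 (q 129 58 (m 130 15 (q 131 82 (q 132 33 (m 133 23 (q 134 26 o)))))))) e) e)) (n (n (n (l (m 127 4 o)) e) (n (l (m 141 2 o)) e)) e))))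 (n (n (n (n (n (n (l (m 27 1 o)) e) (n (l (m 139 1 (q 140 8 o))) e)) (n (n (l (q 128 24 (q 129 23 (m 130 17 (m 131 57 (m 132 1 (m 133 36 (q 134 5 o)))))))) e) e)) (n (n (n (l (m 101 31 (q 102 4 (q 103 7 (m 104 3 (q 105 15 (q 106 11 (m 107 12 (q 108 6 (q 109 9 (m 110 32 (q 111 22 (q 112 22 (q 113 14 (q 114 1 (m 115 52 (m 116 28 (q 117 2 (m 118 3 o))))))))))))))))))) e) (n (l (m 142 1 o)) e)) (n (n (l (m 135 1 (q 136 5 (m 137 1 (m 138 1 o))))) e) e))) (n (n (n (n (l (m 61 5 (q 62 9 (q 63 13 (q 64 7 (m 65 8 (m 66 4 (q 67 3 (q 68 3 (q 69 14 (q 70 5 (q 71 5 (q 72 9 (m 73 7 (m 74 4 (q 75 3 (q 76 13 (m 77 1 (q 78 10 (q 80 8 o)))))))))))))))))))) e) (n (l (q 139 42 (m 140 23 o))) e)) (n (n (l (q 128 15 (q 129 24 (m 130 4 (q 131 6 (q 132 12 (m 133 14 (q 134 8 o)))))))) e) e)) (n (n (n (l (m 119 56 (m 120 29 (q 121 9 (q 122 13 (m 123 34 (q 124 1 (q 125 11 (q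 126 3 o))))))))) e) (n (l (q 141 2 o)) e)) (n e (n (l (q 143 1 o)) e))))) (n (n (n (n (n (l (m 56 3 (q 57 1 (q 58 2 (q 59 2 (q 60 1 o)))))) e) (n (l (q 139 11 (m 140 33 o))) e)) (n (n (l (q 128 18 (q 129 49 (m 130 16 (q 131 73 (q 132 26 (m 133 26 (q 134 24 o)))))))) e) e)) (n (n (n (l (q 101 40 (m 102 9 (m 103 43 (q 104 31 (m 105 46 (m 106 28 (q 107 72 (m 108 43 (m 109 56 (q 110 48 (m 111 34 (m 112 71 (m 113 8 (q 114 3 (q 115 73 (q 116 17 (m 117 15 (m 118 9 o))))))))))))))))))) e) e) (n (n (l (q 136 3 (m 137 2 (m 138 5 o)))) e) e))) (n (n (n (n (l (m 95 1 (q 96 2 (q 97 7 (q 98 2 (m 99 2 (q 100 1 o))))))) e) (n (l (q 139 2 (q 140 14 o))) e)) (n (n (l (q 135 2 (m 136 4 (q 138 3 o)))) e) e)) (n (n (n (l (q 127 14 o)) e) (n (l (q 141 1 (q 142 1 o))) e)) (n (n (l (m 139 2 (m 140 3 o))) e) e)))))) (n (n (n (n (n (n (n (l (m 15 2 (m 16 1 (m 17 1 (q 18 2 (m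 20 4 (q 22 1 o))))))) e) (n (l (m 139 1 (q 140 5 o))) e)) (n (n (l (m 128 1 (m 129 21 (q 130 7 (m 131 71 (m 132 20 (m 134 11 o))))))) e) e)) (n (n (n (l (m 101 63 (q 102 13 (q 103 43 (m 104 22 (q 105 55 (q 106 40 (m 107 76 (q 108 47 (q 109 59 (m 110 86 (q 111 50 (q 112 83 (q 113 19 (m 114 2 (m 115 132 (m 116 42 (q 117 12 (q 118 5 o))))))))))))))))))) e) (n (l (q 142 1 o)) e)) (n (n (l (q 135 2 (m 136 3 (m 137 2 (q 138 1 o))))) e) e))) (n (n (n (n (l (q 61 9 (m 62 8 (m 63 19 (m 64 17 (q 65 8 (q 66 10 (m 67 4 (m 68 7 (m 69 32 (m 70 3 (m 71 12 (m 72 16 (q 73 16 (q 74 14 (m 75 10 (m 76 26 (q 77 4 (m 78 18 (m 79 2 (m 80 21 o))))))))))))))))))))) e) (n (l (m 139 3 (m 140 6 o))) e)) (n (n (l (q 128 32 (q 129 47 (m 130 18 (q 131 14 (q 132 23 (m 133 44 (q 134 22 o)))))))) e) e)) (n (n (n (l (q 120 4 (q 121 7 (q 122 2 (q 123 7 (m 124 1 (m 125 1 (q 126 5 o))))))))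 e) (n (l (q 141 3 o)) e)) (n e (n (l (q 143 1 o)) e))))) (n (n (n (n (n (l (m 56 1 (m 58 1 (m 60 1 o)))) e) (n (l (q 140 13 o)) e)) (n (n (l (m 128 33 (m 129 45 (q 130 19 (m 131 37 (m 132 23 (q 133 37 (m 134 18 o)))))))) e) e)) (n (n (n (l (q 101 17 (m 102 6 (m 103 26 (q 104 28 (m 105 36 (m 106 12 (q 107 46 (m 108 23 (m 109 30 (q 110 15 (m 111 15 (m 112 51 (m 113 2 (q 115 33 (q 116 3 (m 117 17 (m 118 3 o)))))))))))))))))) e) (n (l (q 141 1 (q 142 1 o))) e)) (n (n (l (m 135 1 (m 136 2 (q 137 1 (q 138 1 o))))) e) e))) (n (n (n (n (l (m 95 1 (q 96 1 (q 97 2 o)))) e) (n (l (m 139 45 (q 140 37 o))) e)) (n (n (l (q 135 1 (q 136 1 (m 137 1 (m 138 1 o))))) e) e)) (n (n (n (l (q 127 4 o)) e) (n (l (m 141 3 o)) e)) (n (n (l (q 139 1 o)) e) (n (l (m 143 1 o)) e)))))) (n (n (n (n (n (n (l (m 32 2 (m 33 3 (q 35 1 (m 36 1 (q 37 1 (m 38 3 (m 39 1 (q 41 1 (m 42 1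 (q 44 1 o))))))))))) e) (n (l (q 139 20 (m 140 3 o))) e)) (n (n (l (q 128 25 (q 129 30 (m 130 8 (m 131 2 (q 132 13 (m 133 30 (q 134 9 o)))))))) e) e)) (n (n (n (l (q 101 33 (m 102 14 (m 103 65 (q 104 47 (m 105 80 (m 106 45 (q 107 114 (m 108 68 (m 109 84 (q 110 72 (m 111 39 (m 112 110 (m 113 3 (q 114 5 (q 115 115 (q 116 10 (m 117 22 (m 118 18 o))))))))))))))))))) e) (n (l (q 141 1 o)) e)) (n (n (l (m 135 6 (m 136 3 (q 137 1 (m 138 1 o))))) e) e))) (n (n (n (n (l (q 81 6 (m 82 1 (q 85 3 (q 86 5 (q 87 1 (m 88 3 (q 89 3 (m 90 2 (q 91 5 (q 92 2 (m 93 1 (m 94 1 o))))))))))))) e) (n (l (q 139 43 (m 140 47 o))) e)) (n (n (l (m 128 6 (m 129 29 (q 130 4 (m 131 71 (m 132 26 (m 133 2 (m 134 11 o)))))))) e) e)) (n (n (n (l (q 127 7 o)) e) (n (l (m 141 2 (m 142 1 o))) e)) (n e (n (l (m 143 1 o)) e))))) (n (n (n (n (n (l (q 61 2 (m 62 1 (m 63 4 (m 64 4 (q 65 1 (q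 66 3 (m 67 1 (m 68 2 (m 69 8 (m 71 3 (m 72 4 (q 73 4 (q 74 4 (m 75 3 (m 76 6 (q 77 1 (m 78 4 (m 79 1 (m 80 6 o)))))))))))))))))))) e) (n (l (m 139 14 (m 140 15 o))) e)) (n (n (l (m 128 16 (m 129 52 (q 130 15 (m 131 79 (m 132 25 (q 133 24 (m 134 25 o)))))))) e) e)) (n (n (n (l (m 119 10 (m 120 5 (q 122 1 (m 123 9 (q 125 3 o)))))) e) (n (l (q 141 2 o)) e)) (n (n (l (q 135 14 (q 136 6 (m 137 2 (q 138 2 o))))) e) (n (l (q 143 1 o)) e)))) (n (n (n (n (l (q 101 27 (m 102 7 (m 103 29 (q 104 18 (m 105 33 (m 106 22 (q 107 50 (m 108 30 (m 109 38 (q 110 40 (m 111 24 (m 112 50 (m 113 6 (q 114 2 (q 115 62 (q 116 14 (m 117 7 (m 118 7 o))))))))))))))))))) e) (n (l (q 139 14 (m 140 11 o))) e)) (n (n (l (q 135 9 (m 136 2 (q 137 1 (q 138 10 o))))) e) e)) (n (n (n (l (q 128 1 (q 129 9 (q 130 7 (q 131 57 (q 132 15 (q 133 7 (q 134 5 o)))))))) e) e) (n (n (l (m 139 1 (q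 140 2 o))) e) e)))))))
def r6 : Tb SV := (n (n (n (n (n (n (n (n (l (q 12 2 (q 13 3 o))) e) (n (l (q 139 2 (m 140 12 o))) e)) (n (n (l (q 128 30 (q 129 23 (q 130 14 (q 131 50 (q 132 37 (m 133 31 (q 134 11 o)))))))) e) e)) (n (n (n (l (m 101 1 (m 102 9 (m 103 4 (m 104 8 (q 105 19 (m 106 3 (q 107 30 (m 108 32 (m 109 25 (q 110 6 (q 111 7 (m 112 11 (q 113 15 (q 114 1 (m 115 8 (m 116 29 (q 117 12 o)))))))))))))))))) e) (n (l (q 139 4 (m 140 8 o))) e)) (n (n (l (m 135 2 (q 136 2 (m 137 3 (m 138 4 o))))) e) e))) (n (n (n (n (l (q 61 11 (m 63 21 (m 64 15 (q 65 8 (q 66 6 (m 67 13 (m 68 8 (m 69 30 (m 70 5 (m 71 16 (m 72 22 (q 73 12 (q 74 9 (m 75 9 (m 76 11 (m 78 17 (m 79 8 (m 80 18 o))))))))))))))))))) e) (n (l (m 139 23 (q 140 23 o))) e)) (n (n (l (q 128 1 (q 129 4 (m 130 1 (q 131 3 (m 132 1 (q 133 1 (q 134 2 o)))))))) e) e)) (n (n (n (l (m 119 75 (q 120 8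 (q 121 49 (m 122 17 (q 123 8 (m 124 2 (m 125 20 (m 126 16 o))))))))) e) e) (n e (n (l (m 143 1 o)) e))))) (n (n (n (n (n (l (q 31 18 (m 32 10 (m 33 5 (q 34 18 (m 35 18 (q 36 8 (m 37 2 (q 38 12 (m 39 1 (m 40 6 (m 41 5 (m 44 5 o))))))))))))) e) (n (l (q 139 3 (m 140 8 o))) e)) (n (n (l (m 128 18 (m 129 10 (m 130 5 (m 131 16 (m 132 3 (q 133 27 (m 134 6 o)))))))) e) e)) (n (n (n (l (q 101 1 (m 103 3 (q 104 1 (m 105 2 (m 106 1 (q 107 3 (m 108 2 (m 109 3 (q 110 1 (m 112 2 (q 113 1 (m 116 1 (m 117 3 (m 118 2 o))))))))))))))) e) (n (l (m 141 1 (m 142 2 o))) e)) (n (n (l (q 135 4 (m 136 11 (m 137 1 (q 138 8 o))))) e) e))) (n (n (n (n (l (q 95 11 (m 96 2 (q 98 4 (m 99 4 (q 100 2 o)))))) e) (n (l (q 139 2 (m 140 1 o))) e)) (n (n (l (q 128 63 (q 129 55 (q 130 7 (q 131 52 (q 132 56 (m 133 64 (q 134 22 o)))))))) e) e)) (n (n (n (l (m 127 10 o)) e) (n (l (q 141 1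 (q 142 1 o))) e)) e)))) (n (n (n (n (n (n (l (m 29 2 (m 30 1 o))) e) (n (l (q 139 2 (q 140 5 o))) e)) (n (n (l (q 128 15 (q 129 13 (m 130 26 (m 131 36 (m 132 5 (m 133 20 o))))))) e) e)) (n (n (n (l (m 101 19 (m 102 5 (q 103 8 (m 104 15 (q 105 21 (q 106 16 (m 107 5 (m 108 7 (q 109 4 (m 110 19 (q 111 28 (q 112 6 (q 113 31 (m 114 5 (m 115 35 (m 116 40 (q 117 18 (q 118 4 o))))))))))))))))))) e) (n (l (m 142 2 o)) e)) (n (n (l (q 136 7 (q 137 3 (q 138 5 o)))) e) e))) (n (n (n (n (l (m 61 7 (q 62 5 (q 63 13 (q 64 6 (m 65 5 (m 66 4 (q 67 7 (q 68 5 (q 69 13 (q 70 5 (q 71 8 (q 72 12 (m 73 6 (m 74 2 (q 75 2 (q 76 5 (q 78 10 (q 79 3 (q 80 10 o)))))))))))))))))))) e) (n (l (q 139 43 (m 140 21 o))) e)) (n (n (l (q 128 19 (q 129 22 (m 130 8 (q 131 5 (q 132 19 (m 133 16 (q 134 5 o)))))))) e) e)) (n (n (n (l (m 119 70 (m 120 1 (q 121 42 (m 122 14 (q 123 6 (m 124 3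 (m 125 22 (m 126 16 o))))))))) e) (n (l (q 142 1 o)) e)) (n e (n (l (m 143 1 o)) e))))) (n (n (n (n (n (l (m 56 1 (q 58 2 (q 60 2 o)))) e) (n (l (q 139 1 (m 140 33 o))) e)) (n (n (l (q 128 57 (q 129 44 (q 130 12 (q 131 49 (q 132 46 (m 133 66 (q 134 19 o)))))))) e) e)) (n (n (n (l (q 101 43 (m 102 3 (m 103 53 (q 104 40 (m 105 42 (m 106 60 (q 107 92 (m 108 53 (m 109 78 (q 110 65 (m 111 61 (m 112 56 (m 113 43 (q 114 9 (q 115 89 (q 116 45 (m 117 14 (m 118 34 o))))))))))))))))))) e) (n (l (m 141 1 (m 142 1 o))) e)) (n (n (l (q 135 6 (q 136 1 (q 137 3 (q 138 6 o))))) e) e))) (n (n (n (n (l (m 95 9 (q 96 2 (q 97 5 (m 98 2 (q 99 2 (m 100 1 o))))))) e) (n (l (q 139 10 (q 140 16 o))) e)) (n (n (l (q 135 3 (m 136 7 (q 137 2 (q 138 8 o))))) e) e)) (n (n (n (l (q 127 22 o)) e) e) (n (n (l (q 139 2 (m 140 1 o))) e) e)))))) (n (n (n (n (n (n (n (l (m 15 2 (m 16 1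 (m 17 2 (q 18 3 (q 20 1 o)))))) e) (n (l (q 139 3 (q 140 1 o))) e)) (n (n (l (m 128 31 (m 129 21 (m 130 14 (m 131 47 (m 132 35 (q 133 32 (m 134 11 o)))))))) e) e)) (n (n (n (l (m 101 49 (m 102 2 (q 103 49 (m 104 43 (q 105 62 (q 106 72 (m 107 84 (q 108 39 (q 109 71 (m 110 85 (q 111 78 (q 112 52 (q 113 66 (m 114 14 (m 115 126 (m 116 77 (q 117 32 (q 118 32 o))))))))))))))))))) e) (n (l (q 142 1 o)) e)) (n (n (l (m 135 1 (m 136 4 (m 137 6 (m 138 6 o))))) e) e))) (n (n (n (n (l (q 61 15 (m 62 1 (m 63 25 (m 64 18 (q 65 10 (q 66 7 (m 67 15 (m 68 10 (m 69 36 (m 70 6 (m 71 19 (m 72 26 (q 73 15 (q 74 11 (m 75 11 (m 76 15 (m 78 21 (m 79 9 (m 80 22 o)))))))))))))))))))) e) (n (l (m 139 4 (m 140 1 o))) e)) (n (n (l (q 128 52 (q 129 36 (m 130 9 (q 131 9 (q 132 37 (m 133 58 (q 134 16 o)))))))) e) e)) (n (n (n (l (q 120 3 (q 121 6 (q 122 3 (q 123 6 (q 126 3 o))))))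 e) e) (n e (n (l (q 143 1 o)) e))))) (n (n (n (n (n (l (q 56 1 (m 57 1 (m 58 1 (m 59 2 o))))) e) (n (l (q 139 10 (q 140 10 o))) e)) (n (n (l (m 128 55 (m 129 34 (q 130 12 (m 131 30 (m 132 39 (q 133 53 (m 134 12 o)))))))) e) e)) (n (n (n (l (q 101 19 (m 102 4 (m 103 30 (q 104 31 (m 105 36 (m 106 39 (q 107 69 (m 108 37 (m 109 53 (q 110 30 (m 111 35 (m 112 42 (m 113 23 (q 114 3 (q 115 51 (q 116 18 (m 117 10 (m 118 17 o))))))))))))))))))) e) (n (l (q 141 1 (q 142 2 o))) e)) (n (n (l (q 135 5 (m 136 2 (q 137 7 (q 138 13 o))))) e) e))) (n (n (n (n (l (m 95 5 (q 96 1 (q 97 1 (m 98 2 (q 99 2 (m 100 1 o))))))) e) (n (l (m 139 40 (q 140 38 o))) e)) (n (n (l (m 135 4 (q 136 2 (m 137 7 (m 138 13 o))))) e) e)) (n (n e (n (l (m 141 1 (m 142 2 o))) e)) (n (n (l (q 139 2 (m 140 1 o))) e) (n (l (q 143 1 o)) e)))))) (n (n (n (n (n (n (l (m 31 6 (q 32 3 (q 33 1 (m 34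 6 (q 35 6 (m 36 3 (q 37 1 (m 38 5 (q 40 2 (q 41 2 (q 44 2 o)))))))))))) e) (n (l (q 139 28 (m 140 6 o))) e)) (n (n (l (q 128 31 (q 129 21 (m 130 12 (q 131 2 (q 132 22 (m 133 29 (q 134 5 o)))))))) e) e)) (n (n (n (l (q 101 38 (m 102 7 (m 103 75 (q 104 56 (m 105 79 (m 106 97 (q 107 152 (m 108 87 (m 109 124 (q 110 102 (m 111 82 (m 112 89 (m 113 53 (q 114 12 (q 115 147 (q 116 49 (m 117 17 (m 118 52 o))))))))))))))))))) e) (n (l (q 141 1 (q 142 2 o))) e)) (n (n (l (m 135 7 (q 136 1 (m 137 3 (m 138 9 o))))) e) e))) (n (n (n (n (l (m 81 11 (m 82 1 (m 83 4 (m 84 7 (q 85 8 (q 86 1 (m 87 6 (q 88 6 (q 89 1 (q 91 1 (q 93 2 (q 94 1 o))))))))))))) e) (n (l (q 139 34 (m 140 43 o))) e)) (n (n (l (m 128 36 (m 129 28 (m 130 13 (m 131 46 (m 132 43 (q 133 29 (m 134 12 o)))))))) e) e)) (n (n (n (l (q 127 7 o)) e) (n (l (m 141 1 (m 142 1 o))) e)) e))) (n (n (n (n (n (l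 (q 61 3 (q 62 1 (m 63 7 (m 64 5 (q 65 3 (q 66 2 (m 67 4 (m 68 2 (m 69 11 (m 70 1 (m 71 5 (m 72 7 (q 73 4 (q 74 4 (m 75 4 (m 76 4 (m 78 5 (m 79 3 (m 80 6 o)))))))))))))))))))) e) (n (l (m 139 27 (m 140 12 o))) e)) (n (n (l (m 128 58 (m 129 47 (m 130 14 (m 131 52 (m 132 44 (q 133 67 (m 134 20 o)))))))) e) e)) (n (n (n (l (m 119 18 (q 120 3 (q 121 11 (m 122 5 (q 123 1 (m 125 4 (m 126 4 o)))))))) e) (n (l (q 141 2 (q 142 2 o))) e)) (n (n (l (q 135 13 (m 136 13 (m 137 4 (q 138 9 o))))) e) (n (l (q 143 1 o)) e)))) (n (n (n (n (l (q 101 25 (m 102 2 (m 103 34 (q 104 24 (m 105 35 (m 106 44 (q 107 62 (m 108 34 (m 109 52 (q 110 50 (m 111 42 (m 112 38 (m 113 30 (q 114 8 (q 115 71 (q 116 33 (m 117 12 (m 118 24 o))))))))))))))))))) e) (n (l (q 139 13 (m 140 13 o))) e)) (n (n (l (q 135 6 (m 136 5 (q 137 4 (q 138 15 o))))) e) e)) (n (n (n (l (q 128 18 (q 129 10 (q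 130 12 (q 131 38 (q 132 28 (m 133 10 (q 134 6 o)))))))) e) e) (n (n (l (m 139 4 (q 140 1 o))) e) e)))))))
def r7 : Tb SV := (n (n (n (n (n (n (n (n (l (m 15 1 (m 16 2 (q 17 2 (m 18 1 (q 19 2 (q 20 1 (q 21 1 (m 22 1 o))))))))) e) (n (l (q 141 23 (m 142 36 o))) e)) (n (n (l (q 135 105 (q 136 243 (q 137 169 (q 138 161 o))))) e) e)) (n (n (n (l (q 119 26 (m 120 31 (m 121 31 (q 122 23 (m 123 7 (m 124 15 (q 125 2 (q 126 45 o))))))))) e) (n (l (m 141 4 (m 142 38 o))) e)) e)) (n (n (n (n (l (m 81 60 (m 82 100 (m 83 33 (q 84 10 (m 85 75 (m 86 22 (m 87 2 (q 88 109 (m 89 159 (m 90 164 (q 91 36 (m 92 159 (m 93 206 (q 94 3 o))))))))))))))) e) (n (l (m 141 59 (q 142 35 o))) e)) (n (n (l (q 135 12 (m 136 10 (q 137 3 (q 138 13 o))))) e) (n (l (q 143 1 o)) e))) (n e (n (n (l (q 139 1 (q 140 8 o))) e) e)))) (n (n (n (n (n (l (q 45 8 (q 46 14 (m 47 11 (m 48 4 (m 49 6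 (q 50 7 (q 51 1 (q 52 10 (q 53 4 (m 54 3 (m 55 2 o)))))))))))) e) (n (l (q 141 12 (q 142 9 o))) e)) (n (n (l (m 135 36 (m 136 62 (m 137 33 (m 138 34 o))))) e) e)) (n (n (n (l (q 119 4 (m 120 4 (m 121 6 (m 122 3 (m 123 2 (m 124 5 (m 125 5 (m 126 1 o))))))))) e) e) (n e (n (l (m 143 2 o)) e)))) (n (n (n (n (l (q 101 30 (m 102 8 (q 103 14 (q 104 4 (m 105 38 (m 106 22 (q 107 25 (m 108 34 (m 109 27 (q 110 6 (m 111 9 (q 112 29 (m 113 23 (m 115 19 (q 116 4 (m 117 41 (m 118 4 o)))))))))))))))))) e) (n (l (m 141 1 (q 142 2 o))) e)) (n (n (l (q 135 161 (q 136 394 (q 137 238 (q 138 241 o))))) e) (n (l (m 143 1 o)) e))) (n (n (n (l (m 128 17 (q 129 20 (m 130 12 (m 131 28 (m 132 12 (m 133 6 (m 134 2 o)))))))) e) e) (n (n (l (m 139 9 (q 140 4 o))) e) e))))) (n (n (n (n (n (n (l (q 31 16 (m 32 4 (q 34 16 (m 35 16 (q 36 5 (m 37 2 (q 38 7 (m 39 3 (m 40 6 (m 41 4 (m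 43 1 (m 44 5 o))))))))))))) e) (n (l (m 141 19 (m 142 2 o))) e)) (n (n (l (q 135 23 (m 136 20 (m 137 81 (m 138 66 o))))) e) e)) (n (n (n (l (q 120 25 (q 121 39 (q 122 17 (q 123 72 (m 124 27 (m 125 24 (q 126 116 o)))))))) e) e) e)) (n (n (n (n (l (q 81 32 (q 82 43 (q 83 11 (m 84 8 (q 85 20 (q 86 2 (m 88 73 (q 89 78 (q 90 73 (m 91 30 (q 92 79 (q 93 97 (m 94 3 o)))))))))))))) e) (n (l (q 141 72 (m 142 48 o))) e)) (n (n (l (q 135 60 (q 136 132 (q 137 62 (q 138 63 o))))) e) (n (l (q 143 3 o)) e))) (n e (n (n (l (q 139 22 (m 140 10 o))) e) e)))) (n (n (n (n (n (l (m 61 13 (m 62 7 (m 63 20 (m 64 6 (q 65 13 (m 66 5 (q 67 3 (q 68 8 (m 69 12 (m 70 9 (q 71 4 (m 72 4 (q 73 4 (q 74 2 (m 75 5 (m 76 9 (m 77 3 (m 78 4 (m 79 2 (q 80 8 o))))))))))))))))))))) e) (n (l (q 141 6 (m 142 38 o))) e)) (n (n (l (q 135 143 (q 136 335 (q 137 191 (q 138 187 o))))) e) (n (l (q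 143 1 o)) e))) (n (n (n (l (q 119 90 (m 120 167 (m 121 217 (m 122 18 (m 123 222 (m 124 2 (q 125 28 (m 126 227 o))))))))) e) e) e)) (n (n (n (n (l (m 101 30 (q 102 4 (q 103 7 (m 104 2 (q 105 62 (q 106 25 (m 107 45 (q 108 44 (q 109 41 (q 110 18 (q 111 19 (m 112 29 (q 113 16 (q 115 28 (m 116 7 (q 117 36 (m 118 3 o)))))))))))))))))) e) (n (l (q 141 24 (q 142 11 o))) e)) (n e (n (l (m 143 1 o)) e))) (n (n (n (l (q 128 18 (m 129 28 (q 130 33 (q 131 32 (q 132 12 (m 133 5 (m 134 3 o)))))))) e) e) (n (n (l (q 141 5 (m 142 1 o))) e) e)))))) (n (n (n (n (n (n (n (l (q 23 4 (m 24 1 (m 25 2 o)))) e) (n (l (m 141 18 (m 142 2 o))) e)) (n (n (l (m 135 100 (m 136 237 (m 137 166 (m 138 158 o))))) e) e)) (n (n (n (l (m 119 63 (q 120 171 (q 121 225 (q 122 38 (q 123 276 (m 124 26 (m 125 51 (q 126 325 o))))))))) e) e) (n e (n (l (m 143 4 o)) e)))) (n (n (n (n (l (m 81 59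 (m 82 130 (m 83 32 (q 84 26 (m 85 105 (m 86 19 (q 87 12 (q 88 141 (m 89 200 (m 90 202 (q 91 58 (m 92 199 (m 93 261 o)))))))))))))) e) (n (l (q 141 1 (m 142 8 o))) e)) (n (n (l (q 135 121 (q 136 239 (q 137 95 (q 138 103 o))))) e) (n (l (m 143 1 o)) e))) (n e (n (n (l (q 139 1 (q 140 11 o))) e) e)))) (n (n (n (n (n (l (m 61 11 (m 62 3 (m 63 17 (m 64 5 (q 65 5 (q 66 2 (q 67 6 (q 68 8 (m 69 9 (m 70 8 (q 71 6 (m 72 1 (q 73 4 (q 74 2 (m 75 4 (m 76 5 (m 77 2 (m 78 3 (q 80 8 o)))))))))))))))))))) e) (n (l (m 141 12 (q 142 16 o))) e)) (n (n (l (m 135 151 (m 136 282 (m 137 128 (m 138 136 o))))) e) (n (l (m 143 1 o)) e))) (n (n (n (l (q 119 56 (m 120 115 (m 121 148 (m 122 21 (m 123 153 (m 124 13 (q 125 11 (m 126 130 o))))))))) e) e) e)) (n (n (n (n (l (m 101 18 (q 102 4 (m 103 2 (m 104 3 (q 105 16 (q 106 16 (m 107 19 (q 108 23 (q 109 20 (m 110 8 (q 111 6 (m 112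 14 (q 113 13 (q 114 1 (q 115 6 (m 116 2 (q 117 19 (q 118 7 o))))))))))))))))))) e) (n (l (m 141 110 (q 142 39 o))) e)) (n e (n (l (m 143 8 o)) e))) (n (n (n (l (m 129 2 (q 130 2 (m 132 8 (m 133 6 (m 134 4 o)))))) e) e) (n (n (l (m 141 2 (m 142 1 o))) e) e))))) (n (n (n (n (n (n (l (m 45 3 (m 46 4 (q 47 6 (q 48 3 (q 49 4 (m 50 5 (m 51 3 (m 52 7 (m 53 2 (q 54 1 o))))))))))) e) (n (l (q 141 48 (m 142 31 o))) e)) (n (n (l (q 135 87 (q 136 158 (q 137 47 (q 138 47 o))))) e) e)) (n (n (n (l (q 119 115 (m 120 280 (m 121 348 (m 122 40 (m 123 365 (m 124 21 (q 125 31 (m 126 338 o))))))))) e) e) (n e (n (l (q 143 1 o)) e)))) (n (n (n e (n (l (q 141 70 (m 142 69 o))) e)) (n (n (l (m 135 122 (m 136 286 (m 137 198 (m 138 195 o))))) e) (n (l (m 143 6 o)) e))) (n (n (n (l (q 128 14 (m 129 23 (q 130 21 (q 131 31 (m 132 6 (m 134 4 o))))))) e) e) (n (n (l (m 139 9 (q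 140 11 o))) e) e)))) (n (n (n (n (n (l (m 81 25 (m 82 38 (m 83 12 (q 84 2 (m 85 32 (m 86 9 (m 87 1 (q 88 33 (m 89 52 (m 90 58 (q 91 6 (m 92 52 (m 93 68 (q 94 1 o))))))))))))))) e) (n (l (m 141 45 (q 142 10 o))) e)) (n (n (l (m 135 147 (m 136 328 (m 137 194 (m 138 196 o))))) e) e)) e) (n (n (n (n (l (q 119 54 (m 120 124 (m 121 159 (m 122 15 (m 123 174 (q 125 26 (m 126 169 o)))))))) e) (n (l (q 141 78 (q 142 5 o))) e)) (n e (n (l (q 143 2 o)) e))) (n (n (n (l (q 135 73 (q 136 176 (q 137 128 (q 138 118 o))))) e) e) (n (n (l (m 141 4 (q 142 2 o))) e) e)))))))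
def r8 : Tb SV := (n (n (n (n (n (n (n (n (l (m 15 3 (m 16 6 (q 17 5 (m 18 1 (q 19 5 (q 20 2 (q 21 3 (m 22 2 o))))))))) e) (n (l (q 141 82 (m 142 131 o))) e)) (n (n (l (q 135 199 (q 136 740 (q 137 515 (q 138 478 o))))) e) e)) (n (n (n (l (q 119 85 (m 120 99 (m 121 97 (q 122 73 (m 123 28 (m 124 36 (q 125 13 (q 126 146 o))))))))) e) (n (l (m 141 5 (m 142 129 o))) e)) e)) (n (n (n (n (l (m 81 317 (m 82 322 (m 83 145 (m 84 31 (m 85 214 (m 86 130 (m 87 82 (q 88 477 (m 89 498 (m 90 492 (m 91 1 (m 92 498 (m 93 588 (q 94 9 o))))))))))))))) e) (n (l (m 141 191 (q 142 144 o))) e)) (n (n (l (q 135 40 (m 136 26 (q 137 13 (q 138 43 o))))) e) (n (l (q 143 3 o)) e))) (n e (n (n (l (m 139 6 (q 140 9 o))) e) e)))) (n (n (n (n (n (l (q 45 28 (q 46 40 (m 47 37 (m 48 11 (m 49 28 (q 50 23 (q 51 2 (q 52 38 (q 53 12 (m 54 8 (m 55 6 o)))))))))))) e) (n (l (q 141 32 (q 142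 28 o))) e)) (n (n (l (m 135 89 (m 136 185 (m 137 106 (m 138 105 o))))) e) e)) (n (n (n (l (q 119 11 (m 120 11 (m 121 17 (m 122 10 (m 123 5 (m 124 16 (m 125 16 (m 126 2 o))))))))) e) e) (n e (n (l (m 143 6 o)) e)))) (n (n (n (n (l (q 101 78 (m 102 20 (q 103 34 (q 104 2 (m 105 120 (m 106 64 (q 107 51 (m 108 82 (m 109 63 (q 110 8 (m 111 23 (q 112 75 (m 113 67 (q 114 4 (m 115 55 (q 116 24 (m 117 81 (m 118 10 o))))))))))))))))))) e) (n (l (m 141 3 (q 142 6 o))) e)) (n (n (l (q 135 293 (q 136 1224 (q 137 727 (q 138 712 o))))) e) (n (l (m 143 3 o)) e))) (n (n (n (l (m 128 50 (q 129 54 (m 130 35 (m 131 63 (m 132 35 (m 133 12 (m 134 4 o)))))))) e) e) (n (n (l (m 139 21 (q 140 24 o))) e) e))))) (n (n (n (n (n (n (l (q 31 46 (m 32 11 (q 34 47 (m 35 47 (q 36 14 (m 37 7 (q 38 19 (m 39 9 (m 40 19 (m 41 12 (m 42 1 (m 43 3 (m 44 14 o)))))))))))))) e) (n (l (m 141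 60 (q 142 3 o))) e)) (n (n (l (q 135 86 (m 136 50 (m 137 242 (m 138 199 o))))) e) e)) (n (n (n (l (q 119 12 (q 120 59 (q 121 100 (q 122 62 (q 123 192 (m 124 69 (m 125 54 (q 126 356 o))))))))) e) e) e)) (n (n (n (n (l (q 81 154 (q 82 141 (q 83 52 (q 84 1 (q 85 58 (q 86 33 (q 87 31 (m 88 286 (q 89 243 (q 90 220 (m 91 43 (q 92 246 (q 93 278 (m 94 9 o))))))))))))))) e) (n (l (q 141 221 (m 142 199 o))) e)) (n (n (l (q 135 114 (q 136 414 (q 137 186 (q 138 181 o))))) e) (n (l (q 143 9 o)) e))) (n e (n (n (l (q 139 60 (m 140 42 o))) e) e)))) (n (n (n (n (n (l (m 61 38 (m 62 21 (m 63 55 (m 64 18 (q 65 35 (m 66 18 (q 67 8 (q 68 22 (m 69 33 (m 70 24 (q 71 10 (m 72 11 (q 73 12 (q 74 6 (m 75 15 (m 76 26 (m 77 9 (m 78 11 (m 79 7 (q 80 23 o))))))))))))))))))))) e) (n (l (q 141 19 (m 142 132 o))) e)) (n (n (l (q 135 276 (q 136 1029 (q 137 588 (q 138 556 o))))) e)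 (n (l (q 143 3 o)) e))) (n (n (n (l (q 119 242 (m 120 472 (m 121 620 (m 122 88 (m 123 630 (m 124 29 (q 125 46 (m 126 660 o))))))))) e) e) e)) (n (n (n (n (l (m 101 85 (q 102 12 (q 103 32 (q 104 7 (q 105 185 (q 106 74 (m 107 114 (q 108 120 (q 109 108 (q 110 53 (q 111 52 (m 112 68 (q 113 43 (m 114 3 (q 115 71 (m 116 32 (q 117 59 (m 118 8 o))))))))))))))))))) e) (n (l (q 141 77 (q 142 28 o))) e)) (n e (n (l (m 143 3 o)) e))) (n (n (n (l (q 128 50 (m 129 71 (q 130 87 (q 131 68 (q 132 38 (m 133 20 (m 134 10 o)))))))) e) e) (n (n (l (q 141 15 (m 142 3 o))) e) e)))))) (n (n (n (n (n (n (n (l (q 23 16 (m 24 5 (m 25 4 (q 26 1 o))))) e) (n (l (m 141 56 (q 142 2 o))) e)) (n (n (l (m 135 185 (m 136 723 (m 137 505 (m 138 468 o))))) e) e)) (n (n (n (l (m 119 158 (q 120 475 (q 121 635 (q 122 151 (q 123 775 (m 124 50 (m 125 105 (q 126 968 o))))))))) e) e) (n e (n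 (l (m 143 12 o)) e)))) (n (n (n (n (l (m 81 348 (m 82 415 (m 83 154 (q 84 1 (m 85 297 (m 86 137 (m 87 60 (q 88 604 (m 89 624 (m 90 602 (q 91 38 (m 92 621 (m 93 742 o)))))))))))))) e) (n (l (q 141 8 (m 142 25 o))) e)) (n (n (l (q 135 249 (q 136 749 (q 137 300 (q 138 306 o))))) e) (n (l (m 143 4 o)) e))) (n e (n (n (l (m 139 2 (q 140 12 o))) e) e)))) (n (n (n (n (n (l (m 61 33 (m 62 10 (m 63 50 (m 64 17 (q 65 16 (q 66 2 (q 67 17 (q 68 24 (m 69 29 (m 70 22 (q 71 16 (m 72 3 (q 73 13 (q 74 8 (m 75 14 (m 76 18 (m 77 6 (m 78 9 (m 79 1 (q 80 24 o))))))))))))))))))))) e) (n (l (m 141 44 (q 142 60 o))) e)) (n (n (l (m 135 317 (m 136 873 (m 137 397 (m 138 406 o))))) e) (n (l (m 143 2 o)) e))) (n (n (n (l (q 119 146 (m 120 330 (m 121 425 (m 122 88 (m 123 442 (m 124 54 (q 125 8 (m 126 363 o))))))))) e) e) e)) (n (n (n (n (l (m 101 48 (q 102 10 (m 103 2 (m 104 4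 (q 105 51 (q 106 47 (m 107 45 (q 108 59 (q 109 51 (m 110 19 (q 111 16 (m 112 36 (q 113 38 (q 114 1 (q 115 17 (m 116 12 (q 117 36 (q 118 20 o))))))))))))))))))) e) (n (l (m 141 340 (q 142 175 o))) e)) (n e (n (l (m 143 24 o)) e))) (n (n (n (l (m 129 6 (q 130 6 (m 132 24 (m 133 18 (m 134 12 o)))))) e) e) (n (n (l (m 141 9 (m 142 4 o))) e) e))))) (n (n (n (n (n (n (l (m 45 10 (m 46 11 (q 47 19 (q 48 8 (q 49 15 (m 50 15 (m 51 8 (m 52 23 (m 53 6 (q 54 3 o))))))))))) e) (n (l (q 141 155 (m 142 113 o))) e)) (n (n (l (q 135 184 (q 136 490 (q 137 145 (q 138 135 o))))) e) e)) (n (n (n (l (q 119 312 (m 120 805 (m 121 1007 (m 122 168 (m 123 1054 (m 124 89 (q 125 44 (m 126 968 o))))))))) e) e) (n e (n (l (q 143 3 o)) e)))) (n (n (n e (n (l (q 141 220 (m 142 270 o))) e)) (n (n (l (m 135 222 (m 136 879 (m 137 594 (m 138 567 o))))) e) (n (l (m 143 18 o)) e))) (n (n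 (n (l (q 128 41 (m 129 63 (q 130 62 (q 131 72 (m 132 19 (m 133 6 (m 134 14 o)))))))) e) e) (n (n (l (m 139 29 (q 140 31 o))) e) e)))) (n (n (n (n (n (l (m 81 121 (m 82 121 (m 83 51 (m 84 14 (m 85 92 (m 86 48 (m 87 28 (q 88 150 (m 89 163 (m 90 174 (m 91 18 (m 92 163 (m 93 194 (q 94 3 o))))))))))))))) e) (n (l (m 141 141 (q 142 36 o))) e)) (n (n (l (m 135 289 (m 136 1009 (m 137 600 (m 138 586 o))))) e) e)) e) (n (n (n (n (l (q 119 146 (m 120 351 (m 121 455 (m 122 67 (m 123 495 (m 124 13 (q 125 53 (m 126 494 o))))))))) e) (n (l (q 141 238 (m 142 3 o))) e)) (n e (n (l (q 143 6 o)) e))) (n (n (n (l (q 135 127 (q 136 536 (q 137 389 (q 138 351 o))))) e) e) (n (n (l (m 141 9 (q 142 7 o))) e) e)))))))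
def r9 : Tb SV := (n (n (n (n (n (n (n (n (l (m 15 5 (m 16 7 (q 17 7 (m 18 3 (q 19 7 (q 20 4 (q 21 3 (m 22 2 o))))))))) e) (n (l (q 141 106 (m 142 143 o))) e)) (n (n (l (q 135 234 (q 136 904 (q 137 635 (q 138 591 o))))) e) e)) (n (n (n (l (q 119 109 (m 120 129 (m 121 127 (q 122 93 (m 123 38 (m 124 44 (q 125 15 (q 126 177 o))))))))) e) (n (l (m 141 2 (m 142 149 o))) e)) e)) (n (n (n (n (l (m 81 429 (m 82 408 (m 83 188 (m 84 44 (m 85 249 (m 86 158 (m 87 114 (q 88 579 (m 89 625 (m 90 641 (q 91 1 (m 92 628 (m 93 752 (q 94 18 o))))))))))))))) e) (n (l (m 141 246 (q 142 150 o))) e)) (n (n (l (q 135 51 (m 136 29 (q 137 14 (q 138 50 o))))) e) (n (l (q 143 4 o)) e))) (n e (n (n (l (m 139 8 (q 140 3 o))) e) e)))) (n (n (n (n (n (l (q 45 35 (q 46 51 (m 47 48 (m 48 15 (m 49 37 (q 50 31 (q 51 4 (q 52 50 (q 53 14 (m 54 10 (m 55 7 o)))))))))))) e) (n (l (q 141 40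 (q 142 28 o))) e)) (n (n (l (m 135 105 (m 136 229 (m 137 127 (m 138 123 o))))) e) e)) (n (n (n (l (q 119 14 (m 120 14 (m 121 22 (m 122 13 (m 123 7 (m 124 20 (m 125 20 (m 126 4 o))))))))) e) e) (n e (n (l (m 143 8 o)) e)))) (n (n (n (n (l (q 101 94 (m 102 22 (q 103 46 (m 104 1 (m 105 136 (m 106 80 (q 107 57 (m 108 95 (m 109 75 (q 110 18 (m 111 29 (q 112 94 (m 113 87 (q 114 7 (m 115 63 (q 116 32 (m 117 85 (m 118 12 o))))))))))))))))))) e) (n (l (m 141 4 (q 142 6 o))) e)) (n (n (l (q 135 340 (q 136 1499 (q 137 895 (q 138 878 o))))) e) (n (l (m 143 4 o)) e))) (n (n (n (l (m 128 65 (q 129 67 (m 130 42 (m 131 68 (m 132 42 (m 133 12 (m 134 3 o)))))))) e) e) (n (n (l (m 139 26 (q 140 39 o))) e) e))))) (n (n (n (n (n (n (l (q 31 56 (m 32 12 (q 33 1 (q 34 57 (m 35 57 (q 36 17 (m 37 9 (q 38 24 (m 39 10 (m 40 23 (m 41 15 (m 42 1 (m 43 3 (m 44 17 o)))))))))))))))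 e) (n (l (m 141 76 (m 142 4 o))) e)) (n (n (l (q 135 105 (m 136 60 (m 137 300 (m 138 248 o))))) e) e)) (n (n (n (l (q 119 18 (q 120 68 (q 121 118 (q 122 79 (q 123 232 (m 124 88 (m 125 67 (q 126 441 o))))))))) e) e) e)) (n (n (n (n (l (q 81 206 (q 82 180 (q 83 68 (q 84 3 (q 85 66 (q 86 40 (q 87 44 (m 88 348 (q 89 308 (q 90 288 (m 91 55 (q 92 313 (q 93 358 (m 94 14 o))))))))))))))) e) (n (l (q 141 286 (m 142 205 o))) e)) (n (n (l (q 135 134 (q 136 505 (q 137 230 (q 138 226 o))))) e) (n (l (q 143 11 o)) e))) (n e (n (n (l (q 139 73 (m 140 63 o))) e) e)))) (n (n (n (n (n (l (m 61 47 (m 62 25 (m 63 68 (m 64 23 (q 65 43 (m 66 22 (q 67 9 (q 68 27 (m 69 42 (m 70 29 (q 71 11 (m 72 14 (q 73 15 (q 74 8 (m 75 19 (m 76 33 (m 77 11 (m 78 14 (m 79 9 (q 80 28 o))))))))))))))))))))) e) (n (l (q 141 24 (m 142 163 o))) e)) (n (n (l (q 135 321 (q 136 1260 (q 137 723 (q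 138 683 o))))) e) (n (l (q 143 4 o)) e))) (n (n (n (l (q 119 304 (m 120 584 (m 121 773 (m 122 117 (m 123 779 (m 124 31 (q 125 54 (m 126 835 o))))))))) e) e) e)) (n (n (n (n (l (m 101 107 (q 102 12 (q 103 34 (q 104 11 (q 105 212 (q 106 88 (m 107 130 (q 108 137 (q 109 126 (q 110 58 (q 111 66 (m 112 84 (q 113 60 (m 114 4 (q 115 85 (m 116 45 (q 117 57 (m 118 11 o))))))))))))))))))) e) (n (l (q 141 99 (q 142 50 o))) e)) (n e (n (l (m 143 4 o)) e))) (n (n (n (l (q 128 67 (m 129 85 (q 130 107 (q 131 74 (q 132 45 (m 133 30 (m 134 13 o)))))))) e) e) (n (n (l (q 141 20 (m 142 3 o))) e) e)))))) (n (n (n (n (n (n (n (l (q 23 20 (m 24 6 (m 25 5 (q 26 1 o))))) e) (n (l (m 141 71 (m 142 6 o))) e)) (n (n (l (m 135 216 (m 136 883 (m 137 623 (m 138 579 o))))) e) e)) (n (n (n (l (m 119 192 (q 120 581 (q 121 781 (q 122 196 (q 123 950 (m 124 70 (m 125 127 (q 126 1213 o)))))))))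 e) e) (n e (n (l (m 143 15 o)) e)))) (n (n (n (n (l (m 81 481 (m 82 525 (m 83 201 (m 84 6 (m 85 346 (m 86 167 (m 87 92 (q 88 733 (m 89 783 (m 90 785 (q 91 48 (m 92 783 (m 93 948 (q 94 9 o))))))))))))))) e) (n (l (q 141 10 (m 142 29 o))) e)) (n (n (l (q 135 290 (q 136 915 (q 137 370 (q 138 377 o))))) e) (n (l (m 143 5 o)) e))) (n e (n (n (l (m 139 5 (q 140 4 o))) e) e)))) (n (n (n (n (n (l (m 61 41 (m 62 11 (m 63 62 (m 64 22 (q 65 20 (q 66 2 (q 67 20 (q 68 30 (m 69 38 (m 70 26 (q 71 18 (m 72 4 (q 73 16 (q 74 11 (m 75 18 (m 76 23 (m 77 7 (m 78 11 (m 79 2 (q 80 29 o))))))))))))))))))))) e) (n (l (m 141 55 (q 142 64 o))) e)) (n (n (l (m 135 374 (m 136 1064 (m 137 489 (m 138 503 o))))) e) (n (l (m 143 2 o)) e))) (n (n (n (l (q 119 183 (m 120 411 (m 121 532 (m 122 114 (m 123 548 (m 124 65 (q 125 7 (m 126 461 o))))))))) e) e) e)) (n (n (n (n (l (m 101 59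 (q 102 11 (m 103 5 (m 104 3 (q 105 56 (q 106 58 (m 107 52 (q 108 69 (q 109 61 (m 110 27 (q 111 21 (m 112 45 (q 113 50 (q 115 19 (m 116 17 (q 117 36 (q 118 24 o)))))))))))))))))) e) (n (l (m 141 433 (q 142 178 o))) e)) (n e (n (l (m 143 30 o)) e))) (n (n (n (l (m 128 2 (m 129 8 (q 130 8 (q 131 2 (m 132 30 (m 133 20 (m 134 14 o)))))))) e) e) (n (n (l (m 141 10 (m 142 5 o))) e) e))))) (n (n (n (n (n (n (l (m 45 12 (m 46 14 (q 47 24 (q 48 10 (q 49 19 (m 50 19 (m 51 10 (m 52 29 (m 53 7 (q 54 4 o))))))))))) e) (n (l (q 141 198 (m 142 121 o))) e)) (n (n (l (q 135 217 (q 136 597 (q 137 181 (q 138 170 o))))) e) e)) (n (n (n (l (q 119 389 (m 120 996 (m 121 1253 (m 122 222 (m 123 1301 (m 124 103 (q 125 46 (m 126 1226 o))))))))) e) e) (n e (n (l (q 143 4 o)) e)))) (n (n (n e (n (l (q 141 285 (m 142 294 o))) e)) (n (n (l (m 135 260 (m 136 1075 (m 137 735 (m 138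 704 o))))) e) (n (l (m 143 23 o)) e))) (n (n (n (l (q 128 50 (m 129 79 (q 130 75 (q 131 83 (m 132 24 (m 133 6 (m 134 18 o)))))))) e) e) (n (n (l (m 139 36 (q 140 40 o))) e) e)))) (n (n (n (n (n (l (m 81 161 (m 82 153 (m 83 66 (m 84 19 (m 85 109 (m 86 58 (m 87 38 (q 88 182 (m 89 204 (m 90 226 (m 91 21 (m 92 205 (m 93 248 (q 94 6 o))))))))))))))) e) (n (l (m 141 180 (q 142 29 o))) e)) (n (n (l (m 135 339 (m 136 1237 (m 137 736 (m 138 718 o))))) e) e)) e) (n (n (n (n (l (q 119 181 (m 120 432 (m 121 563 (m 122 89 (m 123 608 (m 124 12 (q 125 62 (m 126 623 o))))))))) e) (n (l (q 141 301 (q 142 18 o))) e)) (n e (n (l (q 143 7 o)) e))) (n (n (n (l (q 135 148 (q 136 653 (q 137 482 (q 138 437 o))))) e) e) (n (n (l (m 141 12 (q 142 8 o))) e) e)))))))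
def r10 : Tb SV := (n (n (n (n (n (n (n (n (l (m 15 1 (q 16 3 (m 17 2 (m 18 1 (m 19 1 (m 20 2 (m 21 2 (q 22 1 o))))))))) e) (n (l (m 141 49 (q 142 94 o))) e)) (n (n (l (q 135 23 (m 136 381 (m 137 243 (m 138 206 o))))) e) e)) (n (n (n (l (m 119 42 (q 120 57 (q 121 53 (m 122 36 (q 123 27 (q 124 12 (m 125 12 (m 126 82 o))))))))) e) (n (l (m 141 3 (q 142 82 o))) e)) e)) (n (n (n (n (l (q 81 279 (q 82 129 (q 83 108 (q 84 76 (q 85 53 (q 86 134 (q 87 123 (m 88 417 (q 89 235 (q 90 190 (q 91 110 (q 92 232 (q 93 215 (m 94 3 o))))))))))))))) e) (n (l (q 141 104 (m 142 122 o))) e)) (n (n (l (m 135 19 (q 136 11 (m 137 9 (m 138 23 o))))) e) (n (l (m 143 1 o)) e))) (n e (n (n (l (q 139 10 (q 140 7 o))) e) e)))) (n (n (n (n (n (l (m 45 17 (m 46 17 (q 47 21 (q 48 4 (q 49 21 (m 50 12 (m 52 25 (m 53 6 (q 54 2 (q 55 3 o))))))))))) e) (n (l (m 141 13 (m 142 22 o))) e))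 (n (n (l (q 135 22 (q 136 88 (q 137 57 (q 138 52 o))))) e) e)) (n (n (n (l (m 119 4 (q 120 4 (q 121 6 (q 122 4 (q 123 1 (q 124 7 (q 125 7 (m 126 1 o))))))))) e) e) (n e (n (l (q 143 3 o)) e)))) (n (n (n (n (l (m 101 19 (q 102 8 (m 103 3 (m 104 3 (q 105 71 (q 106 33 (m 107 13 (q 108 32 (q 109 21 (q 110 29 (q 111 3 (m 112 25 (q 113 27 (m 114 5 (q 115 51 (m 116 13 (q 117 9 (q 118 1 o))))))))))))))))))) e) (n (l (q 141 2 (m 142 2 o))) e)) (n (n (l (q 135 62 (m 136 652 (m 137 348 (m 138 304 o))))) e) (n (l (q 143 2 o)) e))) (n (n (n (l (q 128 20 (m 129 20 (q 130 27 (q 131 16 (q 132 15 (q 133 5 (q 134 1 o)))))))) e) e) (n (n (l (q 139 4 (m 140 21 o))) e) e))))) (n (n (n (n (n (n (l (m 31 22 (q 32 6 (q 33 3 (m 34 24 (q 35 22 (m 36 6 (q 37 3 (m 38 6 (q 39 5 (q 40 10 (q 41 6 (q 42 2 (q 43 1 (q 44 5 o))))))))))))))) e) (n (l (q 141 30 (m 142 14 o))) e)) (n (n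 (l (m 135 55 (q 136 21 (q 137 106 (q 138 85 o))))) e) e)) (n (n (n (l (m 119 21 (m 120 10 (m 121 26 (m 122 38 (m 123 64 (q 124 24 (q 125 7 (m 126 183 o))))))))) e) e) e)) (n (n (n (n (l (m 81 130 (m 82 59 (m 83 41 (m 84 27 (m 85 9 (m 86 47 (m 87 49 (q 88 226 (m 89 113 (m 90 83 (m 91 29 (m 92 113 (m 93 99 (q 94 4 o))))))))))))))) e) (n (l (m 141 114 (q 142 173 o))) e)) (n (n (l (q 135 16 (m 136 225 (m 137 89 (m 138 74 o))))) e) (n (l (m 143 5 o)) e))) (n e (n (n (l (m 139 23 (q 140 28 o))) e) e)))) (n (n (n (n (n (l (q 61 17 (q 62 13 (q 63 25 (q 64 11 (m 65 17 (q 66 12 (m 67 2 (m 68 9 (q 69 16 (q 70 11 (m 71 2 (q 72 7 (m 73 7 (m 74 3 (q 75 7 (q 76 15 (q 77 4 (q 78 7 (q 79 4 (m 80 10 o))))))))))))))))))))) e) (n (l (m 141 5 (q 142 73 o))) e)) (n (n (l (q 135 28 (m 136 535 (m 137 286 (m 138 242 o))))) e) (n (l (m 143 2 o)) e))) (n (n (n (l (m 119 71 (q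 120 195 (q 121 249 (q 122 61 (q 123 260 (q 124 23 (q 125 10 (q 126 297 o))))))))) e) e) e)) (n (n (n (n (l (q 101 24 (m 102 7 (m 103 32 (m 104 6 (m 105 98 (m 106 41 (q 107 47 (m 108 59 (m 109 47 (m 110 49 (m 111 14 (q 112 18 (m 113 11 (q 114 6 (m 115 50 (q 116 13 (q 117 5 (q 118 4 o))))))))))))))))))) e) (n (l (m 141 44 (q 142 6 o))) e)) (n e (n (l (q 143 2 o)) e))) (n (n (n (l (m 128 15 (q 129 25 (m 130 43 (m 131 13 (m 132 19 (q 133 6 (q 134 6 o)))))))) e) e) (n (n (l (m 141 7 (q 142 1 o))) e) e)))))) (n (n (n (n (n (n (n (l (m 23 12 (q 24 5 (m 26 2 o)))) e) (n (l (q 141 27 (m 142 13 o))) e)) (n (n (l (m 135 28 (q 136 374 (q 137 238 (q 138 201 o))))) e) e)) (n (n (n (l (q 119 31 (m 120 186 (m 121 248 (m 122 96 (m 123 310 (q 124 8 (q 125 4 (m 126 464 o))))))))) e) e) (n e (n (l (q 143 7 o)) e)))) (n (n (n (n (l (q 81 323 (q 82 166 (q 83 122 (q 84 76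 (q 85 77 (q 86 153 (q 87 132 (m 88 519 (q 89 292 (q 90 228 (q 91 116 (q 92 287 (q 93 269 (q 94 2 o))))))))))))))) e) (n (l (m 141 7 (q 142 13 o))) e)) (n (n (l (q 135 4 (m 136 401 (m 137 153 (m 138 132 o))))) e) (n (l (q 143 3 o)) e))) (n e (n (n (l (q 139 3 (q 140 9 o))) e) e)))) (n (n (n (n (n (l (q 61 16 (q 62 8 (q 63 25 (q 64 12 (m 65 11 (q 66 3 (m 67 6 (m 68 11 (q 69 17 (q 70 11 (m 71 5 (q 72 4 (m 73 8 (m 74 5 (q 75 8 (q 76 14 (q 77 3 (q 78 7 (q 79 1 (m 80 12 o))))))))))))))))))))) e) (n (l (q 141 22 (m 142 45 o))) e)) (n (n (l (q 135 8 (q 136 461 (q 137 196 (q 138 177 o))))) e) e)) (n (n (n (l (m 119 39 (q 120 144 (q 121 176 (q 122 54 (q 123 194 (q 124 30 (q 125 14 (q 126 146 o))))))))) e) e) e)) (n (n (n (n (l (q 101 13 (m 102 4 (m 103 6 (q 104 3 (m 105 32 (m 106 24 (q 107 16 (m 108 25 (m 109 20 (m 110 7 (m 111 3 (q 112 12 (m 113 15 (q 114 1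 (m 115 20 (q 116 6 (m 117 3 (m 118 8 o))))))))))))))))))) e) (n (l (q 141 171 (m 142 157 o))) e)) (n e (n (l (q 143 12 o)) e))) (n (n (n (l (q 129 2 (m 130 4 (q 132 12 (q 133 8 (q 134 6 o)))))) e) e) (n (n (l (q 141 7 (q 142 3 o))) e) e))))) (n (n (n (n (n (n (l (q 45 6 (q 46 4 (m 47 10 (m 48 3 (m 49 10 (q 50 7 (q 51 3 (q 52 13 (q 53 3 (m 54 1 o))))))))))) e) (n (l (m 141 88 (q 142 86 o))) e)) (n (n (l (m 135 9 (m 136 258 (m 137 72 (m 138 55 o))))) e) e)) (n (n (n (l (m 119 99 (q 120 352 (q 121 428 (q 122 105 (q 123 460 (q 124 50 (q 125 19 (q 126 420 o))))))))) e) e) (n e (n (l (m 143 2 o)) e)))) (n (n (n e (n (l (m 141 111 (q 142 207 o))) e)) (n (n (l (m 135 40 (q 136 461 (q 137 273 (q 138 235 o))))) e) (n (l (q 143 9 o)) e))) (n (n (n (l (m 128 17 (q 129 23 (m 130 42 (m 131 19 (q 132 12 (q 133 4 (q 134 8 o)))))))) e) e) (n (n (l (q 139 15 (m 140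 13 o))) e) e)))) (n (n (n (n (n (l (q 81 101 (q 82 48 (q 83 37 (q 84 27 (q 85 26 (q 86 47 (q 87 42 (m 88 135 (q 89 77 (q 90 68 (q 91 45 (q 92 76 (q 93 71 (m 94 1 o))))))))))))))) e) (n (l (q 141 79 (m 142 37 o))) e)) (n (n (l (m 135 24 (q 136 525 (q 137 294 (q 138 258 o))))) e) e)) e) (n (n (n (n (l (m 119 44 (q 120 147 (q 121 187 (q 122 45 (q 123 208 (q 124 12 (m 125 3 (q 126 226 o))))))))) e) (n (l (m 141 115 (q 142 33 o))) e)) (n e (n (l (m 143 4 o)) e))) (n (n (n (l (q 135 32 (m 136 278 (m 137 181 (m 138 150 o))))) e) e) (n (n (l (q 141 2 (m 142 4 o))) e) e)))))))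
def r11 : Tb SV := (n (n (n (n (n (n (n (n (l (m 23 1 (m 25 1 o))) e) e) (n e (n (l (q 143 6 o)) e))) e) (n e (n e (n (n (l (q 141 7 (q 142 2 o))) e) e)))) (n (n (n e (n e (n (l (m 143 16 o)) e))) e) (n (n (n (n (l (m 119 3 (m 120 13 (m 121 6 (q 122 2 (m 123 3 (m 124 5 (m 125 4 (m 126 6 o))))))))) e) e) e) (n (n (n (l (m 135 2 (m 136 1 (m 137 1 o)))) e) e) (n (n (l (m 141 7 o)) e) e))))) (n (n (n (n (n (n (l (m 45 1 (m 46 1 (m 48 1 (q 49 2 (q 50 1 (q 51 2 (q 54 1 (q 55 1 o))))))))) e) e) (n e (n (l (q 143 2 o)) e))) e) (n e (n e (n (n (l (q 141 4 (m 142 1 o))) e) e)))) (n (n (n (n (n (l (q 81 26 (m 82 2 (m 83 3 (m 84 1 (m 85 13 (m 86 4 (q 87 5 (m 88 1 (m 89 10 (m 90 1 (m 92 9 (m 93 7 (m 94 4 o)))))))))))))) e) e) e) e) (n (n (n (n (l (q 119 7 (q 120 9 (m 123 4 (q 124 3 (q 125 8 (q 126 13 o))))))) e) e) e) (n (n (n (l (q 135 7 (m 136 8 (q 137 2 (q 138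 7 o))))) e) e) e))))) (n (n (n (n (n e (n e (n (l (q 143 2 o)) e))) e) (n e (n e (n (n (l (q 141 12 (q 142 5 o))) e) e)))) (n (n (n (n (n (l (q 81 6 (q 82 1 (m 83 7 (m 84 8 (m 85 5 (m 86 8 (m 87 2 (q 88 5 (m 89 6 (q 90 4 (m 91 7 (m 92 5 (q 93 2 (m 94 2 o))))))))))))))) e) e) e) e) (n (n (n (n (l (q 119 1 (q 120 5 (q 121 2 (m 122 1 (q 123 1 (q 124 2 (q 125 1 (q 126 2 o))))))))) e) e) e) (n (n (n (l (m 135 2 (m 136 4 (q 137 2 (q 138 4 o))))) e) e) e)))) (n (n (n (n e (n e (n (l (m 143 3 o)) e))) e) (n e (n (n (n (l (q 135 2 (m 136 2 (q 137 4 (q 138 6 o))))) e) e) (n (n (l (q 142 2 o)) e) e)))) (n e (n e (n (n e (n (l (q 143 1 o)) e)) e))))))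
def r12 : Tb SV := (n (n (n (n (n (n (n (n (l (m 27 1 (q 28 1 (q 29 1 o)))) e) e) (n (n (l (q 139 27 (m 140 79 o))) e) e)) (n (n (n (l (q 128 4 (q 129 13 (q 130 18 (m 131 36 (q 132 6 (q 133 6 (m 134 1 o)))))))) e) e) (n (n (l (q 141 3 (q 142 6 o))) e) e))) (n (n (n (n (l (q 101 111 (m 102 22 (m 103 5 (m 104 98 (q 105 95 (q 106 91 (q 107 4 (m 108 55 (m 109 16 (m 110 41 (q 111 122 (q 112 37 (q 113 114 (m 114 6 (m 115 212 (m 116 157 (m 117 272 (q 118 63 o))))))))))))))))))) e) e) (n (n (l (m 139 6 (m 140 6 o))) e) e)) (n (n (n (l (m 135 41 (m 136 38 (m 137 52 (m 138 51 o))))) e) e) e))) (n (n (n (n (n (l (m 61 7 (q 62 17 (m 63 7 (m 64 29 (q 65 5 (m 66 6 (m 67 12 (m 69 27 (m 70 5 (m 71 16 (m 72 17 (q 73 5 (q 74 6 (m 75 6 (m 76 15 (m 78 15 (m 79 6 (q 80 8 o))))))))))))))))))) e) e) (n (n (l (m 139 13 (q 140 45 o))) e) e)) (n (n (n (l (q 129 2 (m 130 6 (q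 132 2 (q 133 4 (q 134 2 o)))))) e) (n (l (q 143 4 o)) e)) (n (n (l (q 141 10 (q 142 5 o))) e) e))) (n (n (n (n (l (q 127 16 o)) e) e) (n (n (l (q 139 70 (m 140 114 o))) e) e)) (n (n e (n (l (q 143 6 o)) e)) e)))) (n (n (n (n (n (n (l (m 56 2 (m 58 1 (m 60 1 o)))) e) e) (n (n (l (q 139 23 (q 140 6 o))) e) e)) (n (n (n (l (q 128 30 (q 129 6 (q 130 20 (m 131 98 (q 132 19 (m 133 23 (m 134 9 o)))))))) e) (n (l (m 143 2 o)) e)) (n (n (l (m 141 6 (q 142 5 o))) e) e))) (n (n (n (n (l (m 101 55 (q 102 6 (q 103 1 (q 104 59 (m 105 31 (m 106 43 (q 107 11 (q 108 10 (m 109 3 (q 110 21 (m 111 63 (m 112 21 (m 113 59 (m 114 1 (q 115 91 (q 116 69 (q 117 155 (m 118 35 o))))))))))))))))))) e) e) (n (n (l (q 139 29 (m 140 23 o))) e) e)) (n (n (n (l (m 135 42 (m 136 42 (m 137 60 (m 138 56 o))))) e) (n (l (m 143 2 o)) e)) e))) (n (n (n (n (n (l (q 95 5 (m 96 2 (q 97 9 (q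 98 4 (m 99 4 (q 100 2 o))))))) e) e) (n (n (l (q 139 59 (m 140 106 o))) e) e)) (n (n (n (l (m 128 58 (q 129 23 (m 130 62 (q 131 168 (m 132 21 (q 133 89 (q 134 40 o)))))))) e) e) (n (n (l (q 141 6 (m 142 8 o))) e) e))) (n (n (n (n (l (m 127 24 o)) e) e) (n (n (l (q 141 11 (m 142 8 o))) e) e)) (n (n e (n (l (q 143 3 o)) e)) e))))) (n (n (n (n (n (n (n (l (m 31 3 (q 32 1 (m 33 3 (m 34 3 (q 35 7 (m 36 2 (q 37 2 (m 38 5 (m 39 1 (q 40 2 (q 43 2 (q 44 2 o))))))))))))) e) e) (n (n (l (m 139 29 (q 140 79 o))) e) e)) (n (n (n (l (q 128 88 (m 129 1 (q 130 74 (m 131 270 (q 132 38 (m 133 102 (m 134 39 o)))))))) e) (n (l (q 143 2 o)) e)) (n (n (l (m 141 5 (q 142 8 o))) e) e))) (n (n (n (n (l (q 101 137 (m 102 26 (m 103 7 (m 104 123 (q 105 115 (q 106 113 (m 108 68 (m 109 18 (m 110 53 (q 111 152 (q 112 52 (q 113 142 (m 114 7 (m 115 266 (m 116 193 (m 117 340 (q 118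 79 o)))))))))))))))))) e) e) (n (n (l (q 139 63 (m 140 53 o))) e) e)) (n (n (n (l (q 135 5 (q 136 5 (q 137 6 (q 138 10 o))))) e) (n (l (m 143 8 o)) e)) e))) (n (n (n (n (n (l (m 95 3 (m 96 2 o))) e) e) (n (n (l (m 139 66 (q 140 76 o))) e) e)) (n (n (n (l (m 128 25 (q 129 13 (m 130 45 (q 131 85 (m 132 7 (q 133 45 (q 134 23 o)))))))) e) (n (l (q 143 2 o)) e)) (n (n (l (q 141 6 (m 142 14 o))) e) e))) (n (n (n (n (l (m 127 11 o)) e) e) (n (n (l (m 141 8 (q 142 14 o))) e) e)) (n (n e (n (l (q 143 4 o)) e)) e)))) (n (n (n (n (n (n (l (m 62 6 (q 63 1 (q 64 11 (m 65 2 (q 66 3 (q 67 4 (q 69 10 (q 70 2 (q 71 6 (q 72 6 (m 73 2 (m 74 2 (q 75 2 (q 76 7 (q 78 6 (q 79 2 (m 80 3 o)))))))))))))))))) e) e) (n (n (l (q 139 42 (m 140 23 o))) e) e)) (n (n (n (l (m 128 86 (q 129 24 (m 130 106 (q 131 262 (m 132 23 (q 133 127 (q 134 53 o)))))))) e) (n (l (m 143 2 o)) e))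 (n (n (l (m 141 5 o)) e) e))) (n (n (n (n (l (q 119 2 (m 120 4 (q 121 5 (q 122 11 (q 123 4 (q 124 8 (q 125 7 (q 126 7 o))))))))) e) e) (n (n (l (m 139 33 (q 140 80 o))) e) e)) e)) (n (n (n (n (n (l (q 101 37 (m 102 10 (m 103 1 (m 104 28 (q 105 35 (q 106 31 (q 107 8 (m 108 25 (m 109 10 (m 110 15 (q 111 40 (q 112 9 (q 113 38 (m 114 4 (m 115 76 (m 116 57 (m 117 84 (q 118 21 o))))))))))))))))))) e) e) (n (n (l (m 139 57 (q 140 106 o))) e) e)) (n (n (n (l (m 135 12 (m 136 9 (m 137 12 (m 138 15 o))))) e) (n (l (m 143 2 o)) e)) (n (n (l (q 141 28 (q 142 7 o))) e) e))) (n (n (n (n (l (m 128 47 (q 129 9 (m 130 45 (q 131 137 (m 132 16 (q 133 62 (q 134 26 o)))))))) e) e) (n (n (l (q 141 14 (q 142 8 o))) e) e)) (n (n (n (l (q 139 19 (m 140 35 o))) e) e) e))))))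
def r13 : Tb SV := (n (n (n (n (n (n (n (n (l (m 28 1 o)) e) e) (n (n (l (m 139 10 (q 140 40 o))) e) e)) (n (n (n (l (m 128 4 (m 129 7 (m 130 11 (q 131 20 (m 132 1 (m 133 1 (q 134 1 o)))))))) e) e) (n (n (l (m 141 2 (m 142 3 o))) e) e))) (n (n (n (n (l (m 101 51 (q 102 11 (q 103 4 (q 104 46 (m 105 43 (m 106 44 (m 107 8 (q 108 32 (q 109 14 (q 110 19 (m 111 70 (m 112 17 (m 113 66 (q 114 6 (q 115 109 (q 116 92 (q 117 145 (m 118 30 o))))))))))))))))))) e) e) (n (n (l (q 139 3 (q 140 3 o))) e) e)) (n (n (n (l (q 135 21 (q 136 17 (q 137 34 (q 138 36 o))))) e) e) e))) (n (n (n (n (n (l (q 61 4 (m 62 9 (q 63 2 (q 64 15 (m 65 2 (q 66 4 (q 67 6 (q 69 13 (q 70 2 (q 71 8 (q 72 8 (m 73 2 (m 74 3 (q 75 3 (q 76 8 (q 78 7 (q 79 3 (m 80 5 o))))))))))))))))))) e) e) (n (n (l (q 139 4 (m 140 25 o))) e) e)) (n (n (n (l (m 129 1 (q 130 3 (m 132 1 (m 133 2 (m 134 1 o))))))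 e) (n (l (m 143 2 o)) e)) (n (n (l (m 141 5 (m 142 4 o))) e) e))) (n (n (n (n (l (m 127 11 o)) e) e) (n (n (l (m 139 32 (q 140 56 o))) e) e)) (n (n e (n (l (m 143 4 o)) e)) e)))) (n (n (n (n (n (n (l (q 56 1 (q 58 1 (q 60 1 o)))) e) e) (n (n (l (m 139 13 (m 140 5 o))) e) e)) (n (n (n (l (m 128 16 (m 129 3 (m 130 12 (q 131 50 (m 132 7 (q 133 13 (q 134 5 o)))))))) e) (n (l (q 143 1 o)) e)) (n (n (l (q 141 1 (m 142 2 o))) e) e))) (n (n (n (n (l (q 101 25 (m 102 3 (m 103 2 (m 104 28 (q 105 13 (q 106 20 (m 107 2 (m 108 8 (m 109 2 (m 110 9 (q 111 36 (q 112 10 (q 113 34 (m 114 1 (m 115 46 (m 116 41 (m 117 82 (q 118 16 o))))))))))))))))))) e) e) (n (n (l (m 139 15 (q 140 9 o))) e) e)) (n (n (n (l (q 135 23 (q 136 20 (q 137 38 (q 138 39 o))))) e) (n (l (q 143 1 o)) e)) e))) (n (n (n (n (n (l (m 95 2 (q 96 1 (m 97 5 (m 98 2 (q 99 2 (m 100 1 o))))))) e) e) (n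 (n (l (m 139 25 (q 140 54 o))) e) e)) (n (n (n (l (q 128 26 (m 129 12 (q 130 34 (m 131 81 (q 132 7 (m 133 42 (m 134 20 o)))))))) e) e) (n (n (l (m 141 5 (q 142 5 o))) e) e))) (n (n (n (n (l (q 127 14 o)) e) e) (n (n (l (m 141 7 (q 142 4 o))) e) e)) (n (n e (n (l (m 143 2 o)) e)) e))))) (n (n (n (n (n (n (n (l (q 31 2 (q 33 2 (q 34 2 (m 35 4 (q 36 1 (m 37 1 (q 38 3 (q 39 1 (m 40 1 (m 43 1 (m 44 1 o)))))))))))) e) e) (n (n (l (q 139 11 (m 140 40 o))) e) e)) (n (n (n (l (m 128 42 (q 129 1 (m 130 41 (q 131 133 (m 132 14 (q 133 50 (q 134 20 o)))))))) e) (n (l (m 143 1 o)) e)) (n (n (l (q 141 4 (m 142 5 o))) e) e))) (n (n (n (n (l (m 101 64 (q 102 13 (q 103 5 (q 104 58 (m 105 53 (m 106 55 (m 107 7 (q 108 39 (q 109 16 (q 110 25 (m 111 86 (m 112 24 (m 113 81 (q 114 7 (q 115 137 (q 116 112 (q 117 180 (m 118 38 o))))))))))))))))))) e) e) (n (n (l (m 139 30 (q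 140 24 o))) e) e)) (n (n (n (l (m 135 3 (m 136 3 (m 137 3 (m 138 5 o))))) e) (n (l (q 143 5 o)) e)) e))) (n (n (n (n (n (l (q 95 2 (q 96 1 (m 97 1 o)))) e) e) (n (n (l (q 139 32 (m 140 34 o))) e) e)) (n (n (n (l (q 128 9 (m 129 7 (q 130 24 (m 131 39 (q 132 2 (m 133 19 (m 134 11 o)))))))) e) (n (l (m 143 1 o)) e)) (n (n (l (m 141 6 (q 142 8 o))) e) e))) (n (n (n (n (l (q 127 7 o)) e) e) (n (n (l (q 141 7 (m 142 8 o))) e) e)) (n (n e (n (l (m 143 2 o)) e)) e)))) (n (n (n (n (n (n (l (q 62 3 (m 64 6 (q 65 1 (m 66 2 (m 67 2 (m 69 5 (m 70 1 (m 71 3 (m 72 3 (q 73 1 (q 74 1 (m 75 1 (m 76 4 (m 78 3 (m 79 1 (q 80 2 o))))))))))))))))) e) e) (n (n (l (m 139 21 (q 140 8 o))) e) e)) (n (n (n (l (q 128 36 (m 129 13 (q 130 56 (m 131 124 (q 132 8 (m 133 57 (m 134 26 o)))))))) e) (n (l (q 143 1 o)) e)) (n (n (l (q 141 4 o)) e) e))) (n (n (n (n (l (m 119 3 (q 120 2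 (m 121 2 (m 122 7 (m 123 1 (m 124 6 (m 125 6 (m 126 3 o))))))))) e) e) (n (n (l (q 139 14 (m 140 39 o))) e) e)) e)) (n (n (n (n (n (l (m 101 17 (q 102 5 (q 103 1 (q 104 13 (m 105 16 (m 106 15 (m 107 6 (q 108 14 (q 109 7 (q 110 7 (m 111 23 (m 112 4 (m 113 22 (q 114 3 (q 115 39 (q 116 33 (q 117 45 (m 118 10 o))))))))))))))))))) e) e) (n (n (l (q 139 24 (m 140 54 o))) e) e)) (n (n (n (l (q 135 6 (q 136 4 (q 137 8 (q 138 10 o))))) e) (n (l (q 143 1 o)) e)) (n (n (l (m 141 15 (m 142 6 o))) e) e))) (n (n (n (n (l (q 128 21 (m 129 5 (q 130 24 (m 131 66 (q 132 6 (m 133 29 (m 134 13 o)))))))) e) e) (n (n (l (m 141 9 (m 142 5 o))) e) e)) (n (n (n (l (m 139 8 (q 140 16 o))) e) e) e))))))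
def r14 : Tb SV := (n (n (n (n (n (n (n (n (l (q 27 1 (m 29 1 (q 30 1 o)))) e) e) (n (n (l (q 139 4 (q 140 97 o))) e) e)) (n (n (n (l (m 128 3 (m 129 27 (m 130 10 (q 131 52 (m 132 9 (m 133 1 (m 134 4 o)))))))) e) e) (n (n (l (m 141 2 (m 142 6 o))) e) e))) (n (n (n (n (l (m 101 118 (q 102 20 (m 103 15 (q 104 172 (m 105 135 (m 106 136 (q 107 64 (q 108 7 (m 109 34 (q 110 27 (m 111 146 (m 112 46 (m 113 133 (q 114 1 (q 115 225 (q 116 166 (q 117 289 (m 118 68 o))))))))))))))))))) e) e) (n (n (l (q 139 10 (q 140 6 o))) e) e)) (n (n (n (l (q 135 28 (q 136 36 (q 137 65 (q 138 63 o))))) e) e) e))) (n (n (n (n (n (l (q 61 5 (m 62 19 (q 63 5 (q 64 29 (m 65 6 (q 66 9 (q 67 15 (q 68 1 (q 69 26 (q 70 5 (q 71 17 (q 72 18 (m 73 3 (m 74 5 (q 75 7 (q 76 15 (q 77 2 (q 78 15 (q 79 7 (m 80 11 o))))))))))))))))))))) e) e) (n (n (l (q 139 4 (m 140 57 o))) e) e)) (n (n (n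 (l (m 128 1 (m 129 2 (q 130 7 (q 131 1 (m 132 3 (m 133 3 (m 134 2 o)))))))) e) (n (l (m 143 7 o)) e)) (n (n (l (m 141 11 (m 142 4 o))) e) e))) (n (n (n (n (l (m 127 24 o)) e) e) (n (n (l (m 139 20 (q 140 137 o))) e) e)) (n (n e (n (l (m 143 4 o)) e)) e)))) (n (n (n (n (n (n (l (q 57 1 (q 58 2 (q 59 2 (q 60 1 o))))) e) e) (n (n (l (m 139 30 (m 140 10 o))) e) e)) (n (n (n (l (m 128 26 (m 129 18 (m 130 9 (q 131 110 (m 132 20 (q 133 25 (q 134 1 o)))))))) e) (n (l (q 143 1 o)) e)) (n (n (l (q 141 15 (m 142 2 o))) e) e))) (n (n (n (n (l (q 101 47 (m 102 4 (q 103 9 (m 104 89 (q 105 39 (q 106 58 (m 107 38 (q 108 9 (q 109 22 (m 110 18 (q 111 77 (q 112 29 (q 113 70 (q 114 7 (m 115 99 (m 116 78 (m 117 170 (q 118 37 o))))))))))))))))))) e) e) (n (n (l (m 139 16 (q 140 26 o))) e) e)) (n (n (n (l (q 135 25 (q 136 50 (q 137 74 (q 138 63 o))))) e) (n (l (q 143 3 o))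 e)) e))) (n (n (n (n (n (l (m 95 8 (q 96 2 (m 97 12 (m 98 6 (q 99 6 (m 100 3 o))))))) e) e) (n (n (l (m 139 19 (q 140 130 o))) e) e)) (n (n (n (l (q 128 37 (m 129 12 (q 130 51 (m 131 160 (q 132 11 (m 133 74 (m 134 30 o)))))))) e) (n (l (m 143 1 o)) e)) (n (n (l (q 141 4 (q 142 5 o))) e) e))) (n (n (n (n (l (q 127 34 o)) e) e) (n (n (l (m 141 6 (q 142 8 o))) e) e)) (n (n e (n (l (m 143 2 o)) e)) e))))) (n (n (n (n (n (n (n (l (q 31 5 (m 32 2 (q 33 2 (q 34 5 (m 35 10 (q 36 3 (m 37 3 (q 38 7 (q 39 2 (m 40 2 (m 43 2 (m 44 3 o))))))))))))) e) e) (n (n (l (m 139 1 (m 140 98 o))) e) e)) (n (n (n (l (m 128 68 (m 129 22 (m 130 51 (q 131 279 (m 132 30 (q 133 94 (q 134 21 o)))))))) e) (n (l (m 143 2 o)) e)) (n (n (l (m 141 2 (m 142 8 o))) e) e))) (n (n (n (n (l (m 101 147 (q 102 23 (m 103 18 (q 104 211 (m 105 167 (m 106 171 (q 107 87 (q 108 6 (m 109 47 (q 110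 39 (m 111 181 (m 112 63 (m 113 163 (q 114 1 (q 115 286 (q 116 202 (q 117 360 (m 118 86 o))))))))))))))))))) e) e) (n (n (l (m 139 37 (q 140 66 o))) e) e)) (n (n (n (l (m 135 2 (m 136 3 (m 137 7 (m 138 11 o))))) e) (n (l (q 143 7 o)) e)) e))) (n (n (n (n (n (l (q 96 2 (m 97 1 (m 98 2 (q 99 2 (m 100 1 o)))))) e) e) (n (n (l (q 139 36 (m 140 93 o))) e) e)) (n (n (n (l (q 128 6 (m 129 8 (q 130 33 (m 131 78 (m 132 1 (m 133 30 (m 134 16 o)))))))) e) (n (l (m 143 1 o)) e)) (n (n (l (q 141 6 (q 142 16 o))) e) e))) (n (n (n (n (l (q 127 14 o)) e) e) (n (n (l (m 141 4 (m 142 15 o))) e) e)) (n (n e (n (l (m 143 6 o)) e)) e)))) (n (n (n (n (n (n (l (q 61 2 (q 62 6 (q 63 1 (m 64 10 (q 65 2 (m 66 4 (m 67 5 (m 68 1 (m 69 8 (m 70 2 (m 71 6 (m 72 6 (q 73 1 (q 74 1 (m 75 2 (m 76 7 (m 77 1 (m 78 6 (m 79 2 (q 80 4 o))))))))))))))))))))) e) e) (n (n (l (m 139 31 (q 140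 27 o))) e) e)) (n (n (n (l (q 128 55 (m 129 11 (q 130 86 (m 131 251 (q 132 3 (m 133 104 (m 134 36 o)))))))) e) (n (l (q 143 4 o)) e)) (n (n (l (m 141 2 (q 142 1 o))) e) e))) (n (n (n (n (l (m 119 14 (q 120 3 (m 121 1 (m 122 10 (m 123 5 (m 124 7 (m 125 7 (m 126 9 o))))))))) e) e) (n (n (l (m 139 3 (m 140 98 o))) e) e)) e)) (n (n (n (n (n (l (m 101 43 (q 102 10 (m 103 6 (q 104 55 (m 105 52 (m 106 47 (q 107 15 (q 108 9 (m 109 7 (q 110 8 (m 111 47 (m 112 11 (m 113 44 (q 114 4 (q 115 78 (q 116 59 (q 117 86 (m 118 23 o))))))))))))))))))) e) e) (n (n (l (q 139 14 (m 140 131 o))) e) e)) (n (n (n (l (q 135 9 (q 136 6 (q 137 15 (q 138 19 o))))) e) (n (l (q 143 4 o)) e)) (n (n (l (m 141 26 (m 142 16 o))) e) e))) (n (n (n (n (l (q 128 34 (m 129 1 (q 130 34 (m 131 134 (q 132 9 (m 133 53 (m 134 18 o)))))))) e) e) (n (n (l (m 141 6 (m 142 4 o))) e) e)) (n (n (n (l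 (q 139 1 (q 140 43 o))) e) e) e))))))
def r15 : Tb SV := (n (n (n (n (n (n (n (n (l (m 31 9 (m 32 10 (m 33 6 (m 34 13 (q 35 9 (m 36 3 (q 37 3 (m 38 8 (m 39 5 (q 40 1 (q 41 5 (q 42 2 (m 43 2 (q 44 1 o))))))))))))))) e) (n (l (m 143 289 o)) e)) (n (n (l (q 141 92 (q 142 20 o))) e) e)) (n (n (n (l (q 135 3 (m 136 160 (q 137 5 (q 138 37 o))))) e) (n (l (m 143 175 o)) e)) e)) (n (n (n (n (l (q 119 172 (q 120 101 (m 121 148 (m 122 269 (m 123 224 (q 124 33 (q 125 15 (q 126 21 o))))))))) e) (n (l (q 143 386 o)) e)) (n (n (l (q 141 30 (q 142 9 o))) e) e)) e)) (n (n (n (n (n (l (q 81 80 (m 82 73 (q 83 47 (q 84 73 (m 85 120 (q 86 49 (q 87 112 (m 88 32 (m 89 64 (m 90 4 (q 91 93 (m 92 62 (m 93 48 (m 94 10 o))))))))))))))) e) (n (l (q 143 117 o)) e)) (n (n (l (m 141 50 (m 142 16 o))) e) e)) (n (n (n (l (m 135 12 (m 136 11 (q 137 1 (q 138 1 o))))) e) e) e)) (n (n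 (n (n (l (q 128 2 (q 129 17 (q 130 4 (m 131 58 (m 132 7 (q 133 71 (q 134 14 o)))))))) e) (n (l (q 143 16 o)) e)) (n (n (l (q 141 79 (q 142 96 o))) e) e)) (n (n (n (l (q 139 7 (m 140 45 o))) e) e) e)))) (n (n (n (n (n (n (l (q 61 4 (m 62 6 (q 63 10 (q 64 13 (q 65 4 (m 66 5 (q 67 4 (m 68 3 (q 69 16 (q 70 1 (q 71 8 (q 72 7 (m 73 7 (m 74 7 (q 75 7 (q 76 6 (q 78 8 (q 79 3 (m 80 1 o)))))))))))))))))))) e) (n (l (q 143 99 o)) e)) (n (n (l (m 141 97 (q 142 48 o))) e) e)) (n (n (n (l (q 135 69 (m 136 83 (q 137 10 (q 138 6 o))))) e) e) e)) (n (n (n (n (l (m 119 107 (m 120 17 (q 121 106 (q 122 109 (q 123 126 (m 124 29 (m 125 17 (q 126 6 o))))))))) e) (n (l (m 143 540 o)) e)) (n (n (l (m 141 22 (q 142 43 o))) e) e)) e)) (n (n (n (n (n (l (q 101 68 (m 102 5 (m 103 32 (m 104 32 (q 105 29 (q 106 35 (q 107 11 (m 108 12 (q 109 3 (m 110 6 (m 111 41 (m 112 7 (q 113 3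 (q 115 20 (q 116 35 (q 117 8 (q 118 3 o)))))))))))))))))) e) (n (l (m 143 99 o)) e)) (n (n (l (q 141 84 (q 142 64 o))) e) e)) (n (n (n (l (m 135 191 (m 136 178 (q 137 7 (q 138 77 o))))) e) e) e)) (n (n (n (n (l (m 128 13 (m 130 1 (q 131 46 (m 132 2 (m 133 69 (m 134 11 o))))))) e) (n (l (m 143 108 o)) e)) e) (n (n (n (l (m 139 17 (q 140 38 o))) e) e) (n (n (l (m 143 5 o)) e) e)))))) (n (n (n (n (n (n (n (l (m 45 2 (q 46 7 (m 47 8 (m 48 4 (m 49 9 (q 50 8 (q 51 4 (q 52 13 (m 53 10 (q 54 4 o))))))))))) e) (n (l (q 143 98 o)) e)) (n (n (l (m 141 80 (m 142 19 o))) e) e)) (n (n (n (l (q 135 213 (q 136 27 (q 137 13 (m 138 49 o))))) e) e) e)) (n (n (n (n (l (q 119 221 (q 120 117 (m 121 190 (m 122 335 (m 123 278 (q 124 38 (q 125 10 (q 126 34 o))))))))) e) (n (l (m 143 28 o)) e)) (n (n (l (m 141 16 (q 142 76 o))) e) e)) e)) (n (n (n (n (n (l (q 101 45 (m 103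 22 (m 104 26 (q 105 15 (q 106 22 (q 107 11 (m 108 7 (q 109 1 (m 110 5 (m 111 38 (q 112 11 (m 113 3 (q 114 3 (q 115 20 (q 116 33 (m 117 9 (m 118 2 o)))))))))))))))))) e) (n (l (q 143 169 o)) e)) (n (n (l (m 141 19 (m 142 86 o))) e) e)) (n (n (n (l (m 135 115 (m 136 147 (q 137 3 (q 138 72 o))))) e) e) e)) (n (n (n (n (l (m 128 2 (m 129 9 (q 130 1 (q 131 30 (m 133 35 (m 134 7 o))))))) e) (n (l (q 143 485 o)) e)) e) (n (n (n (l (q 139 12 (m 140 12 o))) e) e) (n (n (l (q 143 6 o)) e) e))))) (n (n (n (n (n (n (l (m 81 46 (q 82 30 (m 83 20 (m 84 31 (q 85 57 (m 86 18 (m 87 44 (q 88 7 (q 89 34 (q 90 19 (m 91 36 (q 92 33 (q 93 36 (q 94 2 o))))))))))))))) e) (n (l (m 143 234 o)) e)) (n (n (l (m 141 41 (q 142 43 o))) e) e)) (n (n (n (l (m 135 226 (m 136 312 (m 137 11 (q 138 121 o))))) e) e) e)) (n (n (n e (n (l (m 143 575 o)) e)) (n (n (l (m 141 47 (m 142 34 o)))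 e) e)) (n (n (n (l (q 139 11 (q 140 30 o))) e) e) e))) (n (n (n (n (n (l (q 119 45 (q 120 51 (m 121 31 (m 122 98 (m 123 62 (q 124 4 (q 125 1 (q 126 13 o))))))))) e) (n (l (q 143 113 o)) e)) (n (n (l (m 141 111 (m 142 73 o))) e) e)) e) (n (n (n (n (l (m 135 116 (m 136 106 (q 138 53 o)))) e) (n (l (m 143 216 o)) e)) e) (n (n (n (l (q 141 71 (q 142 1 o))) e) e) (n (n (l (m 143 1 o)) e) e)))))))
def r16 : Tb SV := (n (n (n (n (n (n (n (n (l (q 33 1 (m 35 2 (m 36 2 (m 37 1 (m 40 1 (q 41 1 (q 42 1 (m 43 2 (m 44 2 o)))))))))) e) (n (l (q 143 42 o)) e)) (n (n (l (m 141 83 (q 142 60 o))) e) e)) (n (n (n (l (m 135 6 (q 136 16 (q 137 25 (q 138 21 o))))) e) (n (l (q 143 23 o)) e)) e)) (n (n (n (n (l (q 119 164 (q 120 69 (q 121 23 (q 122 100 (q 123 147 (q 124 78 (q 125 47 (q 126 3 o))))))))) e) (n (l (m 143 56 o)) e)) (n (n (l (m 141 7 (m 142 13 o))) e) e)) e))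 (n (n (n (n (n (l (m 81 19 (m 82 26 (m 83 15 (m 84 17 (m 85 47 (m 86 40 (m 87 25 (q 88 2 (m 89 42 (m 90 33 (m 91 48 (m 92 40 (m 93 32 (m 94 3 o))))))))))))))) e) (n (l (m 143 2 o)) e)) (n (n (l (q 141 35 (m 142 11 o))) e) e)) (n (n (n (l (q 135 6 (q 136 2 (q 138 2 o)))) e) e) e)) (n (n (n (n (l (m 128 22 (q 129 7 (m 130 42 (q 131 10 (q 132 6 (q 133 28 (q 134 1 o)))))))) e) (n (l (m 143 4 o)) e)) (n (n (l (m 141 86 (q 142 34 o))) e) e)) (n (n (n (l (q 139 6 (q 140 10 o))) e) e) e)))) (n (n (n (n (n (n (l (m 61 2 (m 62 5 (m 63 7 (m 64 3 (q 65 1 (m 66 3 (m 67 1 (m 68 1 (m 69 3 (m 70 3 (m 71 1 (m 72 3 (q 73 3 (m 75 2 (m 76 2 (m 77 2 (m 78 3 (m 79 2 (q 80 1 o)))))))))))))))))))) e) (n (l (m 143 15 o)) e)) (n (n (l (q 141 56 (m 142 57 o))) e) e)) (n (n (n (l (m 135 23 (q 136 28 (q 137 23 (q 138 15 o))))) e) e) e)) (n (n (n (n (l (m 119 69 (m 120 38 (m 121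 16 (m 122 38 (m 123 70 (m 124 30 (m 125 16 (m 126 4 o))))))))) e) (n (l (q 143 51 o)) e)) (n (n (l (m 142 4 o)) e) e)) e)) (n (n (n (n (n (l (m 101 15 (q 102 6 (q 103 13 (q 104 18 (m 105 22 (q 106 12 (m 107 22 (q 108 31 (q 109 24 (m 110 35 (q 111 5 (m 113 7 (q 114 1 (m 115 30 (q 116 4 (q 117 4 (q 118 3 o)))))))))))))))))) e) (n (l (q 143 49 o)) e)) (n (n (l (m 141 90 (q 142 45 o))) e) e)) (n (n (n (l (q 135 84 (m 136 12 (m 137 10 (q 138 19 o))))) e) e) e)) (n (n (n (n (l (q 128 35 (m 129 9 (q 130 62 (q 131 4 (m 132 9 (m 133 37 (m 134 6 o)))))))) e) (n (l (m 143 11 o)) e)) e) (n (n (n (l (m 139 15 o)) e) e) (n (n (l (q 143 2 o)) e) e)))))) (n (n (n (n (n (n (n (l (m 45 1 (m 46 1 (m 48 1 (q 49 2 (q 50 1 (q 51 3 (q 53 1 (q 55 1 o))))))))) e) (n (l (m 143 13 o)) e)) (n (n (l (q 141 79 (m 142 60 o))) e) e)) (n (n (n (l (m 135 89 (q 136 42 (q 137 29 (m 138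 1 o))))) e) e) e)) (n (n (n (n (l (q 119 207 (q 120 86 (q 121 24 (q 122 124 (q 123 186 (q 124 94 (q 125 55 (q 126 2 o))))))))) e) (n (l (q 143 11 o)) e)) (n (n (l (m 141 27 (m 142 2 o))) e) e)) e)) (n (n (n (n (n (l (m 101 13 (q 102 2 (q 103 1 (m 104 1 (m 105 19 (q 106 2 (m 107 6 (q 108 9 (q 109 8 (m 110 14 (q 111 13 (m 112 1 (q 113 10 (m 114 5 (m 115 6 (m 116 9 (q 117 14 (m 118 4 o))))))))))))))))))) e) (n (l (m 143 27 o)) e)) (n (n (l (q 141 39 (m 142 14 o))) e) e)) (n (n (n (l (q 135 54 (m 136 7 (q 137 2 (q 138 18 o))))) e) e) e)) (n (n (n (n (l (q 128 12 (m 129 4 (q 130 22 (m 131 6 (m 132 4 (m 133 15 o))))))) e) (n (l (m 143 67 o)) e)) e) e))) (n (n (n (n (n (n (l (q 81 2 (q 82 7 (q 83 5 (q 84 7 (q 85 13 (q 86 13 (q 87 10 (q 88 3 (q 89 12 (q 90 8 (q 91 14 (q 92 12 (q 93 9 (q 94 2 o))))))))))))))) e) (n (l (q 143 19 o)) e)) (n (n (l (q 141 3 (m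 142 3 o))) e) e)) (n (n (n (l (q 135 113 (m 136 11 (m 137 2 (q 138 35 o))))) e) e) e)) (n (n (n e (n (l (q 143 80 o)) e)) (n (n (l (q 141 65 (m 142 56 o))) e) e)) (n (n (n (l (m 139 3 (m 140 7 o))) e) e) e))) (n (n (n (n (n (l (q 119 55 (q 120 21 (q 121 7 (q 122 34 (q 123 48 (q 124 27 (q 125 16 (q 126 1 o))))))))) e) (n (l (q 143 14 o)) e)) (n (n (l (q 141 97 (m 142 38 o))) e) e)) e) (n (n (n (n (l (q 135 53 (m 136 14 (m 137 11 (q 138 7 o))))) e) (n (l (q 143 22 o)) e)) e) (n (n (n (l (m 141 55 (q 142 49 o))) e) e) e))))))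
def r17 : Tb SV := (n (n (n (n (n (n (n (n (l (q 31 15 (q 32 16 (q 33 10 (q 34 22 (m 35 16 (q 36 3 (m 37 6 (q 38 12 (q 39 8 (m 40 3 (m 41 8 (m 42 4 (q 43 2 (m 44 2 o))))))))))))))) e) (n (l (q 143 531 o)) e)) (n (n (l (m 141 243 (m 142 55 o))) e) e)) (n (n (n (l (m 135 20 (q 136 274 (q 137 14 (m 138 40 o))))) e) (n (l (q 143 315 o)) e)) e)) (n (n (n (n (l (m 119 151 (m 120 85 (q 121 302 (q 122 552 (q 123 534 (q 124 43 (q 125 31 (m 126 73 o))))))))) e) (n (l (m 143 721 o)) e)) (n (n (l (m 141 59 (m 142 27 o))) e) e)) e)) (n (n (n (n (n (l (m 81 153 (q 82 103 (m 83 100 (m 84 140 (q 85 169 (m 86 127 (m 87 218 (q 88 73 (q 89 53 (m 90 27 (m 91 199 (q 92 52 (q 93 37 (q 94 14 o))))))))))))))) e) (n (l (m 143 193 o)) e)) (n (n (l (q 141 127 (q 142 36 o))) e) e)) (n (n (n (l (q 135 27 (q 136 21 (m 137 1 (q 138 1 o))))) e) e) e)) (n (n (n (n (l (m 128 18 (m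 129 25 (m 130 58 (q 131 116 (q 132 22 (m 133 100 (m 134 19 o)))))))) e) (n (l (m 143 31 o)) e)) (n (n (l (m 141 219 (m 142 246 o))) e) e)) (n (n (n (l (m 139 5 (q 140 87 o))) e) e) e)))) (n (n (n (n (n (n (l (m 61 10 (q 62 4 (m 63 23 (m 64 26 (m 65 5 (q 66 3 (m 67 8 (q 68 4 (m 69 29 (m 70 5 (m 71 15 (m 72 15 (q 73 15 (q 74 11 (m 75 13 (m 76 13 (m 77 2 (m 78 17 (m 79 7 (q 80 4 o))))))))))))))))))))) e) (n (l (m 143 187 o)) e)) (n (n (l (q 141 229 (m 142 112 o))) e) e)) (n (n (n (l (m 135 153 (q 136 164 (m 137 2 (m 138 4 o))))) e) e) e)) (n (n (n (n (l (q 119 121 (m 120 17 (m 121 207 (m 122 222 (m 123 285 (q 124 10 (q 125 6 (q 126 1 o))))))))) e) (n (l (q 143 964 o)) e)) (n (n (l (q 141 41 (m 142 110 o))) e) e)) e)) (n (n (n (n (n (l (m 101 122 (q 102 15 (q 103 64 (q 104 65 (m 105 69 (m 106 44 (m 107 47 (q 108 56 (q 109 23 (m 110 26 (q 111 69 (q 112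 11 (m 113 14 (q 114 2 (m 115 63 (m 116 46 (q 117 1 o)))))))))))))))))) e) (n (l (q 143 220 o)) e)) (n (n (l (m 141 235 (m 142 164 o))) e) e)) (n (n (n (l (q 135 422 (q 136 283 (q 137 5 (m 138 79 o))))) e) e) e)) (n (n (n (n (l (q 128 48 (m 129 8 (q 130 71 (m 131 85 (m 132 12 (q 133 90 (q 134 11 o)))))))) e) (n (l (q 143 180 o)) e)) e) (n (n (n (l (q 139 12 (m 140 69 o))) e) e) (n (n (l (q 143 11 o)) e) e)))))) (n (n (n (n (n (n (n (l (m 45 1 (m 46 14 (q 47 14 (q 48 6 (q 49 17 (m 50 13 (m 51 4 (m 52 22 (q 53 15 (m 54 7 (q 55 1 o)))))))))))) e) (n (l (m 143 182 o)) e)) (n (n (l (q 141 218 (q 142 52 o))) e) e)) (n (n (n (l (m 135 479 (m 136 2 (m 137 24 (q 138 44 o))))) e) e) e)) (n (n (n (n (l (m 119 198 (m 120 89 (q 121 384 (q 122 684 (q 123 669 (q 124 54 (q 125 46 (m 126 108 o))))))))) e) (n (l (q 143 58 o)) e)) (n (n (l (q 141 9 (m 142 189 o))) e)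 e)) e)) (n (n (n (n (n (l (m 101 81 (q 102 3 (q 103 31 (q 104 41 (m 105 47 (m 106 33 (m 107 28 (q 108 24 (q 109 8 (m 110 10 (q 111 70 (m 112 23 (q 113 12 (m 114 7 (m 115 42 (m 116 54 (q 117 36 o)))))))))))))))))) e) (n (l (m 143 316 o)) e)) (n (n (l (q 141 65 (q 142 206 o))) e) e)) (n (n (n (l (q 135 260 (q 136 237 (q 137 17 (m 138 79 o))))) e) e) e)) (n (n (n (n (l (q 128 11 (q 129 13 (q 130 25 (m 131 60 (m 132 6 (q 133 49 (q 134 10 o)))))))) e) (n (l (m 143 905 o)) e)) e) (n (n (n (l (m 139 22 (q 140 18 o))) e) e) (n (n (l (m 143 11 o)) e) e))))) (n (n (n (n (n (n (l (q 81 76 (m 82 44 (q 83 41 (q 84 57 (m 85 85 (q 86 45 (q 87 84 (m 88 11 (m 89 39 (m 90 22 (q 91 72 (m 92 38 (m 93 44 (m 94 1 o))))))))))))))) e) (n (l (q 143 420 o)) e)) (n (n (l (q 141 81 (m 142 109 o))) e) e)) (n (n (n (l (q 135 519 (q 136 506 (q 137 62 (m 138 114 o))))) e) e) e))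 (n (n (n e (n (l (q 143 1059 o)) e)) (n (n (l (q 141 144 (q 142 92 o))) e) e)) (n (n (n (l (m 139 25 (m 140 63 o))) e) e) e))) (n (n (n (n (n (l (m 119 29 (m 120 60 (q 121 69 (q 122 199 (q 123 156 (q 124 27 (q 125 17 (m 126 34 o))))))))) e) (n (l (m 143 183 o)) e)) (n (n (l (q 141 289 (q 142 186 o))) e) e)) e) (n (n (n (n (l (q 135 264 (q 136 161 (q 137 10 (m 138 56 o))))) e) (n (l (q 143 411 o)) e)) e) (n (n (n (l (m 141 176 (m 142 12 o))) e) e) (n (n (l (q 143 1 o)) e) e)))))))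
def r18 : Tb SV := (n (n (n (n (n (n (n (n (l (q 31 4 (q 32 4 (q 33 4 (q 34 6 (m 35 6 (m 37 3 (q 38 4 (q 39 2 (m 40 2 (m 41 2 (m 42 1 (m 43 1 (m 44 2 o)))))))))))))) e) (n (l (q 143 188 o)) e)) (n (n (l (m 141 148 (m 142 24 o))) e) e)) (n (n (n (l (m 135 13 (q 136 82 (q 137 17 (q 138 1 o))))) e) (n (l (q 143 108 o)) e)) e)) (n (n (n (n (l (q 119 57 (q 120 46 (q 121 136 (q 122 218 (q 123 280 (q 124 73 (q 125 32 (m 126 25 o))))))))) e) (n (l (m 143 257 o)) e)) (n (n (l (m 141 25 (m 142 16 o))) e) e)) e)) (n (n (n (n (n (l (m 81 58 (q 82 17 (m 83 45 (m 84 56 (q 85 27 (m 86 67 (m 87 84 (q 88 24 (m 89 17 (m 90 28 (m 91 87 (m 92 16 (m 93 14 (q 94 3 o))))))))))))))) e) (n (l (m 143 55 o)) e)) (n (n (l (q 141 71 (q 142 15 o))) e) e)) (n (n (n (l (q 135 13 (q 136 8 (q 138 2 o)))) e) e) e)) (n (n (n (n (l (m 128 19 (m 130 43 (q 131 37 (q 132 12 (m 133 12 (m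 134 3 o))))))) e) (n (l (m 143 13 o)) e)) (n (n (l (m 141 150 (m 142 120 o))) e) e)) (n (n (n (l (q 139 3 (q 140 29 o))) e) e) e)))) (n (n (n (n (n (n (l (m 61 5 (m 62 2 (m 63 10 (m 64 9 (m 65 1 (m 66 2 (m 67 2 (q 68 1 (m 69 9 (m 70 3 (m 71 4 (m 72 5 (q 73 6 (q 74 3 (m 75 5 (m 76 5 (m 77 2 (m 78 6 (m 79 3 (q 80 3 o))))))))))))))))))))) e) (n (l (m 143 68 o)) e)) (n (n (l (q 141 115 (m 142 60 o))) e) e)) (n (n (n (l (m 135 68 (q 136 64 (q 137 7 (m 138 3 o))))) e) e) e)) (n (n (n (n (l (m 119 8 (m 120 40 (m 121 83 (m 122 85 (m 123 139 (m 124 19 (m 125 5 (m 126 1 o))))))))) e) (n (l (q 143 320 o)) e)) (n (n (l (q 141 8 (m 142 56 o))) e) e)) e)) (n (n (n (n (n (l (m 101 42 (q 102 10 (q 103 27 (q 104 24 (m 105 32 (m 106 2 (m 107 36 (q 108 43 (q 109 28 (m 110 26 (q 111 21 (q 112 6 (m 113 11 (q 114 2 (m 115 33 (m 116 4 (q 117 4 (q 118 2 o)))))))))))))))))))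 e) (n (l (q 143 102 o)) e)) (n (n (l (m 141 155 (m 142 79 o))) e) e)) (n (n (n (l (q 135 200 (q 136 71 (q 137 14 (q 138 21 o))))) e) e) e)) (n (n (n (n (l (q 128 34 (m 129 13 (q 130 59 (m 131 19 (m 132 12 (q 133 6 (m 134 2 o)))))))) e) (n (l (q 143 49 o)) e)) e) (n (n (n (l (m 139 7 (m 140 19 o))) e) e) (n (n (l (q 143 5 o)) e) e)))))) (n (n (n (n (n (n (n (l (m 45 2 (m 46 5 (q 47 4 (q 48 1 (q 49 6 (m 50 3 (q 51 1 (m 52 6 (q 53 4 (m 54 2 (q 55 1 o)))))))))))) e) (n (l (m 143 65 o)) e)) (n (n (l (q 141 137 (q 142 22 o))) e) e)) (n (n (n (l (m 135 226 (q 136 29 (m 137 13 (m 138 29 o))))) e) e) e)) (n (n (n (n (l (q 119 67 (q 120 64 (q 121 172 (q 122 268 (q 123 354 (q 124 88 (q 125 37 (m 126 38 o))))))))) e) (n (l (q 143 26 o)) e)) (n (n (l (m 141 26 (m 142 97 o))) e) e)) e)) (n (n (n (n (n (l (m 101 27 (q 102 4 (q 103 7 (q 104 9 (m 105 26 (m 106 6 (m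 107 17 (q 108 18 (q 109 11 (m 110 10 (q 111 24 (m 112 7 (q 113 6 (m 114 4 (m 115 13 (m 116 13 (q 117 20 (m 118 3 o))))))))))))))))))) e) (n (l (m 143 115 o)) e)) (n (n (l (q 141 58 (q 142 101 o))) e) e)) (n (n (n (l (q 135 127 (q 136 62 (q 137 18 (q 138 9 o))))) e) e) e)) (n (n (n (n (l (q 128 10 (q 130 21 (m 131 19 (m 132 5 (q 133 6 (q 134 2 o))))))) e) (n (l (m 143 323 o)) e)) e) (n (n (n (l (m 139 8 (q 140 4 o))) e) e) (n (n (l (m 143 4 o)) e) e))))) (n (n (n (n (n (n (l (q 81 21 (m 82 9 (q 83 17 (q 84 21 (m 85 17 (q 86 23 (q 87 31 (m 89 1 (m 90 1 (q 91 29 (m 92 1 (m 93 4 (q 94 1 o)))))))))))))) e) (n (l (q 143 139 o)) e)) (n (n (l (q 141 25 (m 142 58 o))) e) e)) (n (n (n (l (q 135 259 (q 136 133 (q 137 48 (q 138 41 o))))) e) e) e)) (n (n (n e (n (l (q 143 374 o)) e)) (n (n (l (q 141 105 (q 142 42 o))) e) e)) (n (n (n (l (m 139 12 (m 140 23 o)))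 e) e) e))) (n (n (n (n (n (l (q 119 26 (q 120 5 (q 121 36 (q 122 78 (q 123 87 (q 124 29 (q 125 13 (m 126 11 o))))))))) e) (n (l (m 143 46 o)) e)) (n (n (l (q 141 178 (q 142 90 o))) e) e)) e) (n (n (n (n (l (q 135 128 (q 136 34 (q 137 11 (q 138 14 o))))) e) (n (l (q 143 146 o)) e)) e) (n (n (n (l (m 141 101 (m 142 6 o))) e) e) e))))))
def r19 : Tb SV := (n (n (n (n (n (n (n (n (l (m 31 19 (m 32 19 (m 33 10 (m 34 27 (q 35 16 (m 36 7 (q 37 5 (m 38 14 (m 39 9 (q 40 1 (q 41 11 (q 42 6 (m 43 5 o)))))))))))))) e) (n (l (m 143 549 o)) e)) (n (n (l (q 141 77 (q 142 14 o))) e) e)) (n (n (n (l (q 135 5 (m 136 340 (q 137 30 (q 138 99 o))))) e) (n (l (m 143 330 o)) e)) e)) (n (n (n (n (l (q 119 461 (q 120 292 (m 121 258 (m 122 492 (m 123 337 (q 124 117 (q 125 61 (q 126 154 o))))))))) e) (n (l (q 143 727 o)) e)) (n (n (l (q 141 51 (q 142 10 o))) e) e)) e)) (n (n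 (n (n (n (l (q 81 179 (m 82 161 (q 83 90 (q 84 149 (m 85 274 (q 86 82 (q 87 227 (m 88 93 (m 89 165 (m 90 38 (q 91 187 (m 92 160 (m 93 139 (m 94 22 o))))))))))))))) e) (n (l (q 143 239 o)) e)) (n (n (l (m 141 66 (m 142 28 o))) e) e)) (n (n (n (l (m 135 19 (m 136 22 (q 137 1 (q 138 3 o))))) e) e) e)) (n (n (n (n (l (m 128 17 (q 129 64 (m 130 19 (m 131 153 (m 132 8 (q 133 160 (q 134 33 o)))))))) e) (n (l (q 143 26 o)) e)) (n (n (l (q 141 18 (q 142 116 o))) e) e)) (n (n (n (l (q 139 22 (m 140 105 o))) e) e) e)))) (n (n (n (n (n (n (l (q 61 4 (m 62 15 (q 63 13 (q 64 26 (q 65 11 (m 66 12 (q 67 10 (m 68 4 (q 69 30 (m 70 1 (q 71 19 (q 72 14 (m 73 13 (m 74 14 (q 75 12 (q 76 11 (m 77 2 (q 78 16 (q 79 5 (q 80 1 o))))))))))))))))))))) e) (n (l (q 143 192 o)) e)) (n (n (l (m 141 133 (q 142 76 o))) e) e)) (n (n (n (l (q 135 137 (m 136 159 (q 137 38 (q 138 20 o)))))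 e) e) e)) (n (n (n (n (l (m 119 268 (m 120 76 (q 121 198 (q 122 202 (q 123 207 (m 124 76 (m 125 47 (m 126 44 o))))))))) e) (n (l (m 143 1051 o)) e)) (n (n (l (m 141 64 (q 142 54 o))) e) e)) e)) (n (n (n (n (n (l (q 101 129 (m 102 7 (m 103 47 (m 104 56 (q 105 34 (q 106 84 (m 107 5 (q 108 6 (q 109 35 (m 110 28 (m 111 79 (m 112 7 (m 114 1 (q 115 34 (q 116 81 (q 117 6 (q 118 5 o)))))))))))))))))) e) (n (l (m 143 145 o)) e)) (n (n (l (q 141 46 (q 142 76 o))) e) e)) (n (n (n (l (m 135 339 (m 136 410 (q 137 8 (q 138 200 o))))) e) e) e)) (n (n (n (n (l (m 128 2 (m 129 30 (q 130 33 (q 131 139 (m 132 12 (m 133 156 (m 134 31 o)))))))) e) (n (l (m 143 225 o)) e)) e) (n (n (n (l (m 139 46 (q 140 95 o))) e) e) (n (n (l (m 143 10 o)) e) e)))))) (n (n (n (n (n (n (n (l (m 45 6 (q 46 12 (m 47 18 (m 48 10 (m 49 19 (q 50 19 (q 51 12 (q 52 30 (m 53 21 (q 54 9 (q 55 1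 o)))))))))))) e) (n (l (q 143 187 o)) e)) (n (n (l (m 141 56 (m 142 13 o))) e) e)) (n (n (n (l (q 135 392 (q 136 104 (q 137 45 (m 138 131 o))))) e) e) e)) (n (n (n (n (l (q 119 587 (q 120 349 (m 121 330 (m 122 616 (m 123 411 (q 124 137 (q 125 52 (q 126 207 o))))))))) e) (n (l (m 143 46 o)) e)) (n (n (l (m 141 87 (q 142 93 o))) e) e)) e)) (n (n (n (n (n (l (q 101 86 (q 102 3 (m 103 39 (m 104 50 (q 105 2 (q 106 50 (q 107 12 (q 108 2 (q 109 16 (m 110 22 (m 111 74 (q 112 29 (m 113 5 (q 115 42 (q 116 72 (m 117 22 (m 118 8 o)))))))))))))))))) e) (n (l (q 143 315 o)) e)) (n (n (l (q 141 30 (m 142 112 o))) e) e)) (n (n (n (l (m 135 193 (m 136 330 (q 137 11 (q 138 184 o))))) e) e) e)) (n (n (n (n (l (q 128 6 (m 129 33 (q 130 17 (q 131 79 (m 132 4 (m 133 78 (m 134 16 o)))))))) e) (n (l (q 143 907 o)) e)) e) (n (n (n (l (q 139 23 (m 140 25 o))) e) e) (n (n (l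 (q 143 12 o)) e) e))))) (n (n (n (n (n (n (l (m 81 108 (q 82 64 (m 83 40 (m 84 65 (q 85 128 (m 86 30 (m 87 91 (q 88 26 (q 89 82 (q 90 48 (m 91 75 (q 92 80 (q 93 89 (q 94 6 o))))))))))))))) e) (n (l (m 143 449 o)) e)) (n (n (l (m 141 93 (q 142 50 o))) e) e)) (n (n (n (l (m 135 383 (m 136 705 (m 137 13 (q 138 328 o))))) e) e) e)) (n (n (n e (n (l (m 143 1082 o)) e)) (n (n (l (q 141 13 (m 142 32 o))) e) e)) (n (n (n (l (q 139 17 (q 140 75 o))) e) e) e))) (n (n (n (n (n (l (q 119 128 (q 120 133 (m 121 47 (m 122 181 (m 123 84 (q 124 25 (q 125 11 (q 126 63 o))))))))) e) (n (l (q 143 237 o)) e)) (n (n (l (m 141 93 (m 142 90 o))) e) e)) e) (n (n (n (n (l (m 135 207 (m 136 252 (m 137 5 (q 138 137 o))))) e) (n (l (m 143 419 o)) e)) e) (n (n (n (l (q 141 67 (m 142 18 o))) e) e) (n (n (l (m 143 3 o)) e) e)))))))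
def r20 : Tb SV := (n (n (n (n (n (n (n (n (l (m 32 1 (m 33 1 o))) e) (n (l (m 143 6 o)) e)) (n (n (l (m 141 2 (m 142 5 o))) e) e)) (n (n (n (l (m 135 2 (m 136 6 (q 138 2 o)))) e) (n (l (m 143 6 o)) e)) e)) (n (n (n (n (l (m 119 5 (q 120 11 (q 121 11 (m 122 2 (q 123 5 (q 124 10 (q 125 4 (m 126 16 o))))))))) e) (n (l (q 143 6 o)) e)) e) e)) (n (n (n (n (n (l (m 81 8 (m 82 3 (m 83 2 (m 84 2 (m 85 1 (m 86 3 (m 87 3 (q 88 6 (m 89 6 (m 90 2 (m 91 1 (m 92 6 (m 93 4 o)))))))))))))) e) (n (l (q 143 6 o)) e)) (n (n (l (q 141 3 (q 142 1 o))) e) e)) e) (n (n (n (n (l (q 129 2 (m 130 6 (q 132 2 (q 133 4 (q 134 2 o)))))) e) e) (n (n (l (m 142 4 o)) e) e)) (n (n (n (l (q 139 1 o)) e) e) e)))) (n (n (n (n (n (n (l (m 62 1 (q 65 1 (m 66 1 (m 76 1 o))))) e) e) (n (n (l (q 141 3 (q 142 5 o))) e) e)) (n (n (n (l (m 135 2 (m 136 1 (q 137 1 (q 138 1 o))))) e) e) e)) (n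 (n (n (n (l (q 119 2 (m 120 4 (m 121 4 (m 123 1 (m 124 5 (m 125 3 (q 126 7 o)))))))) e) (n (l (m 143 15 o)) e)) (n (n (l (q 141 2 o)) e) e)) e)) (n (n (n (n (n (l (q 102 1 (m 103 2 (m 104 2 (m 105 1 (q 106 2 (m 107 2 (q 108 2 (q 109 2 (m 110 4 (m 111 1 (q 112 1 (q 114 1 (m 115 3 (q 116 2 (q 118 1 o)))))))))))))))) e) (n (l (q 143 1 o)) e)) (n (n (l (m 141 2 (m 142 4 o))) e) e)) (n (n (n (l (m 136 5 (q 138 2 o))) e) e) e)) (n (n (n (n (l (m 128 1 (m 129 2 (q 130 7 (q 131 1 (m 132 3 (m 133 3 (m 134 2 o)))))))) e) (n (l (m 143 2 o)) e)) e) (n (n (n (l (m 139 2 (q 140 1 o))) e) e) e))))) (n (n (n (n (n (n (n (l (m 45 1 (m 53 1 o))) e) e) (n (n (l (q 141 2 (q 142 5 o))) e) e)) (n (n (n (l (m 135 3 (q 136 3 (q 137 1 (m 138 1 o))))) e) e) e)) (n (n (n (n (l (m 119 6 (q 120 14 (q 121 14 (m 122 3 (q 123 7 (q 124 12 (q 125 4 (m 126 20 o))))))))) e) e) (n (n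 (l (q 141 2 o)) e) e)) e)) (n (n (n (n (n (l (q 101 1 (q 102 1 (m 103 3 (m 104 2 (q 106 1 (m 107 1 (q 108 1 (q 109 1 (m 110 3 (m 111 2 (q 112 1 (m 113 1 (q 114 1 (m 115 2 (q 116 3 (q 117 1 o))))))))))))))))) e) (n (l (q 143 1 o)) e)) (n (n (l (m 141 2 (q 142 1 o))) e) e)) (n (n (n (l (m 136 4 (q 138 2 o))) e) e) e)) (n (n (n (n (l (m 129 1 (q 130 3 (m 132 1 (m 133 2 (m 134 1 o)))))) e) (n (l (q 143 6 o)) e)) e) e))) (n (n (n (n (n (n (l (q 81 1 (q 82 1 (q 85 1 (q 86 1 (q 87 1 (m 88 1 (q 89 3 (q 90 2 (q 92 3 (q 93 3 o))))))))))) e) (n (l (m 143 7 o)) e)) (n (n (l (q 141 3 (q 142 1 o))) e) e)) (n (n (n (l (m 136 9 (q 138 4 o))) e) e) e)) (n (n (n e (n (l (m 143 11 o)) e)) (n (n (l (q 142 4 o)) e) e)) (n (n (n (l (m 139 1 o)) e) e) e))) (n (n (n (n (n (l (m 119 2 (q 120 4 (q 121 4 (m 122 1 (q 123 2 (q 124 3 (q 125 1 (m 126 5 o))))))))) e) (n (l (q 143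 5 o)) e)) (n (n (l (q 141 2 (q 142 4 o))) e) e)) e) (n (n (n (n (l (q 135 1 (m 136 4 (q 138 2 o)))) e) (n (l (q 143 2 o)) e)) e) (n (n (n (l (m 142 4 o)) e) e) e))))))
def r21 : Tb SV := (n (n (n (n (n (n (n (n (l (m 31 8 (m 32 7 (m 33 5 (m 34 10 (q 35 5 (m 36 3 (q 37 2 (m 38 6 (m 39 3 (q 41 5 (q 42 3 (m 43 2 o))))))))))))) e) (n (l (m 143 241 o)) e)) (n (n (l (q 141 9 (q 142 21 o))) e) e)) (n (n (n (l (m 135 3 (m 136 142 (q 137 17 (q 138 49 o))))) e) (n (l (m 143 146 o)) e)) e)) (n (n (n (n (l (q 119 144 (q 120 177 (m 121 39 (m 122 226 (m 123 93 (q 124 35 (q 125 12 (q 126 80 o))))))))) e) (n (l (q 143 320 o)) e)) (n (n (l (q 141 21 (q 142 1 o))) e) e)) e)) (n (n (n (n (n (l (q 81 79 (m 82 64 (q 83 38 (q 84 64 (m 85 113 (q 86 31 (q 87 94 (m 88 23 (m 89 73 (m 90 14 (q 91 84 (m 92 70 (m 93 64 (m 94 12 o))))))))))))))) e) (n (l (q 143 110 o)) e)) (n (n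 (l (m 141 20 (m 142 12 o))) e) e)) (n (n (n (l (m 135 6 (m 136 10 (q 138 2 o)))) e) e) e)) (n (n (n (n (l (m 128 13 (q 129 39 (m 130 31 (m 131 85 (q 132 5 (q 133 69 (q 134 17 o)))))))) e) (n (l (q 143 10 o)) e)) (n (n (l (m 141 15 (q 142 77 o))) e) e)) (n (n (n (l (q 139 16 (m 140 52 o))) e) e) e)))) (n (n (n (n (n (n (l (m 62 8 (q 63 1 (q 64 10 (q 65 8 (m 66 6 (q 67 4 (q 69 9 (m 70 2 (q 71 8 (q 72 4 (m 73 5 (m 74 5 (q 75 4 (q 76 3 (m 77 1 (q 78 6 (q 79 1 o)))))))))))))))))) e) (n (l (q 143 84 o)) e)) (n (n (l (m 141 33 (q 142 34 o))) e) e)) (n (n (n (l (q 135 52 (m 136 55 (q 137 21 (q 138 12 o))))) e) e) e)) (n (n (n (n (l (m 119 90 (m 120 58 (q 121 50 (q 122 92 (q 123 67 (m 124 27 (m 125 17 (m 126 28 o))))))))) e) (n (l (m 143 472 o)) e)) (n (n (l (m 141 25 (q 142 36 o))) e) e)) e)) (n (n (n (n (n (l (q 101 51 (m 102 5 (m 103 14 (m 104 20 (q 106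 38 (m 107 9 (q 108 9 (q 109 23 (m 110 24 (m 111 33 (m 112 4 (m 113 2 (m 114 1 (q 115 7 (q 116 38 (m 117 4 (q 118 5 o)))))))))))))))))) e) (n (l (m 143 42 o)) e)) (n (n (l (m 141 2 (q 142 53 o))) e) e)) (n (n (n (l (m 135 133 (m 136 203 (m 137 7 (q 138 90 o))))) e) e) e)) (n (n (n (n (l (q 128 9 (m 129 22 (q 130 40 (q 131 81 (m 132 16 (m 133 71 (m 134 16 o)))))))) e) (n (l (m 143 113 o)) e)) e) (n (n (n (l (m 139 30 (q 140 47 o))) e) e) (n (n (l (m 143 5 o)) e) e)))))) (n (n (n (n (n (n (n (l (m 45 4 (q 46 4 (m 47 8 (m 48 5 (m 49 8 (q 50 9 (q 51 6 (q 52 13 (m 53 10 (q 54 4 (q 55 1 o)))))))))))) e) (n (l (q 143 81 o)) e)) (n (n (l (m 141 1 (m 142 21 o))) e) e)) (n (n (n (l (q 135 151 (q 136 76 (q 137 33 (m 138 53 o))))) e) e) e)) (n (n (n (n (l (q 119 191 (q 120 213 (m 121 55 (m 122 281 (m 123 111 (q 124 40 (q 125 5 (q 126 107 o))))))))) e) (n (l (m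 143 19 o)) e)) (n (n (l (m 141 36 (q 142 60 o))) e) e)) e)) (n (n (n (n (n (l (q 101 29 (m 103 18 (m 104 20 (m 105 18 (q 106 17 (q 107 8 (m 108 2 (q 109 6 (m 110 21 (m 111 29 (q 112 14 (q 113 1 (m 114 1 (q 115 13 (q 116 29 (m 117 15 (m 118 3 o)))))))))))))))))) e) (n (l (q 143 129 o)) e)) (n (n (l (q 141 18 (m 142 73 o))) e) e)) (n (n (n (l (m 135 73 (m 136 153 (q 138 82 o)))) e) e) e)) (n (n (n (n (l (q 128 6 (m 129 20 (q 130 20 (q 131 43 (m 132 7 (m 133 34 (m 134 8 o)))))))) e) (n (l (q 143 390 o)) e)) e) (n (n (n (l (q 139 11 (m 140 9 o))) e) e) (n (n (l (q 143 5 o)) e) e))))) (n (n (n (n (n (n (l (m 81 51 (q 82 24 (m 83 18 (m 84 28 (q 85 53 (m 86 11 (m 87 38 (q 88 5 (q 89 38 (q 90 20 (m 91 35 (q 92 37 (q 93 41 (q 94 4 o))))))))))))))) e) (n (l (m 143 206 o)) e)) (n (n (l (m 141 33 (q 142 38 o))) e) e)) (n (n (n (l (m 135 146 (m 136 325 (m 137 20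 (q 138 143 o))))) e) e) e)) (n (n (n e (n (l (m 143 464 o)) e)) (n (n (l (q 141 27 (m 142 36 o))) e) e)) (n (n (n (l (q 139 5 (q 140 43 o))) e) e) e))) (n (n (n (n (n (l (q 119 35 (q 120 75 (q 121 5 (m 122 84 (m 123 17 (q 124 5 (m 125 2 (q 126 32 o))))))))) e) (n (l (q 143 124 o)) e)) (n (n (l (m 141 17 (m 142 56 o))) e) e)) e) (n (n (n (n (l (m 135 80 (m 136 124 (m 137 10 (q 138 59 o))))) e) (n (l (m 143 186 o)) e)) e) (n (n (n (l (q 141 12 (q 142 6 o))) e) e) (n (n (l (m 143 1 o)) e) e)))))))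
def r22 : Tb SV := (n (n (n (n (n (n (n (n (l (m 31 15 (m 32 12 (m 33 7 (m 34 20 (q 35 13 (m 36 5 (q 37 3 (m 38 10 (m 39 5 (q 40 2 (q 41 7 (q 42 4 (m 43 3 (q 44 1 o))))))))))))))) e) (n (l (m 143 378 o)) e)) (n (n (l (q 141 105 (q 142 12 o))) e) e)) (n (n (n (l (m 135 2 (m 136 215 (q 137 12 (q 138 59 o))))) e) (n (l (m 143 233 o)) e)) e)) (n (n (n (n (l (q 119 190 (q 120 163 (m 121 141 (m 122 347 (m 123 258 (q 124 61 (q 125 21 (m 126 15 o))))))))) e) (n (l (q 143 496 o)) e)) (n (n (l (q 141 38 (q 142 11 o))) e) e)) e)) (n (n (n (n (n (l (q 81 81 (m 82 101 (q 83 58 (q 84 90 (m 85 152 (q 86 58 (q 87 135 (m 88 19 (m 89 98 (m 90 13 (q 91 120 (m 92 96 (m 93 74 (m 94 13 o))))))))))))))) e) (n (l (q 143 161 o)) e)) (n (n (l (m 141 52 (m 142 20 o))) e) e)) (n (n (n (l (m 135 15 (m 136 14 (q 137 1 (q 138 1 o))))) e) e) e)) (n (n (n (n (l (q 128 5 (q 129 29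 (q 130 5 (m 131 69 (m 132 6 (q 133 100 (q 134 26 o)))))))) e) (n (l (q 143 22 o)) e)) (n (n (l (q 141 88 (q 142 112 o))) e) e)) (n (n (n (l (q 139 13 (m 140 55 o))) e) e) e)))) (n (n (n (n (n (n (l (q 61 5 (m 62 8 (q 63 15 (q 64 18 (q 65 5 (m 66 9 (q 67 5 (m 68 4 (q 69 22 (q 70 3 (q 71 10 (q 72 10 (m 73 10 (m 74 9 (q 75 9 (q 76 8 (q 78 12 (q 79 3 (m 80 2 o)))))))))))))))))))) e) (n (l (q 143 125 o)) e)) (n (n (l (m 141 116 (q 142 78 o))) e) e)) (n (n (n (l (q 135 76 (m 136 111 (q 137 20 (q 138 17 o))))) e) e) e)) (n (n (n (n (l (m 119 124 (m 120 35 (q 121 115 (q 122 137 (q 123 151 (m 124 48 (m 125 27 (q 126 26 o))))))))) e) (n (l (m 143 709 o)) e)) (n (n (l (m 141 26 (q 142 56 o))) e) e)) e)) (n (n (n (n (n (l (q 101 83 (m 102 5 (m 103 49 (m 104 50 (q 105 31 (q 106 42 (q 107 17 (m 108 20 (q 109 1 (m 110 8 (m 111 54 (m 112 7 (q 113 7 (q 114 4 (q 115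 31 (q 116 47 (q 117 12 (q 118 5 o))))))))))))))))))) e) (n (l (m 143 119 o)) e)) (n (n (l (q 141 90 (q 142 73 o))) e) e)) (n (n (n (l (m 135 229 (m 136 228 (q 137 6 (q 138 98 o))))) e) e) e)) (n (n (n (n (l (m 128 22 (m 129 9 (q 130 2 (q 131 58 (m 132 8 (m 133 94 (m 134 23 o)))))))) e) (n (l (m 143 140 o)) e)) e) (n (n (n (l (m 139 28 (q 140 49 o))) e) e) (n (n (l (m 143 8 o)) e) e)))))) (n (n (n (n (n (n (n (l (m 45 6 (q 46 9 (m 47 10 (m 48 5 (m 49 11 (q 50 10 (q 51 5 (q 52 16 (m 53 16 (q 54 5 o))))))))))) e) (n (l (q 143 124 o)) e)) (n (n (l (m 141 90 (m 142 11 o))) e) e)) (n (n (n (l (q 135 244 (q 136 29 (q 137 25 (m 138 55 o))))) e) e) e)) (n (n (n (n (l (q 119 247 (q 120 191 (m 121 184 (m 122 433 (m 123 320 (q 124 70 (q 125 13 (m 126 8 o))))))))) e) (n (l (m 143 37 o)) e)) (n (n (l (m 141 23 (q 142 100 o))) e) e)) e)) (n (n (n (n (n (l (q 101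 59 (q 102 1 (m 103 38 (m 104 41 (q 105 17 (q 106 25 (q 107 19 (m 108 15 (m 109 3 (m 110 6 (m 111 54 (q 112 14 (m 113 4 (q 114 7 (q 115 32 (q 116 48 (m 117 5 (m 118 2 o))))))))))))))))))) e) (n (l (q 143 212 o)) e)) (n (n (l (m 141 21 (m 142 111 o))) e) e)) (n (n (n (l (m 135 139 (m 136 185 (q 137 1 (q 138 90 o))))) e) e) e)) (n (n (n (n (l (m 128 4 (m 129 15 (q 130 2 (q 131 36 (m 132 2 (m 133 49 (m 134 13 o)))))))) e) (n (l (q 143 614 o)) e)) e) (n (n (n (l (q 139 18 (m 140 14 o))) e) e) (n (n (l (q 143 8 o)) e) e))))) (n (n (n (n (n (n (l (m 81 53 (q 82 40 (m 83 27 (m 84 39 (q 85 73 (m 86 20 (m 87 51 (q 88 3 (q 89 53 (q 90 31 (m 91 46 (q 92 52 (q 93 55 (q 94 2 o))))))))))))))) e) (n (l (m 143 307 o)) e)) (n (n (l (m 141 47 (q 142 62 o))) e) e)) (n (n (n (l (m 135 267 (m 136 399 (m 137 16 (q 138 159 o))))) e) e) e)) (n (n (n e (n (l (m 143 741 o))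 e)) (n (n (l (m 141 54 (m 142 34 o))) e) e)) (n (n (n (l (q 139 14 (q 140 37 o))) e) e) e))) (n (n (n (n (n (l (q 119 46 (q 120 78 (m 121 22 (m 122 128 (m 123 68 (q 124 10 (q 126 4 o)))))))) e) (n (l (q 143 153 o)) e)) (n (n (l (m 141 124 (m 142 84 o))) e) e)) e) (n (n (n (n (l (m 135 134 (m 136 136 (m 137 1 (q 138 70 o))))) e) (n (l (m 143 265 o)) e)) e) (n (n (n (l (q 141 88 (m 142 9 o))) e) e) e))))))
def r23 : Tb SV := (n (n (n (n (n (n (n (n (l (q 46 1 (q 48 1 (m 50 1 (m 51 2 (m 52 1 (m 54 1 (m 55 1 o)))))))) e) e) e) e) (n e (n e (n (n (l (m 143 9 o)) e) e)))) (n e (n (n (n (n (l (q 135 21 (q 136 12 (q 137 3 (q 138 4 o))))) e) e) e) (n (n (n (l (q 141 13 (m 142 1 o))) e) e) (n (n (l (q 143 14 o)) e) e))))) (n (n (n (n (n (n (l (m 81 23 (m 82 3 (q 83 6 (q 84 4 (q 85 6 (q 86 7 (m 87 1 (q 88 4 (q 89 9 (m 90 1 (q 91 1 (q 92 8 (q 93 6 (q 94 3 o)))))))))))))))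 e) e) e) e) (n e (n e (n (n (l (m 143 18 o)) e) e)))) (n (n (n (n (n (l (q 119 2 (q 120 17 (q 121 10 (m 122 5 (q 123 8 (q 124 7 (q 125 3 (q 126 2 o))))))))) e) e) e) e) (n (n (n (n (l (m 135 20 (m 136 23 (m 137 2 (q 138 2 o))))) e) e) e) (n (n (n (l (m 141 15 (q 142 5 o))) e) e) e))))) (n (n (n e (n e (n e (n (n (l (m 143 15 o)) e) e)))) (n (n (n (n (n (l (q 119 4 (q 120 6 (m 121 1 (m 122 2 (m 123 2 (q 124 4 (q 125 4 (q 126 3 o))))))))) e) e) e) e) (n (n (n (n (l (m 135 12 (m 136 8 (m 137 1 (m 138 1 o))))) e) e) e) (n (n (n (l (m 142 4 o)) e) e) e)))) (n (n e (n e (n (n (n (l (m 141 10 (m 142 5 o))) e) e) (n (n (l (q 143 5 o)) e) e)))) e)))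
def r24 : Tb SV := (n (n (n (n (n (n (n (n (l (m 45 4 (q 46 1 (q 47 3 (q 48 4 (q 49 2 (m 50 6 (m 51 8 (m 52 7 (m 53 3 (m 54 3 (m 55 4 o)))))))))))) e) e) e) e) (n e (n e (n (n (l (m 143 39 o)) e) e)))) (n e (n (n (n (n (l (q 135 108 (q 136 19 (m 137 5 (q 138 16 o))))) e) e) e) (n (n (n (l (q 141 68 (m 142 7 o))) e) e) (n (n (l (q 143 71 o)) e) e))))) (n (n (n (n (n (n (l (m 81 108 (m 82 14 (q 83 14 (q 84 6 (q 85 33 (q 86 23 (m 87 14 (q 88 30 (q 89 27 (m 90 12 (q 91 1 (q 92 22 (q 93 16 (q 94 14 o))))))))))))))) e) e) e) e) (n e (n e (n (n (l (m 143 90 o)) e) e)))) (n (n (n (n (n (l (q 119 30 (q 120 61 (q 121 23 (m 122 26 (q 123 25 (q 124 18 (q 125 7 (q 126 19 o))))))))) e) e) e) e) (n (n (n (n (l (m 135 100 (m 136 60 (q 137 5 (q 138 3 o))))) e) e) e) (n (n (n (l (m 141 75 (q 142 16 o))) e) e) e))))) (n (n (n e (n e (n e (n (n (l (m 143 62 o)) e) e))))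 (n (n (n (n (n (l (q 119 22 (q 120 19 (m 121 13 (m 122 18 (m 123 12 (q 124 2 (q 125 5 (q 126 26 o))))))))) e) e) e) e) (n (n (n (n (l (m 135 61 (m 136 19 (q 137 3 (m 138 5 o))))) e) e) e) (n (n (n (l (q 141 4 (m 142 18 o))) e) e) e)))) (n (n e (n e (n (n (n (l (m 141 50 (m 142 17 o))) e) e) (n (n (l (q 143 29 o)) e) e)))) e)))
def r25 : Tb SV := (n (n (n (n (n (n (n (n (l (m 45 2 (m 46 2 (q 47 1 (q 48 1 (q 49 1 (m 50 1 (m 51 1 (m 52 1 (m 53 1 o)))))))))) e) e) e) e) (n e (n e (n (n (l (q 143 7 o)) e) e)))) (n e (n (n (n (n (l (m 135 9 (m 136 9 (q 137 4 (q 138 8 o))))) e) e) e) (n (n (n (l (m 141 2 (q 142 2 o))) e) e) (n (n (l (m 143 8 o)) e) e))))) (n (n (n (n (n (n (l (m 81 2 (q 82 4 (m 83 3 (m 84 3 (q 85 6 (m 86 3 (m 87 4 (m 88 2 (m 89 1 (q 90 1 (m 92 1 (m 93 1 (q 94 1 o)))))))))))))) e) e) e) e) (n e (n e (n (n (l (q 143 7 o)) e) e)))) (n (n (n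 (n (n (l (q 119 8 (m 120 6 (m 121 7 (q 122 4 (m 123 4 (q 124 1 (q 125 2 (m 126 6 o))))))))) e) e) e) e) (n (n (n (n (l (q 135 13 (q 136 12 (m 137 8 (m 138 12 o))))) e) e) e) (n (n (n (l (q 141 6 (m 142 6 o))) e) e) e))))) (n (n (n e (n e (n e (n (n (l (q 143 7 o)) e) e)))) (n (n (n (n (n (l (q 119 5 (m 120 2 (m 121 3 (m 124 3 (m 125 2 (m 126 1 o))))))) e) e) e) e) (n (n (n (n (l (q 135 4 (q 136 4 (m 137 2 (m 138 4 o))))) e) e) e) (n (n (n (l (q 141 2 o)) e) e) e)))) (n (n e (n e (n (n (n (l (q 141 5 (m 142 2 o))) e) e) (n (n (l (q 143 2 o)) e) e)))) e)))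
def r26 : Tb SV := (n (n (n (n (n (n (n (n (l (m 45 3 (q 47 3 (q 48 3 (m 50 6 (m 51 7 (m 52 6 (m 53 3 (m 54 2 (m 55 4 o)))))))))) e) e) e) e) (n e (n e (n (n (l (m 143 37 o)) e) e)))) (n e (n (n (n (n (l (q 135 110 (q 136 16 (m 137 16 (q 138 12 o))))) e) e) e) (n (n (n (l (q 141 69 (m 142 9 o))) e) e) (n (n (l (q 143 80 o)) e) e))))) (n (n (n (n (n (n (l (m 81 111 (m 82 19 (q 83 12 (q 84 5 (q 85 34 (q 86 28 (m 87 12 (q 88 29 (q 89 24 (m 90 18 (q 91 6 (q 92 18 (q 93 11 (q 94 14 o))))))))))))))) e) e) e) e) (n e (n e (n (n (l (m 143 100 o)) e) e)))) (n (n (n (n (n (l (q 119 46 (q 120 66 (q 121 19 (m 122 31 (q 123 30 (q 124 14 (q 125 4 (q 126 20 o))))))))) e) e) e) e) (n (n (n (n (l (m 135 102 (m 136 55 (q 137 15 (q 138 4 o))))) e) e) e) (n (n (n (l (m 141 78 (q 142 12 o))) e) e) e))))) (n (n (n e (n e (n e (n (n (l (m 143 57 o)) e) e)))) (n (n (n (n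 (n (l (q 119 21 (q 120 23 (m 121 11 (m 122 25 (m 123 7 (m 124 3 (m 125 2 (q 126 24 o))))))))) e) e) e) e) (n (n (n (n (l (m 135 62 (m 136 18 (q 137 7 (m 138 4 o))))) e) e) e) (n (n (n (l (q 141 4 (m 142 20 o))) e) e) e)))) (n (n e (n e (n (n (n (l (m 141 51 (m 142 15 o))) e) e) (n (n (l (q 143 34 o)) e) e)))) e)))
def r27 : Tb SV := (n (n (n (n (n (n (n (n (l (q 56 1 o)) e) e) e) (n (n (n (l (q 139 6 (m 140 4 o))) e) e) (n (n (l (m 143 2 o)) e) e))) (n (n (n (n (l (m 128 20 (q 129 28 (m 130 61 (q 131 28 (m 132 19 (m 133 8 (q 134 27 o)))))))) e) e) e) (n (n (n (l (q 141 3 (q 142 23 o))) e) e) e))) (n (n (n (n (n (l (m 103 4 (q 104 4 (m 105 13 (m 106 7 (q 107 7 (q 108 6 (m 109 3 (q 110 9 (m 111 8 (m 112 23 (m 114 4 (q 115 32 (q 116 7 (q 117 26 (m 118 5 o)))))))))))))))) e) e) e) (n (n (n (l (q 139 2 (q 140 3 o))) e) e) e)) e)) (n (n (n (n (n (n (l (m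 95 5 (q 96 1 (m 97 4 (m 98 2 (q 99 2 (m 100 1 o))))))) e) e) e) (n (n (n (l (m 139 12 (m 140 5 o))) e) e) (n (n (l (m 143 7 o)) e) e))) (n (n (n (n (l (q 128 13 (m 129 20 (q 130 24 (m 131 16 (q 132 11 (m 133 3 (m 134 12 o)))))))) e) e) e) (n (n (n (l (q 141 7 (q 142 21 o))) e) e) e))) (n (n (n (n (n (l (q 127 12 o)) e) e) e) (n (n (n (l (q 139 56 (q 140 24 o))) e) e) e)) (n (n e (n (n (l (q 143 2 o)) e) e)) e)))) (n (n (n (n (n (n (n (l (m 61 1 (q 62 1 (m 63 1 (m 64 3 (m 67 2 (m 68 1 (m 69 2 (m 70 1 (m 71 2 (m 72 3 (q 73 1 (m 78 2 (m 79 1 o)))))))))))))) e) e) e) (n (n (n (l (m 139 61 (m 140 26 o))) e) e) (n (n (l (q 143 1 o)) e) e))) (n (n (n (n (l (m 128 25 (q 129 36 (m 130 72 (q 131 33 (m 132 26 (m 133 11 (q 134 35 o)))))))) e) e) e) (n (n (n (l (m 141 5 (m 142 1 o))) e) e) e))) (n (n (n (n (n (l (m 127 3 o)) e) e) e) (n (n (n (l (q 139 34 (q 140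 21 o))) e) e) e)) e)) (n (n (n (n (n (n (l (m 101 1 (q 102 1 (q 103 1 (m 104 2 (q 105 3 (q 106 2 (m 107 5 (m 108 1 (q 109 2 (m 110 2 (q 111 3 (q 112 11 (q 114 1 (m 115 10 (m 116 1 (m 117 10 (q 118 1 o)))))))))))))))))) e) e) e) (n (n (n (l (q 139 84 (q 140 45 o))) e) e) (n (n (l (q 143 3 o)) e) e))) (n (n (n (n (l (m 135 1 (q 136 3 (q 137 3 (m 138 1 o))))) e) e) e) e)) (n (n (n (n (n (l (m 128 6 (q 129 7 (m 130 22 (q 131 10 (m 132 6 (m 133 5 (q 134 9 o)))))))) e) e) e) (n (n (n (l (q 141 1 (q 142 6 o))) e) e) (n (n (l (q 143 1 o)) e) e))) (n (n (n (n (l (q 139 39 (q 140 18 o))) e) e) (n (n (l (m 143 6 o)) e) e)) e)))))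
def r28 : Tb SV := (n (n (n (n (n (n (n (n (l (m 58 1 o)) e) e) e) (n (n (n (l (m 139 3 (q 140 7 o))) e) e) (n (n (l (q 143 2 o)) e) e))) (n (n (n (n (l (m 128 25 (m 129 10 (q 130 106 (q 131 17 (q 132 1 (q 133 80 (m 134 18 o)))))))) e) e) e) (n (n (n (l (m 141 3 (q 142 1 o))) e) e) e))) (n (n (n (n (n (l (q 101 9 (q 103 1 (m 104 1 (q 105 25 (q 106 4 (q 107 5 (m 108 12 (m 109 9 (m 110 6 (q 111 11 (q 112 17 (q 114 1 (m 115 41 (m 116 19 (m 117 29 (q 118 2 o))))))))))))))))) e) e) e) (n (n (n (l (m 139 2 (m 140 3 o))) e) e) (n (n (l (q 143 18 o)) e) e))) e)) (n (n (n (n (n (n (l (q 95 2 (m 96 1 (q 97 4 (q 98 2 (m 99 2 (q 100 1 o))))))) e) e) e) (n (n (n (l (q 139 12 (q 140 20 o))) e) e) (n (n (l (q 143 4 o)) e) e))) (n (n (n (n (l (q 128 8 (q 129 11 (m 130 45 (m 131 5 (m 132 2 (m 133 30 (q 134 9 o)))))))) e) e) e) (n (n (n (l (m 141 7 (q 142 9 o))) e)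 e) e))) (n (n (n (n (n (l (m 127 3 o)) e) e) e) (n (n (n (l (m 139 44 (m 140 57 o))) e) e) (n (n (l (m 143 9 o)) e) e))) (n (n e (n (n (l (q 143 1 o)) e) e)) e)))) (n (n (n (n (n (n (n (l (q 61 1 (m 62 1 (q 64 1 (q 65 1 (m 66 1 (q 67 2 (q 68 1 (q 69 1 (q 71 2 (q 72 2 (q 78 1 (q 79 1 (q 80 1 o)))))))))))))) e) e) e) (n (n (n (l (q 139 49 (q 140 68 o))) e) e) (n (n (l (q 143 8 o)) e) e))) (n (n (n (n (l (m 128 32 (m 129 15 (q 130 129 (q 131 24 (q 132 2 (q 133 101 (m 134 23 o)))))))) e) e) e) (n (n (n (l (q 141 5 (q 142 4 o))) e) e) e))) (n (n (n (n (n (l (q 127 6 o)) e) e) e) (n (n (n (l (m 139 28 (m 140 45 o))) e) e) (n (n (l (m 143 6 o)) e) e))) (n (n e (n (n (l (q 143 6 o)) e) e)) e))) (n (n (n (n (n (n (l (m 101 5 (m 102 1 (m 103 1 (q 104 2 (m 105 12 (m 106 2 (q 107 2 (q 108 1 (q 109 1 (q 110 2 (m 111 3 (m 112 8 (q 113 3 (m 114 1 (q 115 16 (q 116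 4 (q 117 10 (m 118 1 o))))))))))))))))))) e) e) e) (n (n (n (l (m 139 63 (m 140 93 o))) e) e) (n (n (l (m 143 9 o)) e) e))) (n (n (n (n (l (m 135 2 (m 136 3 (m 137 3 (m 138 2 o))))) e) e) e) e)) (n (n (n (n (n (l (m 128 9 (m 129 1 (q 130 37 (q 131 5 (q 133 29 (m 134 6 o))))))) e) e) e) (n (n (n (l (m 141 1 (m 142 3 o))) e) e) (n (n (l (q 143 14 o)) e) e))) (n (n (n (n (l (m 139 30 (m 140 42 o))) e) e) (n (n (l (q 143 21 o)) e) e)) e)))))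
def r29 : Tb SV := (n (n (n (n (n (n (n (n (l (q 59 1 o)) e) e) e) (n (n (n (l (q 139 3 (q 140 3 o))) e) e) e)) (n (n (n (n (l (m 128 24 (q 129 12 (q 130 18 (q 131 24 (q 133 42 (q 134 6 o))))))) e) e) e) (n (n (n (l (m 141 8 (q 142 14 o))) e) e) e))) (n (n (n (n (n (l (q 101 8 (m 103 6 (q 104 2 (q 105 10 (m 106 6 (q 107 13 (m 108 9 (m 109 13 (q 110 7 (m 111 1 (m 112 4 (m 113 2 (m 114 2 (m 115 1 (m 116 6 (m 118 5 o))))))))))))))))) e) e) e) (n e (n (n (l (q 143 10 o)) e) e))) e)) (n (n (n (n (n (n (l (m 95 2 (m 97 1 o))) e) e) e) (n (n (n (l (q 139 1 (q 140 9 o))) e) e) (n (n (l (m 143 4 o)) e) e))) (n (n (n (n (l (q 128 12 (m 129 6 (m 130 8 (m 131 12 (m 133 20 (m 134 2 o))))))) e) e) e) (n (n (n (l (m 141 8 (q 142 16 o))) e) e) e))) (n (n (n (n (n (l (q 127 4 o)) e) e) e) (n (n (n (l (q 139 9 (m 140 19 o))) e) e) (n (n (l (m 143 3 o)) e) e))) (n (n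 e (n (n (l (q 143 4 o)) e) e)) e)))) (n (n (n (n (n (n (n (l (q 61 1 (q 62 1 (q 63 1 (q 76 1 o))))) e) e) e) (n (n (n (l (m 139 8 (q 140 24 o))) e) e) (n (n (l (q 143 3 o)) e) e))) (n (n (n (n (l (m 128 30 (q 129 14 (q 130 24 (q 131 30 (m 132 2 (q 133 52 (q 134 8 o)))))))) e) e) e) (n (n (n (l (q 142 2 o)) e) e) e))) (n (n e (n (n (n (l (q 139 6 (m 140 14 o))) e) e) (n (n (l (m 143 1 o)) e) e))) (n (n e (n (n (l (q 143 1 o)) e) e)) e))) (n (n (n (n (n (n (l (m 101 4 (q 103 2 (m 105 6 (q 106 2 (m 107 5 (q 108 3 (q 109 5 (m 110 3 (q 111 1 (q 112 2 (q 113 2 (q 115 1 (q 116 2 (q 118 1 o))))))))))))))) e) e) e) (n (n (n (l (q 139 17 (m 140 27 o))) e) e) (n (n (l (m 143 3 o)) e) e))) (n (n (n (n (l (q 136 2 (m 138 2 o))) e) e) e) e)) (n (n (n (n (n (l (m 128 8 (q 129 4 (q 130 6 (q 131 8 (q 133 14 (q 134 2 o))))))) e) e) e) (n (n (n (l (m 141 2 (q 142 2 o)))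 e) e) (n (n (l (q 143 14 o)) e) e))) (n (n (n (n (l (q 139 7 (m 140 13 o))) e) e) (n (n (l (q 143 9 o)) e) e)) e)))))
def r30 : Tb SV := (n (n (n (n (n (n (n (n (l (m 56 1 (q 57 1 (m 60 1 o)))) e) e) e) (n (n (n (l (q 139 2 (m 140 19 o))) e) e) (n (n (l (m 143 1 o)) e) e))) (n (n (n (n (l (q 128 43 (m 129 34 (m 130 75 (m 131 9 (m 132 16 (m 133 76 (q 134 16 o)))))))) e) e) e) (n (n (n (l (q 141 13 (q 142 21 o))) e) e) e))) (n (n (n (n (n (l (m 101 9 (m 102 8 (q 103 2 (q 104 18 (m 105 31 (m 106 29 (q 107 25 (m 108 17 (m 109 15 (q 110 22 (m 111 17 (m 112 23 (m 113 3 (m 114 5 (q 115 70 (q 116 17 (q 117 51 (m 118 6 o))))))))))))))))))) e) e) e) (n (n (n (l (q 139 3 (q 140 2 o))) e) e) (n (n (l (m 143 15 o)) e) e))) e)) (n (n (n (n (n (n (l (m 95 5 (q 96 1 (m 97 6 (m 98 4 (q 99 4 (m 100 2 o))))))) e) e) e) (n (n (n (l (m 139 15 (m 140 33 o))) e) e) (n (n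 (l (m 143 3 o)) e) e))) (n (n (n (n (l (m 128 11 (q 129 4 (q 130 41 (q 131 4 (q 132 6 (q 133 25 (m 134 8 o)))))))) e) e) e) (n (n (n (l (q 141 18 (q 142 10 o))) e) e) e))) (n (n (n (n (n (l (q 127 4 o)) e) e) e) (n (n (n (l (q 139 61 (q 140 59 o))) e) e) (n (n (l (q 143 2 o)) e) e))) (n (n e (n (n (l (m 143 6 o)) e) e)) e)))) (n (n (n (n (n (n (n (l (m 61 4 (q 62 3 (m 63 2 (m 64 3 (m 65 3 (q 66 1 (m 67 3 (m 68 1 (m 69 2 (m 71 3 (m 72 3 (q 76 2 (m 78 1 (m 79 2 o))))))))))))))) e) e) e) (n (n (n (l (m 139 64 (m 140 86 o))) e) e) (n (n (l (m 143 1 o)) e) e))) (n (n (n (n (l (q 128 56 (m 129 38 (m 130 87 (m 131 17 (m 132 21 (m 133 99 (q 134 21 o)))))))) e) e) e) (n (n (n (l (m 141 4 (m 142 5 o))) e) e) e))) (n (n (n (n (n (l (m 127 3 o)) e) e) e) (n (n (n (l (q 139 40 (q 140 46 o))) e) e) (n (n (l (m 143 4 o)) e) e))) (n (n e (n (n (l (q 143 3 o)) e) e))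 e))) (n (n (n (n (n (n (l (q 101 5 (q 102 5 (m 103 2 (m 104 6 (q 105 16 (q 106 12 (m 107 13 (q 108 10 (q 109 8 (m 110 9 (q 111 5 (q 112 11 (m 113 3 (q 114 2 (m 115 29 (m 116 3 (m 117 19 (q 118 3 o))))))))))))))))))) e) e) e) (n (n (n (l (q 139 86 (q 140 96 o))) e) e) (n (n (l (q 143 9 o)) e) e))) (n (n (n (n (l (m 135 4 (q 136 11 (q 137 7 o)))) e) e) e) e)) (n (n (n (n (n (l (q 128 16 (m 129 16 (m 130 23 (m 132 6 (m 133 28 (q 134 5 o))))))) e) e) e) (n (n (n (l (q 141 3 (q 142 9 o))) e) e) (n (n (l (m 143 17 o)) e) e))) (n (n (n (n (l (q 139 40 (q 140 47 o))) e) e) (n (n (l (m 143 23 o)) e) e)) e)))))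
def r31 : Tb SV := (n (n (n (n (n (n (n (n (l (m 61 18 (q 62 10 (m 63 7 (m 64 13 (q 66 1 (m 67 5 (q 68 1 (m 69 10 (q 70 8 (m 71 4 (q 72 2 (q 74 14 (m 75 9 (m 76 4 (q 77 3 (m 78 1 (q 79 4 (q 80 6 o))))))))))))))))))) e) e) (n (n (l (m 143 307 o)) e) e)) (n (n (n (l (q 141 27 (m 142 19 o))) e) e) e)) (n (n (n (n (l (q 135 163 (q 136 301 (q 137 165 (q 138 3 o))))) e) e) (n (n (l (m 143 12 o)) e) e)) e)) (n (n (n (n (n (l (q 119 27 (q 120 17 (m 121 19 (m 122 11 (m 123 1 (m 124 64 (m 125 6 (q 126 18 o))))))))) e) e) (n (n (l (q 143 46 o)) e) e)) (n (n (n (l (q 141 2 (q 142 2 o))) e) e) e)) (n (n (n (n (l (q 140 30 o)) e) e) (n (n (l (m 143 541 o)) e) e)) e))) (n (n (n (n (n (n (l (m 101 31 (q 102 13 (m 103 25 (q 104 8 (q 105 53 (m 106 39 (q 107 51 (m 108 31 (m 109 49 (m 110 10 (q 111 33 (m 112 1 (q 113 19 (q 114 8 (m 115 34 (m 116 57 (q 117 1 (q 118 5 o)))))))))))))))))))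 e) e) (n (n (l (q 143 42 o)) e) e)) (n (n (n (l (m 141 37 (q 142 68 o))) e) e) e)) (n (n (n (n (l (m 135 27 (m 136 86 (m 137 85 (m 138 4 o))))) e) e) (n (n (l (m 143 154 o)) e) e)) e)) (n (n (n (n (n (l (q 128 40 (q 129 4 (m 130 29 (m 131 14 (q 132 18 (m 133 86 (q 134 5 o)))))))) e) e) (n (n (l (m 143 406 o)) e) e)) (n (n (n (l (q 141 170 (m 142 181 o))) e) e) e)) (n (n (n (n (l (m 139 10 (m 140 20 o))) e) e) e) e)))) (n (n (n (n (n (n (n (l (m 81 25 (q 82 5 (q 83 24 (q 84 7 (q 85 39 (q 86 24 (q 87 7 (q 88 30 (q 89 4 (q 90 8 (q 91 29 (m 92 5 (q 93 19 (q 94 5 o))))))))))))))) e) e) (n (n (l (q 143 295 o)) e) e)) (n (n (n (l (m 141 198 (q 142 230 o))) e) e) e)) (n (n (n (n (l (q 135 207 (q 136 358 (q 137 226 (q 138 35 o))))) e) e) (n (n (l (m 143 314 o)) e) e)) e)) (n (n (n (n (n (l (q 128 17 (m 129 3 (m 130 34 (m 131 1 (q 132 5 (m 133 51 (q 134 10 o))))))))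 e) e) (n (n (l (q 143 357 o)) e) e)) (n (n (n (l (q 141 121 (m 142 123 o))) e) e) e)) (n (n (n (n (l (m 139 3 (m 140 15 o))) e) e) e) e))) (n (n (n (n (n (n (l (m 119 20 (m 120 15 (q 121 2 (m 122 11 (m 123 5 (q 124 13 (m 125 18 (m 126 27 o))))))))) e) e) (n (n (l (m 143 178 o)) e) e)) (n (n (n (l (q 141 302 (m 142 277 o))) e) e) e)) (n (n e (n (n (l (q 143 379 o)) e) e)) e)) (n (n (n (n (n (l (q 135 64 (q 136 118 (q 137 46 (m 138 8 o))))) e) e) (n (n (l (q 143 414 o)) e) e)) e) (n (n (n (n (l (q 141 121 (m 142 145 o))) e) e) e) (n (n (n (l (m 143 232 o)) e) e) e))))))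
def r32 : Tb SV := (n (n (n (n (n (n (n (n (l (m 61 25 (q 62 14 (m 63 10 (m 64 18 (q 66 1 (m 67 6 (q 68 3 (m 69 15 (q 70 11 (m 71 5 (q 72 2 (q 74 20 (m 75 13 (m 76 6 (q 77 5 (m 78 1 (q 79 5 (q 80 8 o))))))))))))))))))) e) e) (n (n (l (m 143 436 o)) e) e)) (n (n (n (l (q 141 41 (m 142 26 o))) e) e) e)) (n (n (n (n (l (q 135 282 (q 136 449 (q 137 280 (q 138 24 o))))) e) e) (n (n (l (m 143 15 o)) e) e)) e)) (n (n (n (n (n (l (q 119 62 (q 120 21 (m 121 33 (q 122 16 (q 123 4 (m 124 79 (q 125 18 (q 126 31 o))))))))) e) e) (n (n (l (q 143 68 o)) e) e)) (n (n (n (l (q 141 4 (q 142 1 o))) e) e) e)) (n (n (n (n (l (m 139 3 (q 140 21 o))) e) e) (n (n (l (m 143 752 o)) e) e)) e))) (n (n (n (n (n (n (l (m 101 43 (q 102 19 (m 103 27 (q 104 23 (q 105 62 (m 106 51 (q 107 58 (m 108 26 (m 109 54 (m 110 29 (q 111 46 (m 112 2 (q 113 17 (q 114 8 (m 115 59 (m 116 70 (m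 117 4 (q 118 6 o))))))))))))))))))) e) e) (n (n (l (q 143 72 o)) e) e)) (n (n (n (l (m 141 36 (q 142 98 o))) e) e) e)) (n (n (n (n (l (m 135 64 (m 136 122 (m 137 138 (m 138 11 o))))) e) e) (n (n (l (m 143 207 o)) e) e)) e)) (n (n (n (n (n (l (q 128 52 (q 129 6 (m 130 43 (m 131 21 (q 132 22 (m 133 115 (q 134 4 o)))))))) e) e) (n (n (l (m 143 572 o)) e) e)) (n (n (n (l (q 141 215 (m 142 284 o))) e) e) e)) (n (n (n (n (l (m 139 6 (m 140 7 o))) e) e) e) e)))) (n (n (n (n (n (n (n (l (m 81 33 (q 82 10 (q 83 37 (q 84 11 (q 85 62 (q 86 41 (q 87 14 (q 88 45 (q 89 11 (q 90 21 (q 91 50 (m 92 2 (q 93 35 (q 94 7 o))))))))))))))) e) e) (n (n (l (q 143 422 o)) e) e)) (n (n (n (l (m 141 234 (q 142 341 o))) e) e) e)) (n (n (n (n (l (q 135 359 (q 136 537 (q 137 376 (q 138 73 o))))) e) e) (n (n (l (m 143 432 o)) e) e)) e)) (n (n (n (n (n (l (q 128 15 (m 129 6 (m 130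 57 (m 131 8 (q 132 6 (m 133 64 (q 134 10 o)))))))) e) e) (n (n (l (q 143 495 o)) e) e)) (n (n (n (l (q 141 163 (m 142 186 o))) e) e) e)) (n (n (n (n (l (m 139 1 (m 140 10 o))) e) e) e) e))) (n (n (n (n (n (n (l (m 119 34 (m 120 20 (q 121 3 (m 122 28 (m 123 11 (q 124 15 (m 125 35 (m 126 40 o))))))))) e) e) (n (n (l (m 143 247 o)) e) e)) (n (n (n (l (q 141 388 (m 142 417 o))) e) e) e)) (n (n e (n (n (l (q 143 540 o)) e) e)) e)) (n (n (n (n (n (l (q 135 109 (q 136 178 (q 137 84 (m 138 1 o))))) e) e) (n (n (l (q 143 581 o)) e) e)) e) (n (n (n (n (l (q 141 148 (m 142 217 o))) e) e) e) (n (n (n (l (m 143 331 o)) e) e) e))))))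
def r33 : Tb SV := (n (n (n (n (n (n (n (n (l (q 61 23 (m 62 13 (q 63 9 (q 64 17 (m 65 1 (m 66 1 (q 67 6 (m 68 3 (q 69 15 (m 70 11 (q 71 5 (m 72 2 (m 74 20 (q 75 13 (q 76 7 (m 77 5 (q 78 1 (m 79 5 (m 80 7 o)))))))))))))))))))) e) e) (n (n (l (q 143 447 o)) e) e)) (n (n (n (l (m 141 45 (q 142 26 o))) e) e) e)) (n (n (n (n (l (m 135 297 (m 136 431 (m 137 260 (m 138 16 o))))) e) e) (n (n (l (q 143 15 o)) e) e)) e)) (n (n (n (n (n (l (m 119 63 (m 120 22 (q 121 32 (m 122 16 (m 123 4 (q 124 74 (m 125 19 (m 126 20 o))))))))) e) e) (n (n (l (m 143 71 o)) e) e)) (n (n (n (l (m 141 4 (m 142 1 o))) e) e) e)) (n (n (n (n (l (q 139 1 (m 140 21 o))) e) e) (n (n (l (q 143 770 o)) e) e)) e))) (n (n (n (n (n (n (l (q 101 43 (m 102 20 (q 103 29 (m 104 21 (m 105 61 (q 106 49 (m 107 56 (q 108 24 (q 109 52 (q 110 33 (m 111 45 (q 112 1 (m 113 17 (m 114 9 (q 115 62 (q 116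 68 (q 117 4 (m 118 7 o))))))))))))))))))) e) e) (n (n (l (m 143 76 o)) e) e)) (n (n (n (l (q 141 28 (m 142 96 o))) e) e) e)) (n (n (n (n (l (q 135 74 (q 136 116 (q 137 130 (q 138 9 o))))) e) e) (n (n (l (q 143 213 o)) e) e)) e)) (n (n (n (n (n (l (m 128 51 (m 129 7 (q 130 45 (q 131 20 (m 132 22 (q 133 112 (m 134 5 o)))))))) e) e) (n (n (l (q 143 587 o)) e) e)) (n (n (n (l (m 141 204 (q 142 280 o))) e) e) e)) (n (n (n (n (l (q 139 7 (q 140 8 o))) e) e) e) e)))) (n (n (n (n (n (n (n (l (q 81 29 (m 82 11 (m 83 37 (m 84 11 (m 85 61 (m 86 40 (m 87 13 (m 88 39 (m 89 11 (m 90 19 (m 91 49 (q 92 2 (m 93 33 (m 94 7 o))))))))))))))) e) e) (n (n (l (m 143 433 o)) e) e)) (n (n (n (l (q 141 215 (m 142 336 o))) e) e) e)) (n (n (n (n (l (m 135 377 (m 136 516 (m 137 351 (m 138 62 o))))) e) e) (n (n (l (q 143 440 o)) e) e)) e)) (n (n (n (n (n (l (m 128 15 (q 129 5 (q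 130 60 (q 131 8 (m 132 7 (q 133 62 (m 134 11 o)))))))) e) e) (n (n (l (m 143 504 o)) e) e)) (n (n (n (l (m 141 157 (q 142 184 o))) e) e) e)) (n (n (n (n (l (q 139 2 (q 140 10 o))) e) e) e) e))) (n (n (n (n (n (n (l (q 119 34 (q 120 20 (m 121 3 (q 122 27 (q 123 11 (m 124 14 (q 125 34 (q 126 35 o))))))))) e) e) (n (n (l (q 143 251 o)) e) e)) (n (n (n (l (m 141 371 (q 142 413 o))) e) e) e)) (n (n e (n (n (l (m 143 553 o)) e) e)) e)) (n (n (n (n (n (l (m 135 113 (m 136 171 (m 137 77 (q 138 4 o))))) e) e) (n (n (l (m 143 596 o)) e) e)) e) (n (n (n (n (l (m 141 139 (q 142 214 o))) e) e) e) (n (n (n (l (q 143 339 o)) e) e) e))))))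
def r34 : Tb SV := (n (n (n (n (n (n (n (n (l (q 61 1 (q 62 3 (m 64 5 (m 66 3 (q 67 2 (m 69 5 (m 70 1 (m 72 4 (q 73 3 (m 75 1 (m 76 4 (m 78 2 (m 79 3 (m 80 1 o))))))))))))))) e) e) (n (n (l (m 143 49 o)) e) e)) (n (n (n (l (m 141 27 (q 142 26 o))) e) e) e)) (n (n (n (n (l (m 135 222 (m 136 291 (m 137 33 (q 138 76 o))))) e) e) (n (n (l (q 143 15 o)) e) e)) e)) (n (n (n (n (n (l (m 119 11 (q 120 26 (q 121 73 (q 122 17 (q 123 66 (q 124 22 (m 125 3 (q 126 40 o))))))))) e) e) (n (n (l (q 143 38 o)) e) e)) (n (n (n (l (m 141 5 (m 142 3 o))) e) e) e)) (n (n (n (n (l (q 139 78 (q 140 15 o))) e) e) (n (n (l (q 143 8 o)) e) e)) e))) (n (n (n (n (n (n (l (m 101 10 (q 102 3 (q 103 19 (q 104 6 (m 105 35 (q 106 35 (m 107 49 (q 108 50 (q 109 44 (q 110 11 (m 111 23 (m 112 8 (m 113 15 (m 114 8 (q 115 29 (q 116 39 (q 117 2 (q 118 3 o))))))))))))))))))) e) e) (n (n (l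 (q 143 72 o)) e) e)) (n (n (n (l (m 141 34 o)) e) e) e)) (n (n (n (n (l (q 135 95 (q 136 115 (q 137 20 (m 138 29 o))))) e) e) (n (n (l (q 143 33 o)) e) e)) e)) (n (n (n (n (n (l (m 128 30 (m 129 28 (q 130 24 (q 131 21 (q 132 7 (q 133 57 (m 134 15 o)))))))) e) e) (n (n (l (m 143 36 o)) e) e)) (n (n (n (l (m 141 6 (q 142 25 o))) e) e) e)) (n (n (n (n (l (m 139 89 (m 140 37 o))) e) e) e) e)))) (n (n (n (n (n (n (n (l (q 81 39 (q 82 7 (q 83 3 (q 84 11 (m 85 14 (q 86 1 (q 87 17 (q 88 4 (m 89 2 (q 90 3 (q 91 1 (q 92 2 (m 93 3 (m 94 1 o))))))))))))))) e) e) (n (n (l (q 143 52 o)) e) e)) (n (n (n (l (m 141 39 (m 142 16 o))) e) e) e)) (n (n (n (n (l (m 135 281 (m 136 355 (m 137 45 (q 138 89 o))))) e) e) (n (n (l (q 143 51 o)) e) e)) e)) (n (n (n (n (n (l (m 128 12 (m 129 3 (q 130 27 (q 131 3 (m 132 1 (q 133 38 (m 134 7 o)))))))) e) e) (n (n (l (m 143 43 o))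 e) e)) (n (n (n (l (m 141 22 (q 142 27 o))) e) e) e)) (n (n (n (n (l (m 139 42 (m 140 8 o))) e) e) e) e))) (n (n (n (n (n (n (l (q 119 9 (m 120 8 (m 121 26 (m 122 2 (m 123 17 (m 124 4 (q 125 4 (m 126 9 o))))))))) e) e) (n (n (l (q 143 52 o)) e) e)) (n (n (n (l (m 141 13 (q 142 47 o))) e) e) e)) (n (n e (n (n (l (q 143 15 o)) e) e)) e)) (n (n (n (n (n (l (m 135 74 (m 136 101 (m 137 7 (q 138 30 o))))) e) e) (n (n (l (q 143 25 o)) e) e)) e) (n (n (n (n (l (q 141 14 (q 142 21 o))) e) e) e) (n (n (n (l (m 143 14 o)) e) e) e))))))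
def r35 : Tb SV := (n (n (n (n (n (n (n (n (l (m 61 15 (q 62 13 (m 63 5 (m 64 16 (m 66 2 (m 67 3 (q 68 1 (m 69 14 (q 70 8 (m 71 4 (m 72 1 (q 73 2 (q 74 14 (m 75 10 (m 76 8 (q 77 3 (m 78 2 (q 79 1 (q 80 4 o)))))))))))))))))))) e) e) (n (n (l (m 143 363 o)) e) e)) (n (n (n (l (q 141 6 (q 142 10 o))) e) e) e)) (n (n (n (n (l (m 135 42 (m 136 6 (q 137 110 (q 138 72 o))))) e) e) (n (n (l (q 143 3 o)) e) e)) e)) (n (n (n (n (n (l (q 119 22 (q 120 46 (q 121 56 (q 122 5 (q 123 68 (m 124 38 (m 125 10 (q 126 50 o))))))))) e) e) (n (n (l (q 143 83 o)) e) e)) (n (n (n (l (m 141 3 (m 142 1 o))) e) e) e)) (n (n (n (n (l (q 139 78 (q 140 51 o))) e) e) (n (n (l (m 143 547 o)) e) e)) e))) (n (n (n (n (n (n (l (m 101 42 (q 102 17 (m 103 9 (q 104 12 (q 105 19 (m 106 5 (q 107 2 (q 108 18 (m 109 5 (q 111 10 (m 112 6 (q 113 4 (m 115 5 (m 116 17 (q 117 5 (q 118 7 o)))))))))))))))))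 e) e) (n (n (l (q 143 115 o)) e) e)) (n (n (n (l (m 141 65 (q 142 67 o))) e) e) e)) (n (n (n (n (l (q 135 58 (q 136 34 (m 137 56 (m 138 31 o))))) e) e) (n (n (l (m 143 128 o)) e) e)) e)) (n (n (n (n (n (l (q 128 8 (m 129 21 (m 130 5 (q 131 11 (q 132 24 (m 133 26 (m 134 10 o)))))))) e) e) (n (n (l (m 143 451 o)) e) e)) (n (n (n (l (q 141 160 (m 142 150 o))) e) e) e)) (n (n (n (n (l (m 139 99 (m 140 65 o))) e) e) e) e)))) (n (n (n (n (n (n (n (l (q 81 16 (q 82 13 (q 83 27 (q 84 18 (q 85 24 (q 86 23 (q 87 22 (q 88 28 (q 89 1 (q 90 8 (q 91 28 (m 92 4 (q 93 13 (q 94 4 o))))))))))))))) e) e) (n (n (l (q 143 354 o)) e) e)) (n (n (n (l (m 141 227 (q 142 209 o))) e) e) e)) (n (n (n (n (l (m 135 54 (m 136 17 (q 137 154 (q 138 115 o))))) e) e) (n (n (l (m 143 270 o)) e) e)) e)) (n (n (n (n (n (l (q 128 5 (m 129 3 (m 130 7 (q 131 4 (q 132 3 (m 133 12 (q 134 3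 o)))))))) e) e) (n (n (l (q 143 324 o)) e) e)) (n (n (n (l (q 141 98 (m 142 93 o))) e) e) e)) (n (n (n (n (l (m 139 45 (m 140 26 o))) e) e) e) e))) (n (n (n (n (n (n (l (m 119 12 (m 120 23 (m 121 24 (m 122 12 (m 123 22 (q 124 8 (m 125 13 (m 126 32 o))))))))) e) e) (n (n (l (m 143 132 o)) e) e)) (n (n (n (l (q 141 285 (m 142 223 o))) e) e) e)) (n (n e (n (n (l (q 143 405 o)) e) e)) e)) (n (n (n (n (n (l (m 135 5 (q 136 11 (q 137 31 (q 138 19 o))))) e) e) (n (n (l (q 143 448 o)) e) e)) e) (n (n (n (n (l (q 141 132 (m 142 120 o))) e) e) e) (n (n (n (l (m 143 253 o)) e) e) e))))))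
def r36 : Tb SV := (n (n (n (n (n (n (n (n (l (q 61 5 (m 62 2 (q 63 3 (q 64 4 (q 67 1 (m 68 1 (q 69 4 (m 70 2 (q 71 1 (m 73 1 (m 74 5 (q 75 4 (q 76 2 (m 77 1 (q 78 1 (m 79 1 (m 80 2 o)))))))))))))))))) e) e) (n (n (l (q 143 143 o)) e) e)) (n (n (n (l (m 141 9 (q 142 20 o))) e) e) e)) (n (n (n (n (l (m 135 86 (m 136 129 (m 137 82 (q 138 24 o))))) e) e) (n (n (l (q 143 1 o)) e) e)) e)) (n (n (n (n (n (l (m 119 52 (q 120 3 (q 121 26 (m 122 48 (m 123 9 (m 124 4 (m 125 35 (m 126 11 o))))))))) e) e) (n (n (l (m 143 29 o)) e) e)) (n (n (n (l (m 141 1 (q 142 3 o))) e) e) e)) (n (n (n (n (l (m 139 2 (m 140 2 o))) e) e) (n (n (l (q 143 217 o)) e) e)) e))) (n (n (n (n (n (n (l (q 101 13 (m 102 9 (m 103 3 (m 104 20 (m 105 4 (q 106 5 (q 107 2 (m 108 18 (m 109 4 (q 110 26 (m 111 14 (q 112 1 (q 113 3 (m 114 1 (q 115 31 (q 116 11 (m 118 1 o)))))))))))))))))) e) e)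 (n (n (l (m 143 45 o)) e) e)) (n (n (n (l (m 141 7 (m 142 22 o))) e) e) e)) (n (n (n (n (l (q 135 25 (q 136 27 (q 137 35 (m 138 14 o))))) e) e) (n (n (l (q 143 49 o)) e) e)) e)) (n (n (n (n (n (l (m 128 11 (q 129 1 (q 130 18 (m 131 1 (m 132 5 (q 133 25 (q 134 2 o)))))))) e) e) (n (n (l (q 143 178 o)) e) e)) (n (n (n (l (m 141 17 (q 142 131 o))) e) e) e)) (n (n (n (n (l (q 139 2 (q 140 1 o))) e) e) e) e)))) (n (n (n (n (n (n (n (l (q 81 3 (m 82 6 (m 83 13 (m 84 6 (m 85 26 (m 86 20 (m 87 8 (m 88 12 (m 89 15 (m 90 19 (m 91 25 (m 92 11 (m 93 20 (m 94 1 o))))))))))))))) e) e) (n (n (l (m 143 142 o)) e) e)) (n (n (n (l (q 141 5 (m 142 122 o))) e) e) e)) (n (n (n (n (l (m 135 112 (m 136 159 (m 137 108 (q 138 19 o))))) e) e) (n (n (l (q 143 116 o)) e) e)) e)) (n (n (n (n (n (l (q 128 2 (q 129 3 (q 130 28 (q 131 3 (q 133 12 (m 134 1 o))))))) e) e) (n (n (l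 (m 143 137 o)) e) e)) (n (n (n (l (m 141 21 (q 142 84 o))) e) e) e)) e)) (n (n (n (n (n (n (l (q 119 18 (q 120 5 (m 121 3 (q 122 23 (q 123 10 (q 124 5 (q 125 19 (q 126 10 o))))))))) e) e) (n (n (l (q 143 64 o)) e) e)) (n (n (n (l (m 141 39 (q 142 190 o))) e) e) e)) (n (n e (n (n (l (m 143 172 o)) e) e)) e)) (n (n (n (n (n (l (m 135 33 (m 136 53 (m 137 29 (q 138 7 o))))) e) e) (n (n (l (m 143 178 o)) e) e)) e) (n (n (n (n (l (m 141 7 (q 142 89 o))) e) e) e) (n (n (n (l (q 143 108 o)) e) e) e))))))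
def r37 : Tb SV := (n (n (n (n (n (n (n (n (l (q 61 30 (m 62 22 (q 63 11 (q 64 29 (q 66 2 (q 67 6 (m 68 3 (q 69 25 (m 70 14 (q 71 7 (q 72 1 (m 73 4 (m 74 26 (q 75 18 (q 76 12 (m 77 6 (q 78 3 (m 79 3 (m 80 9 o)))))))))))))))))))) e) e) (n (n (l (q 143 638 o)) e) e)) (n (n (n (l (m 141 14 (q 142 9 o))) e) e) e)) (n (n (n (n (l (m 135 74 (m 136 244 (m 137 249 (m 138 51 o))))) e) e) (n (n (l (q 143 1 o)) e) e)) e)) (n (n (n (n (n (l (m 119 41 (m 120 62 (m 121 53 (m 122 17 (m 123 79 (q 124 81 (m 125 2 (m 126 75 o))))))))) e) e) (n (n (l (m 143 140 o)) e) e)) (n (n (n (l (q 141 2 (q 142 1 o))) e) e) e)) (n (n (n (n (l (m 139 94 (m 140 62 o))) e) e) (n (n (l (q 143 1003 o)) e) e)) e))) (n (n (n (n (n (n (l (q 101 66 (m 102 29 (q 103 18 (m 104 19 (m 105 49 (q 106 26 (m 107 22 (m 108 18 (q 109 26 (q 110 9 (m 111 30 (q 112 12 (m 113 11 (m 114 8 (q 115 28 (q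 116 47 (m 117 2 (m 118 14 o))))))))))))))))))) e) e) (n (n (l (m 143 170 o)) e) e)) (n (n (n (l (q 141 93 (m 142 118 o))) e) e) e)) (n (n (n (n (l (m 135 43 (q 136 34 (q 137 125 (q 138 20 o))))) e) e) (n (n (l (q 143 247 o)) e) e)) e)) (n (n (n (n (n (l (m 128 33 (q 129 27 (q 130 17 (q 131 1 (m 132 38 (q 133 79 (q 134 6 o)))))))) e) e) (n (n (l (q 143 813 o)) e) e)) (n (n (n (l (m 141 266 (q 142 309 o))) e) e) e)) (n (n (n (n (l (q 139 120 (q 140 69 o))) e) e) e) e)))) (n (n (n (n (n (n (n (l (m 81 1 (m 82 19 (m 83 48 (m 84 27 (m 85 58 (m 86 48 (m 87 36 (m 88 60 (m 89 9 (m 90 27 (m 91 58 (q 92 2 (m 93 38 (m 94 8 o))))))))))))))) e) e) (n (n (l (m 143 622 o)) e) e)) (n (n (n (l (q 141 354 (m 142 397 o))) e) e) e)) (n (n (n (n (l (m 135 95 (m 136 283 (m 137 341 (m 138 112 o))))) e) e) (n (n (l (q 143 527 o)) e) e)) e)) (n (n (n (n (n (l (m 128 11 (q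 129 10 (q 130 30 (m 132 10 (q 133 39 (m 134 12 o))))))) e) e) (n (n (l (m 143 615 o)) e) e)) (n (n (n (l (m 141 176 (q 142 198 o))) e) e) e)) (n (n (n (n (l (q 139 55 (q 140 32 o))) e) e) e) e))) (n (n (n (n (n (n (l (q 119 26 (q 120 37 (q 121 29 (q 122 28 (q 123 32 (m 124 18 (q 125 32 (q 126 59 o))))))))) e) e) (n (n (l (q 143 272 o)) e) e)) (n (n (n (l (m 141 475 (q 142 462 o))) e) e) e)) (n (n e (n (n (l (m 143 733 o)) e) e)) e)) (n (n (n (n (n (l (m 135 43 (m 136 111 (m 137 73 (m 138 8 o))))) e) e) (n (n (l (m 143 812 o)) e) e)) e) (n (n (n (n (l (m 141 206 (q 142 242 o))) e) e) e) (n (n (n (l (q 143 453 o)) e) e) e))))))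
def r38 : Tb SV := (n (n (n (n (n (n (n (n (l (m 61 33 (q 62 21 (m 63 13 (m 64 25 (q 66 1 (m 67 7 (q 68 4 (m 69 22 (q 70 16 (m 71 6 (q 72 2 (q 73 1 (q 74 28 (m 75 19 (m 76 9 (q 77 7 (m 78 1 (q 79 6 (q 80 10 o)))))))))))))))))))) e) e) (n (n (l (m 143 662 o)) e) e)) (n (n (n (l (q 141 41 (m 142 32 o))) e) e) e)) (n (n (n (n (l (q 135 255 (q 136 519 (q 137 358 (q 138 17 o))))) e) e) (n (n (l (m 143 12 o)) e) e)) e)) (n (n (n (n (n (l (q 119 97 (q 120 42 (m 121 14 (q 122 45 (q 123 40 (m 124 87 (q 125 37 (q 126 66 o))))))))) e) e) (n (n (l (q 143 126 o)) e) e)) (n (n (n (l (q 141 2 (m 142 2 o))) e) e) e)) (n (n (n (n (l (q 139 49 (q 140 20 o))) e) e) (n (n (l (m 143 1073 o)) e) e)) e))) (n (n (n (n (n (n (l (m 101 62 (q 102 33 (m 103 26 (q 104 37 (q 105 71 (m 106 45 (q 107 45 (q 108 7 (m 109 42 (m 110 39 (q 111 53 (m 112 7 (q 113 14 (q 114 7 (m 115 71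 (m 116 73 (m 117 11 (q 118 11 o))))))))))))))))))) e) e) (n (n (l (q 143 161 o)) e) e)) (n (n (n (l (m 141 73 (q 142 130 o))) e) e) e)) (n (n (n (n (l (m 135 23 (m 136 128 (m 137 175 (m 138 5 o))))) e) e) (n (n (l (m 143 270 o)) e) e)) e)) (n (n (n (n (n (l (q 128 53 (m 129 6 (m 130 49 (m 131 23 (q 132 37 (m 133 125 (m 134 4 o)))))))) e) e) (n (n (l (m 143 845 o)) e) e)) (n (n (n (l (q 141 301 (m 142 404 o))) e) e) e)) (n (n (n (n (l (m 139 69 (m 140 12 o))) e) e) e) e)))) (n (n (n (n (n (n (n (l (m 81 21 (q 82 20 (q 83 55 (q 84 24 (q 85 84 (q 86 61 (q 87 31 (q 88 70 (q 89 19 (q 90 37 (q 91 74 (q 92 3 (q 93 52 (q 94 9 o))))))))))))))) e) e) (n (n (l (q 143 646 o)) e) e)) (n (n (n (l (m 141 359 (q 142 476 o))) e) e) e)) (n (n (n (n (l (q 135 326 (q 136 624 (q 137 483 (q 138 78 o))))) e) e) (n (n (l (m 143 576 o)) e) e)) e)) (n (n (n (n (n (l (q 128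 14 (m 129 10 (m 130 68 (m 131 17 (q 132 8 (m 133 67 (q 134 10 o)))))))) e) e) (n (n (l (q 143 676 o)) e) e)) (n (n (n (l (q 141 219 (m 142 260 o))) e) e) e)) (n (n (n (n (l (m 139 29 (m 140 9 o))) e) e) e) e))) (n (n (n (n (n (n (l (m 119 45 (m 120 33 (m 121 11 (m 122 46 (m 123 26 (q 124 14 (m 125 52 (m 126 63 o))))))))) e) e) (n (n (l (m 143 313 o)) e) e)) (n (n (n (l (q 141 547 (m 142 595 o))) e) e) e)) (n (n e (n (n (l (q 143 791 o)) e) e)) e)) (n (n (n (n (n (l (q 135 108 (q 136 211 (q 137 109 (m 138 4 o))))) e) e) (n (n (l (q 143 850 o)) e) e)) e) (n (n (n (n (l (q 141 219 (m 142 305 o))) e) e) e) (n (n (n (l (m 143 486 o)) e) e) e))))))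
def r39 : Tb SV := (n (n (n (n (n (n (n (n (l (q 61 35 (m 62 22 (q 63 14 (q 64 28 (q 65 1 (m 66 1 (q 67 7 (m 68 4 (q 69 23 (m 70 15 (q 71 6 (m 72 1 (m 73 2 (m 74 28 (q 75 19 (q 76 9 (m 77 7 (q 78 2 (m 79 6 (m 80 12 o))))))))))))))))))))) e) e) (n (n (l (q 143 654 o)) e) e)) (n (n (n (l (m 141 30 (q 142 31 o))) e) e) e)) (n (n (n (n (l (m 135 229 (m 136 562 (m 137 388 (m 138 17 o))))) e) e) (n (n (l (q 143 12 o)) e) e)) e)) (n (n (n (n (n (l (m 119 94 (m 120 38 (q 121 18 (m 122 49 (m 123 35 (q 124 92 (m 125 42 (m 126 84 o))))))))) e) e) (n (n (l (m 143 130 o)) e) e)) (n (n (n (l (m 141 2 (q 142 2 o))) e) e) e)) (n (n (n (n (l (m 139 47 (m 140 20 o))) e) e) (n (n (l (q 143 1060 o)) e) e)) e))) (n (n (n (n (n (n (l (q 101 58 (m 102 31 (q 103 20 (m 104 40 (m 105 74 (q 106 45 (m 107 45 (m 108 8 (q 109 42 (q 110 35 (m 111 50 (q 112 11 (m 113 10 (m 114 7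 (q 115 68 (q 116 71 (q 117 9 (m 118 12 o))))))))))))))))))) e) e) (n (n (l (m 143 153 o)) e) e)) (n (n (n (l (q 141 85 (m 142 133 o))) e) e) e)) (n (n (n (n (l (q 135 6 (q 136 143 (q 137 188 (q 138 4 o))))) e) e) (n (n (l (q 143 264 o)) e) e)) e)) (n (n (n (n (n (l (m 128 52 (q 129 10 (q 130 45 (q 131 24 (m 132 37 (q 133 126 (q 134 4 o)))))))) e) e) (n (n (l (q 143 839 o)) e) e)) (n (n (n (l (m 141 309 (q 142 410 o))) e) e) e)) (n (n (n (n (l (q 139 66 (q 140 9 o))) e) e) e) e)))) (n (n (n (n (n (n (n (l (q 81 27 (m 82 18 (m 83 55 (m 84 24 (m 85 86 (m 86 64 (m 87 34 (m 88 82 (m 89 20 (m 90 42 (m 91 77 (m 92 4 (m 93 57 (m 94 9 o))))))))))))))) e) e) (n (n (l (m 143 638 o)) e) e)) (n (n (n (l (q 141 379 (m 142 482 o))) e) e) e)) (n (n (n (n (l (m 135 296 (m 136 677 (m 137 519 (m 138 78 o))))) e) e) (n (n (l (q 143 575 o)) e) e)) e)) (n (n (n (n (n (l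 (m 128 10 (q 129 14 (q 130 65 (q 131 15 (m 132 9 (q 133 65 (m 134 10 o)))))))) e) e) (n (n (l (m 143 670 o)) e) e)) (n (n (n (l (m 141 222 (q 142 261 o))) e) e) e)) (n (n (n (n (l (q 139 28 (q 140 9 o))) e) e) e) e))) (n (n (n (n (n (n (l (q 119 44 (q 120 33 (q 121 11 (q 122 48 (q 123 26 (m 124 16 (q 125 54 (q 126 72 o))))))))) e) e) (n (n (l (q 143 311 o)) e) e)) (n (n (n (l (m 141 556 (q 142 598 o))) e) e) e)) (n (n e (n (n (l (m 143 779 o)) e) e)) e)) (n (n (n (n (n (l (m 135 101 (m 136 227 (m 137 120 (q 138 3 o))))) e) e) (n (n (l (m 143 844 o)) e) e)) e) (n (n (n (n (l (m 141 225 (q 142 308 o))) e) e) e) (n (n (n (l (q 143 476 o)) e) e) e))))))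
def r40 : Tb SV := (n (n (n (n (n (n (n (n (l (m 61 1 (q 62 2 (m 64 2 (m 65 1 (q 66 1 (m 69 1 (m 70 1 (m 72 1 (q 73 1 (q 76 1 (m 78 1 (q 80 1 o))))))))))))) e) e) (n (n (l (m 143 7 o)) e) e)) (n (n (n (l (m 141 9 (m 142 3 o))) e) e) e)) (n (n (n (n (l (m 135 16 (q 136 50 (q 137 35 (q 138 5 o))))) e) e) e) e)) (n (n (n (n (n (l (m 119 9 (m 120 12 (m 121 10 (q 122 5 (m 123 12 (m 124 5 (q 125 5 (q 126 10 o))))))))) e) e) (n (n (l (q 143 5 o)) e) e)) e) (n (n (n (n (l (m 139 6 (m 140 6 o))) e) e) (n (n (l (m 143 11 o)) e) e)) e))) (n (n (n (n (n (n (l (q 101 5 (m 102 2 (q 103 3 (q 104 4 (q 105 1 (m 106 1 (q 107 3 (m 108 1 (m 109 3 (q 110 5 (m 111 3 (m 112 6 (m 113 3 (q 115 3 (q 116 1 (m 117 1 (m 118 1 o)))))))))))))))))) e) e) (n (n (l (m 143 5 o)) e) e)) (n (n (n (l (m 141 9 (q 142 2 o))) e) e) e)) (n (n (n (n (l (q 135 11 (m 136 19 (m 137 15 (m 138 1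 o))))) e) e) (n (n (l (m 143 4 o)) e) e)) e)) (n (n (n (n (n (l (q 128 1 (m 129 6 (q 130 3 (m 131 5 (m 132 1 (m 133 3 o))))))) e) e) (n (n (l (m 143 12 o)) e) e)) (n (n (n (l (q 141 8 (m 142 9 o))) e) e) e)) (n (n (n (n (l (q 139 6 (q 140 10 o))) e) e) e) e)))) (n (n (n (n (n (n (n (l (m 81 7 (m 82 2 (m 83 3 (m 84 3 (q 85 2 (q 86 1 (q 87 1 (q 88 9 (q 89 2 (q 90 6 (q 91 1 (q 92 2 (q 93 6 o)))))))))))))) e) e) (n (n (l (q 143 7 o)) e) e)) (n (n (n (l (m 141 17 (q 142 7 o))) e) e) e)) (n (n (n (n (l (m 135 19 (q 136 61 (q 137 42 (q 138 6 o))))) e) e) (n (n (l (m 143 13 o)) e) e)) e)) (n (n (n (n (n (l (m 128 3 (m 129 6 (q 130 3 (m 131 1 (m 132 1 (q 133 1 o))))))) e) e) (n (n (l (q 143 13 o)) e) e)) (n (n (n (l (q 141 5 (m 142 3 o))) e) e) e)) (n (n (n (n (l (q 139 3 (q 140 3 o))) e) e) e) e))) (n (n (n (n (n (n (l (q 119 2 (q 120 3 (q 121 3 (m 122 2 (q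 123 3 (q 124 2 (m 125 2 (m 126 5 o))))))))) e) e) (n (n (l (m 143 9 o)) e) e)) (n (n (n (l (q 141 11 (m 142 8 o))) e) e) e)) (n (n e (n (n (l (q 143 8 o)) e) e)) e)) (n (n (n (n (n (l (m 135 4 (q 136 18 (q 137 13 (q 138 3 o))))) e) e) (n (n (l (q 143 12 o)) e) e)) e) (n (n (n (n (l (q 141 6 (m 142 5 o))) e) e) e) (n (n (n (l (m 143 4 o)) e) e) e))))))
def r41 : Tb SV := (n (n (n (n (n (n (n (n (l (m 61 26 (q 62 18 (m 63 11 (m 64 24 (m 66 2 (m 67 4 (q 68 2 (m 69 20 (q 70 12 (m 71 5 (m 72 1 (q 73 3 (q 74 21 (m 75 14 (m 76 9 (q 77 6 (m 78 2 (q 79 3 (q 80 7 o)))))))))))))))))))) e) e) (n (n (l (m 143 527 o)) e) e)) (n (n (n (l (m 141 2 (m 142 4 o))) e) e) e)) (n (n (n (n (l (m 135 38 (q 136 198 (q 137 282 (q 138 107 o))))) e) e) (n (n (l (m 143 1 o)) e) e)) e)) (n (n (n (n (n (l (q 119 53 (q 120 49 (q 121 41 (q 122 21 (q 123 68 (m 124 71 (q 125 6 (q 126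 96 o))))))))) e) e) (n (n (l (q 143 126 o)) e) e)) (n (n (n (l (m 141 2 (m 142 2 o))) e) e) e)) (n (n (n (n (l (q 139 97 (q 140 19 o))) e) e) (n (n (l (m 143 802 o)) e) e)) e))) (n (n (n (n (n (n (l (m 101 58 (q 102 27 (m 103 10 (q 104 26 (q 105 32 (m 106 8 (q 107 4 (q 108 36 (m 109 5 (m 110 14 (q 111 24 (m 112 12 (q 113 8 (m 115 23 (m 116 33 (m 117 7 (q 118 9 o)))))))))))))))))) e) e) (n (n (l (q 143 155 o)) e) e)) (n (n (n (l (m 141 124 (q 142 107 o))) e) e) e)) (n (n (n (n (l (q 135 94 (m 136 30 (m 137 137 (m 138 44 o))))) e) e) (n (n (l (m 143 182 o)) e) e)) e)) (n (n (n (n (n (l (q 128 26 (m 129 27 (m 130 12 (m 131 6 (q 132 33 (m 133 61 (m 134 14 o)))))))) e) e) (n (n (l (m 143 661 o)) e) e)) (n (n (n (l (q 141 304 (m 142 282 o))) e) e) e)) (n (n (n (n (l (m 139 123 (m 140 28 o))) e) e) e) e)))) (n (n (n (n (n (n (n (l (q 81 9 (q 82 21 (q 83 41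 (q 84 24 (q 85 55 (q 86 43 (q 87 32 (q 88 65 (q 89 8 (q 90 24 (q 91 52 (m 92 1 (q 93 32 (q 94 7 o))))))))))))))) e) e) (n (n (l (q 143 515 o)) e) e)) (n (n (n (l (m 141 423 (q 142 359 o))) e) e) e)) (n (n (n (n (l (m 135 46 (q 136 234 (q 137 379 (q 138 175 o))))) e) e) (n (n (l (m 143 402 o)) e) e)) e)) (n (n (n (n (n (l (q 128 9 (m 129 10 (m 130 24 (m 131 10 (q 132 4 (m 133 26 (q 134 4 o)))))))) e) e) (n (n (l (q 143 484 o)) e) e)) (n (n (n (l (q 141 194 (m 142 175 o))) e) e) e)) (n (n (n (n (l (m 139 56 (m 140 9 o))) e) e) e) e))) (n (n (n (n (n (n (l (m 119 28 (m 120 29 (m 121 24 (m 122 29 (m 123 26 (q 124 14 (m 125 32 (m 126 64 o))))))))) e) e) (n (n (l (m 143 202 o)) e) e)) (n (n (n (l (q 141 528 (m 142 410 o))) e) e) e)) (n (n e (n (n (l (q 143 596 o)) e) e)) e)) (n (n (n (n (n (l (q 135 7 (q 136 90 (q 137 87 (q 138 30 o))))) e) e) (n (n (l (q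 143 658 o)) e) e)) e) (n (n (n (n (l (q 141 240 (m 142 217 o))) e) e) e) (n (n (n (l (m 143 365 o)) e) e) e))))))
def r42 : Tb SV := (n (n (n (n (n (n (n (n (l (m 61 15 (q 62 11 (m 63 6 (m 64 15 (m 65 1 (m 67 3 (q 68 1 (m 69 12 (q 70 6 (m 71 3 (m 72 2 (q 73 2 (q 74 12 (m 75 8 (m 76 6 (q 77 3 (m 78 2 (q 79 1 (q 80 4 o)))))))))))))))))))) e) e) (n (n (l (m 143 269 o)) e) e)) (n (n (n (l (q 141 8 (q 142 2 o))) e) e) e)) (n (n (n (n (l (m 135 22 (q 136 87 (q 137 107 (q 138 28 o))))) e) e) e) e)) (n (n (n (n (n (l (q 119 9 (q 120 32 (q 121 34 (m 122 4 (q 123 32 (m 124 39 (m 125 3 (q 126 36 o))))))))) e) e) (n (n (l (q 143 63 o)) e) e)) (n (n (n (l (m 141 2 o)) e) e) e)) (n (n (n (n (l (q 139 56 (q 140 24 o))) e) e) (n (n (l (m 143 414 o)) e) e)) e))) (n (n (n (n (n (n (l (m 101 28 (q 102 11 (m 103 10 (q 104 5 (q 105 26 (m 106 11 (q 107 16 (m 109 17 (q 110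 5 (q 111 10 (m 112 8 (q 113 7 (q 114 3 (m 115 3 (m 116 22 (m 117 3 (q 118 11 o)))))))))))))))))) e) e) (n (n (l (q 143 81 o)) e) e)) (n (n (n (l (m 141 51 (q 142 46 o))) e) e) e)) (n (n (n (n (l (q 135 49 (m 136 11 (m 137 55 (m 138 10 o))))) e) e) (n (n (l (m 143 92 o)) e) e)) e)) (n (n (n (n (n (l (q 128 11 (m 129 14 (m 130 3 (m 131 4 (q 132 22 (m 133 32 (m 134 4 o)))))))) e) e) (n (n (l (m 143 339 o)) e) e)) (n (n (n (l (q 141 135 (m 142 103 o))) e) e) e)) (n (n (n (n (l (m 139 70 (m 140 28 o))) e) e) e) e)))) (n (n (n (n (n (n (n (l (q 81 2 (q 82 9 (q 83 24 (q 84 12 (q 85 21 (q 86 18 (q 87 15 (q 88 32 (m 89 3 (q 90 5 (q 91 21 (m 92 8 (q 93 12 (q 94 5 o))))))))))))))) e) e) (n (n (l (q 143 261 o)) e) e)) (n (n (n (l (m 141 187 (q 142 145 o))) e) e) e)) (n (n (n (n (l (m 135 27 (q 136 100 (q 137 147 (q 138 55 o))))) e) e) (n (n (l (m 143 207 o)) e)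 e)) e)) (n (n (n (n (n (l (q 128 7 (m 129 6 (m 130 5 (m 131 3 (q 132 9 (m 133 18 (q 134 5 o)))))))) e) e) (n (n (l (q 143 239 o)) e) e)) (n (n (n (l (q 141 85 (m 142 64 o))) e) e) e)) (n (n (n (n (l (m 139 33 (m 140 13 o))) e) e) e) e))) (n (n (n (n (n (n (l (m 119 8 (m 120 17 (m 121 16 (m 122 8 (m 123 11 (q 124 10 (m 125 13 (m 126 29 o))))))))) e) e) (n (n (l (m 143 97 o)) e) e)) (n (n (n (l (q 141 240 (m 142 154 o))) e) e) e)) (n (n e (n (n (l (q 143 299 o)) e) e)) e)) (n (n (n (n (n (l (q 135 1 (q 136 40 (q 137 30 (q 138 5 o))))) e) e) (n (n (l (q 143 337 o)) e) e)) e) (n (n (n (n (l (q 141 107 (m 142 85 o))) e) e) e) (n (n (n (l (m 143 184 o)) e) e) e))))))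
def r43 : Tb SV := (n (n (n (n (n (n (n (n (l (q 61 29 (m 62 18 (q 63 9 (q 64 21 (q 65 1 (m 66 1 (q 67 7 (m 68 2 (q 69 16 (m 70 14 (q 71 5 (m 72 3 (m 74 24 (q 75 16 (q 76 7 (m 77 5 (q 78 1 (m 79 6 (m 80 9 o)))))))))))))))))))) e) e) (n (n (l (q 143 548 o)) e) e)) (n (n (n (l (m 141 65 (q 142 18 o))) e) e) e)) (n (n (n (n (l (m 135 293 (m 136 382 (m 137 280 (m 138 60 o))))) e) e) (n (n (l (q 143 16 o)) e) e)) e)) (n (n (n (n (n (l (m 119 52 (m 120 40 (q 121 9 (q 122 5 (m 123 18 (q 124 94 (m 125 3 (m 126 10 o))))))))) e) e) (n (n (l (m 143 82 o)) e) e)) (n (n (n (l (m 141 4 (m 142 2 o))) e) e) e)) (n (n (n (n (l (m 139 22 (m 140 37 o))) e) e) (n (n (l (q 143 933 o)) e) e)) e))) (n (n (n (n (n (n (l (q 101 49 (m 102 23 (q 103 42 (m 104 17 (m 105 77 (q 106 54 (m 107 70 (q 108 35 (q 109 67 (q 110 25 (m 111 46 (q 112 7 (m 113 23 (m 114 9 (q 115 59 (q 116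 78 (q 117 3 (m 118 13 o))))))))))))))))))) e) e) (n (n (l (m 143 108 o)) e) e)) (n (n (n (l (q 141 40 (m 142 117 o))) e) e) e)) (n (n (n (n (l (q 135 63 (q 136 89 (q 137 145 (q 138 31 o))))) e) e) (n (n (l (q 143 257 o)) e) e)) e)) (n (n (n (n (n (l (m 128 57 (q 129 2 (q 130 44 (q 131 20 (m 132 32 (q 133 125 (m 134 4 o)))))))) e) e) (n (n (l (q 143 708 o)) e) e)) (n (n (n (l (m 141 274 (q 142 298 o))) e) e) e)) (n (n (n (n (l (q 139 37 (q 140 26 o))) e) e) e) e)))) (n (n (n (n (n (n (n (l (q 81 24 (m 82 14 (m 83 43 (m 84 13 (m 85 63 (m 86 42 (m 87 17 (m 88 39 (m 89 6 (m 90 13 (m 91 52 (q 92 9 (m 93 31 (m 94 9 o))))))))))))))) e) e) (n (n (l (m 143 528 o)) e) e)) (n (n (n (l (q 141 295 (m 142 380 o))) e) e) e)) (n (n (n (n (l (m 135 369 (m 136 451 (m 137 382 (m 138 124 o))))) e) e) (n (n (l (q 143 517 o)) e) e)) e)) (n (n (n (n (n (l (m 128 21 (q 129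 10 (q 130 58 (q 131 7 (m 132 12 (q 133 70 (m 134 12 o)))))))) e) e) (n (n (l (m 143 596 o)) e) e)) (n (n (n (l (m 141 202 (q 142 195 o))) e) e) e)) (n (n (n (n (l (q 139 16 (q 140 18 o))) e) e) e) e))) (n (n (n (n (n (n (l (q 119 33 (q 120 27 (q 121 4 (q 122 23 (q 123 13 (m 124 19 (q 125 34 (q 126 35 o))))))))) e) e) (n (n (l (q 143 289 o)) e) e)) (n (n (n (l (m 141 495 (q 142 438 o))) e) e) e)) (n (n e (n (n (l (m 143 668 o)) e) e)) e)) (n (n (n (n (n (l (m 135 112 (m 136 156 (m 137 79 (m 138 7 o))))) e) e) (n (n (l (m 143 719 o)) e) e)) e) (n (n (n (n (l (m 141 193 (q 142 233 o))) e) e) e) (n (n (n (l (q 143 414 o)) e) e) e))))))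
def r44 : Tb SV := (n (n (n (n (n (n (n (n (l (m 61 42 (q 62 26 (m 63 16 (m 64 33 (m 65 1 (q 66 1 (m 67 10 (q 68 3 (m 69 26 (q 70 19 (m 71 8 (q 72 1 (q 73 2 (q 74 33 (m 75 22 (m 76 10 (q 77 8 (m 78 2 (q 79 7 (q 80 13 o))))))))))))))))))))) e) e) (n (n (l (m 143 783 o)) e) e)) (n (n (n (l (q 141 52 (m 142 35 o))) e) e) e)) (n (n (n (n (l (q 135 269 (q 136 598 (q 137 407 (q 138 23 o))))) e) e) (n (n (l (m 143 15 o)) e) e)) e)) (n (n (n (n (n (l (q 119 77 (q 120 58 (q 121 3 (q 122 18 (q 123 39 (m 124 121 (q 125 24 (q 126 63 o))))))))) e) e) (n (n (l (q 143 148 o)) e) e)) (n (n (n (l (q 141 2 o)) e) e) e)) (n (n (n (n (l (q 139 73 (q 140 27 o))) e) e) (n (n (l (m 143 1284 o)) e) e)) e))) (n (n (n (n (n (n (l (m 101 68 (q 102 36 (m 103 40 (q 104 29 (q 105 96 (m 106 56 (q 107 67 (m 108 9 (m 109 65 (m 110 29 (q 111 57 (m 112 16 (q 113 24 (q 114 11 (m 115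 68 (m 116 90 (m 117 11 (q 118 21 o))))))))))))))))))) e) e) (n (n (l (q 143 184 o)) e) e)) (n (n (n (l (m 141 98 (q 142 148 o))) e) e) e)) (n (n (n (n (l (m 135 9 (m 136 152 (m 137 205 (m 138 9 o))))) e) e) (n (n (l (m 143 327 o)) e) e)) e)) (n (n (n (n (n (l (q 128 65 (m 129 15 (m 130 48 (m 131 31 (q 132 50 (m 133 149 (m 134 1 o)))))))) e) e) (n (n (l (m 143 1005 o)) e) e)) (n (n (n (l (q 141 391 (m 142 424 o))) e) e) e)) (n (n (n (n (l (m 139 99 (m 140 14 o))) e) e) e) e)))) (n (n (n (n (n (n (n (l (m 81 27 (q 82 21 (q 83 63 (q 84 27 (q 85 91 (q 86 66 (q 87 37 (q 88 84 (q 89 13 (q 90 36 (q 91 79 (m 92 5 (q 93 56 (q 94 12 o))))))))))))))) e) e) (n (n (l (q 143 761 o)) e) e)) (n (n (n (l (m 141 472 (q 142 521 o))) e) e) e)) (n (n (n (n (l (q 135 342 (q 136 716 (q 137 551 (q 138 95 o))))) e) e) (n (n (l (m 143 688 o)) e) e)) e)) (n (n (n (n (n (l (q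 128 23 (m 129 18 (m 130 67 (m 131 16 (q 132 18 (m 133 81 (q 134 15 o)))))))) e) e) (n (n (l (q 143 800 o)) e) e)) (n (n (n (l (q 141 278 (m 142 275 o))) e) e) e)) (n (n (n (n (l (m 139 44 (m 140 13 o))) e) e) e) e))) (n (n (n (n (n (n (l (m 119 43 (m 120 41 (m 121 18 (m 122 42 (m 123 25 (q 124 24 (m 125 55 (m 126 72 o))))))))) e) e) (n (n (l (m 143 368 o)) e) e)) (n (n (n (l (q 141 705 (m 142 631 o))) e) e) e)) (n (n e (n (n (l (q 143 930 o)) e) e)) e)) (n (n (n (n (n (l (q 135 116 (q 136 242 (q 137 120 (m 138 6 o))))) e) e) (n (n (l (q 143 1012 o)) e) e)) e) (n (n (n (n (l (q 141 287 (m 142 329 o))) e) e) e) (n (n (n (l (m 143 570 o)) e) e) e))))))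
def r45 : Tb SV := (n (n (n (n (n (n (n (n (l (m 81 13 (m 82 7 (q 84 1 (q 86 1 (m 87 2 (q 89 3 (q 90 1 (m 91 1 (m 92 2 (q 93 3 (m 94 2 o)))))))))))) e) e) e) e) e) (n e (n (n (n (n (l (m 141 20 (m 142 14 o))) e) e) e) (n (n (n (l (q 143 7 o)) e) e) e)))) (n (n (n (n (n (n (l (q 119 9 (q 120 8 (m 121 8 (m 122 3 (m 123 1 (q 124 1 (q 125 2 (m 126 1 o))))))))) e) e) e) e) e) (n (n (n (n (n (l (m 135 4 (m 136 10 (m 137 9 (m 138 2 o))))) e) e) e) e) (n (n (n (n (l (q 141 33 (q 142 24 o))) e) e) e) (n (n (n (l (q 143 9 o)) e) e) e))))) (n (n e (n (n (n (n (n (l (q 135 3 (q 136 3 (q 137 9 (q 138 10 o))))) e) e) e) e) (n (n (n (n (l (q 141 10 (q 142 9 o))) e) e) e) (n (n (n (l (q 143 3 o)) e) e) e)))) (n (n e (n e (n (n (n (l (q 143 2 o)) e) e) e))) e)))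
def r46 : Tb SV := (n (n (n (n (n (n (n (n (l (q 81 5 (q 82 1 (q 83 1 (m 85 2 (q 86 2 (q 87 2 (q 88 4 (m 89 1 (q 90 1 (q 91 1 (q 92 2 (q 94 2 o))))))))))))) e) e) e) e) e) (n e (n (n (n (n (l (q 141 6 (q 142 5 o))) e) e) e) (n (n (n (l (m 143 5 o)) e) e) e)))) (n (n (n (n (n (n (l (m 119 9 (m 120 6 (q 121 4 (q 122 3 (m 123 2 (m 124 2 (q 126 3 o)))))))) e) e) e) e) e) (n (n (n (n (n (l (q 135 4 (q 136 3 (q 137 2 (q 138 1 o))))) e) e) e) e) (n (n (n (n (l (m 141 11 (m 142 9 o))) e) e) e) (n (n (n (l (m 143 4 o)) e) e) e))))) (n (n e (n (n (n (n (n (l (q 135 2 (m 136 3 (m 137 5 (m 138 3 o))))) e) e) e) e) (n (n (n (n (l (m 141 3 (m 142 4 o))) e) e) e) (n (n (n (l (m 143 1 o)) e) e) e)))) (n (n e (n e (n (n (n (l (m 143 1 o)) e) e) e))) e)))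
def r47 : Tb SV := (n (n (n (n (n (n (n (n (l (q 81 7 (q 82 2 (m 83 1 (m 84 2 (m 85 1 (m 86 1 (q 87 1 (q 88 3 (q 89 4 (m 90 1 (q 91 2 (q 92 4 (q 94 5 o)))))))))))))) e) e) e) e) e) (n e (n (n (n (n (l (q 141 15 (m 142 5 o))) e) e) e) (n (n (n (l (q 143 10 o)) e) e) e)))) (n (n (n (n (n (n (l (m 119 16 (m 120 8 (q 121 8 (q 122 6 (m 123 3 (q 124 1 (q 125 1 (q 126 4 o))))))))) e) e) e) e) e) (n (n (n (n (n (l (q 135 7 (m 138 2 o))) e) e) e) e) (n (n (n (n (l (m 141 22 (q 142 5 o))) e) e) e) (n (n (n (l (m 143 21 o)) e) e) e))))) (n (n e (n (n (n (n (n (l (q 135 4 (m 136 3 o))) e) e) e) e) (n (n (n (n (l (m 141 8 o)) e) e) e) (n (n (n (l (q 143 6 o)) e) e) e)))) (n (n e (n e (n (n (n (l (m 143 4 o)) e) e) e))) e)))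
def r48 : Tb SV := (n (n (n (n (n (n (n (n (l (m 81 8 (m 82 3 (q 83 3 (q 84 2 (m 87 1 (m 88 2 (m 89 2 (q 90 2 (q 91 1 (m 92 2 (q 93 1 (q 94 1 o))))))))))))) e) e) e) e) e) (n e (n (n (n (n (l (m 141 15 (q 142 6 o))) e) e) e) (n (n (n (l (m 143 6 o)) e) e) e)))) (n (n (n (n (n (n (l (m 119 2 (m 120 1 (m 121 1 (q 122 2 (m 123 2 (m 124 1 (q 125 2 (m 126 6 o))))))))) e) e) e) e) e) (n (n (n (n (n (l (m 135 6 (m 136 4 (q 138 4 o)))) e) e) e) e) (n (n (n (n (l (q 141 15 (m 142 8 o))) e) e) e) (n (n (n (l (q 143 7 o)) e) e) e))))) (n (n e (n (n (n (n (n (l (m 135 5 (m 136 1 (m 137 1 (q 138 2 o))))) e) e) e) e) (n (n (n (n (l (q 141 7 (m 142 3 o))) e) e) e) (n (n (n (l (q 143 2 o)) e) e) e)))) (n (n e (n e (n (n (n (l (q 143 9 o)) e) e) e))) e)))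
def r49 : Tb SV := (n (n (n (n (n (n (n (n (l (m 81 8 (m 82 4 (m 84 2 (m 85 2 (m 86 1 (m 87 2 (q 89 2 (m 90 1 (m 91 3 (m 92 2 (q 93 3 o)))))))))))) e) e) e) e) e) (n e (n (n (n (n (l (m 141 16 (m 142 13 o))) e) e) e) (n (n (n (l (q 143 7 o)) e) e) e)))) (n (n (n (n (n (n (l (m 119 1 (q 120 3 (m 121 3 (m 122 2 (m 123 3 (q 125 1 (m 126 1 o)))))))) e) e) e) e) e) (n (n (n (n (n (l (m 135 4 (m 136 8 (m 137 6 (m 138 2 o))))) e) e) e) e) (n (n (n (n (l (q 141 25 (q 142 19 o))) e) e) e) (n (n (n (l (q 143 3 o)) e) e) e))))) (n (n e (n (n (n (n (n (l (q 135 2 (q 137 5 (q 138 6 o)))) e) e) e) e) (n (n (n (n (l (q 141 8 (q 142 7 o))) e) e) e) (n (n (n (l (q 143 4 o)) e) e) e)))) (n (n e (n e (n (n (n (l (q 143 2 o)) e) e) e))) e)))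
def r50 : Tb SV := (n (n (n (n (n (n (n (n (l (q 81 5 (q 82 5 (q 83 3 (q 84 1 (q 85 1 (m 86 4 (q 87 1 (q 88 2 (q 89 3 (q 91 3 (q 92 2 (q 93 1 (q 94 2 o)))))))))))))) e) e) e) e) e) (n e (n (n (n (n (l (q 141 29 (q 142 14 o))) e) e) e) (n (n (n (l (q 143 16 o)) e) e) e)))) (n (n (n (n (n (n (l (m 119 6 (q 121 9 (q 122 6 (q 123 5 (q 124 7 (q 125 3 (q 126 3 o)))))))) e) e) e) e) e) (n (n (n (n (n (l (q 135 6 (q 136 7 (q 137 11 (q 138 5 o))))) e) e) e) e) (n (n (n (n (l (m 141 38 (m 142 19 o))) e) e) e) (n (n (n (l (m 143 22 o)) e) e) e))))) (n (n e (n (n (n (n (n (l (q 135 1 (q 136 3 (q 137 3 (m 138 1 o))))) e) e) e) e) (n (n (n (n (l (m 141 15 (m 142 8 o))) e) e) e) (n (n (n (l (q 143 4 o)) e) e) e)))) (n (n e (n e (n (n (n (l (m 143 7 o)) e) e) e))) e)))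
def r51 : Tb SV := (n (n (n (n (n (n (n (n (l (m 81 13 (m 82 9 (m 83 3 (q 84 2 (m 85 3 (m 86 1 (m 87 1 (q 88 1 (m 89 4 (q 90 1 (m 91 4 (m 92 4 (m 93 1 (m 94 3 o))))))))))))))) e) e) e) e) e) (n e (n (n (n (n (l (m 141 10 (m 142 9 o))) e) e) e) (n (n (n (l (m 143 5 o)) e) e) e)))) (n (n (n (n (n (n (l (q 119 1 (q 120 6 (m 121 3 (m 122 9 (m 123 1 (m 124 5 (m 125 4 (m 126 1 o))))))))) e) e) e) e) e) (n (n (n (n (n (l (m 135 4 (m 136 9 (m 137 5 o)))) e) e) e) e) (n (n (n (n (l (q 141 18 (q 142 7 o))) e) e) e) (n (n (n (l (q 143 17 o)) e) e) e))))) (n (n e (n (n (n (n (n (l (q 135 1 (q 136 1 (m 137 3 (m 138 2 o))))) e) e) e) e) (n (n (n (n (l (q 141 5 (q 142 6 o))) e) e) e) (n (n (n (l (m 143 3 o)) e) e) e)))) (n (n e (n e (n (n (n (l (q 143 2 o)) e) e) e))) e)))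
def r52 : Tb SV := (n (n (n (n (n (n (n (n (l (q 81 3 (m 82 2 (q 83 1 (m 84 1 (m 85 4 (q 86 2 (q 87 2 (m 88 3 (q 89 3 (m 90 2 (q 91 1 (q 92 1 (q 93 1 (q 94 3 o))))))))))))))) e) e) e) e) e) (n e (n (n (n (n (l (m 141 16 (m 142 15 o))) e) e) e) (n (n (n (l (q 143 2 o)) e) e) e)))) (n (n (n (n (n (n (l (m 119 12 (m 120 3 (q 121 4 (q 122 2 (m 123 3 (m 124 1 (m 126 3 o)))))))) e) e) e) e) e) (n (n (n (n (n (l (m 135 3 (m 136 2 (m 137 6 (m 138 5 o))))) e) e) e) e) (n (n (n (n (l (q 141 18 (q 142 20 o))) e) e) e) (n (n (n (l (m 143 4 o)) e) e) e))))) (n (n e (n (n (n (n (n (l (m 135 1 (m 136 1 (q 137 2 (q 138 3 o))))) e) e) e) e) (n (n (n (n (l (q 141 8 (q 142 6 o))) e) e) e) (n (n (n (l (q 143 5 o)) e) e) e)))) (n (n e (n e (n (n (n (l (q 143 4 o)) e) e) e))) e)))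
def r53 : Tb SV := (n (n (n (n (n (n (n (n (l (q 81 12 (q 82 8 (m 83 2 (m 84 3 (q 85 1 (m 86 2 (q 87 1 (m 88 3 (q 90 1 (m 91 1 (q 92 5 (q 94 2 o))))))))))))) e) e) e) e) e) (n e (n (n (n (n (l (q 141 16 (q 142 16 o))) e) e) e) (n (n (n (l (m 143 9 o)) e) e) e)))) (n (n (n (n (n (n (l (m 119 9 (m 120 8 (q 121 8 (q 122 4 (q 124 1 (m 126 1 o))))))) e) e) e) e) e) (n (n (n (n (n (l (q 135 1 (q 136 8 (q 137 11 (q 138 4 o))))) e) e) e) e) (n (n (n (n (l (m 141 28 (m 142 26 o))) e) e) e) (n (n (n (l (m 143 6 o)) e) e) e))))) (n (n e (n (n (n (n (n (l (m 135 5 (m 136 4 (m 137 7 (m 138 8 o))))) e) e) e) e) (n (n (n (n (l (m 141 8 (m 142 10 o))) e) e) e) (n (n (n (l (m 143 3 o)) e) e) e)))) e))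
def r54 : Tb SV := (n (n (n (n (n (n (n (n (l (q 81 9 (q 82 6 (m 83 1 (m 84 2 (q 85 3 (q 86 2 (q 87 4 (q 88 2 (m 89 3 (q 90 3 (q 91 4 (q 92 1 (q 93 1 (q 94 1 o))))))))))))))) e) e) e) e) e) (n e (n (n (n (n (l (q 141 7 (q 142 9 o))) e) e) e) (n (n (n (l (m 143 10 o)) e) e) e)))) (n (n (n (n (n (n (l (q 119 3 (m 120 8 (q 122 5 (m 124 3 (q 125 1 o)))))) e) e) e) e) e) (n (n (n (n (n (l (q 135 2 (q 136 10 (q 137 2 o)))) e) e) e) e) (n (n (n (n (l (m 141 17 (m 142 11 o))) e) e) e) (n (n (n (l (m 143 4 o)) e) e) e))))) (n (n e (n (n (n (n (n (l (m 135 4 (m 136 4 (m 137 8 (m 138 4 o))))) e) e) e) e) (n (n (n (n (l (m 141 4 (m 142 5 o))) e) e) e) (n (n (n (l (m 143 2 o)) e) e) e)))) (n (n e (n e (n (n (n (l (q 143 4 o)) e) e) e))) e)))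
def r55 : Tb SV := (n (n (n (n (n (n (n (n (l (q 81 19 (q 82 6 (q 83 1 (m 84 4 (m 85 2 (q 86 1 (m 87 2 (q 88 2 (m 89 4 (q 90 4 (q 91 2 (m 93 2 (q 94 2 o)))))))))))))) e) e) e) e) e) (n e (n (n (n (n (l (m 141 22 (q 142 13 o))) e) e) e) (n (n (n (l (m 143 15 o)) e) e) e)))) (n (n (n (n (n (n (l (q 119 2 (m 120 24 (m 121 14 (q 122 16 (m 123 12 (m 124 2 (q 125 5 (m 126 2 o))))))))) e) e) e) e) e) (n (n (n (n (n (l (q 135 1 (q 136 9 (m 137 4 (m 138 6 o))))) e) e) e) e) (n (n (n (n (l (q 141 16 (m 142 5 o))) e) e) e) (n (n (n (l (m 143 4 o)) e) e) e))))) (n (n e (n (n (n (n (n (l (m 135 3 (m 136 13 (q 138 7 o)))) e) e) e) e) (n (n (n (n (l (q 141 10 (m 142 9 o))) e) e) e) e))) (n (n e (n e (n (n (n (l (q 143 9 o)) e) e) e))) e)))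
def r56 : Tb SV := (n (n (n (n (n (n (n (n (l (q 95 1 (q 96 1 o))) e) e) e) e) (n (n (n (n (l (m 139 2 (q 140 20 o))) e) e) e) (n (n (n (l (q 143 13 o)) e) e) e))) (n (n (n (n (n (l (m 128 1 (m 129 6 (q 131 13 (m 132 1 (q 133 15 (q 134 8 o))))))) e) e) e) e) e)) (n (n (n (n (n (n (l (q 127 7 o)) e) e) e) e) (n (n (n (n (l (q 139 2 (m 140 11 o))) e) e) e) (n (n (n (l (q 143 11 o)) e) e) e))) e)) (n (n (n (n (n (n (n (l (q 101 3 (m 104 2 (q 105 8 (q 106 2 (q 108 2 (q 109 1 (q 110 3 (m 111 1 (m 112 2 (m 113 2 (q 114 1 (q 115 1 (q 116 1 (q 117 1 (m 118 1 o)))))))))))))))) e) e) e) e) (n (n (n (n (l (m 139 2 (q 140 28 o))) e) e) e) (n (n (n (l (m 143 4 o)) e) e) e))) e) (n (n (n (n (n (n (l (q 128 1 (q 129 3 (m 130 1 (m 131 5 (m 133 6 (m 134 3 o))))))) e) e) e) e) (n (n (n (n (l (m 141 1 (q 142 2 o))) e) e) e) e)) (n (n (n (n (n (l (m 139 1 (q 140 7 o)))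 e) e) e) (n (n (n (l (q 143 5 o)) e) e) e)) e))))
def r57 : Tb SV := (n (n (n (n (n (n (n (n (l (q 95 1 (m 97 1 (q 99 1 (m 100 1 o))))) e) e) e) e) (n (n (n (n (l (q 139 6 (m 140 7 o))) e) e) e) (n (n (n (l (q 143 15 o)) e) e) e))) (n (n (n (n (n (l (q 128 21 (m 129 23 (q 130 13 (q 131 5 (m 132 5 (m 133 1 (q 134 7 o)))))))) e) e) e) e) e)) (n (n (n (n (n (n (l (q 127 3 o)) e) e) e) e) (n (n (n (n (l (m 139 2 (m 140 6 o))) e) e) e) (n (n (n (l (q 143 16 o)) e) e) e))) e)) (n (n (n (n (n (n (n (l (q 101 2 (m 104 10 (q 105 7 (q 106 4 (q 108 1 (m 109 1 (q 110 8 (q 111 1 (m 112 2 (q 113 3 (q 114 2 (q 115 2 (m 116 4 (m 117 7 o))))))))))))))) e) e) e) e) (n (n (n (n (l (q 139 7 (m 140 7 o))) e) e) e) (n (n (n (l (m 143 3 o)) e) e) e))) e) (n (n (n (n (n (n (l (m 128 8 (q 129 7 (m 130 6 (q 132 2 (q 133 1 (m 134 3 o))))))) e) e) e) e) (n (n (n (n (l (m 141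 2 (m 142 3 o))) e) e) e) e)) (n (n (n (n (n (l (q 139 2 (m 140 5 o))) e) e) e) (n (n (n (l (q 143 5 o)) e) e) e)) e))))
def r58 : Tb SV := (n (n (n (n (n (n (n (n (l (m 97 1 (q 99 1 o))) e) e) e) e) (n (n (n (n (l (q 139 16 (q 140 29 o))) e) e) e) (n (n (n (l (q 143 1 o)) e) e) e))) (n (n (n (n (n (l (q 128 17 (m 129 9 (m 130 9 (m 131 2 (q 132 2 (m 133 9 (q 134 2 o)))))))) e) e) e) e) e)) (n (n (n (n (n (n (l (m 127 2 o)) e) e) e) e) (n (n (n (n (l (m 139 10 (m 140 17 o))) e) e) e) (n (n (n (l (q 143 11 o)) e) e) e))) e)) (n (n (n (n (n (n (n (l (m 101 3 (q 104 1 (m 105 7 (q 106 2 (q 107 3 (m 108 1 (m 109 2 (q 110 3 (m 111 1 (m 112 2 (q 113 7 (m 114 2 (q 115 7 (m 116 2 (q 117 1 (m 118 1 o))))))))))))))))) e) e) e) e) (n (n (n (n (l (q 139 19 (q 140 34 o))) e) e) e) (n (n (n (l (m 143 13 o)) e) e) e))) e) (n (n (n (n (n (n (l (m 128 8 (q 129 3 (m 130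 1 (q 131 1 (q 133 3 o)))))) e) e) e) e) (n (n (n (n (l (q 141 2 (m 142 7 o))) e) e) e) e)) (n (n (n (n (n (l (q 139 5 (q 140 10 o))) e) e) e) (n (n (n (l (q 143 2 o)) e) e) e)) e))))
def r59 : Tb SV := (n (n (n (n (n (n (n (n (l (m 95 1 (q 96 1 (m 98 1 o)))) e) e) e) e) (n (n (n (n (l (m 139 26 (m 140 2 o))) e) e) e) (n (n (n (l (q 143 1 o)) e) e) e))) (n (n (n (n (n (l (m 128 8 (q 129 2 (q 130 5 (q 131 6 (q 132 1 (q 133 12 (q 134 4 o)))))))) e) e) e) e) e)) (n (n (n (n (n (n (l (q 127 4 o)) e) e) e) e) (n (n (n (n (l (q 139 13 (q 140 1 o))) e) e) e) (n (n (n (l (m 143 5 o)) e) e) e))) e)) (n (n (n (n (n (n (n (l (q 101 2 (m 104 2 (q 105 6 (m 107 3 (q 108 3 (q 109 3 (m 110 1 (q 111 1 (m 113 4 (q 114 2 (m 115 3 (q 116 2 (m 118 1 o)))))))))))))) e) e) e) e) (n (n (n (n (l (m 139 32 o)) e) e) e) (n (n (n (l (q 143 5 o)) e) e) e))) e) (n (n (n (n (n (n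 (l (q 128 4 (m 130 1 (m 131 2 (m 132 1 (m 133 4 (m 134 2 o))))))) e) e) e) e) (n (n (n (n (l (m 141 2 (q 142 4 o))) e) e) e) e)) (n (n (n (n (n (l (m 139 9 (m 140 1 o))) e) e) e) e) e))))
def r60 : Tb SV := (n (n (n (n (n (n (n (n (l (q 95 1 (m 97 1 (m 99 1 o)))) e) e) e) e) (n (n (n (n (l (m 139 13 (m 140 11 o))) e) e) e) e)) (n (n (n (n (n (l (m 128 7 (q 129 8 (q 130 3 (m 131 8 (q 132 1 (m 133 4 (m 134 4 o)))))))) e) e) e) e) e)) (n (n (n (n (n (n (l (m 127 3 o)) e) e) e) e) (n (n (n (n (l (q 139 7 (q 140 8 o))) e) e) e) (n (n (n (l (m 143 7 o)) e) e) e))) e)) (n (n (n (n (n (n (n (l (m 101 1 (q 105 3 (m 106 2 (m 107 2 (q 109 1 (m 110 3 (q 111 6 (q 112 2 (m 113 2 (q 114 1 (m 115 8 (m 116 4 (m 117 6 (q 118 1 o))))))))))))))) e) e) e) e) (n (n (n (n (l (m 139 16 (m 140 14 o))) e) e) e) (n (n (n (l (q 143 12 o)) e) e) e))) e) (n (n (n (n (n (n (l (q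 128 3 (m 129 3 (q 130 2 (q 131 4 (q 133 3 (q 134 1 o))))))) e) e) e) e) (n (n (n (n (l (m 141 1 (q 142 2 o))) e) e) e) e)) (n (n (n (n (n (l (m 139 4 (m 140 4 o))) e) e) e) (n (n (n (l (m 143 2 o)) e) e) e)) e))))
def r61 : Tb SV := (n (n (n (n (n (n (n (n (l (q 103 2 (q 105 3 (q 111 1 (q 112 1 (m 114 1 (m 115 1 (m 116 2 (q 117 2 (q 118 1 o)))))))))) e) e) e) e) (n (n (n (n (l (q 141 2 (q 142 9 o))) e) e) e) e)) (n (n (n (n (n (l (q 135 4 (q 136 2 (q 137 4 (q 138 5 o))))) e) e) e) e) e)) (n (n (n (n (n (n (l (q 129 1 (m 130 1 (q 131 2 (q 132 1 (m 133 2 (m 134 1 o))))))) e) e) e) (n (n (n (l (m 143 4 o)) e) e) e)) (n (n (n (n (l (m 142 2 o)) e) e) e) e)) (n (n (n (n (n (l (q 140 3 o)) e) e) e) (n (n (n (l (q 143 8 o)) e) e) e)) e))) (n (n (n (n (n (n (n (l (m 119 2 (m 120 1 (q 122 2 (m 123 2 (q 124 2 (q 125 3 o))))))) e) e) e) (n (n (n (l (m 143 11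 o)) e) e) e)) (n (n (n (n (l (q 141 2 (q 142 11 o))) e) e) e) e)) (n (n (n (n (n (l (q 139 1 (q 140 2 o))) e) e) e) (n (n (n (l (q 143 5 o)) e) e) e)) e)) (n (n (n (n (n (n (l (m 135 2 (m 137 2 (m 138 3 o)))) e) e) e) (n (n (n (l (q 143 12 o)) e) e) e)) e) (n (n (n (n (n (l (q 141 1 (q 142 4 o))) e) e) e) e) (n (n (n (n (l (q 143 6 o)) e) e) e) e)))))
def r62 : Tb SV := (n (n (n (n (n (n (n (n (l (q 104 2 (m 105 1 (q 107 2 (m 108 3 (m 109 2 (q 110 1 (m 111 1 (q 112 1 (q 113 1 (m 114 2 (q 115 1 (m 116 1 (q 118 1 o)))))))))))))) e) e) e) (n (n (n (l (m 143 5 o)) e) e) e)) (n (n (n (n (l (m 141 6 (m 142 6 o))) e) e) e) e)) (n (n (n (n (n (l (m 135 1 (m 136 6 (m 137 2 (q 138 3 o))))) e) e) e) e) e)) (n (n (n (n (n (n (l (m 128 2 (q 129 1 (m 130 4 (q 131 2 (q 132 3 (q 133 1 (m 134 2 o)))))))) e) e) e) (n (n (n (l (m 143 11 o)) e) e) e)) (n (n (n (n (l (q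 141 4 (q 142 2 o))) e) e) e) e)) (n (n (n (n (n (l (m 139 1 o)) e) e) e) (n (n (n (l (q 143 20 o)) e) e) e)) e))) (n (n (n (n (n (n (n (l (m 119 1 (m 121 2 (m 122 3 (m 123 4 (m 124 1 (q 125 1 (m 126 2 o)))))))) e) e) e) (n (n (n (l (m 143 27 o)) e) e) e)) (n (n (n (n (l (m 141 8 (m 142 9 o))) e) e) e) e)) (n (n (n (n (n (l (q 139 3 (q 140 2 o))) e) e) e) (n (n (n (l (q 143 12 o)) e) e) e)) e)) (n (n (n (n (n (n (l (q 135 1 (q 136 3 (q 137 1 (m 138 1 o))))) e) e) e) (n (n (n (l (q 143 26 o)) e) e) e)) e) (n (n (n (n (n (l (m 141 2 (m 142 2 o))) e) e) e) e) (n (n (n (n (l (q 143 14 o)) e) e) e) e)))))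
def r63 : Tb SV := (n (n (n (n (n (n (n (n (l (q 101 2 (m 103 2 (m 104 1 (q 105 1 (q 107 1 (m 109 1 (q 110 1 (m 111 2 (m 112 2 (m 113 2 (q 114 2 (q 116 2 (m 117 2 o)))))))))))))) e) e) e) (n (n (n (l (q 143 3 o)) e) e) e)) (n (n (n (n (l (m 141 2 (q 142 6 o))) e) e) e) e)) (n (n (n (n (n (l (m 135 2 (q 136 3 (m 137 6 (m 138 10 o))))) e) e) e) e) e)) (n (n (n (n (n (n (l (m 129 2 (q 130 3 (m 131 2 (m 132 3 (q 133 2 (q 134 2 o))))))) e) e) e) (n (n (n (l (q 143 9 o)) e) e) e)) (n (n (n (n (l (m 141 1 (m 142 5 o))) e) e) e) e)) (n (n (n (n (n (l (m 140 1 o)) e) e) e) (n (n (n (l (m 143 17 o)) e) e) e)) e))) (n (n (n (n (n (n (n (l (q 119 1 (q 120 1 (q 121 1 (m 122 2 (q 123 4 (m 124 3 (m 125 5 (q 126 1 o))))))))) e) e) e) (n (n (n (l (q 143 23 o)) e) e) e)) (n (n (n (n (l (m 141 2 (q 142 8 o))) e) e) e) e)) (n (n (n (n (n (l (m 139 3 (m 140 2 o))) e) e)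 e) (n (n (n (l (m 143 12 o)) e) e) e)) e)) (n (n (n (n (n (n (l (q 135 1 (m 136 2 (q 137 3 (q 138 5 o))))) e) e) e) (n (n (n (l (m 143 25 o)) e) e) e)) e) (n (n (n (n (n (l (m 141 1 (q 142 1 o))) e) e) e) e) (n (n (n (n (l (m 143 12 o)) e) e) e) e)))))
def r64 : Tb SV := (n (n (n (n (n (n (n (n (l (m 102 1 (m 103 3 (q 104 3 (m 105 1 (q 106 2 (q 107 1 (m 108 1 (m 109 1 (m 110 1 (m 111 1 (q 112 1 (q 115 3 (m 116 1 o)))))))))))))) e) e) e) (n (n (n (l (q 143 15 o)) e) e) e)) (n (n (n (n (l (m 141 100 (m 142 62 o))) e) e) e) e)) (n (n (n (n (n (l (m 135 25 (m 136 28 (q 137 48 (q 138 56 o))))) e) e) e) (n (n (n (l (m 143 7 o)) e) e) e)) e)) (n (n (n (n (n (n (l (q 128 4 (m 129 6 (q 130 22 (m 132 2 (q 133 15 (m 134 4 o))))))) e) e) e) (n (n (n (l (q 143 3 o)) e) e) e)) (n (n (n (n (l (q 141 67 (q 142 62 o))) e) e) e) e)) (n (n (n (n (n (l (m 139 6 o)) e)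 e) e) (n (n (n (l (m 143 3 o)) e) e) e)) e))) (n (n (n (n (n (n (n (l (m 119 12 (m 120 16 (m 121 2 (q 122 39 (m 123 21 (q 124 13 (q 125 32 (q 126 13 o))))))))) e) e) e) (n (n (n (l (m 143 6 o)) e) e) e)) (n (n (n (n (l (m 141 135 (m 142 81 o))) e) e) e) e)) (n (n (n (n (n (l (q 139 2 (m 140 4 o))) e) e) e) (n (n (n (l (m 143 1 o)) e) e) e)) e)) (n (n (n (n (n (n (l (q 135 5 (q 136 14 (m 137 20 (m 138 29 o))))) e) e) e) (n (n (n (l (q 143 17 o)) e) e) e)) e) (n (n (n (n (n (l (m 141 29 (m 142 10 o))) e) e) e) e) (n (n (n (n (l (q 143 6 o)) e) e) e) e)))))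
def r65 : Tb SV := (n (n (n (n (n (n (n (n (l (q 101 1 (q 102 2 (m 103 1 (m 104 1 (m 105 1 (q 106 2 (q 107 2 (q 108 1 (m 110 1 (m 111 2 (q 114 1 (m 115 1 (m 117 3 (q 118 2 o))))))))))))))) e) e) e) (n (n (n (l (m 143 8 o)) e) e) e)) (n (n (n (n (l (q 141 12 (q 142 74 o))) e) e) e) e)) (n (n (n (n (n (l (q 135 6 (q 136 15 (m 137 18 (m 138 29 o))))) e) e) e) (n (n (n (l (q 143 1 o)) e) e) e)) e)) (n (n (n (n (n (n (l (m 128 3 (q 129 3 (m 130 7 (m 131 5 (q 132 2 (m 133 3 (q 134 2 o)))))))) e) e) e) (n (n (n (l (q 143 1 o)) e) e) e)) (n (n (n (n (l (m 141 14 (m 142 43 o))) e) e) e) e)) (n (n (n (n (n (l (q 139 2 (m 140 5 o))) e) e) e) (n (n (n (l (m 143 18 o)) e) e) e)) e))) (n (n (n (n (n (n (n (l (q 119 1 (q 120 7 (q 121 6 (m 122 11 (q 123 8 (m 124 2 (m 125 8 (m 126 5 o))))))))) e) e) e) (n (n (n (l (q 143 19 o)) e) e) e)) (n (n (n (n (l (q 141 18 (q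 142 94 o))) e) e) e) e)) (n (n (n (n (n (l (m 140 3 o)) e) e) e) (n (n (n (l (m 143 16 o)) e) e) e)) e)) (n (n (n (n (n (n (l (m 136 8 (q 137 6 (q 138 12 o)))) e) e) e) (n (n (n (l (m 143 38 o)) e) e) e)) e) (n (n (n (n (n (l (q 141 2 (q 142 22 o))) e) e) e) e) (n (n (n (n (l (m 143 14 o)) e) e) e) e)))))
def r66 : Tb SV := (n (n (n (n (n (n (n (n (l (q 102 1 (q 103 2 (q 105 1 (q 106 1 (m 107 1 (q 108 3 (q 109 3 (q 111 2 (m 113 1 (q 114 1 (m 115 1 (m 116 1 (m 117 4 o)))))))))))))) e) e) e) e) (n (n (n (n (l (q 141 25 (q 142 76 o))) e) e) e) e)) (n (n (n (n (n (l (q 135 1 (q 136 18 (m 137 15 (m 138 29 o))))) e) e) e) (n (n (n (l (q 143 1 o)) e) e) e)) e)) (n (n (n (n (n (n (l (m 128 4 (q 129 3 (m 130 3 (m 131 4 (q 132 2 (m 133 2 (q 134 2 o)))))))) e) e) e) (n (n (n (l (q 143 12 o)) e) e) e)) (n (n (n (n (l (m 141 20 (m 142 43 o))) e) e) e) e)) (n (n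 (n (n (n (l (q 139 3 (m 140 5 o))) e) e) e) (n (n (n (l (m 143 31 o)) e) e) e)) e))) (n (n (n (n (n (n (n (l (q 120 7 (q 121 7 (m 122 10 (q 123 9 (m 124 1 (m 125 8 (m 126 6 o)))))))) e) e) e) (n (n (n (l (q 143 42 o)) e) e) e)) (n (n (n (n (l (q 141 35 (q 142 96 o))) e) e) e) e)) (n (n (n (n (n (l (m 140 2 o)) e) e) e) (n (n (n (l (m 143 23 o)) e) e) e)) e)) (n (n (n (n (n (n (l (q 135 1 (m 136 9 (q 137 5 (q 138 12 o))))) e) e) e) (n (n (n (l (m 143 55 o)) e) e) e)) e) (n (n (n (n (n (l (q 141 6 (q 142 23 o))) e) e) e) e) (n (n (n (n (l (m 143 25 o)) e) e) e) e)))))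
def r67 : Tb SV := (n (n (n (n (n (n (n (n (l (m 101 2 (q 102 1 (q 103 1 (q 104 1 (m 105 1 (q 106 6 (q 107 2 (m 108 1 (q 109 2 (m 111 2 (m 113 1 (q 114 1 (q 115 1 (m 116 3 (m 117 2 o)))))))))))))))) e) e) e) (n (n (n (l (q 143 32 o)) e) e) e)) (n (n (n (n (l (m 141 138 (m 142 144 o))) e) e) e) e)) (n (n (n (n (n (l (m 135 17 (m 136 109 (q 137 92 (q 138 123 o))))) e) e) e) e) e)) (n (n (n (n (n (n (l (q 128 3 (m 129 13 (q 130 41 (m 131 3 (m 132 2 (q 133 15 (m 134 10 o)))))))) e) e) e) (n (n (n (l (q 143 4 o)) e) e) e)) (n (n (n (n (l (q 141 74 (q 142 144 o))) e) e) e) e)) (n (n (n (n (n (l (m 140 6 o)) e) e) e) (n (n (n (l (q 143 80 o)) e) e) e)) e))) (n (n (n (n (n (n (n (l (q 119 8 (m 120 35 (m 121 28 (q 122 68 (m 123 48 (q 124 42 (q 125 71 (q 126 4 o))))))))) e) e) e) (n (n (n (l (m 143 68 o)) e) e) e)) (n (n (n (n (l (m 141 187 (m 142 182 o))) e)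 e) e) e)) (n (n (n (n (n (l (m 139 7 o)) e) e) e) (n (n (n (l (q 143 53 o)) e) e) e)) e)) (n (n (n (n (n (n (l (q 135 4 (q 136 49 (m 137 45 (m 138 64 o))))) e) e) e) (n (n (n (l (q 143 147 o)) e) e) e)) e) (n (n (n (n (n (l (m 141 45 (m 142 24 o))) e) e) e) e) (n (n (n (n (l (q 143 63 o)) e) e) e) e)))))
def r68 : Tb SV := (n (n (n (n (n (n (n (n (l (m 103 1 (m 105 3 (m 106 5 (m 107 3 (m 109 1 (q 110 2 (q 111 2 (m 112 1 (m 114 1 (m 115 1 (q 116 3 (q 117 1 (q 118 2 o)))))))))))))) e) e) e) (n (n (n (l (m 143 24 o)) e) e) e)) (n (n (n (n (l (q 141 37 (m 142 47 o))) e) e) e) e)) (n (n (n (n (n (l (q 135 24 (q 136 21 (m 137 3 (q 138 7 o))))) e) e) e) (n (n (n (l (q 143 5 o)) e) e) e)) e)) (n (n (n (n (n (n (l (q 128 1 (m 130 17 (q 131 1 (q 132 4 (m 133 11 (q 134 3 o))))))) e) e) e) (n (n (n (l (m 143 32 o)) e) e) e)) (n (n (n (n (l (m 141 22 (q 142 9 o)))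 e) e) e) e)) (n (n (n (n (n (l (q 139 6 (q 140 5 o))) e) e) e) (n (n (n (l (q 143 55 o)) e) e) e)) e))) (n (n (n (n (n (n (n (l (q 119 10 (q 120 6 (m 122 12 (q 123 7 (m 124 3 (m 125 10 (m 126 2 o)))))))) e) e) e) (n (n (n (l (m 143 72 o)) e) e) e)) (n (n (n (n (l (q 141 50 (m 142 60 o))) e) e) e) e)) (n (n (n (n (n (l (q 139 5 o)) e) e) e) (n (n (n (l (q 143 35 o)) e) e) e)) e)) (n (n (n (n (n (n (l (m 135 7 (m 136 7 (q 137 2 (q 138 1 o))))) e) e) e) (n (n (n (l (q 143 64 o)) e) e) e)) e) (n (n (n (n (n (l (q 141 12 (m 142 19 o))) e) e) e) e) (n (n (n (n (l (q 143 34 o)) e) e) e) e)))))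
def r69 : Tb SV := (n (n (n (n (n (n (n (n (l (q 102 2 (m 103 1 (m 104 1 (m 105 1 (m 107 2 (q 109 2 (m 112 1 (q 113 1 (m 114 2 (q 117 1 (q 118 3 o)))))))))))) e) e) e) (n (n (n (l (m 143 18 o)) e) e) e)) (n (n (n (n (l (q 141 42 (q 142 75 o))) e) e) e) e)) (n (n (n (n (n (l (q 135 24 (q 136 10 (m 137 14 (m 138 16 o))))) e) e) e) (n (n (n (l (q 143 5 o)) e) e) e)) e)) (n (n (n (n (n (n (l (m 128 3 (q 129 5 (m 130 15 (q 132 7 (m 133 11 o)))))) e) e) e) (n (n (n (l (m 143 23 o)) e) e) e)) (n (n (n (n (l (m 141 30 (m 142 44 o))) e) e) e) e)) (n (n (n (n (n (l (q 139 9 (m 140 1 o))) e) e) e) (n (n (n (l (q 143 43 o)) e) e) e)) e))) (n (n (n (n (n (n (n (l (q 119 2 (q 120 3 (m 121 1 (m 122 14 (q 123 1 (m 125 5 (m 126 8 o)))))))) e) e) e) (n (n (n (l (m 143 55 o)) e) e) e)) (n (n (n (n (l (q 141 56 (q 142 95 o))) e) e) e) e)) (n (n (n (n (n (l (q 139 1 (q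 140 2 o))) e) e) e) (n (n (n (l (q 143 24 o)) e) e) e)) e)) (n (n (n (n (n (n (l (m 135 5 (m 136 4 (q 137 4 (q 138 7 o))))) e) e) e) (n (n (n (l (q 143 50 o)) e) e) e)) e) (n (n (n (n (n (l (q 141 12 (q 142 23 o))) e) e) e) e) (n (n (n (n (l (q 143 29 o)) e) e) e) e)))))
def r70 : Tb SV := (n (n (n (n (n (n (n (n (l (m 101 1 (m 103 1 (m 104 1 (q 105 2 (q 106 2 (m 107 2 (q 108 5 (q 109 2 (q 111 3 (q 112 1 (q 116 1 (q 117 1 (q 118 1 o)))))))))))))) e) e) e) (n (n (n (l (m 143 13 o)) e) e) e)) (n (n (n (n (l (m 141 57 (m 142 66 o))) e) e) e) e)) (n (n (n (n (n (l (m 135 14 (m 136 2 (q 137 30 (q 138 37 o))))) e) e) e) (n (n (n (l (m 143 4 o)) e) e) e)) e)) (n (n (n (n (n (n (l (m 128 1 (m 129 10 (q 130 6 (q 132 4 (q 133 10 o)))))) e) e) e) (n (n (n (l (m 143 13 o)) e) e) e)) (n (n (n (n (l (q 141 37 (q 142 44 o))) e) e) e) e)) (n (n (n (n (n (l (m 139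 4 (q 140 2 o))) e) e) e) (n (n (n (l (m 143 9 o)) e) e) e)) e))) (n (n (n (n (n (n (n (l (q 120 3 (q 121 11 (q 122 20 (q 124 12 (q 125 15 (q 126 6 o))))))) e) e) e) (n (n (n (l (m 143 4 o)) e) e) e)) (n (n (n (n (l (m 141 74 (m 142 88 o))) e) e) e) e)) (n (n (n (n (n (l (q 139 13 (m 140 1 o))) e) e) e) (n (n (n (l (m 143 6 o)) e) e) e)) e)) (n (n (n (n (n (n (l (q 135 3 (m 137 14 (m 138 17 o)))) e) e) e) (n (n (n (l (m 143 25 o)) e) e) e)) e) (n (n (n (n (n (l (m 141 17 (m 142 17 o))) e) e) e) e) (n (n (n (n (l (m 143 10 o)) e) e) e) e)))))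
def r71 : Tb SV := (n (n (n (n (n (n (n (n (l (q 101 3 (m 102 3 (m 104 2 (q 105 2 (m 106 1 (m 107 3 (q 108 3 (q 109 1 (q 111 1 (m 113 1 (m 114 2 (q 116 4 (m 117 1 (m 118 1 o))))))))))))))) e) e) e) (n (n (n (l (m 143 22 o)) e) e) e)) (n (n (n (n (l (q 141 110 (q 142 96 o))) e) e) e) e)) (n (n (n (n (n (l (m 135 2 (q 136 87 (m 137 65 (m 138 91 o))))) e) e) e) (n (n (n (l (m 143 4 o)) e) e) e)) e)) (n (n (n (n (n (n (l (m 128 4 (q 129 7 (m 130 27 (m 131 1 (m 133 4 (q 134 8 o))))))) e) e) e) (n (n (n (l (q 143 11 o)) e) e) e)) (n (n (n (n (l (m 141 54 (m 142 103 o))) e) e) e) e)) (n (n (n (n (n (l (m 139 5 (q 140 2 o))) e) e) e) (n (n (n (l (m 143 111 o)) e) e) e)) e))) (n (n (n (n (n (n (n (l (m 119 8 (q 120 31 (q 121 30 (m 122 47 (q 123 43 (m 124 31 (m 125 55 (m 126 1 o))))))))) e) e) e) (n (n (n (l (q 143 107 o)) e) e) e)) (n (n (n (n (l (q 141 148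 (q 142 119 o))) e) e) e) e)) (n (n (n (n (n (l (q 139 9 (m 140 4 o))) e) e) e) (n (n (n (l (m 143 70 o)) e) e) e)) e)) (n (n (n (n (n (n (l (q 135 1 (m 136 42 (q 137 33 (q 138 49 o))))) e) e) e) (n (n (n (l (m 143 184 o)) e) e) e)) e) (n (n (n (n (n (l (q 141 37 (q 142 14 o))) e) e) e) e) (n (n (n (n (l (m 143 84 o)) e) e) e) e)))))
def r72 : Tb SV := (n (n (n (n (n (n (n (n (l (q 102 1 (m 104 2 (m 105 1 (m 106 2 (m 107 1 (q 108 1 (m 109 1 (q 110 3 (q 111 1 (q 112 2 (q 113 1 (q 114 1 (m 115 2 (m 117 1 (m 118 3 o)))))))))))))))) e) e) e) (n (n (n (l (m 143 20 o)) e) e) e)) (n (n (n (n (l (q 141 171 (q 142 257 o))) e) e) e) e)) (n (n (n (n (n (l (q 135 14 (q 136 115 (m 137 118 (m 138 163 o))))) e) e) e) (n (n (n (l (q 143 2 o)) e) e) e)) e)) (n (n (n (n (n (n (l (m 128 5 (q 129 18 (m 130 45 (q 131 4 (m 132 1 (m 133 21 (q 134 11 o)))))))) e) e) e) (n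 (n (n (l (q 143 22 o)) e) e) e)) (n (n (n (n (l (m 141 106 (m 142 209 o))) e) e) e) e)) (n (n (n (n (n (l (m 139 2 (q 140 2 o))) e) e) e) (n (n (n (l (m 143 116 o)) e) e) e)) e))) (n (n (n (n (n (n (n (l (m 119 4 (q 120 44 (q 121 32 (m 122 85 (q 123 57 (m 124 45 (m 125 82 (m 126 17 o))))))))) e) e) e) (n (n (n (l (q 143 131 o)) e) e) e)) (n (n (n (n (l (q 141 233 (q 142 327 o))) e) e) e) e)) (n (n (n (n (n (l (m 139 1 (q 140 6 o))) e) e) e) (n (n (n (l (m 143 81 o)) e) e) e)) e)) (n (n (n (n (n (n (l (q 135 1 (m 136 55 (q 137 54 (q 138 81 o))))) e) e) e) (n (n (n (l (m 143 208 o)) e) e) e)) e) (n (n (n (n (n (l (q 141 51 (q 142 58 o))) e) e) e) e) (n (n (n (n (l (m 143 91 o)) e) e) e) e)))))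
def r73 : Tb SV := (n (n (n (n (n (n (n (n (l (q 101 1 (q 102 2 (m 103 1 (m 104 1 (q 106 1 (m 107 3 (q 108 4 (q 109 1 (q 110 1 (q 111 2 (m 112 1 (q 113 2 (q 114 2 (q 115 1 (m 117 1 (q 118 2 o))))))))))))))))) e) e) e) (n (n (n (l (m 143 9 o)) e) e) e)) (n (n (n (n (l (m 141 16 (m 142 7 o))) e) e) e) e)) (n (n (n (n (n (l (m 135 11 (m 137 8 (m 138 7 o)))) e) e) e) e) e)) (n (n (n (n (n (n (l (m 129 3 (m 130 1 (q 131 2 (q 132 5 (q 133 4 (q 134 1 o))))))) e) e) e) (n (n (n (l (m 143 13 o)) e) e) e)) (n (n (n (n (l (q 141 12 (m 142 2 o))) e) e) e) e)) (n (n (n (n (n (l (q 139 2 (q 140 1 o))) e) e) e) (n (n (n (l (q 143 20 o)) e) e) e)) e))) (n (n (n (n (n (n (n (l (m 119 3 (q 120 1 (q 121 1 (m 122 4 (m 123 2 (m 124 6 (m 125 3 (q 126 3 o))))))))) e) e) e) (n (n (n (l (m 143 28 o)) e) e) e)) (n (n (n (n (l (m 141 19 (m 142 10 o))) e) e) e) e)) (n (n (n (n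 (n (l (q 139 7 o)) e) e) e) (n (n (n (l (q 143 9 o)) e) e) e)) e)) (n (n (n (n (n (n (l (q 135 3 (q 137 4 (q 138 3 o)))) e) e) e) (n (n (n (l (q 143 19 o)) e) e) e)) e) (n (n (n (n (n (l (m 141 5 (m 142 4 o))) e) e) e) e) (n (n (n (n (l (q 143 11 o)) e) e) e) e)))))
def r74 : Tb SV := (n (n (n (n (n (n (n (n (l (m 101 2 (m 103 1 (q 105 1 (q 106 1 (m 108 1 (m 110 3 (m 112 2 (m 113 3 (m 114 1 (q 115 2 (m 116 3 o)))))))))))) e) e) e) (n (n (n (l (q 143 15 o)) e) e) e)) (n (n (n (n (l (m 141 189 (m 142 223 o))) e) e) e) e)) (n (n (n (n (n (l (q 135 23 (m 136 88 (q 137 157 (q 138 202 o))))) e) e) e) (n (n (n (l (m 143 12 o)) e) e) e)) e)) (n (n (n (n (n (n (l (q 128 17 (m 129 8 (q 130 54 (m 131 5 (q 133 9 (m 134 3 o))))))) e) e) e) (n (n (n (l (m 143 15 o)) e) e) e)) (n (n (n (n (l (q 141 127 (q 142 213 o))) e) e) e) e)) (n (n (n (n (n (l (m 139 5 (m 140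 3 o))) e) e) e) (n (n (n (l (q 143 18 o)) e) e) e)) e))) (n (n (n (n (n (n (n (l (q 119 10 (m 120 44 (m 121 29 (q 122 109 (m 123 58 (q 124 56 (q 125 100 (q 126 32 o))))))))) e) e) e) (n (n (n (l (m 143 53 o)) e) e) e)) (n (n (n (n (l (m 141 257 (m 142 279 o))) e) e) e) e)) (n (n (n (n (n (l (q 139 2 (m 140 7 o))) e) e) e) (n (n (n (l (q 143 20 o)) e) e) e)) e)) (n (n (n (n (n (n (l (m 135 18 (q 136 45 (m 137 71 (m 138 101 o))))) e) e) e) (n (n (n (l (q 143 78 o)) e) e) e)) e) (n (n (n (n (n (l (m 141 52 (m 142 40 o))) e) e) e) e) (n (n (n (n (l (q 143 33 o)) e) e) e) e)))))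
def r75 : Tb SV := (n (n (n (n (n (n (n (n (l (q 101 2 (m 102 2 (q 104 1 (q 105 1 (q 106 1 (m 110 3 (q 111 2 (m 113 3 (q 115 1 (m 118 3 o))))))))))) e) e) e) (n (n (n (l (q 143 8 o)) e) e) e)) (n (n (n (n (l (m 141 192 (m 142 302 o))) e) e) e) e)) (n (n (n (n (n (l (q 135 3 (m 136 78 (q 137 150 (q 138 199 o))))) e) e) e) (n (n (n (l (m 143 15 o)) e) e) e)) e)) (n (n (n (n (n (n (l (q 128 14 (m 129 11 (q 130 51 (m 131 3 (q 132 1 (q 133 18 o))))))) e) e) e) (n (n (n (l (m 143 7 o)) e) e) e)) (n (n (n (n (l (q 141 132 (q 142 239 o))) e) e) e) e)) (n (n (n (n (n (l (m 139 12 (m 140 1 o))) e) e) e) (n (n (n (l (m 143 27 o)) e) e) e)) e))) (n (n (n (n (n (n (n (l (q 119 16 (m 120 32 (m 121 19 (q 122 102 (m 123 45 (q 124 50 (q 125 89 (q 126 33 o))))))))) e) e) e) (n (n (n (l (m 143 1 o)) e) e) e)) (n (n (n (n (l (m 141 258 (m 142 382 o))) e) e) e) e)) (n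 (n (n (n (n (l (q 139 12 (m 140 6 o))) e) e) e) (n (n (n (l (m 143 7 o)) e) e) e)) e)) (n (n (n (n (n (n (l (m 135 12 (q 136 38 (m 137 66 (m 138 95 o))))) e) e) e) (n (n (n (l (m 143 1 o)) e) e) e)) e) (n (n (n (n (n (l (m 141 53 (m 142 70 o))) e) e) e) e) (n (n (n (n (l (m 143 6 o)) e) e) e) e)))))
def r76 : Tb SV := (n (n (n (n (n (n (n (n (l (m 104 1 (m 105 1 (q 107 2 (m 109 2 (q 110 1 (m 111 1 (m 112 2 (q 113 1 (q 114 1 (q 115 1 (m 116 1 (q 118 1 o))))))))))))) e) e) e) (n (n (n (l (q 143 1 o)) e) e) e)) (n (n (n (n (l (m 141 6 (q 142 3 o))) e) e) e) e)) (n (n (n (n (n (l (q 135 5 (q 136 9 (q 137 4 o)))) e) e) e) e) e)) (n (n (n (n (n (n (l (q 128 4 (m 129 2 (q 130 2 (m 131 4 (m 132 3 (m 133 5 (q 134 1 o)))))))) e) e) e) (n (n (n (l (q 143 1 o)) e) e) e)) (n (n (n (n (l (q 141 1 (m 142 1 o))) e) e) e) e)) (n (n (n (n (n (l (m 139 1 o)) e) e) e)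 (n (n (n (l (m 143 4 o)) e) e) e)) e))) (n (n (n (n (n (n (n (l (q 119 2 (q 121 1 (q 122 3 (q 123 2 (q 124 2 (q 125 1 (q 126 1 o)))))))) e) e) e) (n (n (n (l (q 143 3 o)) e) e) e)) (n (n (n (n (l (m 141 8 (q 142 6 o))) e) e) e) e)) (n (n (n (n (n (l (m 139 3 (m 140 4 o))) e) e) e) (n (n (n (l (m 143 3 o)) e) e) e)) e)) (n (n (n (n (n (n (l (m 135 2 (m 136 3 (m 137 2 (m 138 1 o))))) e) e) e) (n (n (n (l (m 143 4 o)) e) e) e)) e) (n (n (n (n (n (l (m 141 2 (q 142 1 o))) e) e) e) e) (n (n (n (n (l (m 143 1 o)) e) e) e) e)))))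
def r77 : Tb SV := (n (n (n (n (n (n (n (n (l (q 101 2 (m 102 2 (m 103 2 (m 104 1 (q 105 2 (m 107 1 (m 108 1 (q 109 1 (m 111 3 (q 112 1 (q 113 2 (q 114 3 (q 115 1 o)))))))))))))) e) e) e) (n (n (n (l (m 143 5 o)) e) e) e)) (n (n (n (n (l (q 141 189 (q 142 459 o))) e) e) e) e)) (n (n (n (n (n (l (m 135 13 (q 136 153 (m 137 162 (m 138 244 o))))) e) e) e) (n (n (n (l (q 143 3 o)) e) e) e)) e)) (n (n (n (n (n (n (l (m 128 11 (q 129 19 (m 130 53 (m 131 1 (m 132 3 (m 133 19 (q 134 6 o)))))))) e) e) e) (n (n (n (l (q 143 43 o)) e) e) e)) (n (n (n (n (l (m 141 123 (m 142 330 o))) e) e) e) e)) (n (n (n (n (n (l (q 139 2 o)) e) e) e) (n (n (n (l (m 143 140 o)) e) e) e)) e))) (n (n (n (n (n (n (n (l (m 119 35 (q 120 45 (q 121 48 (m 122 106 (q 123 65 (m 124 61 (m 125 103 (m 126 24 o))))))))) e) e) e) (n (n (n (l (q 143 167 o)) e) e) e)) (n (n (n (n (l (q 141 256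 (q 142 579 o))) e) e) e) e)) (n (n (n (n (n (l (m 139 8 (m 140 2 o))) e) e) e) (n (n (n (l (m 143 102 o)) e) e) e)) e)) (n (n (n (n (n (n (l (q 135 13 (m 136 71 (q 137 75 (q 138 115 o))))) e) e) e) (n (n (n (l (m 143 241 o)) e) e) e)) e) (n (n (n (n (n (l (q 141 54 (q 142 118 o))) e) e) e) e) (n (n (n (n (l (m 143 105 o)) e) e) e) e)))))
def r78 : Tb SV := (n (n (n (n (n (n (n (n (l (q 102 2 (q 103 4 (m 104 1 (q 105 2 (m 106 2 (q 107 1 (m 108 1 (q 109 1 (m 110 1 (q 112 1 (q 114 2 (q 115 2 o))))))))))))) e) e) e) (n (n (n (l (q 143 20 o)) e) e) e)) (n (n (n (n (l (m 141 47 (m 142 137 o))) e) e) e) e)) (n (n (n (n (n (l (m 135 2 (m 136 85 (q 137 36 (q 138 63 o))))) e) e) e) (n (n (n (l (q 143 5 o)) e) e) e)) e)) (n (n (n (n (n (n (l (m 128 1 (m 129 2 (q 130 25 (q 132 1 (q 133 10 (m 134 6 o))))))) e) e) e) (n (n (n (l (m 143 5 o)) e) e) e)) (n (n (n (n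 (l (q 141 27 (q 142 107 o))) e) e) e) e)) (n (n (n (n (n (l (q 139 7 (m 140 4 o))) e) e) e) (n (n (n (l (q 143 99 o)) e) e) e)) e))) (n (n (n (n (n (n (n (l (q 119 8 (m 120 28 (m 121 33 (q 122 29 (m 123 35 (q 124 16 (q 125 35 (q 126 4 o))))))))) e) e) e) (n (n (n (l (m 143 89 o)) e) e) e)) (n (n (n (n (l (m 141 65 (m 142 171 o))) e) e) e) e)) (n (n (n (n (n (l (m 139 6 (q 140 1 o))) e) e) e) (n (n (n (l (q 143 68 o)) e) e) e)) e)) (n (n (n (n (n (n (l (m 135 2 (q 136 40 (m 137 18 (m 138 33 o))))) e) e) e) (n (n (n (l (q 143 168 o)) e) e) e)) e) (n (n (n (n (n (l (m 141 15 (m 142 34 o))) e) e) e) e) (n (n (n (n (l (q 143 71 o)) e) e) e) e)))))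
def r79 : Tb SV := (n (n (n (n (n (n (n (n (l (m 101 2 (q 102 1 (q 103 1 (q 104 2 (q 105 2 (m 106 1 (m 107 1 (m 108 1 (m 109 3 (q 110 1 (m 111 1 (q 113 2 (m 114 1 (m 115 2 (q 116 1 (q 117 1 (q 118 1 o)))))))))))))))))) e) e) e) (n (n (n (l (q 143 11 o)) e) e) e)) (n (n (n (n (l (m 141 113 (m 142 312 o))) e) e) e) e)) (n (n (n (n (n (l (m 135 2 (m 136 103 (q 137 80 (q 138 133 o))))) e) e) e) (n (n (n (l (q 143 4 o)) e) e) e)) e)) (n (n (n (n (n (n (l (q 128 9 (m 129 16 (q 130 21 (q 131 1 (m 132 1 (q 133 6 (m 134 10 o)))))))) e) e) e) (n (n (n (l (m 143 36 o)) e) e) e)) (n (n (n (n (l (q 141 70 (q 142 202 o))) e) e) e) e)) (n (n (n (n (n (l (q 139 2 (q 140 5 o))) e) e) e) (n (n (n (l (q 143 162 o)) e) e) e)) e))) (n (n (n (n (n (n (n (l (q 119 15 (m 120 34 (m 121 39 (q 122 51 (m 123 45 (q 124 27 (q 125 53 (q 126 10 o))))))))) e) e) e) (n (n (n (l (m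 143 176 o)) e) e) e)) (n (n (n (n (l (m 141 154 (m 142 393 o))) e) e) e) e)) (n (n (n (n (n (l (m 139 2 o)) e) e) e) (n (n (n (l (q 143 112 o)) e) e) e)) e)) (n (n (n (n (n (n (l (m 135 3 (q 136 50 (m 137 36 (m 138 62 o))))) e) e) e) (n (n (n (l (q 143 265 o)) e) e) e)) e) (n (n (n (n (n (l (m 141 34 (m 142 87 o))) e) e) e) e) (n (n (n (n (l (q 143 118 o)) e) e) e) e)))))
def r80 : Tb SV := (n (n (n (n (n (n (n (n (l (q 101 2 (q 103 1 (q 104 2 (q 105 3 (q 106 3 (m 107 1 (q 108 4 (q 109 3 (m 110 2 (m 111 1 (q 112 1 (m 113 3 (q 114 1 (q 115 2 (q 117 2 o)))))))))))))))) e) e) e) (n (n (n (l (q 143 16 o)) e) e) e)) (n (n (n (n (l (m 141 73 (q 142 38 o))) e) e) e) e)) (n (n (n (n (n (l (m 135 18 (m 136 3 (q 137 35 (q 138 27 o))))) e) e) e) (n (n (n (l (m 143 6 o)) e) e) e)) e)) (n (n (n (n (n (n (l (m 129 3 (q 130 20 (m 131 2 (m 132 1 (q 133 11 (m 134 2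 o))))))) e) e) e) (n (n (n (l (q 143 14 o)) e) e) e)) (n (n (n (n (l (q 141 46 (q 142 10 o))) e) e) e) e)) (n (n (n (n (n (l (m 139 3 o)) e) e) e) (n (n (n (l (m 143 33 o)) e) e) e)) e))) (n (n (n (n (n (n (n (l (m 119 15 (m 120 10 (q 121 6 (q 122 31 (m 123 12 (q 124 13 (q 125 25 (q 126 8 o))))))))) e) e) e) (n (n (n (l (q 143 33 o)) e) e) e)) (n (n (n (n (l (m 141 98 (q 142 45 o))) e) e) e) e)) (n (n (n (n (n (l (q 139 1 (m 140 4 o))) e) e) e) (n (n (n (l (m 143 22 o)) e) e) e)) e)) (n (n (n (n (n (n (l (q 135 3 (q 136 3 (m 137 16 (m 138 18 o))))) e) e) e) (n (n (n (l (m 143 33 o)) e) e) e)) e) (n (n (n (n (n (l (m 141 22 (q 142 22 o))) e) e) e) e) (n (n (n (n (l (m 143 17 o)) e) e) e) e)))))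
def r82 : Tb SV := (n (n e (n (n (n (n (n (n (l (q 136 1 o)) e) e) e) e) e) (n (n (n (n (n (l (q 142 1 o)) e) e) e) e) e))) (n (n e (n (n (n (n (n (l (m 142 1 o)) e) e) e) e) e)) e))
def r83 : Tb SV := (n (n (n e (n e (n (n (n (n (l (q 143 2 o)) e) e) e) e))) (n (n (n (n (n (n (l (q 137 1 o)) e) e) e) e) e) (n (n (n (n (n (l (m 142 2 o)) e) e) e) e) (n (n (n (n (l (m 143 2 o)) e) e) e) e)))) (n (n e (n (n (n (n (n (l (q 142 2 o)) e) e) e) e) (n (n (n (n (l (m 143 1 o)) e) e) e) e))) e))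
def r84 : Tb SV := (n (n (n e (n e (n (n (n (n (l (m 143 2 o)) e) e) e) e))) (n (n (n (n (n (n (l (q 138 1 o)) e) e) e) e) e) (n (n (n (n (n (l (q 142 2 o)) e) e) e) e) (n (n (n (n (l (q 143 2 o)) e) e) e) e)))) (n (n e (n (n (n (n (n (l (m 142 1 o)) e) e) e) e) (n (n (n (n (l (q 143 1 o)) e) e) e) e))) e))
def r85 : Tb SV := (n (n (n (n (n (n (n (n (l (q 119 1 o)) e) e) e) e) e) e) (n (n (n (n (n (n (l (m 136 1 o)) e) e) e) e) e) (n (n (n (n (n (l (m 142 1 o)) e) e) e) e) e))) (n (n e (n (n (n (n (n (l (q 142 1 o)) e) e) e) e) e)) e))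
def r86 : Tb SV := (n (n (n (n (n (n (n (n (l (q 120 1 o)) e) e) e) e) e) (n e (n (n (n (n (l (q 143 2 o)) e) e) e) e))) (n (n (n (n (n (n (l (m 137 1 o)) e) e) e) e) e) (n (n (n (n (n (l (q 141 1 (q 142 1 o))) e) e) e) e) (n (n (n (n (l (m 143 4 o)) e) e) e) e)))) (n (n e (n (n (n (n (n (l (m 141 1 (m 142 1 o))) e) e) e) e) (n (n (n (n (l (m 143 1 o)) e) e) e) e))) e))
def r87 : Tb SV := (n (n (n (n (n (n (n (n (l (q 121 1 o)) e) e) e) e) e) (n e (n (n (n (n (l (q 143 2 o)) e) e) e) e))) (n (n (n (n (n (n (l (m 138 1 o)) e) e) e) e) e) (n (n (n (n (n (l (m 142 3 o)) e) e) e) e) (n (n (n (n (l (m 143 2 o)) e) e) e) e)))) (n (n e (n (n (n (n (n (l (q 142 1 o)) e) e) e) e) (n (n (n (n (l (m 143 1 o)) e) e) e) e))) e))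
def r88 : Tb SV := (n (n (n (n (n (n (n (n (l (q 126 1 o)) e) e) e) e) e) (n e (n (n (n (n (l (q 143 2 o)) e) e) e) e))) (n (n (n (n (n (n (l (q 135 1 o)) e) e) e) e) e) (n (n (n (n (n (l (q 141 1 o)) e) e) e) e) (n (n (n (n (l (m 143 2 o)) e) e) e) e)))) (n (n e (n (n (n (n (n (l (q 141 1 o)) e) e) e) e) (n (n (n (n (l (m 143 1 o)) e) e) e) e))) e))
def r89 : Tb SV := (n (n (n e (n e (n (n (n (n (l (q 143 7 o)) e) e) e) e))) (n (n (n (n (n (n (l (q 135 1 o)) e) e) e) e) e) (n (n (n (n (n (l (q 141 2 o)) e) e) e) e) (n (n (n (n (l (m 143 8 o)) e) e) e) e)))) (n (n e (n (n (n (n (n (l (m 141 1 o)) e) e) e) e) (n (n (n (n (l (m 143 4 o)) e) e) e) e))) e))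
def r90 : Tb SV := (n (n (n (n (n (n (n (n (l (q 122 1 o)) e) e) e) e) e) (n e (n (n (n (n (l (q 143 2 o)) e) e) e) e))) (n e (n (n (n (n (n (l (m 142 1 o)) e) e) e) e) (n (n (n (n (l (m 143 3 o)) e) e) e) e)))) (n (n e (n (n (n (n (n (l (m 141 1 (q 142 1 o))) e) e) e) e) (n (n (n (n (l (m 143 1 o)) e) e) e) e))) e))
def r91 : Tb SV := (n (n (n (n (n (n (n (n (l (q 123 1 o)) e) e) e) e) e) (n e (n (n (n (n (l (m 143 4 o)) e) e) e) e))) (n (n (n (n (n (n (l (q 136 1 o)) e) e) e) e) e) (n (n (n (n (n (l (m 141 1 (q 142 2 o))) e) e) e) e) (n (n (n (n (l (q 143 6 o)) e) e) e) e)))) (n (n e (n (n (n (n (n (l (q 141 1 (m 142 1 o))) e) e) e) e) (n (n (n (n (l (q 143 2 o)) e) e) e) e))) e))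
def r92 : Tb SV := (n (n (n (n (n (n (n (n (l (q 124 1 o)) e) e) e) e) e) (n e (n (n (n (n (l (m 143 3 o)) e) e) e) e))) (n (n (n (n (n (n (l (q 137 1 o)) e) e) e) e) e) (n (n (n (n (n (l (m 141 1 (m 142 1 o))) e) e) e) e) (n (n (n (n (l (q 143 4 o)) e) e) e) e)))) (n (n e (n (n (n (n (n (l (q 141 2 (q 142 1 o))) e) e) e) e) (n (n (n (n (l (q 143 2 o)) e) e) e) e))) e))
def r93 : Tb SV := (n (n (n (n (n (n (n (n (l (q 125 1 o)) e) e) e) e) e) (n e (n (n (n (n (l (m 143 6 o)) e) e) e) e))) (n (n (n (n (n (n (l (m 135 1 (q 138 1 o))) e) e) e) e) e) (n (n (n (n (n (l (m 141 1 (q 142 3 o))) e) e) e) e) (n (n (n (n (l (q 143 7 o)) e) e) e) e)))) (n (n e (n (n (n (n (n (l (m 142 1 o)) e) e) e) e) (n (n (n (n (l (q 143 3 o)) e) e) e) e))) e))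
def r94 : Tb SV := (n (n (n (n (n (n (n (n (l (m 123 1 (m 124 1 o))) e) e) e) e) e) (n e (n (n (n (n (l (q 143 1 o)) e) e) e) e))) (n (n (n (n (n (n (l (m 136 1 (m 137 1 o))) e) e) e) e) e) (n (n (n (n (n (l (m 141 1 (m 142 1 o))) e) e) e) e) (n (n (n (n (l (m 143 1 o)) e) e) e) e)))) (n (n e (n e (n (n (n (n (l (m 143 1 o)) e) e) e) e))) e))
def r95 : Tb SV := (n (n (n (n (n (n (n (n (l (m 127 1 o)) e) e) e) e) e) (n (n (n (n (n (l (q 139 5 (m 140 2 o))) e) e) e) e) e)) e) (n (n (n (n (n (n (n (l (q 129 1 (q 132 1 (q 133 1 o)))) e) e) e) e) e) e) (n (n (n (n (n (n (l (m 139 2 (q 140 1 o))) e) e) e) e) (n (n (n (n (l (m 143 1 o)) e) e) e) e)) e)))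
def r96 : Tb SV := (n (n (n (n (n (n (n (n (l (q 127 1 o)) e) e) e) e) e) (n (n (n (n (n (l (q 139 5 (m 140 2 o))) e) e) e) e) e)) e) (n (n (n (n (n (n (n (l (m 129 2 (q 130 2 (q 131 1 (q 132 1 (q 133 1 o)))))) e) e) e) e) e) e) (n (n (n (n (n (n (l (m 139 2 o)) e) e) e) e) (n (n (n (n (l (m 143 1 o)) e) e) e) e)) e)))
def r97 : Tb SV := (n (n (n (n (n (n (n (n (l (q 127 2 o)) e) e) e) e) e) (n (n (n (n (n (l (q 139 4 (m 140 2 o))) e) e) e) e) e)) e) (n (n (n (n (n (n (n (l (m 130 2 (q 132 2 o))) e) e) e) e) e) e) (n (n (n (n (n (n (l (m 139 2 o)) e) e) e) e) (n (n (n (n (l (m 143 2 o)) e) e) e) e)) e)))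
def r98 : Tb SV := (n (n (n (n (n (n (n (n (l (q 127 1 o)) e) e) e) e) e) (n (n (n (n (n (l (m 140 5 o)) e) e) e) e) e)) e) (n (n (n (n (n (n (n (l (m 129 1 (q 130 1 (q 131 1 (m 132 3 (q 133 2 o)))))) e) e) e) e) e) e) (n (n (n (n (n (n (l (q 139 1 (q 140 1 o))) e) e) e) e) (n (n (n (n (l (q 143 3 o)) e) e) e) e)) e)))
def r99 : Tb SV := (n (n (n (n (n (n (n (n (l (q 127 2 o)) e) e) e) e) e) (n (n (n (n (n (l (q 139 8 (m 140 12 o))) e) e) e) e) e)) e) (n (n (n (n (n (n (n (l (q 129 2 (q 130 3 (m 131 2 (q 132 1 (q 133 2 o)))))) e) e) e) e) e) e) (n (n (n (n (n (n (l (m 139 3 (q 140 4 o))) e) e) e) e) (n (n (n (n (l (m 143 1 o)) e) e) e) e)) e)))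
def r100 : Tb SV := (n (n (n (n (n (n (n (n (l (m 127 2 o)) e) e) e) e) e) (n (n (n (n (n (l (q 139 5 (m 140 9 o))) e) e) e) e) e)) e) (n (n (n (n (n (n (n (l (m 129 1 (q 130 2 (m 131 4 (q 132 1 (q 133 1 o)))))) e) e) e) e) e) e) (n (n (n (n (n (n (l (m 139 2 (q 140 5 o))) e) e) e) e) (n (n (n (n (l (m 143 1 o)) e) e) e) e)) e)))
def r102 : Tb SV := (n (n (n (n e (n (n (n (n (l (m 143 12 o)) e) e) e) e)) (n (n (n (n (n (l (q 141 3 (q 142 3 o))) e) e) e) e) e)) (n (n e (n (n (n (n (l (q 143 6 o)) e) e) e) e)) e)) (n (n (n (n (n (n (n (l (q 136 1 (q 137 1 o))) e) e) e) e) (n (n (n (n (l (m 143 15 o)) e) e) e) e)) e) (n (n (n (n (n (n (l (m 141 1 (m 142 1 o))) e) e) e) e) e) (n (n (n (n (n (l (m 143 4 o)) e) e) e) e) e))))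
def r103 : Tb SV := (n (n (n (n e (n (n (n (n (l (m 143 4 o)) e) e) e) e)) (n (n (n (n (n (l (q 141 2 o)) e) e) e) e) e)) (n (n e (n (n (n (n (l (q 143 3 o)) e) e) e) e)) e)) (n (n (n (n (n (n (n (l (q 135 1 o)) e) e) e) e) (n (n (n (n (l (m 143 5 o)) e) e) e) e)) e) (n (n (n (n (n (n (l (m 141 1 o)) e) e) e) e) e) (n (n (n (n (n (l (m 143 1 o)) e) e) e) e) e))))
def r106 : Tb SV := (n (n (n (n e (n (n (n (n (l (m 143 24 o)) e) e) e) e)) (n (n (n (n (n (l (q 142 1 o)) e) e) e) e) e)) (n (n e (n (n (n (n (l (q 143 13 o)) e) e) e) e)) e)) (n (n (n (n (n (n (n (l (q 136 2 (m 138 1 o))) e) e) e) e) (n (n (n (n (l (m 143 30 o)) e) e) e) e)) e) (n e (n (n (n (n (n (l (m 143 8 o)) e) e) e) e) e))))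
def r107 : Tb SV := (n (n (n (n e (n (n (n (n (l (q 143 18 o)) e) e) e) e)) (n (n (n (n (n (l (m 141 3 o)) e) e) e) e) e)) (n (n e (n (n (n (n (l (m 143 9 o)) e) e) e) e)) e)) (n (n (n (n (n (n (n (l (m 136 1 o)) e) e) e) e) (n (n (n (n (l (q 143 23 o)) e) e) e) e)) e) (n (n (n (n (n (n (l (q 141 1 o)) e) e) e) e) e) (n (n (n (n (n (l (q 143 6 o)) e) e) e) e) e))))
def r108 : Tb SV := (n (n (n (n e (n (n (n (n (l (q 143 12 o)) e) e) e) e)) (n (n (n (n (n (l (m 141 3 (m 142 1 o))) e) e) e) e) e)) (n (n e (n (n (n (n (l (m 143 6 o)) e) e) e) e)) e)) (n (n (n (n (n (n (n (l (m 136 1 (q 138 1 o))) e) e) e) e) (n (n (n (n (l (q 143 15 o)) e) e) e) e)) e) (n (n (n (n (n (n (l (q 141 1 o)) e) e) e) e) e) (n (n (n (n (n (l (q 143 4 o)) e) e) e) e) e))))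
def r109 : Tb SV := (n (n (n (n e (n (n (n (n (l (q 143 30 o)) e) e) e) e)) e) (n (n e (n (n (n (n (l (m 143 16 o)) e) e) e) e)) e)) (n (n (n (n (n (n (n (l (m 136 1 o)) e) e) e) e) (n (n (n (n (l (q 143 38 o)) e) e) e) e)) e) (n e (n (n (n (n (n (l (q 143 10 o)) e) e) e) e) e))))
def r110 : Tb SV := (n (n (n (n e (n (n (n (n (l (q 143 15 o)) e) e) e) e)) (n (n (n (n (n (l (m 142 3 o)) e) e) e) e) e)) (n (n (n (n (n (n (l (q 140 1 o)) e) e) e) e) (n (n (n (n (l (m 143 8 o)) e) e) e) e)) e)) (n (n (n (n (n (n (n (l (m 136 1 o)) e) e) e) e) (n (n (n (n (l (q 143 19 o)) e) e) e) e)) e) (n (n (n (n (n (n (l (q 142 1 o)) e) e) e) e) e) (n (n (n (n (n (l (q 143 5 o)) e) e) e) e) e))))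
def r111 : Tb SV := (n (n (n (n e (n (n (n (n (l (m 143 18 o)) e) e) e) e)) (n (n (n (n (n (l (q 142 1 o)) e) e) e) e) e)) (n (n (n (n (n (n (l (q 139 1 o)) e) e) e) e) (n (n (n (n (l (q 143 10 o)) e) e) e) e)) e)) (n (n (n (n (n (n (n (l (q 136 1 (m 138 1 o))) e) e) e) e) (n (n (n (n (l (m 143 22 o)) e) e) e) e)) e) (n e (n (n (n (n (n (l (m 143 6 o)) e) e) e) e) e))))
def r112 : Tb SV := (n (n (n (n (n (n (n (n (l (q 129 1 o)) e) e) e) e) e) e) e) e)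
def r113 : Tb SV := (n (n (n (n (n (n (n (n (l (q 128 1 o)) e) e) e) e) (n (n (n (n (l (q 143 12 o)) e) e) e) e)) (n (n (n (n (n (l (m 142 4 o)) e) e) e) e) e)) (n (n e (n (n (n (n (l (m 143 7 o)) e) e) e) e)) e)) (n (n (n (n (n (n (n (l (m 136 1 o)) e) e) e) e) (n (n (n (n (l (q 143 15 o)) e) e) e) e)) e) (n (n (n (n (n (n (l (q 142 1 o)) e) e) e) e) e) (n (n (n (n (n (l (q 143 4 o)) e) e) e) e) e))))
def r114 : Tb SV := (n (n (n (n (n (n (n (n (l (q 134 1 o)) e) e) e) e) (n (n (n (n (l (q 143 3 o)) e) e) e) e)) (n (n (n (n (n (l (m 141 1 o)) e) e) e) e) e)) (n (n e (n (n (n (n (l (m 143 1 o)) e) e) e) e)) e)) (n (n (n e (n (n (n (n (l (q 143 4 o)) e) e) e) e)) e) (n e (n (n (n (n (n (l (q 143 1 o)) e) e) e) e) e))))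
def r115 : Tb SV := (n (n (n (n (n (n (n (n (l (q 130 1 o)) e) e) e) e) (n (n (n (n (l (m 143 15 o)) e) e) e) e)) (n (n (n (n (n (l (q 142 3 o)) e) e) e) e) e)) (n (n (n (n (n (n (l (m 140 1 o)) e) e) e) e) (n (n (n (n (l (q 143 8 o)) e) e) e) e)) e)) (n (n (n (n (n (n (n (l (q 136 1 o)) e) e) e) e) (n (n (n (n (l (m 143 19 o)) e) e) e) e)) e) (n (n (n (n (n (n (l (m 142 1 o)) e) e) e) e) e) (n (n (n (n (n (l (m 143 5 o)) e) e) e) e) e))))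
def r116 : Tb SV := (n (n (n (n (n (n (n (n (l (q 133 1 o)) e) e) e) e) (n (n (n (n (l (m 143 6 o)) e) e) e) e)) (n (n (n (n (n (l (m 142 2 o)) e) e) e) e) e)) (n (n (n (n (n (n (l (q 139 1 o)) e) e) e) e) (n (n (n (n (l (q 143 3 o)) e) e) e) e)) e)) (n (n (n (n (n (n (n (l (m 138 1 o)) e) e) e) e) (n (n (n (n (l (m 143 7 o)) e) e) e) e)) e) (n (n (n (n (n (n (l (q 142 1 o)) e) e) e) e) e) (n (n (n (n (n (l (m 143 2 o)) e) e) e) e) e))))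
def r117 : Tb SV := (n (n (n (n (n (n (n (n (l (q 131 1 o)) e) e) e) e) e) e) (n (n (n (n (n (n (l (q 140 1 o)) e) e) e) e) e) e)) e)
def r118 : Tb SV := (n (n (n (n (n (n (n (n (l (q 132 1 o)) e) e) e) e) (n (n (n (n (l (m 143 2 o)) e) e) e) e)) e) (n (n (n (n (n (n (l (q 139 1 o)) e) e) e) e) e) e)) (n (n (n e (n (n (n (n (l (m 143 2 o)) e) e) e) e)) e) (n e (n (n (n (n (n (l (m 143 1 o)) e) e) e) e) e))))
def r120 : Tb SV := (n (n e (n e (n (n (n (n (n (l (m 143 1 o)) e) e) e) e) e))) (n (n e (n (n (n (n (n (l (q 143 1 o)) e) e) e) e) e)) e))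
def r121 : Tb SV := (n (n e (n (n (n (n (n (n (l (m 142 1 o)) e) e) e) e) e) e)) e)
def r122 : Tb SV := (n (n e (n (n (n (n (n (n (l (m 141 1 o)) e) e) e) e) e) (n (n (n (n (n (l (m 143 1 o)) e) e) e) e) e))) e)
def r123 : Tb SV := (n (n (n (n (n (n (n (n (l (q 136 1 o)) e) e) e) e) e) e) (n (n (n (n (n (n (l (q 142 1 o)) e) e) e) e) e) (n (n (n (n (n (l (q 143 1 o)) e) e) e) e) e))) (n (n e (n (n (n (n (n (l (m 143 1 o)) e) e) e) e) e)) e))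
def r124 : Tb SV := (n (n (n (n (n (n (n (n (l (q 137 1 o)) e) e) e) e) e) e) (n (n (n (n (n (n (l (q 141 1 o)) e) e) e) e) e) (n (n (n (n (n (l (q 143 1 o)) e) e) e) e) e))) (n (n e (n (n (n (n (n (l (q 143 1 o)) e) e) e) e) e)) e))
def r125 : Tb SV := (n (n (n (n (n (n (n (n (l (q 138 1 o)) e) e) e) e) e) e) (n (n (n (n (n (n (l (q 142 1 o)) e) e) e) e) e) e)) (n (n e (n (n (n (n (n (l (m 143 1 o)) e) e) e) e) e)) e))
def r126 : Tb SV := (n (n (n (n (n (n (n (n (l (q 135 1 o)) e) e) e) e) e) e) (n (n (n (n (n (n (l (q 141 1 o)) e) e) e) e) e) (n (n (n (n (n (l (q 143 1 o)) e) e) e) e) e))) (n (n e (n (n (n (n (n (l (q 143 1 o)) e) e) e) e) e)) e))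
def r127 : Tb SV := (n e (n (n (n (n (n (n (n (l (q 140 1 o)) e) e) e) e) e) e) e))
def r128 : Tb SV := (n (n (n e (n (n (n (n (n (l (m 143 3 o)) e) e) e) e) e)) e) (n (n (n (n (n (n (n (l (q 142 1 o)) e) e) e) e) e) e) (n (n (n (n (n (n (l (q 143 1 o)) e) e) e) e) e) e)))
def r131 : Tb SV := (n (n (n (n (n (n (n (n (l (q 140 1 o)) e) e) e) e) e) e) e) e)
def r132 : Tb SV := (n (n (n (n (n (n (n (n (l (q 139 1 o)) e) e) e) e) e) (n (n (n (n (n (l (m 143 1 o)) e) e) e) e) e)) e) e)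
def r133 : Tb SV := (n (n (n e (n (n (n (n (n (l (m 143 3 o)) e) e) e) e) e)) e) (n e (n (n (n (n (n (n (l (q 143 1 o)) e) e) e) e) e) e)))
def r134 : Tb SV := (n (n (n e (n (n (n (n (n (l (q 143 2 o)) e) e) e) e) e)) e) (n (n (n (n (n (n (n (l (q 141 1 o)) e) e) e) e) e) e) (n (n (n (n (n (n (l (m 143 1 o)) e) e) e) e) e) e)))
def r135 : Tb SV := (n (n (n (n (n (n (n (n (l (q 141 1 o)) e) e) e) e) e) e) (n (n (n (n (n (n (l (q 143 1 o)) e) e) e) e) e) e)) e)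
def r137 : Tb SV := (n (n e (n (n (n (n (n (n (l (q 143 1 o)) e) e) e) e) e) e)) e)
def r138 : Tb SV := (n (n (n (n (n (n (n (n (l (q 142 1 o)) e) e) e) e) e) e) (n (n (n (n (n (n (l (m 143 1 o)) e) e) e) e) e) e)) e)
def r139 : Tb SV := (n e (n (n (n (n (n (n (n (l (q 143 1 o)) e) e) e) e) e) e) e))
def r141 : Tb SV := (n (n (n (n (n (n (n (n (l (q 143 1 o)) e) e) e) e) e) e) e) e)

def tbl : Tb (Tb SV) := (n (n (n (n (n (n (n (n (l r0) (l r128)) (n (l r64) e)) (n (n (l r32) e) (n (l r96) e))) (n (n (n (l r16) e) (n (l r80) e)) (n (n (l r48) e) (n (l r112) e)))) (n (n (n (n (l r8) e) (n (l r72) e)) (n (n (l r40) e) e)) (n (n (n (l r24) e) (n (l r88) e)) (n (n (l r56) e) (n (l r120) e))))) (n (n (n (n (n (l r4) (l r132)) (n (l r68) e)) (n (n (l r36) e) (n (l r100) e))) (n (n (n (l r20) e) (n (l r84) e)) (n (n (l r52) e) (n (l r116) e)))) (n (n (n (n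 (l r12) e) (n (l r76) e)) (n (n (l r44) e) (n (l r108) e))) (n (n (n (l r28) e) (n (l r92) e)) (n (n (l r60) e) (n (l r124) e)))))) (n (n (n (n (n (n (l r2) e) (n (l r66) e)) (n (n (l r34) e) (n (l r98) e))) (n (n (n (l r18) e) (n (l r82) e)) (n (n (l r50) e) (n (l r114) e)))) (n (n (n (n (l r10) (l r138)) (n (l r74) e)) (n (n (l r42) e) (n (l r106) e))) (n (n (n (l r26) e) (n (l r90) e)) (n (n (l r58) e) (n (l r122) e))))) (n (n (n (n (n (l r6) (l r134)) (n (l r70) e)) (n (n (l r38) e) (n (l r102) e))) (n (n (n (l r22) e) (n (l r86) e)) (n (n (l r54) e) (n (l r118) e)))) (n (n (n (n (l r14) e) (n (l r78) e)) (n (n (l r46) e) (n (l r110) e))) (n (n (n (l r30) e) (n (l r94) e)) (n (n (l r62) e) (n (l r126) e))))))) (n (n (n (n (n (n (n (l r1) e) (n (l r65) e)) (n (n (l r33) e) (n (l r97) e))) (n (n (n (l r17) e) e) (n (n (l r49) e) (n (l r113) e))))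 (n (n (n (n (l r9) (l r137)) (n (l r73) e)) (n (n (l r41) e) e)) (n (n (n (l r25) e) (n (l r89) e)) (n (n (l r57) e) (n (l r121) e))))) (n (n (n (n (n (l r5) (l r133)) (n (l r69) e)) (n (n (l r37) e) e)) (n (n (n (l r21) e) (n (l r85) e)) (n (n (l r53) e) (n (l r117) e)))) (n (n (n (n (l r13) (l r141)) (n (l r77) e)) (n (n (l r45) e) (n (l r109) e))) (n (n (n (l r29) e) (n (l r93) e)) (n (n (l r61) e) (n (l r125) e)))))) (n (n (n (n (n (n (l r3) (l r131)) (n (l r67) e)) (n (n (l r35) e) (n (l r99) e))) (n (n (n (l r19) e) (n (l r83) e)) (n (n (l r51) e) (n (l r115) e)))) (n (n (n (n (l r11) (l r139)) (n (l r75) e)) (n (n (l r43) e) (n (l r107) e))) (n (n (n (l r27) e) (n (l r91) e)) (n (n (l r59) e) (n (l r123) e))))) (n (n (n (n (n (l r7) (l r135)) (n (l r71) e)) (n (n (l r39) e) (n (l r103) e))) (n (n (n (l r23) e) (n (l r87) e)) (n (n (l r55) e)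 e))) (n (n (n (n (l r15) e) (n (l r79) e)) (n (n (l r47) e) (n (l r111) e))) (n (n (n (l r31) e) (n (l r95) e)) (n (n (l r63) e) (n (l r127) e))))))))

def wxT : Tb ℕ := (n (n (n (n (n (n (n (n (l 1) (l 7)) (n (l 5) e)) (n (n (l 4) e) (n (l 7) e))) (n (n (n (l 3) e) (n (l 5) e)) (n (n (l 3) e) (n (l 6) e)))) (n (n (n (n (l 2) (l 6)) (n (l 5) e)) (n (n (l 4) e) (n (l 6) e))) (n (n (n (l 2) e) (n (l 4) e)) (n (n (l 6) e) (n (l 5) e))))) (n (n (n (n (n (l 1) (l 7)) (n (l 5) e)) (n (n (l 4) e) (n (l 7) e))) (n (n (n (l 3) e) (n (l 4) e)) (n (n (l 3) e) (n (l 6) e)))) (n (n (n (n (l 4) (l 8)) (n (l 5) e)) (n (n (l 4) e) (n (l 6) e))) (n (n (n (l 5) e) (n (l 4) e)) (n (n (l 6) e) (n (l 5) e)))))) (n (n (n (n (n (n (l 2) (l 7)) (n (l 5) e)) (n (n (l 4) e) (n (l 7) e))) (n (n (n (l 3) e) (n (l 4) e)) (n (n (l 3) e) (n (l 6) e)))) (n (n (n (n (l 2) (l 6)) (n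 (l 5) e)) (n (n (l 4) e) (n (l 6) e))) (n (n (n (l 2) e) (n (l 4) e)) (n (n (l 6) e) (n (l 5) e))))) (n (n (n (n (n (l 3) (l 7)) (n (l 5) e)) (n (n (l 4) e) (n (l 6) e))) (n (n (n (l 3) e) (n (l 4) e)) (n (n (l 3) e) (n (l 6) e)))) (n (n (n (n (l 4) (l 7)) (n (l 5) e)) (n (n (l 3) e) (n (l 6) e))) (n (n (n (l 5) e) (n (l 4) e)) (n (n (l 5) e) (n (l 5) e))))))) (n (n (n (n (n (n (n (l 0) (l 7)) (n (l 5) e)) (n (n (l 4) e) (n (l 7) e))) (n (n (n (l 3) e) (n (l 4) e)) (n (n (l 3) e) (n (l 6) e)))) (n (n (n (n (l 2) (l 6)) (n (l 5) e)) (n (n (l 4) e) (n (l 6) e))) (n (n (n (l 2) e) (n (l 4) e)) (n (n (l 6) e) (n (l 5) e))))) (n (n (n (n (n (l 3) (l 7)) (n (l 5) e)) (n (n (l 4) e) (n (l 6) e))) (n (n (n (l 3) e) (n (l 4) e)) (n (n (l 3) e) (n (l 6) e)))) (n (n (n (n (l 4) (l 7)) (n (l 5) e)) (n (n (l 3) e) (n (l 6) e))) (n (n (n (l 5) e) (n (l 4) e)) (n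 (n (l 5) e) (n (l 5) e)))))) (n (n (n (n (n (n (l 1) (l 7)) (n (l 5) e)) (n (n (l 4) e) (n (l 7) e))) (n (n (n (l 3) e) (n (l 4) e)) (n (n (l 3) e) (n (l 6) e)))) (n (n (n (n (l 1) (l 8)) (n (l 5) e)) (n (n (l 4) e) (n (l 6) e))) (n (n (n (l 5) e) (n (l 4) e)) (n (n (l 6) e) (n (l 5) e))))) (n (n (n (n (n (l 2) (l 6)) (n (l 5) e)) (n (n (l 4) e) (n (l 6) e))) (n (n (n (l 2) e) (n (l 4) e)) (n (n (l 3) e) (n (l 5) e)))) (n (n (n (n (l 3) (l 8)) (n (l 5) e)) (n (n (l 3) e) (n (l 6) e))) (n (n (n (l 4) e) (n (l 7) e)) (n (n (l 5) e) (n (l 8) e))))))))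

def waT : Tb ℕ := (n (n (n (n (n (n (n (n (l 0) (l 1)) (n (l 1) e)) (n (n (l 1) e) (n (l 0) e))) (n (n (n (l 1) e) (n (l 1) e)) (n (n (l 2) e) (n (l 1) e)))) (n (n (n (n (l 1) (l 2)) (n (l 1) e)) (n (n (l 1) e) (n (l 1) e))) (n (n (n (l 2) e) (n (l 2) e)) (n (n (l 0) e) (n (l 2) e))))) (n (n (n (n (n (l 1) (l 1)) (n (l 1) e)) (n (n (l 1) e) (n (l 0) e))) (n (n (n (l 1) e) (n (l 2) e)) (n (n (l 2) e) (n (l 1) e)))) (n (n (n (n (l 0) (l 1)) (n (l 1) e)) (n (n (l 1) e) (n (l 1) e))) (n (n (n (l 0) e) (n (l 2) e)) (n (n (l 0) e) (n (l 2) e)))))) (n (n (n (n (n (n (l 0) (l 1)) (n (l 1) e)) (n (n (l 1) e) (n (l 0) e))) (n (n (n (l 1) e) (n (l 2) e)) (n (n (l 2) e) (n (l 1) e)))) (n (n (n (n (l 1) (l 2)) (n (l 1) e)) (n (n (l 1) e) (n (l 1) e))) (n (n (n (l 2) e) (n (l 2) e)) (n (n (l 0) e) (n (l 2) e))))) (n (n (n (n (n (l 0) (l 1)) (n (l 1) e)) (n (n (l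 1) e) (n (l 1) e))) (n (n (n (l 1) e) (n (l 2) e)) (n (n (l 2) e) (n (l 1) e)))) (n (n (n (n (l 0) (l 2)) (n (l 1) e)) (n (n (l 2) e) (n (l 1) e))) (n (n (n (l 0) e) (n (l 2) e)) (n (n (l 1) e) (n (l 2) e))))))) (n (n (n (n (n (n (n (l 1) (l 1)) (n (l 1) e)) (n (n (l 1) e) (n (l 0) e))) (n (n (n (l 1) e) (n (l 2) e)) (n (n (l 2) e) (n (l 1) e)))) (n (n (n (n (l 1) (l 2)) (n (l 1) e)) (n (n (l 1) e) (n (l 1) e))) (n (n (n (l 2) e) (n (l 2) e)) (n (n (l 0) e) (n (l 2) e))))) (n (n (n (n (n (l 0) (l 1)) (n (l 1) e)) (n (n (l 1) e) (n (l 1) e))) (n (n (n (l 1) e) (n (l 2) e)) (n (n (l 2) e) (n (l 1) e)))) (n (n (n (n (l 0) (l 2)) (n (l 1) e)) (n (n (l 2) e) (n (l 1) e))) (n (n (n (l 0) e) (n (l 2) e)) (n (n (l 1) e) (n (l 2) e)))))) (n (n (n (n (n (n (l 1) (l 1)) (n (l 1) e)) (n (n (l 1) e) (n (l 0) e))) (n (n (n (l 1) e) (n (l 2) e)) (n (n (l 2) e) (n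 (l 1) e)))) (n (n (n (n (l 2) (l 1)) (n (l 1) e)) (n (n (l 1) e) (n (l 1) e))) (n (n (n (l 0) e) (n (l 2) e)) (n (n (l 0) e) (n (l 2) e))))) (n (n (n (n (n (l 1) (l 2)) (n (l 1) e)) (n (n (l 1) e) (n (l 1) e))) (n (n (n (l 2) e) (n (l 2) e)) (n (n (l 2) e) (n (l 2) e)))) (n (n (n (n (l 1) (l 2)) (n (l 1) e)) (n (n (l 2) e) (n (l 1) e))) (n (n (n (l 1) e) (n (l 0) e)) (n (n (l 1) e) (n (l 0) e))))))))

def pwT : Tb ℕ := (n (n (n (n (n (n (n (n (l 1) (l 1)) (n (l 79228162514264337593543950336) e)) (n (n (l 4294967296) e) (n (l 4294967296) e))) (n (n (n (l 4294967296) e) (n (l 1062275985633534197379176413104937254659186235454063846398888276400807119721704485478325004530458571337778658972493002030693158675305414478819039957533174703887662541670786438063456256) e)) (n (n (l 79228162514264337593543950336) e) (n (l 9173994463960286046443283581208347763186259956673124494950355357547691504353939232280074212440502746218496)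 e)))) (n (n (n (n (l 4294967296) (l 4294967296)) (n (l 9173994463960286046443283581208347763186259956673124494950355357547691504353939232280074212440502746218496) e)) (n (n (l 497323236409786642155382248146820840100456150797347717440463976893159497012533375533056) e) (n (l 79228162514264337593543950336) e))) (n (n (n (l 4294967296) e) (n (l 26959946667150639794667015087019630673637144422540572481103610249216) e)) (n (n (l 1) e) (n (l 4294967296) e))))) (n (n (n (n (n (l 4294967296) (l 340282366920938463463374607431768211456)) (n (l 26959946667150639794667015087019630673637144422540572481103610249216) e)) (n (n (l 1461501637330902918203684832716283019655932542976) e) (n (l 1461501637330902918203684832716283019655932542976) e))) (n (n (n (l 1461501637330902918203684832716283019655932542976) e) (n (l 79228162514264337593543950336) e)) (n (n (l 26959946667150639794667015087019630673637144422540572481103610249216)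 e) (n (l 3121748550315992231381597229793166305748598142664971150859156959625371738819765620120306103063491971159826931121406622895447975679288285306290176) e)))) (n (n (n (n (l 1) (l 4294967296)) (n (l 3121748550315992231381597229793166305748598142664971150859156959625371738819765620120306103063491971159826931121406622895447975679288285306290176) e)) (n (n (l 169230328010303641331690318856389386196071598838855992136870091590247882556495704531248437872567112920983350278405979725889536) e) (n (l 26959946667150639794667015087019630673637144422540572481103610249216) e))) (n (n (n (l 4294967296) e) (n (l 9173994463960286046443283581208347763186259956673124494950355357547691504353939232280074212440502746218496) e)) (n (n (l 340282366920938463463374607431768211456) e) (n (l 1461501637330902918203684832716283019655932542976) e)))))) (n (n (n (n (n (n (l 1)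 (l 18446744073709551616)) (n (l 1461501637330902918203684832716283019655932542976) e)) (n (n (l 79228162514264337593543950336) e) (n (l 79228162514264337593543950336) e))) (n (n (n (l 79228162514264337593543950336) e) (n (l 4294967296) e)) (n (n (l 1461501637330902918203684832716283019655932542976) e) (n (l 169230328010303641331690318856389386196071598838855992136870091590247882556495704531248437872567112920983350278405979725889536) e)))) (n (n (n (n (l 79228162514264337593543950336) (l 79228162514264337593543950336)) (n (l 169230328010303641331690318856389386196071598838855992136870091590247882556495704531248437872567112920983350278405979725889536) e)) (n (n (l 9173994463960286046443283581208347763186259956673124494950355357547691504353939232280074212440502746218496) e) (n (l 1461501637330902918203684832716283019655932542976) e))) (n (n (n (l 79228162514264337593543950336)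 e) (n (l 497323236409786642155382248146820840100456150797347717440463976893159497012533375533056) e)) (n (n (l 18446744073709551616) e) (n (l 79228162514264337593543950336) e))))) (n (n (n (n (n (l 4294967296) (l 6277101735386680763835789423207666416102355444464034512896)) (n (l 497323236409786642155382248146820840100456150797347717440463976893159497012533375533056) e)) (n (n (l 26959946667150639794667015087019630673637144422540572481103610249216) e) (n (l 4294967296) e))) (n (n (n (l 26959946667150639794667015087019630673637144422540572481103610249216) e) (n (l 1461501637330902918203684832716283019655932542976) e)) (n (n (l 497323236409786642155382248146820840100456150797347717440463976893159497012533375533056) e) (n (l 57586096570152913699974892898380567793532123114264532903689671329431521032595044740083720782129802971518987656109067457577065805510327036019308994315074097345724416)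 e)))) (n (n (n (n (l 18446744073709551616) (l 4294967296)) (n (l 57586096570152913699974892898380567793532123114264532903689671329431521032595044740083720782129802971518987656109067457577065805510327036019308994315074097345724416) e)) (n (n (l 4294967296) e) (n (l 497323236409786642155382248146820840100456150797347717440463976893159497012533375533056) e))) (n (n (n (l 79228162514264337593543950336) e) (n (l 169230328010303641331690318856389386196071598838855992136870091590247882556495704531248437872567112920983350278405979725889536) e)) (n (n (l 4294967296) e) (n (l 26959946667150639794667015087019630673637144422540572481103610249216) e))))))) (n (n (n (n (n (n (n (l 1) (l 4294967296)) (n (l 340282366920938463463374607431768211456) e)) (n (n (l 18446744073709551616) e) (n (l 18446744073709551616) e))) (n (n (n (l 18446744073709551616) e) (n (l 1) e))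 (n (n (l 340282366920938463463374607431768211456) e) (n (l 39402006196394479212279040100143613805079739270465446667948293404245721771497210611414266254884915640806627990306816) e)))) (n (n (n (n (l 18446744073709551616) (l 18446744073709551616)) (n (l 39402006196394479212279040100143613805079739270465446667948293404245721771497210611414266254884915640806627990306816) e)) (n (n (l 2135987035920910082395021706169552114602704522356652769947041607822219725780640550022962086936576) e) (n (l 340282366920938463463374607431768211456) e))) (n (n (n (l 18446744073709551616) e) (n (l 115792089237316195423570985008687907853269984665640564039457584007913129639936) e)) (n (n (l 4294967296) e) (n (l 18446744073709551616) e))))) (n (n (n (n (n (l 1) (l 1461501637330902918203684832716283019655932542976)) (n (l 115792089237316195423570985008687907853269984665640564039457584007913129639936)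 e)) (n (n (l 6277101735386680763835789423207666416102355444464034512896) e) (n (l 1) e))) (n (n (n (l 6277101735386680763835789423207666416102355444464034512896) e) (n (l 340282366920938463463374607431768211456) e)) (n (n (l 115792089237316195423570985008687907853269984665640564039457584007913129639936) e) (n (l 13407807929942597099574024998205846127479365820592393377723561443721764030073546976801874298166903427690031858186486050853753882811946569946433649006084096) e)))) (n (n (n (n (l 4294967296) (l 1)) (n (l 13407807929942597099574024998205846127479365820592393377723561443721764030073546976801874298166903427690031858186486050853753882811946569946433649006084096) e)) (n (n (l 1) e) (n (l 115792089237316195423570985008687907853269984665640564039457584007913129639936) e))) (n (n (n (l 18446744073709551616) e) (n (l 39402006196394479212279040100143613805079739270465446667948293404245721771497210611414266254884915640806627990306816)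 e)) (n (n (l 1) e) (n (l 6277101735386680763835789423207666416102355444464034512896) e)))))) (n (n (n (n (n (n (l 1) (l 79228162514264337593543950336)) (n (l 6277101735386680763835789423207666416102355444464034512896) e)) (n (n (l 340282366920938463463374607431768211456) e) (n (l 340282366920938463463374607431768211456) e))) (n (n (n (l 340282366920938463463374607431768211456) e) (n (l 18446744073709551616) e)) (n (n (l 6277101735386680763835789423207666416102355444464034512896) e) (n (l 726838724295606890549323807888004534353641360687318060281490199180639288113397923326191050713763565560762521606266177933534601628614656) e)))) (n (n (n (n (l 1) (l 1)) (n (l 726838724295606890549323807888004534353641360687318060281490199180639288113397923326191050713763565560762521606266177933534601628614656) e)) (n (n (l 39402006196394479212279040100143613805079739270465446667948293404245721771497210611414266254884915640806627990306816)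 e) (n (l 6277101735386680763835789423207666416102355444464034512896) e))) (n (n (n (l 1) e) (n (l 2135987035920910082395021706169552114602704522356652769947041607822219725780640550022962086936576) e)) (n (n (l 79228162514264337593543950336) e) (n (l 340282366920938463463374607431768211456) e))))) (n (n (n (n (n (l 1) (l 1)) (n (l 2135987035920910082395021706169552114602704522356652769947041607822219725780640550022962086936576) e)) (n (n (l 115792089237316195423570985008687907853269984665640564039457584007913129639936) e) (n (l 18446744073709551616) e))) (n (n (n (l 1) e) (n (l 6277101735386680763835789423207666416102355444464034512896) e)) (n (n (l 2135987035920910082395021706169552114602704522356652769947041607822219725780640550022962086936576) e) (n (l 1) e)))) (n (n (n (n (l 1) (l 1)) (n (l 247330401473104534060502521019647190035131349101211839914063056092897225106531867170316401061243044989597671426016139339351365034306751209967546155101893167916606772148699136)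 e)) (n (n (l 18446744073709551616) e) (n (l 2135987035920910082395021706169552114602704522356652769947041607822219725780640550022962086936576) e))) (n (n (n (l 1) e) (n (l 1) e)) (n (n (l 18446744073709551616) e) (n (l 1) e))))))))

def posT : Tb ℕ := (n (n (n (n (n (n (n (n (l 0) (l 0)) (n (l 3) e)) (n (n (l 1) e) (n (l 1) e))) (n (n (n (l 1) e) (n (l 19) e)) (n (n (l 3) e) (n (l 11) e)))) (n (n (n (n (l 1) (l 1)) (n (l 11) e)) (n (n (l 9) e) (n (l 3) e))) (n (n (n (l 1) e) (n (l 7) e)) (n (n (l 0) e) (n (l 1) e))))) (n (n (n (n (n (l 1) (l 4)) (n (l 7) e)) (n (n (l 5) e) (n (l 5) e))) (n (n (n (l 5) e) (n (l 3) e)) (n (n (l 7) e) (n (l 15) e)))) (n (n (n (n (l 0) (l 1)) (n (l 15) e)) (n (n (l 13) e) (n (l 7) e))) (n (n (n (l 1) e) (n (l 11) e)) (n (n (l 4) e) (n (l 5) e)))))) (n (n (n (n (n (n (l 0) (l 2)) (n (l 5) e)) (n (n (l 3) e) (n (l 3) e)))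 (n (n (n (l 3) e) (n (l 1) e)) (n (n (l 5) e) (n (l 13) e)))) (n (n (n (n (l 3) (l 3)) (n (l 13) e)) (n (n (l 11) e) (n (l 5) e))) (n (n (n (l 3) e) (n (l 9) e)) (n (n (l 2) e) (n (l 3) e))))) (n (n (n (n (n (l 1) (l 6)) (n (l 9) e)) (n (n (l 7) e) (n (l 1) e))) (n (n (n (l 7) e) (n (l 5) e)) (n (n (l 9) e) (n (l 17) e)))) (n (n (n (n (l 2) (l 1)) (n (l 17) e)) (n (n (l 1) e) (n (l 9) e))) (n (n (n (l 3) e) (n (l 13) e)) (n (n (l 1) e) (n (l 7) e))))))) (n (n (n (n (n (n (n (l 0) (l 1)) (n (l 4) e)) (n (n (l 2) e) (n (l 2) e))) (n (n (n (l 2) e) (n (l 0) e)) (n (n (l 4) e) (n (l 12) e)))) (n (n (n (n (l 2) (l 2)) (n (l 12) e)) (n (n (l 10) e) (n (l 4) e))) (n (n (n (l 2) e) (n (l 8) e)) (n (n (l 1) e) (n (l 2) e))))) (n (n (n (n (n (l 0) (l 5)) (n (l 8) e)) (n (n (l 6) e) (n (l 0) e))) (n (n (n (l 6) e) (n (l 4) e)) (n (n (l 8) e) (n (l 16) e)))) (n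 (n (n (n (l 1) (l 0)) (n (l 16) e)) (n (n (l 0) e) (n (l 8) e))) (n (n (n (l 2) e) (n (l 12) e)) (n (n (l 0) e) (n (l 6) e)))))) (n (n (n (n (n (n (l 0) (l 3)) (n (l 6) e)) (n (n (l 4) e) (n (l 4) e))) (n (n (n (l 4) e) (n (l 2) e)) (n (n (l 6) e) (n (l 14) e)))) (n (n (n (n (l 0) (l 0)) (n (l 14) e)) (n (n (l 12) e) (n (l 6) e))) (n (n (n (l 0) e) (n (l 10) e)) (n (n (l 3) e) (n (l 4) e))))) (n (n (n (n (n (l 0) (l 0)) (n (l 10) e)) (n (n (l 8) e) (n (l 2) e))) (n (n (n (l 0) e) (n (l 6) e)) (n (n (l 10) e) (n (l 0) e)))) (n (n (n (n (l 0) (l 0)) (n (l 18) e)) (n (n (l 2) e) (n (l 10) e))) (n (n (n (l 0) e) (n (l 0) e)) (n (n (l 2) e) (n (l 0) e))))))))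

def bsT : Tb ℕ := (n (n (n (n (n (n e (l 127)) (n (l 12) e)) (n (n (l 2) e) (n (l 56) e))) (n (n (n (l 0) e) (n (l 27) e)) (n (n (l 5) e) (n (l 95) e)))) (n (n (n (n e (l 143)) (n (l 81) e)) (n (n (l 23) e) (n (l 135) e))) (n (n (n (l 11) e) (n (l 119) e)) (n (n (l 45) e) (n (l 141) e))))) (n (n (n (n (n (l 1) (l 139)) (n (l 31) e)) (n (n (l 7) e) (n (l 101) e))) (n (n (n (l 3) e) (n (l 61) e)) (n (n (l 15) e) (n (l 128) e)))) e))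

/-- the homogeneous components: degree in the odd generator, degree in the even generator, indices -/
def comps : List (ℕ × ℕ × List ℕ) := [(1, 0, [0]), (0, 1, [1]), (2, 0, [2]), (1, 1, [3, 4]), (3, 0, [5, 6]), (2, 1, [7, 8, 9, 10]), (1, 2, [11]), (4, 0, [12, 13, 14]), (3, 1, [15, 16, 17, 18, 19, 20, 21, 22]), (2, 2, [23, 24, 25, 26]), (5, 0, [27, 28, 29, 30]), (4, 1, [31, 32, 33, 34, 35, 36, 37, 38, 39, 40, 41, 42, 43, 44]), (3, 2, [45, 46, 47, 48, 49, 50, 51, 52, 53, 54, 55]), (6, 0, [56, 57, 58, 59, 60]), (5, 1, [61, 62, 63, 64, 65, 66, 67, 68, 69, 70, 71, 72, 73, 74, 75, 76, 77, 78, 79, 80]), (4, 2, [81, 82, 83, 84, 85, 86, 87, 88, 89, 90, 91, 92, 93, 94]), (7, 0, [95, 96, 97, 98, 99, 100]), (6, 1, [101, 102, 103, 104, 105, 106, 107, 108, 109, 110, 111, 112, 113, 114, 115, 116, 117, 118]), (5, 2, [119, 120, 121, 122, 123, 124, 125, 126]), (8,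 0, [127]), (7, 1, [128, 129, 130, 131, 132, 133, 134]), (6, 2, [135, 136, 137, 138]), (8, 1, [139, 140]), (7, 2, [141, 142]), (8, 2, [143])]

/-- the products of basis vectors -/
noncomputable def T (i j : ℕ) : SV := (tbl.get Tb.e i).get SV.nil j

/-- degree in the odd generator -/
noncomputable def wx (i : ℕ) : ℕ := wxT.get 0 i
/-- degree in the even generator -/
noncomputable def wa (i : ℕ) : ℕ := waT.get 0 i
/-- position inside the component -/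
noncomputable def pos (i : ℕ) : ℕ := posT.get 0 i
/-- first index of a component -/
noncomputable def bs (u v : ℕ) : ℕ := bsT.get 0 (4 * u + v)

end Pool.Agent.Helper805.Mod.Data
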