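import Pool.Agent.Helper805.Mod.Ops
import Pool.Agent.Helper805.Nuc.Ext
import Pool.Agent.Helper805.Nuc.Tens
set_option autoImplicit false

/-! The Grassmann envelope of the rank 144 superring over a field of characteristic not two. -/

namespace Pool.Agent.Helper805.Mod.Env
open Pool.Agent.Helper805.Mod.Super Pool.Agent.Helper805.Mod.Sparse Pool.Agent.Helper805.Mod.Data
  Pool.Agent.Helper805.Mod.Sound Pool.Agent.Helper805.Mod.Ops Pool.Agent.Helper805.Nuc.Ext
  Pool.Agent.Helper805.Nuc.Tens

variable (K : Type) [Field K]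

/-- the exterior algebra -/
abbrev Lam := ExteriorAlgebra K (Fin 8 → K)

/-- monomials -/
noncomputable abbrev Ex (l : List (Fin 8)) : Lam K := E K 8 l

noncomputable def part (b : ℕ) : Submodule K (Lam K) :=
  Submodule.span K {u | ∃ l : List (Fin 8), l.length % 2 = b ∧ u = Ex K l}

lemma Ex_mem (l : List (Fin 8)) : Ex K l ∈ part K (l.length % 2) :=
  Submodule.subset_span ⟨l, rfl, rfl⟩

lemma part_mul {a b : ℕ} {u v : Lam K} (hu : u ∈ part K a) (hv : v ∈ part K b) : u * v ∈ part K ((a + b) % 2) := by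
  induction hu using Submodule.span_induction with
  | mem u hu =>
    obtain ⟨l, hl, rfl⟩ := hu
    induction hv using Submodule.span_induction with
    | mem v hv =>
      obtain ⟨l', hl', rfl⟩ := hv
      have h : Ex K l * Ex K l' = Ex K (l ++ l') := (E_append K 8 l l').symm
      rw [h]
      have h2 := Ex_mem K (l ++ l')
      have h3 : (l ++ l').length % 2 = (a + b) % 2 := by
        rw [List.length_append]; omega
      rwa [h3] at h2
    | zero => rw [mul_zero]; exact Submodule.zero_mem _
    | add x y _ _ hx hy => rw [mul_add]; exact Submodule.add_mem _ hx hy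
    | smul r x _ hx => rw [mul_smul_comm]; exact Submodule.smul_mem _ _ hx
  | zero => rw [zero_mul]; exact Submodule.zero_mem _
  | add x y _ _ hx hy => rw [add_mul]; exact Submodule.add_mem _ hx hy
  | smul r x _ hx => rw [smul_mul_assoc]; exact Submodule.smul_mem _ _ hx

lemma part_swap {a b : ℕ} {u v : Lam K} (ha : a < 2) (hb : b < 2) (hu : u ∈ part K a) (hv : v ∈ part K b) :
    u * v = (if a * b = 1 then (-1 : K) else 1) • (v * u) := by
  induction hu using Submodule.span_induction with
  | mem u hu =>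
    obtain ⟨l, hl, rfl⟩ := hu
    induction hv using Submodule.span_induction with
    | mem v hv =>
      obtain ⟨l', hl', rfl⟩ := hv
      have h := E_swap K 8 l l'
      rw [h]
      split_ifs with hab
      · have h1 : a = 1 := Nat.eq_one_of_mul_eq_one_right hab
        have h2 : b = 1 := Nat.eq_one_of_mul_eq_one_left hab
        have : Odd (l.length * l'.length) :=
          (Nat.odd_iff.mpr (by omega)).mul (Nat.odd_iff.mpr (by omega))
        rw [this.neg_one_pow, neg_one_smul, neg_one_mul]
      · have : Even (l.length * l'.length) := by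
          rcases Nat.lt_or_ge 0 a with h1 | h1
          · rcases Nat.lt_or_ge 0 b with h2 | h2
            · have h3 : a = 1 := by omega
              have h4 : b = 1 := by omega
              rw [h3, h4] at hab
              exact absurd rfl hab
            · exact (Nat.even_iff.mpr (by omega)).mul_left _
          · exact (Nat.even_iff.mpr (by omega)).mul_right _
        rw [this.neg_one_pow, one_smul, one_mul]
    | zero => rw [mul_zero, zero_mul, smul_zero]
    | add x y _ _ hx hy => rw [mul_add, add_mul, smul_add, hx, hy]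
    | smul r x _ hx => rw [mul_smul_comm, smul_mul_assoc, hx, smul_comm]
  | zero => rw [mul_zero, zero_mul, smul_zero]
  | add x y _ _ hx hy => rw [mul_add, add_mul, smul_add, hx, hy]
  | smul r x _ hx => rw [mul_smul_comm, smul_mul_assoc, hx, smul_comm]

noncomputable def G0 : SuperRing K (Lam K) where
  part := part K
  mul_mem := part_mul K
  swap := part_swap K

/-- the ambient algebra -/
def R : Type := Fin D0.N → Lam K

namespace R
noncomputable instance : AddCommGroup (R K) := inferInstanceAs (AddCommGroup (Fin D0.N → Lam K))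
noncomputable instance : Module K (R K) := inferInstanceAs (Module K (Fin D0.N → Lam K))
noncomputable instance : Mul (R K) := ⟨fun v w => rmul (K := K) (D := D0) v w⟩

lemma mul_def (v w : R K) : v * w = rmul (K := K) (D := D0) v w := rfl

noncomputable instance : NonUnitalNonAssocRing (R K) where
  left_distrib := fun a b c => rmul_add a b c
  right_distrib := fun a b c => add_rmul a b c
  zero_mul := by
    intro a
    have h2 := smul_rmul (D := D0) (0 : K) (0 : Fin D0.N → Lam K) a
    rw [zero_smul, zero_smul] at h2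
    exact h2
  mul_zero := by
    intro a
    have h2 := rmul_smul (D := D0) (0 : K) a (0 : Fin D0.N → Lam K)
    rw [zero_smul, zero_smul] at h2
    exact h2

instance : IsScalarTower K (R K) (R K) := ⟨fun r a b => smul_rmul r a b⟩
instance : SMulCommClass K (R K) (R K) := ⟨fun r a b => (rmul_smul r a b).symm⟩
end R

/-- the Grassmann envelope as a subalgebra -/
noncomputable def BS : NonUnitalSubalgebra K (R K) where
  carrier := {v | v ∈ env (G0 K) D0}
  add_mem' := fun ha hb => (env (G0 K) D0).add_mem ha hb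
  zero_mem' := (env (G0 K) D0).zero_mem
  mul_mem' := fun ha hb => rmul_mem (G0 K) (good.toK K) ha hb
  smul_mem' := fun r _ ha => (env (G0 K) D0).smul_mem r ha

lemma BS_alt (h2 : (2 : K) ≠ 0) : IsAlt (BS K) where
  left := by
    intro x y
    apply Subtype.ext
    funext l
    exact left_alt (G0 K) h2 (good.toK K) (x.2) l
  right := by
    intro x y
    apply Subtype.ext
    funext l
    exact right_alt (G0 K) h2 (good.toK K) (x.2) l

/-- sparse tensors -/
noncomputable def ts (v : SV) (u : Lam K) : R K := fun k => ((SV.cf k v : ℤ) : K) • u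

variable {K}

lemma ts_congr {v w : SV} (h : ∀ k, SV.cf k v = SV.cf k w) (u : Lam K) : ts K v u = ts K w u := by
  funext k
  show ((SV.cf k v : ℤ) : K) • u = ((SV.cf k w : ℤ) : K) • u
  rw [h k]

lemma ts_mul {v w : SV} (hv : v.Ok 144) (hw : w.Ok 144) (u u' : Lam K) :
    ts K v u * ts K w u' = ts K (mulS v w) (u * u') := by
  rw [R.mul_def]
  funext k
  show ∑ i : Fin 144, ∑ j : Fin 144, D0.ck K i j k • ((((SV.cf i v : ℤ) : K) • u) * (((SV.cf j w : ℤ) : K) • u')) =
    ((SV.cf k (mulS v w) : ℤ) : K) • (u * u')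
  rw [cf_mulS hv hw]
  push_cast
  rw [Finset.sum_smul]
  refine Finset.sum_congr rfl fun i _ => ?_
  rw [Finset.sum_smul]
  refine Finset.sum_congr rfl fun j _ => ?_
  rw [smul_mul_assoc, mul_smul_comm, smul_smul, smul_smul]
  congr 1
  show ((cc i j k : ℤ) : K) * ((SV.cf i v : ℤ) : K) * ((SV.cf j w : ℤ) : K) = _
  ring

/-- `v + s w` or `v - w` -/
noncomputable def addS (s : Bool) (v w : SV) : SV := nrm 200 (axP 1 v (cond s (axP 1 w SV.nil) (axN 1 w SV.nil)))

lemma ok_addS {N : ℕ} (s : Bool) {v w : SV} (hv : v.Ok N) (hw : w.Ok N) : (addS s v w).Ok N := by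
  unfold addS
  refine ok_nrm _ (ok_axP _ hv ?_)
  cases s
  · exact ok_axN _ hw trivial
  · exact ok_axP _ hw trivial

lemma cf_addS (s : Bool) (v w : SV) (l : ℕ) : SV.cf l (addS s v w) = SV.cf l v + (cond s 1 (-1)) * SV.cf l w := by
  unfold addS
  rw [cf_nrm, cf_axP]
  cases s
  · rw [cond_false, cf_axN]; simp [SV.cf]
  · rw [cond_true, cf_axP]; simp [SV.cf]

lemma ts_addS (s : Bool) (v w : SV) (u : Lam K) : ts K v u + (cond s 1 (-1) : ℤ) • ts K w u = ts K (addS s v w) u := by
  funext k
  show ((SV.cf k v : ℤ) : K) • u + (cond s 1 (-1) : ℤ) • (((SV.cf k w : ℤ) : K) • u) = ((SV.cf k (addS s v w) : ℤ) : K) • u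
  rw [cf_addS, ← Int.cast_smul_eq_zsmul K, smul_smul, ← add_smul]
  push_cast
  rfl

lemma ts_zsmul (m : ℤ) (v : SV) (u : Lam K) : m • ts K v u = ts K v (m • u) := by
  funext k
  show m • (((SV.cf k v : ℤ) : K) • u) = ((SV.cf k v : ℤ) : K) • (m • u)
  rw [smul_comm]

lemma ts_axP (a : ℕ) (v : SV) (u : Lam K) : ts K (axP a v SV.nil) u = (a : ℤ) • ts K v u := by
  funext k
  show ((SV.cf k (axP a v SV.nil) : ℤ) : K) • u = (a : ℤ) • (((SV.cf k v : ℤ) : K) • u)
  rw [cf_axP, ← Int.cast_smul_eq_zsmul K, smul_smul]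
  simp [SV.cf]

/-- parity -/
def pr (l : List (Fin 8)) : Bool := Nat.beq (Nat.mod l.length 2) 1

lemma Ex_append (l l' : List (Fin 8)) : Ex K (l ++ l') = Ex K l * Ex K l' := E_append K 8 l l'

lemma pr_odd (l l' : List (Fin 8)) : (pr l && pr l') = true ↔ Odd (l.length * l'.length) := by
  unfold pr
  rw [Bool.and_eq_true, Nat.beq_eq, Nat.beq_eq, Nat.odd_mul, Nat.odd_iff, Nat.odd_iff]
  exact Iff.rfl

lemma Ex_swap (l l' : List (Fin 8)) : Ex K (l' ++ l) = (cond (pr l && pr l') (-1) 1 : ℤ) • Ex K (l ++ l') := by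
  rw [Ex_append, Ex_append]
  have h := E_swap K 8 l' l
  rw [h]
  cases hp : (pr l && pr l')
  · have h2 : Even (l'.length * l.length) := by
      rw [← Nat.not_odd_iff_even, mul_comm, ← pr_odd, hp]
      decide
    rw [h2.neg_one_pow, one_mul, cond_false, one_smul]
  · have h2 : Odd (l'.length * l.length) := by
      rw [mul_comm, ← pr_odd, hp]
    rw [h2.neg_one_pow, neg_one_mul, cond_true, neg_one_smul]

/-- super commutator of sparse vectors with parities -/
noncomputable def brS (p q : Bool) (v w : SV) : SV := addS (p && q) (mulS v w) (mulS w v)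
/-- super Jordan product -/
noncomputable def joS (p q : Bool) (v w : SV) : SV := addS (!(p && q)) (mulS v w) (mulS w v)
/-- associator -/
noncomputable def asS (v w z : SV) : SV := addS false (mulS (mulS v w) z) (mulS v (mulS w z))

lemma ok_brS (p q : Bool) {v w : SV} (hv : v.Ok 144) (hw : w.Ok 144) : (brS p q v w).Ok 144 :=
  ok_addS _ (ok_mulS hv hw) (ok_mulS hw hv)
lemma ok_joS (p q : Bool) {v w : SV} (hv : v.Ok 144) (hw : w.Ok 144) : (joS p q v w).Ok 144 :=
  ok_addS _ (ok_mulS hv hw) (ok_mulS hw hv)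
lemma ok_asS {v w z : SV} (hv : v.Ok 144) (hw : w.Ok 144) (hz : z.Ok 144) : (asS v w z).Ok 144 :=
  ok_addS _ (ok_mulS (ok_mulS hv hw) hz) (ok_mulS hv (ok_mulS hw hz))

lemma br_ts {v w : SV} (hv : v.Ok 144) (hw : w.Ok 144) (l l' : List (Fin 8)) :
    br (ts K v (Ex K l)) (ts K w (Ex K l')) = ts K (brS (pr l) (pr l') v w) (Ex K (l ++ l')) := by
  unfold br brS
  rw [ts_mul hv hw, ts_mul hw hv, ← Ex_append, ← Ex_append, Ex_swap l l', ← ts_addS, ← ts_zsmul]
  cases (pr l && pr l')
  · rw [cond_false, cond_false, one_smul, neg_one_smul, sub_eq_add_neg]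
  · rw [cond_true, cond_true, one_smul, neg_one_smul, sub_neg_eq_add]

lemma jo_ts {v w : SV} (hv : v.Ok 144) (hw : w.Ok 144) (l l' : List (Fin 8)) :
    jo (ts K v (Ex K l)) (ts K w (Ex K l')) = ts K (joS (pr l) (pr l') v w) (Ex K (l ++ l')) := by
  unfold jo joS
  rw [ts_mul hv hw, ts_mul hw hv, ← Ex_append, ← Ex_append, Ex_swap l l', ← ts_addS, ← ts_zsmul]
  cases (pr l && pr l')
  · rfl
  · rfl

lemma as_ts {v w z : SV} (hv : v.Ok 144) (hw : w.Ok 144) (hz : z.Ok 144) (l l' l'' : List (Fin 8)) :
    as (ts K v (Ex K l)) (ts K w (Ex K l')) (ts K z (Ex K l'')) = ts K (asS v w z) (Ex K (l ++ l' ++ l'')) := by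
  unfold as asS
  rw [ts_mul hv hw, ts_mul (ok_mulS hv hw) hz, ts_mul hw hz, ts_mul hv (ok_mulS hw hz), ← ts_addS, cond_false,
    neg_one_smul, ← sub_eq_add_neg, Ex_append, Ex_append, mul_assoc]

end Pool.Agent.Helper805.Mod.Env
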