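import Pool.Agent.Helper805.Mod.Sound
set_option autoImplicit false

/-! Operations on sparse integer vectors. -/

namespace Pool.Agent.Helper805.Mod.Ops
open Pool.Agent.Helper805.Mod.Sparse Pool.Agent.Helper805.Mod.Data Pool.Agent.Helper805.Mod.Sound

/-- `a • v` in front of `w` -/
noncomputable def axP (a : ℕ) (v w : SV) : SV :=
  SV.rec (motive := fun _ => SV) w (fun k b _ ih => SV.p k (Nat.mul a b) ih) (fun k b _ ih => SV.n k (Nat.mul a b) ih) v

/-- `-a • v` in front of `w` -/
noncomputable def axN (a : ℕ) (v w : SV) : SV :=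
  SV.rec (motive := fun _ => SV) w (fun k b _ ih => SV.n k (Nat.mul a b) ih) (fun k b _ ih => SV.p k (Nat.mul a b) ih) v

theorem cf_axP (l a : ℕ) (v w : SV) : SV.cf l (axP a v w) = (a : ℤ) * SV.cf l v + SV.cf l w := by
  induction v with
  | nil => simp [axP, SV.cf]
  | p k b t ih =>
    have h : axP a (SV.p k b t) w = SV.p k (a * b) (axP a t w) := rfl
    rw [h, SV.cf, SV.cf, ih]
    push_cast
    split_ifs <;> ring
  | n k b t ih =>
    have h : axP a (SV.n k b t) w = SV.n k (a * b) (axP a t w) := rfl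
    rw [h, SV.cf, SV.cf, ih]
    push_cast
    split_ifs <;> ring

theorem cf_axN (l a : ℕ) (v w : SV) : SV.cf l (axN a v w) = -(a : ℤ) * SV.cf l v + SV.cf l w := by
  induction v with
  | nil => simp [axN, SV.cf]
  | p k b t ih =>
    have h : axN a (SV.p k b t) w = SV.n k (a * b) (axN a t w) := rfl
    rw [h, SV.cf, SV.cf, ih]
    push_cast
    split_ifs <;> ring
  | n k b t ih =>
    have h : axN a (SV.n k b t) w = SV.p k (a * b) (axN a t w) := rfl
    rw [h, SV.cf, SV.cf, ih]
    push_cast
    split_ifs <;> ring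

theorem ok_axP {N : ℕ} (a : ℕ) {v w : SV} (hv : v.Ok N) (hw : w.Ok N) : (axP a v w).Ok N := by
  induction v with
  | nil => exact hw
  | p k b t ih => exact ⟨hv.1, ih hv.2⟩
  | n k b t ih => exact ⟨hv.1, ih hv.2⟩

theorem ok_axN {N : ℕ} (a : ℕ) {v w : SV} (hv : v.Ok N) (hw : w.Ok N) : (axN a v w).Ok N := by
  induction v with
  | nil => exact hw
  | p k b t ih => exact ⟨hv.1, ih hv.2⟩
  | n k b t ih => exact ⟨hv.1, ih hv.2⟩

/-- linear substitution -/
noncomputable def bind (f : ℕ → SV) (v : SV) : SV :=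
  SV.rec (motive := fun _ => SV) SV.nil (fun k a _ ih => axP a (f k) ih) (fun k a _ ih => axN a (f k) ih) v

theorem ok_bind {N : ℕ} {f : ℕ → SV} (hf : ∀ k < N, (f k).Ok N) {v : SV} (hv : v.Ok N) : (bind f v).Ok N := by
  induction v with
  | nil => exact trivial
  | p k b t ih => exact ok_axP b (hf k hv.1) (ih hv.2)
  | n k b t ih => exact ok_axN b (hf k hv.1) (ih hv.2)

theorem cf_bind {N : ℕ} (f : ℕ → SV) {v : SV} (hv : v.Ok N) (l : ℕ) :
    SV.cf l (bind f v) = ∑ m : Fin N, SV.cf m v * SV.cf l (f m) := by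
  induction v with
  | nil => simp [SV.cf, bind]
  | p k a t ih =>
    have h : bind f (SV.p k a t) = axP a (f k) (bind f t) := rfl
    rw [h, cf_axP, ih hv.2]
    simp only [SV.cf, add_mul, Finset.sum_add_distrib]
    congr 1
    rw [Finset.sum_eq_single (⟨k, hv.1⟩ : Fin N)]
    · simp only [if_true]
    · intro b _ hb
      rw [if_neg, zero_mul]
      intro h
      exact hb (Fin.ext h.symm)
    · intro h; exact absurd (Finset.mem_univ _) h
  | n k a t ih =>
    have h : bind f (SV.n k a t) = axN a (f k) (bind f t) := rfl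
    rw [h, cf_axN, ih hv.2]
    simp only [SV.cf, add_mul, Finset.sum_add_distrib]
    congr 1
    rw [Finset.sum_eq_single (⟨k, hv.1⟩ : Fin N)]
    · simp only [if_true]
    · intro b _ hb
      rw [if_neg, zero_mul]
      intro h
      exact hb (Fin.ext h.symm)
    · intro h; exact absurd (Finset.mem_univ _) h

/-- the positive entries at `k` -/
noncomputable def sp (k : ℕ) (v : SV) : ℕ :=
  SV.rec (motive := fun _ => ℕ) 0 (fun l a _ ih => cond (Nat.beq l k) (Nat.add a ih) ih) (fun _ _ _ ih => ih) v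

/-- the negative entries at `k` -/
noncomputable def sn (k : ℕ) (v : SV) : ℕ :=
  SV.rec (motive := fun _ => ℕ) 0 (fun _ _ _ ih => ih) (fun l a _ ih => cond (Nat.beq l k) (Nat.add a ih) ih) v

/-- the entries away from `k` -/
noncomputable def rm (k : ℕ) (v : SV) : SV :=
  SV.rec (motive := fun _ => SV) SV.nil (fun l a _ ih => cond (Nat.beq l k) ih (SV.p l a ih))
    (fun l a _ ih => cond (Nat.beq l k) ih (SV.n l a ih)) v

theorem beq_iff (l k : ℕ) : Nat.beq l k = decide (l = k) := by
  by_cases h : l = k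
  · subst h; simp
  · rw [decide_eq_false h]
    cases hb : Nat.beq l k
    · rfl
    · exact absurd (Nat.eq_of_beq_eq_true hb) h

theorem cf_sub (k : ℕ) (v : SV) : SV.cf k v = (sp k v : ℤ) - (sn k v : ℤ) := by
  induction v with
  | nil => simp [SV.cf, sp, sn]
  | p l a t ih =>
    have h1 : sp k (SV.p l a t) = cond (Nat.beq l k) (a + sp k t) (sp k t) := rfl
    have h2 : sn k (SV.p l a t) = sn k t := rfl
    rw [h1, h2, SV.cf, ih, beq_iff]
    by_cases h : l = k
    · rw [if_pos h, decide_eq_true h, cond_true]; push_cast; ring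
    · rw [if_neg h, decide_eq_false h, cond_false]; ring
  | n l a t ih =>
    have h1 : sn k (SV.n l a t) = cond (Nat.beq l k) (a + sn k t) (sn k t) := rfl
    have h2 : sp k (SV.n l a t) = sp k t := rfl
    rw [h1, h2, SV.cf, ih, beq_iff]
    by_cases h : l = k
    · rw [if_pos h, decide_eq_true h, cond_true]; push_cast; ring
    · rw [if_neg h, decide_eq_false h, cond_false]; ring

theorem cf_rm (k l : ℕ) (v : SV) : SV.cf l (rm k v) = if l = k then 0 else SV.cf l v := by
  induction v with
  | nil => simp [SV.cf, rm]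
  | p m a t ih =>
    have h1 : rm k (SV.p m a t) = cond (Nat.beq m k) (rm k t) (SV.p m a (rm k t)) := rfl
    rw [h1, beq_iff]
    by_cases h : m = k
    · rw [decide_eq_true h, cond_true, ih, SV.cf]
      by_cases h2 : l = k
      · rw [if_pos h2, if_pos h2]
      · rw [if_neg h2, if_neg h2, if_neg (by omega), zero_add]
    · rw [decide_eq_false h, cond_false, SV.cf, ih, SV.cf]
      by_cases h2 : l = k
      · rw [if_pos h2, if_pos h2, if_neg (by omega), zero_add]
      · rw [if_neg h2, if_neg h2]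
  | n m a t ih =>
    have h1 : rm k (SV.n m a t) = cond (Nat.beq m k) (rm k t) (SV.n m a (rm k t)) := rfl
    rw [h1, beq_iff]
    by_cases h : m = k
    · rw [decide_eq_true h, cond_true, ih, SV.cf]
      by_cases h2 : l = k
      · rw [if_pos h2, if_pos h2]
      · rw [if_neg h2, if_neg h2, if_neg (by omega), zero_add]
    · rw [decide_eq_false h, cond_false, SV.cf, ih, SV.cf]
      by_cases h2 : l = k
      · rw [if_pos h2, if_pos h2, if_neg (by omega), zero_add]
      · rw [if_neg h2, if_neg h2]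

theorem ok_rm {N : ℕ} (k : ℕ) {v : SV} (hv : v.Ok N) : (rm k v).Ok N := by
  induction v with
  | nil => exact trivial
  | p m a t ih =>
    have h1 : rm k (SV.p m a t) = cond (Nat.beq m k) (rm k t) (SV.p m a (rm k t)) := rfl
    rw [h1]
    cases Nat.beq m k
    · exact ⟨hv.1, ih hv.2⟩
    · exact ih hv.2
  | n m a t ih =>
    have h1 : rm k (SV.n m a t) = cond (Nat.beq m k) (rm k t) (SV.n m a (rm k t)) := rfl
    rw [h1]
    cases Nat.beq m k
    · exact ⟨hv.1, ih hv.2⟩
    · exact ih hv.2

/-- the entry `P - Q` at `k` in front of `w` -/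
noncomputable def put (k P Q : ℕ) (w : SV) : SV :=
  cond (Nat.ble Q P) (cond (Nat.beq P Q) w (SV.p k (Nat.sub P Q) w)) (SV.n k (Nat.sub Q P) w)

theorem cf_put (k P Q l : ℕ) (w : SV) : SV.cf l (put k P Q w) = (if k = l then ((P : ℤ) - Q) else 0) + SV.cf l w := by
  unfold put
  cases h : Nat.ble Q P
  · have h2 : ¬ Q ≤ P := fun h3 => by rw [← Nat.ble_eq] at h3; rw [h3] at h; exact absurd h (by decide)
    rw [cond_false, SV.cf]
    have h4 : ((Nat.sub Q P : ℕ) : ℤ) = (Q : ℤ) - P := by
      show ((Q - P : ℕ) : ℤ) = _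
      rw [Nat.cast_sub (by omega)]
    rw [h4]
    split_ifs <;> ring
  · have h2 : Q ≤ P := by rw [← Nat.ble_eq]; exact h
    rw [cond_true]
    cases h3 : Nat.beq P Q
    · rw [cond_false, SV.cf]
      have h4 : ((Nat.sub P Q : ℕ) : ℤ) = (P : ℤ) - Q := by
        show ((P - Q : ℕ) : ℤ) = _
        rw [Nat.cast_sub h2]
      rw [h4]
    · have h4 := Nat.eq_of_beq_eq_true h3
      rw [cond_true, h4]
      simp

theorem ok_put {N k : ℕ} (hk : k < N) (P Q : ℕ) {w : SV} (hw : w.Ok N) : (put k P Q w).Ok N := by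
  unfold put
  cases Nat.ble Q P
  · exact ⟨hk, hw⟩
  · cases Nat.beq P Q
    · exact ⟨hk, hw⟩
    · exact hw

/-- combine equal keys -/
noncomputable def nrm (n : ℕ) : SV → SV :=
  Nat.rec (motive := fun _ => SV → SV) (fun v => v)
    (fun _ f v => SV.rec (motive := fun _ => SV) SV.nil
      (fun k a t _ => put k (Nat.add a (sp k t)) (sn k t) (f (rm k t)))
      (fun k a t _ => put k (sp k t) (Nat.add a (sn k t)) (f (rm k t))) v) n

theorem cf_nrm (n : ℕ) (l : ℕ) : ∀ v : SV, SV.cf l (nrm n v) = SV.cf l v := by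
  induction n with
  | zero => intro v; rfl
  | succ n ih =>
    intro v
    cases v with
    | nil => rfl
    | p k a t =>
      have h : nrm (n + 1) (SV.p k a t) = put k (a + sp k t) (sn k t) (nrm n (rm k t)) := rfl
      rw [h, cf_put, ih, cf_rm, SV.cf]
      by_cases hk : k = l
      · subst hk
        simp only [if_true]
        rw [cf_sub k t]; push_cast; ring
      · rw [if_neg hk, if_neg hk, if_neg (fun h => hk h.symm)]
    | n k a t =>
      have h : nrm (n + 1) (SV.n k a t) = put k (sp k t) (a + sn k t) (nrm n (rm k t)) := rfl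
      rw [h, cf_put, ih, cf_rm, SV.cf]
      by_cases hk : k = l
      · subst hk
        simp only [if_true]
        rw [cf_sub k t]; push_cast; ring
      · rw [if_neg hk, if_neg hk, if_neg (fun h => hk h.symm)]

theorem ok_nrm {N : ℕ} (n : ℕ) : ∀ {v : SV}, v.Ok N → (nrm n v).Ok N := by
  induction n with
  | zero => intro v h; exact h
  | succ n ih =>
    intro v h
    cases v with
    | nil => exact trivial
    | p k a t => exact ok_put h.1 _ _ (ih (ok_rm k h.2))
    | n k a t => exact ok_put h.1 _ _ (ih (ok_rm k h.2))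

/-- the product -/
noncomputable def mulS (v w : SV) : SV := nrm 200 (bind (fun i => bind (fun j => T i j) w) v)

theorem ok_T {i j : ℕ} (hi : i < 144) (hj : j < 144) : (T i j).Ok 144 := (grade hi hj).1.1

theorem ok_mulS {v w : SV} (hv : v.Ok 144) (hw : w.Ok 144) : (mulS v w).Ok 144 :=
  ok_nrm _ (ok_bind (fun _ hi => ok_bind (fun _ hj => ok_T hi hj) hw) hv)

theorem cf_mulS {v w : SV} (hv : v.Ok 144) (hw : w.Ok 144) (l : ℕ) :
    SV.cf l (mulS v w) = ∑ i : Fin 144, ∑ j : Fin 144, SV.cf i v * (SV.cf j w * cc i j l) := by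
  unfold mulS
  rw [cf_nrm, cf_bind _ hv]
  refine Finset.sum_congr rfl fun i _ => ?_
  rw [cf_bind _ hw, Finset.mul_sum]
  rfl

end Pool.Agent.Helper805.Mod.Ops
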