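import Pool.Agent.Helper805.Mod.Chk
set_option autoImplicit false

/-! The kernel checks. -/

namespace Pool.Agent.Helper805.Mod.Piece
open Pool.Agent.Helper805.Mod.Sparse Pool.Agent.Helper805.Mod.Data Pool.Agent.Helper805.Mod.Chk

theorem chkGrade_ok : chkGrade = true := by decide +kernel

theorem chkL_ok : allC (fun u w l => allC (fun u' w' l' => fL u w l u' w' l') comps) comps = true := by
  decide +kernel

theorem chkR_ok : allC (fun u w l => allC (fun u' w' l' => fR u w l u' w' l') comps) comps = true := by
  decide +kernel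

theorem mem_comps : ∀ i < 144, ∃ c ∈ comps, c.1 = wx i ∧ c.2.1 = wa i ∧ i ∈ c.2.2 := by decide +kernel

theorem pos_bs : ∀ l < 144, pos l + bs (wx l) (wa l) = l := by decide +kernel

theorem wt_le : ∀ i < 144, wx i ≤ 8 ∧ wa i ≤ 2 := by decide +kernel

end Pool.Agent.Helper805.Mod.Piece
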