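import Mathlib
set_option autoImplicit false

/-! Finite dimensional superalgebras given by integer structure constants, and their Grassmann
envelopes over a field. -/

namespace Pool.Agent.Helper805.Mod.Super

/-- integer structure constants and parities -/
structure Data where
  N : ℕ
  c : ℕ → ℕ → ℕ → ℤ
  par : ℕ → ℕ

namespace Data
variable (D : Data)

/-- the sign of two basis vectors -/
def sg (i j : ℕ) : ℤ := if D.par i * D.par j = 1 then -1 else 1

/-- coefficient of the associator of basis vectors -/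
def A (i j k l : ℕ) : ℤ :=
  (∑ m : Fin D.N, D.c i j m * D.c m k l) - ∑ m : Fin D.N, D.c j k m * D.c i m l

/-- the algebra is a super-alternative superalgebra -/
structure Good : Prop where
  par_le : ∀ i < D.N, D.par i < 2
  par_add : ∀ i < D.N, ∀ j < D.N, ∀ k < D.N, D.c i j k ≠ 0 → D.par k = (D.par i + D.par j) % 2
  left : ∀ i < D.N, ∀ j < D.N, ∀ k < D.N, ∀ l < D.N, D.A i j k l + D.sg i j * D.A j i k l = 0
  right : ∀ i < D.N, ∀ j < D.N, ∀ k < D.N, ∀ l < D.N, D.A i j k l + D.sg j k * D.A i k j l = 0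

variable (K : Type) [Field K]

/-- structure constants in the field -/
def ck (i j k : ℕ) : K := ((D.c i j k : ℤ) : K)

def sgk (i j : ℕ) : K := if D.par i * D.par j = 1 then -1 else 1

def Ak (i j k l : ℕ) : K :=
  (∑ m : Fin D.N, D.ck K i j m * D.ck K m k l) - ∑ m : Fin D.N, D.ck K j k m * D.ck K i m l

lemma sgk_eq (i j : ℕ) : D.sgk K i j = ((D.sg i j : ℤ) : K) := by
  unfold sgk sg; split_ifs <;> simp

lemma Ak_eq (i j k l : ℕ) : D.Ak K i j k l = ((D.A i j k l : ℤ) : K) := by
  unfold Ak A ck; push_cast; rfl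

structure GoodK : Prop where
  par_le : ∀ i < D.N, D.par i < 2
  par_add : ∀ i < D.N, ∀ j < D.N, ∀ k < D.N, D.ck K i j k ≠ 0 → D.par k = (D.par i + D.par j) % 2
  left : ∀ i < D.N, ∀ j < D.N, ∀ k < D.N, ∀ l < D.N, D.Ak K i j k l + D.sgk K i j * D.Ak K j i k l = 0
  right : ∀ i < D.N, ∀ j < D.N, ∀ k < D.N, ∀ l < D.N, D.Ak K i j k l + D.sgk K j k * D.Ak K i k j l = 0

variable {D}

theorem Good.toK (h : D.Good) : D.GoodK K where
  par_le := h.par_le
  par_add := by
    intro i hi j hj k hk hne
    apply h.par_add i hi j hj k hk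
    intro h0
    apply hne
    unfold ck
    rw [h0, Int.cast_zero]
  left := by
    intro i hi j hj k hk l hl
    have := congrArg (fun z : ℤ => (z : K)) (h.left i hi j hj k hk l hl)
    simp only [Int.cast_add, Int.cast_mul, Int.cast_zero] at this
    rw [Ak_eq, Ak_eq, sgk_eq]
    exact this
  right := by
    intro i hi j hj k hk l hl
    have := congrArg (fun z : ℤ => (z : K)) (h.right i hi j hj k hk l hl)
    simp only [Int.cast_add, Int.cast_mul, Int.cast_zero] at this
    rw [Ak_eq, Ak_eq, sgk_eq]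
    exact this

end Data

section Envelope
variable (K : Type) [Field K]

/-- a ring with even and odd parts that commute up to sign -/
structure SuperRing (Λ : Type) [Ring Λ] [Algebra K Λ] where
  part : ℕ → Submodule K Λ
  mul_mem : ∀ {a b : ℕ} {u v : Λ}, u ∈ part a → v ∈ part b → u * v ∈ part ((a + b) % 2)
  swap : ∀ {a b : ℕ} {u v : Λ}, a < 2 → b < 2 → u ∈ part a → v ∈ part b →
    u * v = (if a * b = 1 then (-1 : K) else 1) • (v * u)

variable {K}
variable {Λ : Type} [Ring Λ] [Algebra K Λ] (G : SuperRing K Λ) (D : Data)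

/-- raw product -/
noncomputable def rmul (v w : Fin D.N → Λ) : Fin D.N → Λ :=
  fun k => ∑ i : Fin D.N, ∑ j : Fin D.N, D.ck K i j k • (v i * w j)

/-- the Grassmann envelope -/
def env : Submodule K (Fin D.N → Λ) where
  carrier := {v | ∀ i : Fin D.N, v i ∈ G.part (D.par i)}
  add_mem' := fun ha hb i => (G.part _).add_mem (ha i) (hb i)
  zero_mem' := fun i => (G.part _).zero_mem
  smul_mem' := fun r _ ha i => (G.part _).smul_mem r (ha i)

variable {D}

lemma rmul_mem (hD : D.GoodK K) {v w : Fin D.N → Λ} (hv : v ∈ env G D) (hw : w ∈ env G D) :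
    rmul (K := K) (D := D) v w ∈ env G D := by
  intro k
  apply Submodule.sum_mem
  intro i _
  apply Submodule.sum_mem
  intro j _
  by_cases h : D.ck K i j k = 0
  · rw [h, zero_smul]; exact Submodule.zero_mem _
  · have h1 := hD.par_add i i.2 j j.2 k k.2 h
    rw [h1]
    exact Submodule.smul_mem _ _ (G.mul_mem (hv i) (hw j))

lemma rmul_add (v w w' : Fin D.N → Λ) :
    rmul (K := K) (D := D) v (w + w') = rmul (K := K) (D := D) v w + rmul (K := K) (D := D) v w' := by
  funext k
  simp only [rmul, Pi.add_apply, mul_add, smul_add, Finset.sum_add_distrib]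

lemma add_rmul (v v' w : Fin D.N → Λ) :
    rmul (K := K) (D := D) (v + v') w = rmul (K := K) (D := D) v w + rmul (K := K) (D := D) v' w := by
  funext k
  simp only [rmul, Pi.add_apply, add_mul, smul_add, Finset.sum_add_distrib]

lemma rmul_smul (r : K) (v w : Fin D.N → Λ) :
    rmul (K := K) (D := D) v (r • w) = r • rmul (K := K) (D := D) v w := by
  funext k
  simp only [rmul, Pi.smul_apply, Finset.smul_sum, mul_smul_comm]
  refine Finset.sum_congr rfl fun i _ => Finset.sum_congr rfl fun j _ => ?_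
  rw [smul_comm]

lemma smul_rmul (r : K) (v w : Fin D.N → Λ) :
    rmul (K := K) (D := D) (r • v) w = r • rmul (K := K) (D := D) v w := by
  funext k
  simp only [rmul, Pi.smul_apply, Finset.smul_sum, smul_mul_assoc]
  refine Finset.sum_congr rfl fun i _ => Finset.sum_congr rfl fun j _ => ?_
  rw [smul_comm]

/-- associator in components -/
lemma rmul_assoc (v w z : Fin D.N → Λ) (l : Fin D.N) :
    rmul (K := K) (D := D) (rmul (K := K) (D := D) v w) z l - rmul (K := K) (D := D) v (rmul (K := K) (D := D) w z) l =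
      ∑ i : Fin D.N, ∑ j : Fin D.N, ∑ k : Fin D.N, D.Ak K i j k l • (v i * w j * z k) := by
  have h1 : rmul (K := K) (D := D) (rmul (K := K) (D := D) v w) z l =
      ∑ i : Fin D.N, ∑ j : Fin D.N, ∑ k : Fin D.N,
        (∑ m : Fin D.N, D.ck K i j m * D.ck K m k l) • (v i * w j * z k) := by
    simp only [rmul, Finset.sum_mul, Finset.smul_sum, Finset.sum_smul]
    rw [Finset.sum_comm]
    have : ∀ k : Fin D.N, (∑ m : Fin D.N, ∑ i : Fin D.N, ∑ j : Fin D.N,
        D.ck K m k l • (D.ck K i j m • (v i * w j) * z k)) =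
        ∑ i : Fin D.N, ∑ j : Fin D.N, ∑ m : Fin D.N, (D.ck K i j m * D.ck K m k l) • (v i * w j * z k) := by
      intro k
      rw [Finset.sum_comm]
      refine Finset.sum_congr rfl fun i _ => ?_
      rw [Finset.sum_comm]
      refine Finset.sum_congr rfl fun j _ => Finset.sum_congr rfl fun m _ => ?_
      rw [smul_mul_assoc, smul_smul, mul_comm]
    simp only [this]
    rw [Finset.sum_comm]
    refine Finset.sum_congr rfl fun i _ => ?_
    rw [Finset.sum_comm]
  have h2 : rmul (K := K) (D := D) v (rmul (K := K) (D := D) w z) l =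
      ∑ i : Fin D.N, ∑ j : Fin D.N, ∑ k : Fin D.N,
        (∑ m : Fin D.N, D.ck K j k m * D.ck K i m l) • (v i * w j * z k) := by
    simp only [rmul, Finset.mul_sum, Finset.smul_sum, Finset.sum_smul]
    refine Finset.sum_congr rfl fun i _ => ?_
    rw [Finset.sum_comm]
    refine Finset.sum_congr rfl fun j _ => ?_
    rw [Finset.sum_comm]
    refine Finset.sum_congr rfl fun k _ => Finset.sum_congr rfl fun m _ => ?_
    rw [mul_smul_comm, smul_smul, mul_assoc, mul_comm (D.ck K j k m)]
  rw [h1, h2, ← Finset.sum_sub_distrib]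
  refine Finset.sum_congr rfl fun i _ => ?_
  rw [← Finset.sum_sub_distrib]
  refine Finset.sum_congr rfl fun j _ => ?_
  rw [← Finset.sum_sub_distrib]
  refine Finset.sum_congr rfl fun k _ => ?_
  rw [← sub_smul, Data.Ak]

lemma two_torsion_free (h2 : (2 : K) ≠ 0) {W : Type*} [AddCommGroup W] [Module K W] {s : W} (h : s = -s) :
    s = 0 := by
  have h3 : (2 : K) • s = 0 := by
    rw [two_smul]
    nth_rewrite 2 [h]
    simp
  exact (smul_eq_zero.mp h3).resolve_left h2

lemma left_alt (h2 : (2 : K) ≠ 0) (hD : D.GoodK K) {v z : Fin D.N → Λ} (hv : v ∈ env G D) (l : Fin D.N) :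
    rmul (K := K) (D := D) (rmul (K := K) (D := D) v v) z l =
      rmul (K := K) (D := D) v (rmul (K := K) (D := D) v z) l := by
  rw [← sub_eq_zero]
  apply two_torsion_free h2
  rw [rmul_assoc]
  conv_lhs => rw [Finset.sum_comm]
  rw [← Finset.sum_neg_distrib]
  refine Finset.sum_congr rfl fun i _ => ?_
  rw [← Finset.sum_neg_distrib]
  refine Finset.sum_congr rfl fun j _ => ?_
  rw [← Finset.sum_neg_distrib]
  refine Finset.sum_congr rfl fun k _ => ?_
  rw [G.swap (hD.par_le j j.2) (hD.par_le i i.2) (hv j) (hv i)]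
  have h := hD.left i i.2 j j.2 k k.2 l l.2
  have h' : D.Ak K i j k l = - (D.sgk K i j * D.Ak K j i k l) := by linear_combination h
  rw [h']
  unfold Data.sgk
  rw [mul_comm (D.par j) (D.par i)]
  split_ifs with hh
  · simp
  · simp

lemma right_alt (h2 : (2 : K) ≠ 0) (hD : D.GoodK K) {v z : Fin D.N → Λ} (hz : z ∈ env G D) (l : Fin D.N) :
    rmul (K := K) (D := D) (rmul (K := K) (D := D) v z) z l =
      rmul (K := K) (D := D) v (rmul (K := K) (D := D) z z) l := by
  rw [← sub_eq_zero]
  apply two_torsion_free h2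
  rw [rmul_assoc, ← Finset.sum_neg_distrib]
  refine Finset.sum_congr rfl fun i _ => ?_
  conv_lhs => rw [Finset.sum_comm]
  rw [← Finset.sum_neg_distrib]
  refine Finset.sum_congr rfl fun j _ => ?_
  rw [← Finset.sum_neg_distrib]
  refine Finset.sum_congr rfl fun k _ => ?_
  rw [mul_assoc, mul_assoc, G.swap (hD.par_le k k.2) (hD.par_le j j.2) (hz k) (hz j)]
  have h := hD.right i i.2 j j.2 k k.2 l l.2
  have h' : D.Ak K i j k l = - (D.sgk K j k * D.Ak K i k j l) := by linear_combination h
  rw [h']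
  unfold Data.sgk
  rw [mul_comm (D.par k) (D.par j)]
  split_ifs with hh
  · simp
  · simp

end Envelope
end Pool.Agent.Helper805.Mod.Super
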