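import Pool.Agent.Helper805.Mod.Piece
import Pool.Agent.Helper805.Mod.Super
set_option autoImplicit false

/-! The table defines a super-alternative superalgebra. -/

namespace Pool.Agent.Helper805.Mod.Sound
open Pool.Agent.Helper805.Mod.Sparse Pool.Agent.Helper805.Mod.Data Pool.Agent.Helper805.Mod.Chk
  Pool.Agent.Helper805.Mod.Piece

/-- structure constants -/
noncomputable def cc (i j k : ℕ) : ℤ := (T i j).cf k

/-- the superalgebra of rank 144 -/
noncomputable def D0 : Super.Data where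
  N := 144
  c := cc
  par := fun i => wx i % 2

theorem allN_ok {f : ℕ → Bool} {L : List ℕ} (h : allN f L = true) : ∀ i ∈ L, f i = true := by
  induction L with
  | nil => intro i hi; simp at hi
  | cons a L ih =>
    have h1 : (and (f a) (allN f L)) = true := h
    rw [Bool.and_eq_true] at h1
    intro i hi
    rcases List.mem_cons.mp hi with h2 | h2
    · rw [h2]; exact h1.1
    · exact ih h1.2 i h2

theorem allC_ok {f : ℕ → ℕ → List ℕ → Bool} {L : List (ℕ × ℕ × List ℕ)} (h : allC f L = true) :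
    ∀ c ∈ L, f c.1 c.2.1 c.2.2 = true := by
  induction L with
  | nil => intro i hi; simp at hi
  | cons a L ih =>
    have h1 : (and (f a.1 a.2.1 a.2.2) (allC f L)) = true := h
    rw [Bool.and_eq_true] at h1
    intro i hi
    rcases List.mem_cons.mp hi with h2 | h2
    · rw [h2]; exact h1.1
    · exact ih h1.2 i h2

theorem gr_ok {u w : ℕ} {v : SV} (h : gr u w v = true) :
    v.Ok 144 ∧ ∀ l, SV.cf l v ≠ 0 → l < 144 ∧ wx l = u ∧ wa l = w := by
  induction v with
  | nil => exact ⟨trivial, fun l hl => absurd rfl hl⟩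
  | p k a t ih =>
    have h1 : (and (Nat.ble (Nat.succ k) 144) (and (Nat.beq (wx k) u) (and (Nat.beq (wa k) w) (gr u w t)))) = true := h
    rw [Bool.and_eq_true, Bool.and_eq_true, Bool.and_eq_true, Nat.beq_eq, Nat.beq_eq, Nat.ble_eq] at h1
    obtain ⟨h1, h2, h3, h4⟩ := h1
    have h5 := ih h4
    refine ⟨⟨h1, h5.1⟩, fun l hl => ?_⟩
    by_cases hk : k = l
    · rw [← hk]; exact ⟨h1, h2, h3⟩
    · apply h5.2
      rw [SV.cf, if_neg hk, zero_add] at hl
      exact hl
  | n k a t ih =>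
    have h1 : (and (Nat.ble (Nat.succ k) 144) (and (Nat.beq (wx k) u) (and (Nat.beq (wa k) w) (gr u w t)))) = true := h
    rw [Bool.and_eq_true, Bool.and_eq_true, Bool.and_eq_true, Nat.beq_eq, Nat.beq_eq, Nat.ble_eq] at h1
    obtain ⟨h1, h2, h3, h4⟩ := h1
    have h5 := ih h4
    refine ⟨⟨h1, h5.1⟩, fun l hl => ?_⟩
    by_cases hk : k = l
    · rw [← hk]; exact ⟨h1, h2, h3⟩
    · apply h5.2
      rw [SV.cf, if_neg hk, zero_add] at hl
      exact hl

theorem grade {i j : ℕ} (hi : i < 144) (hj : j < 144) :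
    ((T i j).Ok 144 ∧ ∀ l, cc i j l ≠ 0 → l < 144 ∧ wx l = wx i + wx j ∧ wa l = wa i + wa j) ∧
      (T i j).abs1 ≤ 8192 := by
  obtain ⟨c1, hc1, ha1, hb1, hm1⟩ := mem_comps i hi
  obtain ⟨c2, hc2, ha2, hb2, hm2⟩ := mem_comps j hj
  have h := allN_ok (allN_ok (allC_ok (allC_ok chkGrade_ok _ hc1) _ hc2) _ hm1) _ hm2
  rw [Bool.and_eq_true, Nat.ble_eq] at h
  have h1 := gr_ok h.1
  rw [show Nat.add c1.1 c2.1 = wx i + wx j by rw [ha1, ha2]; rfl,
    show Nat.add c1.2.1 c2.2.1 = wa i + wa j by rw [hb1, hb2]; rfl] at h1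
  exact ⟨h1, h.2⟩

theorem V_eq {i j : ℕ} (hi : i < 144) (hj : j < 144) :
    (VP i j : ℤ) - (VN i j : ℤ) = ∑ l : Fin 144, cc i j l * (pw l : ℤ) := by
  have h := SV.lin_eq pw (fun _ => 0) (grade hi hj).1.1
  simp only [Nat.cast_zero, sub_zero] at h
  exact h

theorem A_eq {i j k : ℕ} (hi : i < 144) (hj : j < 144) (hk : k < 144) :
    (PP i j k : ℤ) - (PN i j k : ℤ) = ∑ l : Fin 144, D0.A i j k l * (pw l : ℤ) := by
  have h1 := SV.lin_eq (fun m => VP m k) (fun m => VN m k) (grade hi hj).1.1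
  have h2 := SV.lin_eq (fun m => VN i m) (fun m => VP i m) (grade hj hk).1.1
  have h3 : (PP i j k : ℤ) - (PN i j k : ℤ) =
      ((SV.lin (fun m => VP m k) (fun m => VN m k) (T i j) : ℤ) - (SV.lin (fun m => VN m k) (fun m => VP m k) (T i j) : ℤ)) +
      ((SV.lin (fun m => VN i m) (fun m => VP i m) (T j k) : ℤ) - (SV.lin (fun m => VP i m) (fun m => VN i m) (T j k) : ℤ)) := by
    have e1 : PP i j k = SV.lin (fun m => VP m k) (fun m => VN m k) (T i j) + SV.lin (fun m => VN i m) (fun m => VP i m) (T j k) := rfl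
    have e2 : PN i j k = SV.lin (fun m => VN m k) (fun m => VP m k) (T i j) + SV.lin (fun m => VP i m) (fun m => VN i m) (T j k) := rfl
    rw [e1, e2]
    push_cast
    ring
  rw [h3, h1, h2]
  have h4 : ∑ m : Fin 144, SV.cf m (T i j) * ((VP m k : ℤ) - (VN m k : ℤ)) =
      ∑ l : Fin 144, (∑ m : Fin 144, cc i j m * cc m k l) * (pw l : ℤ) := by
    simp only [Finset.sum_mul]
    rw [Finset.sum_comm]
    refine Finset.sum_congr rfl fun m _ => ?_
    rw [V_eq m.2 hk, Finset.mul_sum]
    refine Finset.sum_congr rfl fun l _ => ?_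
    unfold cc; ring
  have h5 : ∑ m : Fin 144, SV.cf m (T j k) * ((VN i m : ℤ) - (VP i m : ℤ)) =
      - ∑ l : Fin 144, (∑ m : Fin 144, cc j k m * cc i m l) * (pw l : ℤ) := by
    simp only [Finset.sum_mul]
    rw [Finset.sum_comm, ← Finset.sum_neg_distrib]
    refine Finset.sum_congr rfl fun m _ => ?_
    have h6 : (VN i m : ℤ) - (VP i m : ℤ) = - ((VP i m : ℤ) - (VN i m : ℤ)) := by ring
    rw [h6, V_eq hi m.2, mul_neg, Finset.mul_sum]
    congr 1
    refine Finset.sum_congr rfl fun l _ => ?_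
    unfold cc; ring
  rw [h4, h5, ← sub_eq_add_neg, ← Finset.sum_sub_distrib]
  refine Finset.sum_congr rfl fun l _ => ?_
  rw [← sub_mul]
  rfl

theorem c_bound {i j : ℕ} (hi : i < 144) (hj : j < 144) (l : ℕ) : |cc i j l| ≤ 8192 := by
  have h1 := SV.abs_cf_le l (T i j)
  have h2 := (grade hi hj).2
  have h3 : ((T i j).abs1 : ℤ) ≤ 8192 := by exact_mod_cast h2
  exact le_trans h1 h3

theorem c_sum {i j : ℕ} (hi : i < 144) (hj : j < 144) : ∑ m : Fin 144, |cc i j m| ≤ 8192 := by
  have h1 := SV.sum_abs_cf_le (grade hi hj).1.1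
  have h2 := (grade hi hj).2
  have h3 : ((T i j).abs1 : ℤ) ≤ 8192 := by exact_mod_cast h2
  exact le_trans h1 h3

theorem A_bound {i j k : ℕ} (hi : i < 144) (hj : j < 144) (hk : k < 144) (l : ℕ) : |D0.A i j k l| ≤ 134217728 := by
  have h1 : |∑ m : Fin 144, cc i j m * cc m k l| ≤ 67108864 := by
    refine le_trans (Finset.abs_sum_le_sum_abs _ _) ?_
    have : ∑ m : Fin 144, |cc i j m * cc m k l| ≤ ∑ m : Fin 144, |cc i j m| * 8192 := by
      refine Finset.sum_le_sum fun m _ => ?_
      rw [abs_mul]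
      exact mul_le_mul_of_nonneg_left (c_bound m.2 hk l) (abs_nonneg _)
    rw [← Finset.sum_mul] at this
    have h2 := c_sum hi hj
    linarith
  have h2 : |∑ m : Fin 144, cc j k m * cc i m l| ≤ 67108864 := by
    refine le_trans (Finset.abs_sum_le_sum_abs _ _) ?_
    have : ∑ m : Fin 144, |cc j k m * cc i m l| ≤ ∑ m : Fin 144, |cc j k m| * 8192 := by
      refine Finset.sum_le_sum fun m _ => ?_
      rw [abs_mul]
      exact mul_le_mul_of_nonneg_left (c_bound hi m.2 l) (abs_nonneg _)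
    rw [← Finset.sum_mul] at this
    have h2 := c_sum hj hk
    linarith
  have h3 : D0.A i j k l = (∑ m : Fin 144, cc i j m * cc m k l) - ∑ m : Fin 144, cc j k m * cc i m l := rfl
  rw [h3]
  have := abs_sub (∑ m : Fin 144, cc i j m * cc m k l) (∑ m : Fin 144, cc j k m * cc i m l)
  linarith

theorem c_ne {i j m : ℕ} (hi : i < 144) (hj : j < 144) (h : cc i j m ≠ 0) :
    m < 144 ∧ wx m = wx i + wx j ∧ wa m = wa i + wa j := (grade hi hj).1.2 m h

theorem A_ne {i j k l : ℕ} (hi : i < 144) (hj : j < 144) (hk : k < 144) (h : D0.A i j k l ≠ 0) :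
    l < 144 ∧ wx l = wx i + wx j + wx k ∧ wa l = wa i + wa j + wa k := by
  have h3 : D0.A i j k l = (∑ m : Fin 144, cc i j m * cc m k l) - ∑ m : Fin 144, cc j k m * cc i m l := rfl
  rw [h3] at h
  by_cases h1 : (∑ m : Fin 144, cc i j m * cc m k l) = 0
  · rw [h1, zero_sub, neg_ne_zero] at h
    obtain ⟨m, _, hm⟩ := Finset.exists_ne_zero_of_sum_ne_zero h
    have h2 := c_ne hj hk (left_ne_zero_of_mul hm)
    have h3 := c_ne hi m.2 (right_ne_zero_of_mul hm)
    exact ⟨h3.1, by omega, by omega⟩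
  · obtain ⟨m, _, hm⟩ := Finset.exists_ne_zero_of_sum_ne_zero h1
    have h2 := c_ne hi hj (left_ne_zero_of_mul hm)
    have h3 := c_ne m.2 hk (right_ne_zero_of_mul hm)
    exact ⟨h3.1, by omega, by omega⟩

/-- a packed equality of associators gives the equality -/
theorem unpack {i j k i' j' k' : ℕ} (hi : i < 144) (hj : j < 144) (hk : k < 144) (hi' : i' < 144) (hj' : j' < 144)
    (hk' : k' < 144) (hx : wx i' + wx j' + wx k' = wx i + wx j + wx k) (ha : wa i' + wa j' + wa k' = wa i + wa j + wa k)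
    (s : Bool) (h : eqA s i j k i' j' k' = true) {l : ℕ} (hl : l < 144) :
    D0.A i j k l + (if s = true then (-1 : ℤ) else 1) * D0.A i' j' k' l = 0 := by
  let a : ℕ → ℤ := fun l => D0.A i j k l + (if s = true then (-1 : ℤ) else 1) * D0.A i' j' k' l
  have h1 := A_eq hi hj hk
  have h2 := A_eq hi' hj' hk'
  have h3 : ∑ l : Fin 144, a l * (pw l : ℤ) = 0 := by
    have h4 : ∑ l : Fin 144, a l * (pw l : ℤ) = ((PP i j k : ℤ) - (PN i j k : ℤ)) +
        (if s = true then (-1 : ℤ) else 1) * ((PP i' j' k' : ℤ) - (PN i' j' k' : ℤ)) := by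
      rw [h1, h2, Finset.mul_sum, ← Finset.sum_add_distrib]
      refine Finset.sum_congr rfl fun l _ => ?_
      show (D0.A i j k l + (if s = true then (-1 : ℤ) else 1) * D0.A i' j' k' l) * (pw l : ℤ) = _
      ring
    rw [h4]
    cases s with
    | true =>
      have h5 : Nat.beq (PP i j k + PN i' j' k') (PN i j k + PP i' j' k') = true := h
      rw [Nat.beq_eq] at h5
      have h6 : (PP i j k : ℤ) + PN i' j' k' = PN i j k + PP i' j' k' := by exact_mod_cast h5
      simp only [if_true]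
      linarith
    | false =>
      have h5 : Nat.beq (PP i j k + PP i' j' k') (PN i j k + PN i' j' k') = true := h
      rw [Nat.beq_eq] at h5
      have h6 : (PP i j k : ℤ) + PP i' j' k' = PN i j k + PN i' j' k' := by exact_mod_cast h5
      simp only [Bool.false_eq_true, if_false]
      linarith
  have hb : ∀ l < 144, |a l| < 4294967296 := by
    intro l _
    have h4 := A_bound hi hj hk l
    have h5 := A_bound hi' hj' hk' l
    have h6 : |a l| ≤ |D0.A i j k l| + |(if s = true then (-1 : ℤ) else 1) * D0.A i' j' k' l| := abs_add_le _ _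
    have h7 : |(if s = true then (-1 : ℤ) else 1) * D0.A i' j' k' l| = |D0.A i' j' k' l| := by
      cases s <;> simp
    rw [h7] at h6
    linarith
  let b := bs (wx i + wx j + wx k) (wa i + wa j + wa k)
  have hs : ∑ l ∈ Finset.range 144, a l * (4294967296 : ℤ) ^ l = 0 := by
    have h4 : ∑ l ∈ Finset.range 144, a l * (4294967296 : ℤ) ^ l =
        (∑ l : Fin 144, a l * (pw l : ℤ)) * (4294967296 : ℤ) ^ b := by
      rw [← Fin.sum_univ_eq_sum_range (fun l => a l * (4294967296 : ℤ) ^ l) 144, Finset.sum_mul]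
      refine Finset.sum_congr rfl fun l _ => ?_
      by_cases hal : a l = 0
      · rw [hal]; ring
      · have hw : wx l = wx i + wx j + wx k ∧ wa l = wa i + wa j + wa k := by
          by_cases h5 : D0.A i j k l = 0
          · have h6 : D0.A i' j' k' l ≠ 0 := by
              intro h6
              apply hal
              show D0.A i j k l + (if s = true then (-1 : ℤ) else 1) * D0.A i' j' k' l = 0
              rw [h5, h6]; ring
            have h7 := A_ne hi' hj' hk' h6
            exact ⟨by omega, by omega⟩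
          · have h7 := A_ne hi hj hk h5
            exact ⟨h7.2.1, h7.2.2⟩
        have h8 := pos_bs l l.2
        rw [hw.1, hw.2] at h8
        have h9 : (pw l : ℤ) = (4294967296 : ℤ) ^ (pos l) := by
          have : pw l = 4294967296 ^ (pos l) := rfl
          rw [this]; push_cast; rfl
        rw [h9, mul_assoc, ← pow_add]
        show a l * (4294967296 : ℤ) ^ (l : ℕ) = a l * (4294967296 : ℤ) ^ (pos l + b)
        rw [h8]
    rw [h4, h3, zero_mul]
  exact digits_zero 4294967296 (by norm_num) 144 a hb hs l hl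

theorem cond_true_or {b : Bool} {c : Bool} (h : cond b c true = true) : b = false ∨ c = true := by
  cases b
  · left; rfl
  · right; exact h

theorem odd2_eq (a b : ℕ) : (odd2 a b = true) ↔ a % 2 * (b % 2) = 1 := by
  unfold odd2
  rw [Nat.beq_eq]
  exact Iff.rfl

theorem ble_true {a n : ℕ} (h : a ≤ n) : Nat.ble a n = true := by rw [Nat.ble_eq]; exact h

theorem left_le {i j k : ℕ} (hi : i < 144) (hj : j < 144) (hk : k < 144) (hij : i ≤ j) {l : ℕ} (hl : l < 144) :
    D0.A i j k l + D0.sg i j * D0.A j i k l = 0 := by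
  by_cases h0 : D0.A i j k l = 0 ∧ D0.A j i k l = 0
  · rw [h0.1, h0.2]; simp
  have hw : wx l = wx i + wx j + wx k ∧ wa l = wa i + wa j + wa k := by
    by_cases h1 : D0.A i j k l = 0
    · have h2 : D0.A j i k l ≠ 0 := fun h2 => h0 ⟨h1, h2⟩
      have := A_ne hj hi hk h2
      exact ⟨by omega, by omega⟩
    · exact (A_ne hi hj hk h1).2
  have hwl := wt_le l hl
  obtain ⟨c1, hc1, ha1, hb1, hm1⟩ := mem_comps i hi
  obtain ⟨c2, hc2, ha2, hb2, hm2⟩ := mem_comps j hj
  obtain ⟨c3, hc3, ha3, hb3, hm3⟩ := mem_comps k hk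
  have h := allC_ok (allC_ok chkL_ok _ hc1) _ hc2
  unfold fL at h
  have e1 : (and (Nat.ble (Nat.add c1.1 c2.1) 8) (Nat.ble (Nat.add c1.2.1 c2.2.1) 2)) = true := by
    rw [Bool.and_eq_true]
    exact ⟨ble_true (show c1.1 + c2.1 ≤ 8 by omega), ble_true (show c1.2.1 + c2.2.1 ≤ 2 by omega)⟩
  rw [e1, cond_true] at h
  have h2 := allC_ok h _ hc3
  have e2 : (and (Nat.ble (Nat.add (Nat.add c1.1 c2.1) c3.1) 8) (Nat.ble (Nat.add (Nat.add c1.2.1 c2.2.1) c3.2.1) 2)) = true := by
    rw [Bool.and_eq_true]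
    exact ⟨ble_true (show c1.1 + c2.1 + c3.1 ≤ 8 by omega), ble_true (show c1.2.1 + c2.2.1 + c3.2.1 ≤ 2 by omega)⟩
  rw [e2, cond_true] at h2
  have h3 := allN_ok (allN_ok h2 _ hm1) _ hm2
  rw [ble_true hij, cond_true] at h3
  have h4 := allN_ok h3 _ hm3
  have h5 := unpack hi hj hk hj hi hk (by omega) (by omega) _ h4 hl
  have h6 : D0.sg i j = if odd2 c1.1 c2.1 = true then (-1 : ℤ) else 1 := by
    simp only [odd2_eq, ha1, ha2]
    rfl
  rw [h6]
  exact h5

theorem right_le {i j k : ℕ} (hi : i < 144) (hj : j < 144) (hk : k < 144) (hjk : j ≤ k) {l : ℕ} (hl : l < 144) :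
    D0.A i j k l + D0.sg j k * D0.A i k j l = 0 := by
  by_cases h0 : D0.A i j k l = 0 ∧ D0.A i k j l = 0
  · rw [h0.1, h0.2]; simp
  have hw : wx l = wx i + wx j + wx k ∧ wa l = wa i + wa j + wa k := by
    by_cases h1 : D0.A i j k l = 0
    · have h2 : D0.A i k j l ≠ 0 := fun h2 => h0 ⟨h1, h2⟩
      have := A_ne hi hk hj h2
      exact ⟨by omega, by omega⟩
    · exact (A_ne hi hj hk h1).2
  have hwl := wt_le l hl
  obtain ⟨c1, hc1, ha1, hb1, hm1⟩ := mem_comps i hi
  obtain ⟨c2, hc2, ha2, hb2, hm2⟩ := mem_comps j hj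
  obtain ⟨c3, hc3, ha3, hb3, hm3⟩ := mem_comps k hk
  have h := allC_ok (allC_ok chkR_ok _ hc1) _ hc2
  unfold fR at h
  have e1 : (and (Nat.ble (Nat.add c1.1 c2.1) 8) (Nat.ble (Nat.add c1.2.1 c2.2.1) 2)) = true := by
    rw [Bool.and_eq_true]
    exact ⟨ble_true (show c1.1 + c2.1 ≤ 8 by omega), ble_true (show c1.2.1 + c2.2.1 ≤ 2 by omega)⟩
  rw [e1, cond_true] at h
  have h2 := allC_ok h _ hc3
  have e2 : (and (Nat.ble (Nat.add (Nat.add c1.1 c2.1) c3.1) 8) (Nat.ble (Nat.add (Nat.add c1.2.1 c2.2.1) c3.2.1) 2)) = true := by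
    rw [Bool.and_eq_true]
    exact ⟨ble_true (show c1.1 + c2.1 + c3.1 ≤ 8 by omega), ble_true (show c1.2.1 + c2.2.1 + c3.2.1 ≤ 2 by omega)⟩
  rw [e2, cond_true] at h2
  have h3 := allN_ok (allN_ok (allN_ok h2 _ hm1) _ hm2) _ hm3
  rw [ble_true hjk, cond_true] at h3
  have h5 := unpack hi hj hk hi hk hj (by omega) (by omega) _ h3 hl
  have h6 : D0.sg j k = if odd2 c2.1 c3.1 = true then (-1 : ℤ) else 1 := by
    simp only [odd2_eq, ha2, ha3]
    rfl
  rw [h6]
  exact h5

theorem sg_sq (i j : ℕ) : D0.sg i j * D0.sg i j = 1 := by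
  unfold Super.Data.sg; split_ifs <;> ring

theorem sg_comm (i j : ℕ) : D0.sg i j = D0.sg j i := by
  unfold Super.Data.sg; rw [mul_comm]

theorem good : D0.Good where
  par_le := fun i _ => Nat.mod_lt _ (by norm_num)
  par_add := by
    intro i hi j hj k hk h
    obtain ⟨_, h1, _⟩ := c_ne hi hj h
    show wx k % 2 = (wx i % 2 + wx j % 2) % 2
    rw [h1]
    omega
  left := by
    intro i hi j hj k hk l hl
    rcases le_total i j with h | h
    · exact left_le hi hj hk h hl
    · have h1 := left_le hj hi hk h hl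
      have h2 := congrArg (fun z => D0.sg i j * z) h1
      simp only [mul_add, mul_zero] at h2
      rw [← mul_assoc, sg_comm j i, sg_sq, one_mul] at h2
      rw [add_comm]
      exact h2
  right := by
    intro i hi j hj k hk l hl
    rcases le_total j k with h | h
    · exact right_le hi hj hk h hl
    · have h1 := right_le hi hk hj h hl
      have h2 := congrArg (fun z => D0.sg j k * z) h1
      simp only [mul_add, mul_zero] at h2
      rw [← mul_assoc, sg_comm k j, sg_sq, one_mul] at h2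
      rw [add_comm]
      exact h2

end Pool.Agent.Helper805.Mod.Sound
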