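import Pool.Agent.Helper805.Mod.Env
import Pool.Agent.Helper805.Nuc.NFun
set_option autoImplicit false

/-! The value of `nf` on four odd vectors and an even one. -/

namespace Pool.Agent.Helper805.Mod.Val
open Pool.Agent.Helper805.Mod.Super Pool.Agent.Helper805.Mod.Sparse Pool.Agent.Helper805.Mod.Data
  Pool.Agent.Helper805.Mod.Sound Pool.Agent.Helper805.Mod.Ops Pool.Agent.Helper805.Nuc.Ext
  Pool.Agent.Helper805.Nuc.Tens Pool.Agent.Helper805.Nuc.NFun Pool.Agent.Helper805.Mod.Env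

variable {K : Type} [Field K]

/-- insertion with sign -/
def ins (i : Fin 8) : List (Fin 8) → ℤ × List (Fin 8)
  | [] => (1, [i])
  | j :: l => if i ≤ j then (1, i :: j :: l) else (-(ins i l).1, j :: (ins i l).2)

/-- sorting with sign -/
def sortS : List (Fin 8) → ℤ × List (Fin 8)
  | [] => (1, [])
  | i :: l => ((sortS l).1 * (ins i (sortS l).2).1, (ins i (sortS l).2).2)

lemma Ex_cons (i : Fin 8) (l : List (Fin 8)) : Ex K (i :: l) = gen K 8 i * Ex K l := E_cons K 8 i l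

lemma Ex_ins (i : Fin 8) (l : List (Fin 8)) : Ex K (i :: l) = (ins i l).1 • Ex K (ins i l).2 := by
  induction l with
  | nil => rw [ins, one_smul]
  | cons j l ih =>
    rw [ins]
    split_ifs with h
    · rw [one_smul]
    · rw [Ex_cons, Ex_cons, ← mul_assoc, gen_swap, neg_mul, mul_assoc, ← Ex_cons i l, ih, mul_smul_comm, ← Ex_cons,
        neg_smul]

lemma Ex_sort (l : List (Fin 8)) : Ex K l = (sortS l).1 • Ex K (sortS l).2 := by
  induction l with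
  | nil => rw [sortS, one_smul]
  | cons i l ih =>
    rw [sortS, Ex_cons, ih, mul_smul_comm, ← Ex_cons, Ex_ins, smul_smul]

lemma pr_append (l l' : List (Fin 8)) : pr (l ++ l') = xor (pr l) (pr l') := by
  unfold pr
  rw [beq_iff, beq_iff, beq_iff, List.length_append]
  have e1 : Nat.mod (l.length + l'.length) 2 = (l.length + l'.length) % 2 := rfl
  have e2 : Nat.mod l.length 2 = l.length % 2 := rfl
  have e3 : Nat.mod l'.length 2 = l'.length % 2 := rfl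
  rw [e1, e2, e3]
  rcases Nat.mod_two_eq_zero_or_one l.length with h | h <;> rcases Nat.mod_two_eq_zero_or_one l'.length with h' | h'
  · have : (l.length + l'.length) % 2 = 0 := by omega
    rw [this, h, h']; rfl
  · have : (l.length + l'.length) % 2 = 1 := by omega
    rw [this, h, h']; rfl
  · have : (l.length + l'.length) % 2 = 1 := by omega
    rw [this, h, h']; rfl
  · have : (l.length + l'.length) % 2 = 0 := by omega
    rw [this, h, h']; rfl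

/-- signed multiple -/
noncomputable def sgAx (s : Bool) (a : ℕ) (v w : SV) : SV := cond s (axN a v w) (axP a v w)

lemma ok_sgAx {N : ℕ} (s : Bool) (a : ℕ) {v w : SV} (hv : v.Ok N) (hw : w.Ok N) : (sgAx s a v w).Ok N := by
  cases s
  · exact ok_axP _ hv hw
  · exact ok_axN _ hv hw

lemma cf_sgAx (s : Bool) (a : ℕ) (v w : SV) (l : ℕ) :
    SV.cf l (sgAx s a v w) = (cond s (-1) 1) * (a : ℤ) * SV.cf l v + SV.cf l w := by
  cases s
  · show SV.cf l (axP a v w) = _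
    rw [cf_axP, cond_false]; ring
  · show SV.cf l (axN a v w) = _
    rw [cf_axN, cond_true]; ring

noncomputable def t1 (p1 p2 p3 p4 p5 p6 : Bool) (v1 v2 v3 v4 v5 v6 : SV) : SV :=
  brS (xor p1 p6) (xor (xor p2 p3) (xor p4 p5)) (brS p1 p6 v1 v6)
    (joS (xor p2 p3) (xor p4 p5) (brS p2 p3 v2 v3) (brS p4 p5 v4 v5))

noncomputable def t2 (p1 p2 p3 p4 p5 p6 : Bool) (v1 v2 v3 v4 v5 v6 : SV) : SV :=
  joS (xor p1 (xor (xor p2 p3) p4)) (xor p5 p6) (brS p1 (xor (xor p2 p3) p4) v1 (asS v2 v3 v4)) (brS p5 p6 v5 v6)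

noncomputable def t3 (p1 p2 p3 p4 p5 p6 : Bool) (v1 v2 v3 v4 v5 v6 : SV) : SV :=
  joS (xor p6 (xor (xor p1 p2) p3)) (xor p4 p5) (brS p6 (xor (xor p1 p2) p3) v6 (asS v1 v2 v3)) (brS p4 p5 v4 v5)

/-- the value of `Fp` -/
noncomputable def FS (p1 p2 p3 p4 p5 p6 : Bool) (v1 v2 v3 v4 v5 v6 : SV) : SV :=
  nrm 200 (sgAx (p6 && (xor (xor p2 p3) (xor p4 p5))) 3 (t1 p1 p2 p3 p4 p5 p6 v1 v2 v3 v4 v5 v6)
    (axP 8 (t2 p1 p2 p3 p4 p5 p6 v1 v2 v3 v4 v5 v6)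
      (sgAx (p6 && (xor (xor (xor p1 p2) p3) (xor p4 p5))) 8 (t3 p1 p2 p3 p4 p5 p6 v1 v2 v3 v4 v5 v6) SV.nil)))

lemma ok_FS (p1 p2 p3 p4 p5 p6 : Bool) {v1 v2 v3 v4 v5 v6 : SV} (h1 : v1.Ok 144) (h2 : v2.Ok 144) (h3 : v3.Ok 144)
    (h4 : v4.Ok 144) (h5 : v5.Ok 144) (h6 : v6.Ok 144) : (FS p1 p2 p3 p4 p5 p6 v1 v2 v3 v4 v5 v6).Ok 144 :=
  ok_nrm _ (ok_sgAx _ _ (ok_brS _ _ (ok_brS _ _ h1 h6) (ok_joS _ _ (ok_brS _ _ h2 h3) (ok_brS _ _ h4 h5)))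
    (ok_axP _ (ok_joS _ _ (ok_brS _ _ h1 (ok_asS h2 h3 h4)) (ok_brS _ _ h5 h6))
      (ok_sgAx _ _ (ok_joS _ _ (ok_brS _ _ h6 (ok_asS h1 h2 h3)) (ok_brS _ _ h4 h5)) trivial)))

lemma ts_comb3 (s s' : Bool) (u v w : SV) (z : Lam K) :
    (3 : ℤ) • ts K u ((cond s (-1) 1 : ℤ) • z) + (8 : ℤ) • ts K v z + (8 : ℤ) • ts K w ((cond s' (-1) 1 : ℤ) • z) =
      ts K (nrm 200 (sgAx s 3 u (axP 8 v (sgAx s' 8 w SV.nil)))) z := by
  funext k
  show (3 : ℤ) • (((SV.cf k u : ℤ) : K) • ((cond s (-1) 1 : ℤ) • z)) + (8 : ℤ) • (((SV.cf k v : ℤ) : K) • z) +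
    (8 : ℤ) • (((SV.cf k w : ℤ) : K) • ((cond s' (-1) 1 : ℤ) • z)) = ((SV.cf k _ : ℤ) : K) • z
  rw [cf_nrm, cf_sgAx, cf_axP, cf_sgAx]
  simp only [← Int.cast_smul_eq_zsmul K, smul_smul, ← add_smul]
  congr 1
  simp only [SV.cf]
  push_cast
  ring

lemma Fp_ts {v1 v2 v3 v4 v5 v6 : SV} (h1 : v1.Ok 144) (h2 : v2.Ok 144) (h3 : v3.Ok 144)
    (h4 : v4.Ok 144) (h5 : v5.Ok 144) (h6 : v6.Ok 144) (l1 l2 l3 l4 l5 l6 : List (Fin 8)) :
    Fp (ts K v1 (Ex K l1)) (ts K v2 (Ex K l2)) (ts K v3 (Ex K l3)) (ts K v4 (Ex K l4)) (ts K v5 (Ex K l5))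
      (ts K v6 (Ex K l6)) = ts K (FS (pr l1) (pr l2) (pr l3) (pr l4) (pr l5) (pr l6) v1 v2 v3 v4 v5 v6)
        (Ex K (l1 ++ l2 ++ l3 ++ l4 ++ l5 ++ l6)) := by
  unfold Fp
  rw [br_ts h1 h6, br_ts h2 h3, br_ts h4 h5, as_ts h2 h3 h4, br_ts h5 h6, as_ts h1 h2 h3,
    jo_ts (ok_brS _ _ h2 h3) (ok_brS _ _ h4 h5), br_ts h1 (ok_asS h2 h3 h4), br_ts h6 (ok_asS h1 h2 h3),
    br_ts (ok_brS _ _ h1 h6) (ok_joS _ _ (ok_brS _ _ h2 h3) (ok_brS _ _ h4 h5)),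
    jo_ts (ok_brS _ _ h1 (ok_asS h2 h3 h4)) (ok_brS _ _ h5 h6),
    jo_ts (ok_brS _ _ h6 (ok_asS h1 h2 h3)) (ok_brS _ _ h4 h5)]
  simp only [pr_append]
  have e1 : Ex K (l1 ++ l6 ++ (l2 ++ l3 ++ (l4 ++ l5))) =
      (cond (pr l6 && (xor (xor (pr l2) (pr l3)) (xor (pr l4) (pr l5)))) (-1) 1 : ℤ) •
        Ex K (l1 ++ l2 ++ l3 ++ l4 ++ l5 ++ l6) := by
    have a1 : Ex K (l1 ++ l6 ++ (l2 ++ l3 ++ (l4 ++ l5))) = Ex K l1 * Ex K (l6 ++ (l2 ++ l3 ++ (l4 ++ l5))) := by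
      rw [← Ex_append, List.append_assoc]
    have a2 : Ex K (l1 ++ l2 ++ l3 ++ l4 ++ l5 ++ l6) = Ex K l1 * Ex K ((l2 ++ l3 ++ (l4 ++ l5)) ++ l6) := by
      rw [← Ex_append]
      simp only [List.append_assoc]
    rw [a1, a2, Ex_swap (l2 ++ l3 ++ (l4 ++ l5)) l6, pr_append, pr_append, pr_append, Bool.and_comm, mul_smul_comm]
  have e2 : Ex K (l1 ++ (l2 ++ l3 ++ l4) ++ (l5 ++ l6)) = Ex K (l1 ++ l2 ++ l3 ++ l4 ++ l5 ++ l6) := by
    simp only [List.append_assoc]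
  have e3 : Ex K (l6 ++ (l1 ++ l2 ++ l3) ++ (l4 ++ l5)) =
      (cond (pr l6 && (xor (xor (xor (pr l1) (pr l2)) (pr l3)) (xor (pr l4) (pr l5)))) (-1) 1 : ℤ) •
        Ex K (l1 ++ l2 ++ l3 ++ l4 ++ l5 ++ l6) := by
    have a1 : Ex K (l6 ++ (l1 ++ l2 ++ l3) ++ (l4 ++ l5)) = Ex K (l6 ++ (l1 ++ l2 ++ l3 ++ (l4 ++ l5))) := by
      simp only [List.append_assoc]
    have a2 : Ex K (l1 ++ l2 ++ l3 ++ l4 ++ l5 ++ l6) = Ex K ((l1 ++ l2 ++ l3 ++ (l4 ++ l5)) ++ l6) := by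
      simp only [List.append_assoc]
    rw [a1, a2, Ex_swap (l1 ++ l2 ++ l3 ++ (l4 ++ l5)) l6, pr_append, pr_append, pr_append, pr_append, Bool.and_comm]
  rw [e1, e2, e3]
  exact ts_comb3 _ _ _ _ _ _

/-- the two basic vectors, odd and even -/
def bv (b : Bool) : SV := cond b (SV.p 0 1 SV.nil) (SV.p 1 1 SV.nil)

lemma ok_bv (b : Bool) : (bv b).Ok 144 := by
  cases b
  · exact ⟨by norm_num, trivial⟩
  · exact ⟨by norm_num, trivial⟩

/-- the exterior parts of the five arguments -/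
def lu (i : Fin 5) : List (Fin 8) := if h : i.val < 4 then [⟨i.val, by omega⟩] else []

/-- the value with the even vector in position `p` -/
noncomputable def FC (p : Fin 5) : SV :=
  FS (decide (0 ≠ p)) (decide (1 ≠ p)) (decide (2 ≠ p)) (decide (3 ≠ p)) (decide (4 ≠ p)) true
    (bv (decide (0 ≠ p))) (bv (decide (1 ≠ p))) (bv (decide (2 ≠ p))) (bv (decide (3 ≠ p))) (bv (decide (4 ≠ p))) (bv true)

lemma ok_FC (p : Fin 5) : (FC p).Ok 144 :=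
  ok_FS _ _ _ _ _ _ (ok_bv _) (ok_bv _) (ok_bv _) (ok_bv _) (ok_bv _) (ok_bv _)

/-- the value of the alternating sum -/
noncomputable def n6S : SV :=
  nrm 200 (axP 24 (FC 0) (axN 24 (FC 1) (axP 24 (FC 2) (axN 24 (FC 3) (axP 24 (FC 4) SV.nil)))))

lemma ok_n6S : n6S.Ok 144 :=
  ok_nrm _ (ok_axP _ (ok_FC _) (ok_axN _ (ok_FC _) (ok_axP _ (ok_FC _) (ok_axN _ (ok_FC _) (ok_axP _ (ok_FC _) trivial)))))

/-- the sign of the position -/
def sp4 (p : Fin 5) : ℤ := if p.val % 2 = 0 then 1 else -1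

lemma codes_eq : (Finset.univ : Finset (Equiv.Perm (Fin 5))).val.map (fun σ => σ.symm 4) =
    (([0, 1, 2, 3, 4].flatMap (fun p => List.replicate 24 p) : List (Fin 5)) : Multiset (Fin 5)) := by
  decide +kernel

lemma signs (σ : Equiv.Perm (Fin 5)) :
    ((Equiv.Perm.sign σ : ℤˣ) : ℤ) * (sortS (lu (σ 0) ++ lu (σ 1) ++ lu (σ 2) ++ lu (σ 3) ++ lu (σ 4) ++ [4])).1 =
      sp4 (σ.symm 4) ∧
      (sortS (lu (σ 0) ++ lu (σ 1) ++ lu (σ 2) ++ lu (σ 3) ++ lu (σ 4) ++ [4])).2 = [0, 1, 2, 3, 4] := by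
  revert σ
  decide +kernel

lemma sum_codes (h : Fin 5 → ℤ) : ∑ σ : Equiv.Perm (Fin 5), h (σ.symm 4) = 24 * (h 0 + h 1 + h 2 + h 3 + h 4) := by
  have h1 : ∑ σ : Equiv.Perm (Fin 5), h (σ.symm 4) =
      (((Finset.univ : Finset (Equiv.Perm (Fin 5))).val.map (fun σ => σ.symm 4)).map h).sum := by
    rw [Multiset.map_map]; rfl
  rw [h1, codes_eq, Multiset.map_coe, Multiset.sum_coe]
  simp only [List.flatMap_cons, List.flatMap_nil, List.map_append, List.map_replicate, List.sum_append,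
    List.sum_replicate, List.map_nil, List.sum_nil, nsmul_eq_mul]
  push_cast
  ring

lemma cf_n6S (k : ℕ) : ∑ σ : Equiv.Perm (Fin 5), sp4 (σ.symm 4) * SV.cf k (FC (σ.symm 4)) = SV.cf k n6S := by
  rw [sum_codes (fun p => sp4 p * SV.cf k (FC p))]
  unfold n6S
  rw [cf_nrm, cf_axP, cf_axN, cf_axP, cf_axN, cf_axP]
  have e0 : sp4 0 = 1 := by decide
  have e1 : sp4 1 = -1 := by decide
  have e2 : sp4 2 = 1 := by decide
  have e3 : sp4 3 = -1 := by decide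
  have e4 : sp4 4 = 1 := by decide
  rw [e0, e1, e2, e3, e4]
  simp only [SV.cf]
  push_cast
  ring

/-- the first five arguments -/
noncomputable def wv (K : Type) [Field K] (i : Fin 5) : R K := ts K (bv (pr (lu i))) (Ex K (lu i))

lemma pr_lu (i : Fin 5) : pr (lu i) = decide (i ≠ 4) := by
  revert i; decide

lemma nf_wv : nf (wv K) (ts K (bv true) (Ex K [4])) = ts K n6S (Ex K [0, 1, 2, 3, 4]) := by
  unfold nf
  have h1 : ∀ σ : Equiv.Perm (Fin 5), ((Equiv.Perm.sign σ : ℤˣ) : ℤ) •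
      Fp (wv K (σ 0)) (wv K (σ 1)) (wv K (σ 2)) (wv K (σ 3)) (wv K (σ 4)) (ts K (bv true) (Ex K [4])) =
      sp4 (σ.symm 4) • ts K (FC (σ.symm 4)) (Ex K [0, 1, 2, 3, 4]) := by
    intro σ
    unfold wv
    rw [Fp_ts (ok_bv _) (ok_bv _) (ok_bv _) (ok_bv _) (ok_bv _) (ok_bv _), ts_zsmul, Ex_sort, smul_smul,
      (signs σ).1, (signs σ).2, ← ts_zsmul]
    have h2 : ∀ i : Fin 5, pr (lu (σ i)) = decide (i ≠ σ.symm 4) := by
      intro i
      rw [pr_lu]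
      congr 1
      rw [Ne, Ne, ← Equiv.eq_symm_apply]
    have h3 : pr [4] = true := by decide
    rw [h2, h2, h2, h2, h2, h3]
    rfl
  rw [Finset.sum_congr rfl (fun σ _ => h1 σ)]
  funext k
  have h5 : (∑ σ : Equiv.Perm (Fin 5), sp4 (σ.symm 4) • ts K (FC (σ.symm 4)) (Ex K [0, 1, 2, 3, 4])) k =
      ∑ σ : Equiv.Perm (Fin 5), (((sp4 (σ.symm 4) * SV.cf k (FC (σ.symm 4)) : ℤ) : K) • Ex K [0, 1, 2, 3, 4]) := by
    have h6 : (∑ σ : Equiv.Perm (Fin 5), sp4 (σ.symm 4) • ts K (FC (σ.symm 4)) (Ex K [0, 1, 2, 3, 4])) k =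
        ∑ σ : Equiv.Perm (Fin 5), (sp4 (σ.symm 4) • ts K (FC (σ.symm 4)) (Ex K [0, 1, 2, 3, 4])) k :=
      Finset.sum_apply k _ _
    rw [h6]
    refine Finset.sum_congr rfl fun σ _ => ?_
    show sp4 (σ.symm 4) • (((SV.cf k (FC (σ.symm 4)) : ℤ) : K) • Ex K [0, 1, 2, 3, 4]) = _
    rw [← Int.cast_smul_eq_zsmul K, smul_smul, Int.cast_mul]
  rw [h5, ← Finset.sum_smul, ← Int.cast_sum, cf_n6S]
  rfl

/-- the final vector -/
noncomputable def Gfin : SV := mulS (brS true false n6S (bv false)) (asS (bv true) (bv true) (bv true))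

lemma Gfin_val : (and (Nat.beq (sp 143 Gfin) 4608) (Nat.beq (sn 143 Gfin) 0)) = true := by decide +kernel

end Pool.Agent.Helper805.Mod.Val
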