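import Pool.Agent.Helper805.Mod.Val
import Pool.Agent.Helper805.Mod.Clean
set_option autoImplicit false

/-! The witness in the Grassmann envelope over a field in which `6` is invertible. -/

namespace Pool.Agent.Helper805.Mod.Wit
open Pool.Agent.Helper805.Mod.Super Pool.Agent.Helper805.Mod.Sparse Pool.Agent.Helper805.Mod.Data
  Pool.Agent.Helper805.Mod.Sound Pool.Agent.Helper805.Mod.Ops Pool.Agent.Helper805.Nuc.Ext
  Pool.Agent.Helper805.Nuc.Tens Pool.Agent.Helper805.Nuc.NFun Pool.Agent.Helper805.Mod.Env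
  Pool.Agent.Helper805.Mod.Val

/-- eight odd vectors and an even one -/
noncomputable def vv (K : Type) [Field K] (i : Fin 9) : R K :=
  if h : i.val < 8 then ts K (bv true) (Ex K [⟨i.val, h⟩]) else ts K (bv false) (Ex K [])

/-- the ten arguments -/
def jx : Fin 10 → Fin 9 := ![0, 1, 2, 3, 8, 4, 8, 5, 6, 7]

variable (K : Type) [Field K]

lemma six_pow (h6 : (6 : K) ≠ 0) : ((4608 : ℤ) : K) ≠ 0 := by
  have h2 : (2 : K) ≠ 0 := by
    intro h
    apply h6
    have : (6 : K) = 2 * 3 := by norm_num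
    rw [this, h, zero_mul]
  have h3 : (3 : K) ≠ 0 := by
    intro h
    apply h6
    have : (6 : K) = 2 * 3 := by norm_num
    rw [this, h, mul_zero]
  have h4 : ((4608 : ℤ) : K) = 2 ^ 9 * 3 ^ 2 := by norm_num
  rw [h4]
  exact mul_ne_zero (pow_ne_zero _ h2) (pow_ne_zero _ h3)

lemma vv_lt (i : Fin 9) (h : i.val < 8) : vv K i = ts K (bv true) (Ex K [⟨i.val, h⟩]) := dif_pos h

lemma vv_last : vv K 8 = ts K (bv false) (Ex K []) := dif_neg (by decide)

lemma vv_wv (i : Fin 5) : vv K (jx (Fin.castLE (by norm_num) i)) = wv K i := by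
  fin_cases i
  · exact vv_lt K 0 (by decide)
  · exact vv_lt K 1 (by decide)
  · exact vv_lt K 2 (by decide)
  · exact vv_lt K 3 (by decide)
  · exact vv_last K

lemma G_vv (h6 : (6 : K) ≠ 0) : br (nf (fun i : Fin 5 => vv K (jx (Fin.castLE (by norm_num) i))) (vv K (jx 5))) (vv K (jx 6)) *
    as (vv K (jx 7)) (vv K (jx 8)) (vv K (jx 9)) ≠ 0 := by
  have h0 : (fun i : Fin 5 => vv K (jx (Fin.castLE (by norm_num) i))) = wv K := funext (vv_wv K)
  have h5 : vv K (jx 5) = ts K (bv true) (Ex K [4]) := vv_lt K 4 (by decide)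
  have h6' : vv K (jx 6) = ts K (bv false) (Ex K []) := vv_last K
  have h7 : vv K (jx 7) = ts K (bv true) (Ex K [5]) := vv_lt K 5 (by decide)
  have h8 : vv K (jx 8) = ts K (bv true) (Ex K [6]) := vv_lt K 6 (by decide)
  have h9 : vv K (jx 9) = ts K (bv true) (Ex K [7]) := vv_lt K 7 (by decide)
  rw [h0, h5, h6', h7, h8, h9, nf_wv, as_ts (ok_bv _) (ok_bv _) (ok_bv _), br_ts ok_n6S (ok_bv _),
    ts_mul (ok_brS _ _ ok_n6S (ok_bv _)) (ok_asS (ok_bv _) (ok_bv _) (ok_bv _)), ← Ex_append]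
  have e1 : pr [0, 1, 2, 3, 4] = true := by decide
  have e2 : pr [] = false := by decide
  rw [e1, e2]
  intro hz
  have h1 := congrFun hz (⟨143, by decide⟩ : Fin 144)
  have h2 : ((SV.cf 143 Gfin : ℤ) : K) • Ex K (([0, 1, 2, 3, 4] ++ []) ++ ([5] ++ [6] ++ [7])) = 0 := h1
  have h3 : (([0, 1, 2, 3, 4] ++ []) ++ ([5] ++ [6] ++ [7]) : List (Fin 8)) = List.ofFn (fun i : Fin 8 => i) := by
    decide
  rw [h3] at h2
  have h4 := congrArg (top K 8) h2
  rw [map_smul, map_zero] at h4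
  have h10 : top K 8 (Ex K (List.ofFn (fun i : Fin 8 => i))) = 1 := top_E K 8
  rw [h10, smul_eq_mul, mul_one, cf_sub] at h4
  have h11 := Gfin_val
  rw [Bool.and_eq_true, Nat.beq_eq, Nat.beq_eq] at h11
  rw [h11.1, h11.2] at h4
  apply six_pow K h6
  rw [← h4]
  norm_num

lemma part_one_mem (i : Fin 8) : Ex K [i] ∈ part K 1 := Submodule.subset_span ⟨[i], rfl, rfl⟩
lemma part_zero_mem : Ex K [] ∈ part K 0 := Submodule.subset_span ⟨[], rfl, rfl⟩

lemma par01 : D0.par 0 = 1 ∧ D0.par 1 = 0 := by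
  have h : and (Nat.beq (Nat.mod (wx 0) 2) 1) (Nat.beq (Nat.mod (wx 1) 2) 0) = true := by decide +kernel
  rw [Bool.and_eq_true, Nat.beq_eq, Nat.beq_eq] at h
  exact h

lemma vv_mem (i : Fin 9) : vv K i ∈ BS K := by
  intro k
  by_cases h : i.val < 8
  · rw [vv_lt K i h]
    show ((SV.cf k (SV.p 0 1 SV.nil) : ℤ) : K) • Ex K [_] ∈ part K (D0.par k)
    simp only [SV.cf, add_zero]
    by_cases h0 : 0 = (k : ℕ)
    · rw [← h0, par01.1]
      exact Submodule.smul_mem _ _ (part_one_mem K _)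
    · rw [if_neg h0, Int.cast_zero, zero_smul]
      exact Submodule.zero_mem _
  · have h' : vv K i = ts K (bv false) (Ex K []) := dif_neg h
    rw [h']
    show ((SV.cf k (SV.p 1 1 SV.nil) : ℤ) : K) • Ex K [] ∈ part K (D0.par k)
    simp only [SV.cf, add_zero]
    by_cases h0 : 1 = (k : ℕ)
    · rw [← h0, par01.2]
      exact Submodule.smul_mem _ _ (part_zero_mem K)
    · rw [if_neg h0, Int.cast_zero, zero_smul]
      exact Submodule.zero_mem _

theorem witness (h6 : (6 : K) ≠ 0) : ∃ v : Fin 9 → BS K,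
    br (nf (fun i : Fin 5 => v (jx (Fin.castLE (by norm_num) i))) (v (jx 5))) (v (jx 6)) *
      as (v (jx 7)) (v (jx 8)) (v (jx 9)) ≠ 0 := by
  refine ⟨fun i => ⟨vv K i, vv_mem K i⟩, ?_⟩
  intro h
  have h1 := congrArg (fun b : BS K => (b : R K)) h
  apply G_vv K h6
  let f : BS K →ₙ+* R K :=
    { toFun := fun b => (b : R K)
      map_mul' := fun _ _ => rfl
      map_zero' := rfl
      map_add' := fun _ _ => rfl }
  have h2 : f (br (nf (fun i : Fin 5 => (⟨vv K (jx (Fin.castLE (by norm_num) i)), vv_mem K _⟩ : BS K))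
      ⟨vv K (jx 5), vv_mem K _⟩) ⟨vv K (jx 6), vv_mem K _⟩ *
      as ⟨vv K (jx 7), vv_mem K _⟩ ⟨vv K (jx 8), vv_mem K _⟩ ⟨vv K (jx 9), vv_mem K _⟩) = 0 := h1
  rw [map_mul, Clean.map_br, Clean.map_nf, Clean.map_as] at h2
  exact h2

end Pool.Agent.Helper805.Mod.Wit
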